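import Mathlib

/-!
Lifting of a nonvanishing function on the closed unit ball, and a lemma on angle functions.
-/

open Set Filter Topology Metric

namespace Pool.Agent.R747

theorem exists_lift {E : Type*} [NormedAddCommGroup E] [NormedSpace ℝ E] [ProperSpace E]
    {v : E → ℂ} (hv : ContinuousOn v (closedBall 0 1)) (h0 : ∀ x ∈ closedBall (0 : E) 1, v x ≠ 0) :
    ∃ α : E → ℝ, ContinuousOn α (closedBall 0 1) ∧
      ∀ x ∈ closedBall (0 : E) 1, v x = ‖v x‖ * Complex.exp (α x * Complex.I) := by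
  have hK : IsCompact (closedBall (0 : E) 1) := isCompact_closedBall _ _
  obtain ⟨x₀, hx₀, hmin⟩ := hK.exists_isMinOn ⟨0, by simp⟩ hv.norm
  set m : ℝ := ‖v x₀‖ with hm
  have hmpos : 0 < m := norm_pos_iff.2 (h0 _ hx₀)
  have hm' : ∀ x ∈ closedBall (0 : E) 1, m ≤ ‖v x‖ := fun x hx => hmin hx
  have huc := hK.uniformContinuousOn_of_continuous hv
  rw [Metric.uniformContinuousOn_iff] at huc
  obtain ⟨δ, hδ, hδ'⟩ := huc m hmpos
  obtain ⟨n, hn⟩ := exists_nat_one_div_lt hδ
  set N : ℕ := n + 1 with hN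
  have hNpos : (0 : ℝ) < N := by positivity
  have hmem : ∀ k : ℕ, k ≤ N → ∀ x ∈ closedBall (0 : E) 1,
      ((k : ℝ) / N) • x ∈ closedBall (0 : E) 1 := by
    intro k hk x hx
    rw [mem_closedBall_zero_iff] at hx ⊢
    rw [norm_smul, Real.norm_eq_abs, abs_of_nonneg (by positivity)]
    have h1 : (k : ℝ) / N ≤ 1 := by
      rw [div_le_one hNpos]; exact_mod_cast hk
    calc (k : ℝ) / N * ‖x‖ ≤ 1 * 1 := by gcongr
      _ = 1 := one_mul _
  have hslit : ∀ k ∈ Finset.range N, ∀ x ∈ closedBall (0 : E) 1,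
      v ((((k + 1 : ℕ) : ℝ) / N) • x) / v (((k : ℝ) / N) • x) ∈ Complex.slitPlane := by
    intro k hk x hx
    have hk' := Finset.mem_range.1 hk
    have hx1 := hmem (k + 1) hk' x hx
    have hx2 := hmem k hk'.le x hx
    have hd : dist ((((k + 1 : ℕ) : ℝ) / N) • x) (((k : ℝ) / N) • x) < δ := by
      rw [dist_eq_norm, ← sub_smul, norm_smul]
      have e : ((k + 1 : ℕ) : ℝ) / N - (k : ℝ) / N = 1 / N := by
        push_cast; ring
      rw [e, Real.norm_eq_abs, abs_of_pos (by positivity)]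
      rw [mem_closedBall_zero_iff] at hx
      calc 1 / (N : ℝ) * ‖x‖ ≤ 1 / (N : ℝ) * 1 := by gcongr
        _ = 1 / ((n : ℝ) + 1) := by rw [mul_one, hN]; push_cast; rfl
        _ < δ := hn
    have h1 := hδ' _ hx1 _ hx2 hd
    rw [dist_eq_norm] at h1
    have hne := h0 _ hx2
    have h2 : v ((((k + 1 : ℕ) : ℝ) / N) • x) / v (((k : ℝ) / N) • x) =
        1 + (v ((((k + 1 : ℕ) : ℝ) / N) • x) - v (((k : ℝ) / N) • x)) / v (((k : ℝ) / N) • x) := by
      field_simp
      ring
    rw [h2]
    refine Complex.mem_slitPlane_of_norm_lt_one ?_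
    rw [norm_div, div_lt_one (norm_pos_iff.2 hne)]
    exact h1.trans_le (hm' _ hx2)
  refine ⟨fun x => Complex.arg (v 0) +
    ∑ k ∈ Finset.range N, Complex.arg (v ((((k + 1 : ℕ) : ℝ) / N) • x) / v (((k : ℝ) / N) • x)),
    ?_, ?_⟩
  · refine continuousOn_const.add (continuousOn_finsetSum _ fun k hk => ?_)
    intro x hx
    refine (Complex.continuousAt_arg (hslit k hk x hx)).comp_continuousWithinAt
      (f := fun x => v ((((k + 1 : ℕ) : ℝ) / N) • x) / v (((k : ℝ) / N) • x)) ?_
    have hk' := Finset.mem_range.1 hk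
    have c1 : ContinuousWithinAt (fun x => v ((((k + 1 : ℕ) : ℝ) / N) • x)) (closedBall 0 1) x := by
      refine ContinuousWithinAt.comp (t := closedBall 0 1) (hv _ (hmem _ hk' x hx)) ?_ ?_
      · exact (continuous_const_smul _).continuousWithinAt
      · intro y hy; exact hmem _ hk' y hy
    have c2 : ContinuousWithinAt (fun x => v (((k : ℝ) / N) • x)) (closedBall 0 1) x := by
      refine ContinuousWithinAt.comp (t := closedBall 0 1) (hv _ (hmem _ hk'.le x hx)) ?_ ?_
      · exact (continuous_const_smul _).continuousWithinAt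
      · intro y hy; exact hmem _ hk'.le y hy
    exact c1.div c2 (h0 _ (hmem _ hk'.le x hx))
  · intro x hx
    have hprod : ∀ j : ℕ, j ≤ N → v 0 * ∏ k ∈ Finset.range j,
        (v ((((k + 1 : ℕ) : ℝ) / N) • x) / v (((k : ℝ) / N) • x)) = v (((j : ℝ) / N) • x) := by
      intro j
      induction j with
      | zero => intro _; simp
      | succ j ih =>
        intro hj
        rw [Finset.prod_range_succ, ← mul_assoc, ih (by omega)]
        have := h0 _ (hmem j (by omega) x hx)
        field_simp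
    have e1 : ((N : ℝ) / N) • x = x := by rw [div_self hNpos.ne', one_smul]
    have hvx : v x = v 0 * ∏ k ∈ Finset.range N,
        (v ((((k + 1 : ℕ) : ℝ) / N) • x) / v (((k : ℝ) / N) • x)) := by
      rw [hprod N le_rfl, e1]
    have hexp : Complex.exp (((Complex.arg (v 0) + ∑ k ∈ Finset.range N,
        Complex.arg (v ((((k + 1 : ℕ) : ℝ) / N) • x) / v (((k : ℝ) / N) • x)) : ℝ) : ℂ) *
          Complex.I) = Complex.exp (Complex.arg (v 0) * Complex.I) * ∏ k ∈ Finset.range N,
        Complex.exp (Complex.arg (v ((((k + 1 : ℕ) : ℝ) / N) • x) / v (((k : ℝ) / N) • x)) *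
          Complex.I) := by
      push_cast
      rw [add_mul, Complex.exp_add, Finset.sum_mul, Complex.exp_sum]
    rw [hexp]
    conv_lhs => rw [hvx]
    have hnorm : ‖v x‖ = ‖v 0‖ * ∏ k ∈ Finset.range N,
        ‖v ((((k + 1 : ℕ) : ℝ) / N) • x) / v (((k : ℝ) / N) • x)‖ := by
      conv_lhs => rw [hvx]
      rw [norm_mul, norm_prod]
    rw [hnorm]
    push_cast
    rw [mul_mul_mul_comm, ← Finset.prod_mul_distrib, Complex.norm_mul_exp_arg_mul_I]
    congr 1
    refine Finset.prod_congr rfl fun k _ => ?_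
    have := Complex.norm_mul_exp_arg_mul_I (v ((((k + 1 : ℕ) : ℝ) / N) • x) / v (((k : ℝ) / N) • x))
    push_cast at this
    exact this.symm

/-- Auxiliary: after a maximum the angle function stays below its value there. -/
lemma angle_drop {g β ρ : ℝ → ℝ} {M m : ℝ}
    (hg : ∀ t, HasDerivAt g (ρ t * Real.sin (β t)) t) (hρ : ∀ t, 0 < ρ t) (hβ : Continuous β)
    (hM : ∀ t, g t = M → ∃ k : ℤ, β t = 2 * Real.pi * k)
    (hm : ∀ t, g t = m → ∃ k : ℤ, β t = Real.pi + 2 * Real.pi * k)
    (hle : ∀ t, g t ≤ M) (hcrit : ∀ t, Real.sin (β t) = 0 → g t = M ∨ g t = m)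
    {t t' : ℝ} (htt : t < t') (ht : g t = M) (ht' : g t' = m) : β t' ≤ β t - Real.pi := by
  have hpi := Real.pi_pos
  obtain ⟨k, hk⟩ := hM t ht
  obtain ⟨j, hj⟩ := hm t' ht'
  have hlt : β t' < β t := by
    by_contra hcon
    push Not at hcon
    have hne : β t' ≠ β t := by
      rw [hk, hj]
      intro h
      have h1 : Real.pi * (1 + 2 * (j : ℝ)) = Real.pi * (2 * k) := by linarith
      have h2 := mul_left_cancel₀ hpi.ne' h1
      have h3 : (1 + 2 * j : ℤ) = 2 * k := by exact_mod_cast h2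
      omega
    have hgt : β t < β t' := lt_of_le_of_ne hcon (Ne.symm hne)
    -- last time in [t, t'] where β ≤ β t
    set S : Set ℝ := {τ | τ ∈ Icc t t' ∧ β τ ≤ β t} with hS
    have hSc : IsCompact S := by
      have : S = Icc t t' ∩ {τ | β τ ≤ β t} := rfl
      rw [this]
      exact isCompact_Icc.inter_right (isClosed_le hβ continuous_const)
    have hSne : S.Nonempty := ⟨t, ⟨le_rfl, htt.le⟩, le_rfl⟩
    obtain ⟨s, hsS, hsup⟩ := hSc.exists_isGreatest hSne
    have hst' : s < t' := by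
      refine lt_of_le_of_ne hsS.1.2 fun h => ?_
      rw [h] at hsS
      exact absurd hsS.2 (not_le.2 hgt)
    have hafter : ∀ τ ∈ Ioc s t', β t < β τ := by
      intro τ hτ
      by_contra h
      push Not at h
      have : τ ∈ S := ⟨⟨hsS.1.1.trans hτ.1.le, hτ.2⟩, h⟩
      exact absurd (hsup this) (not_le.2 hτ.1)
    have hβs : β s = β t := by
      refine le_antisymm hsS.2 ?_
      -- limit from the right
      have hmemcl : s ∈ closure (Ioc s t') := by
        rw [closure_Ioc hst'.ne]; exact ⟨le_rfl, hst'.le⟩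
      have hcl : IsClosed {τ | β t ≤ β τ} := isClosed_le continuous_const hβ
      exact closure_minimal (fun τ hτ => (hafter τ hτ).le) hcl hmemcl
    have hsin : Real.sin (β s) = 0 := by
      rw [hβs, hk]
      rw [show 2 * Real.pi * (k : ℝ) = ((2 * k : ℤ) : ℝ) * Real.pi by push_cast; ring]
      exact Real.sin_int_mul_pi _
    have hgs : g s = M := by
      rcases hcrit s hsin with h | h
      · exact h
      · exfalso
        obtain ⟨i, hi⟩ := hm s h
        rw [hβs, hk] at hi
        have h1 : Real.pi * (2 * (k : ℝ)) = Real.pi * (1 + 2 * i) := by linarith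
        have h2 := mul_left_cancel₀ hpi.ne' h1
        have h3 : (2 * k : ℤ) = 1 + 2 * i := by exact_mod_cast h2
        omega
    -- shortly after `s` the function increases
    have hnear : ∀ᶠ τ in 𝓝 s, β τ < β s + Real.pi :=
      (hβ.tendsto s).eventually (gt_mem_nhds (by linarith : β s < β s + Real.pi))
    obtain ⟨η, hη, hη'⟩ := Metric.eventually_nhds_iff.1 hnear
    set b : ℝ := min (s + η / 2) t' with hb
    have hsb : s < b := lt_min (by linarith) hst'
    have hpos : ∀ τ ∈ Ioo s b, 0 < ρ τ * Real.sin (β τ) := by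
      intro τ hτ
      refine mul_pos (hρ τ) ?_
      have h1 : β t < β τ := hafter τ ⟨hτ.1, (hτ.2.trans_le (min_le_right _ _)).le⟩
      have h2 : β τ < β s + Real.pi := hη' (by
        rw [Real.dist_eq, abs_of_pos (by linarith [hτ.1])]
        have := hτ.2.trans_le (min_le_left _ _)
        linarith)
      rw [hβs, hk] at h2
      rw [hk] at h1
      have h3 : Real.sin (β τ) = Real.sin (β τ - k * (2 * Real.pi)) := by
        rw [Real.sin_sub_int_mul_two_pi]
      rw [h3]
      exact Real.sin_pos_of_pos_of_lt_pi (by linarith) (by linarith)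
    have hmono : g s < g b := by
      obtain ⟨c, hc, hc'⟩ := exists_hasDerivAt_eq_slope g (fun τ => ρ τ * Real.sin (β τ)) hsb
        (fun τ _ => (hg τ).continuousAt.continuousWithinAt) (fun τ _ => hg τ)
      have h1 := hpos c hc
      rw [hc'] at h1
      have h2 : 0 < b - s := by linarith
      have h3 : 0 < g b - g s := by
        have := mul_pos h1 h2
        rwa [div_mul_cancel₀ _ h2.ne'] at this
      linarith
    have := hle b
    linarith
  rw [hk, hj] at hlt ⊢
  have h1 : Real.pi * (1 + 2 * (j : ℝ)) < Real.pi * (2 * k) := by linarith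
  have h2 : (1 + 2 * (j : ℝ)) < 2 * k := lt_of_mul_lt_mul_left h1 hpi.le
  have h3 : (1 + 2 * j : ℤ) < 2 * k := by exact_mod_cast h2
  have h4 : (1 + 2 * j : ℤ) ≤ 2 * k - 1 := by omega
  have h5 : (1 + 2 * (j : ℝ)) ≤ 2 * k - 1 := by exact_mod_cast h4
  nlinarith

/-- Angle functions with two maxima and two minima cannot make only one turn. -/
theorem angle_nogo {g β ρ : ℝ → ℝ} {M m : ℝ}
    (hg : ∀ t, HasDerivAt g (ρ t * Real.sin (β t)) t) (hρ : ∀ t, 0 < ρ t) (hβ : Continuous β)
    (hM : ∀ t, g t = M → ∃ k : ℤ, β t = 2 * Real.pi * k)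
    (hm : ∀ t, g t = m → ∃ k : ℤ, β t = Real.pi + 2 * Real.pi * k)
    (hle : ∀ t, g t ≤ M) (hge : ∀ t, m ≤ g t)
    (hcrit : ∀ t, Real.sin (β t) = 0 → g t = M ∨ g t = m)
    (hper : ∀ t, β (t + 2 * Real.pi) = β t - 2 * Real.pi)
    {t₁ t₂ t₃ t₄ : ℝ} (h12 : t₁ < t₂) (h23 : t₂ < t₃) (h34 : t₃ < t₄)
    (h41 : t₄ < t₁ + 2 * Real.pi) (g1 : g t₁ = M) (g2 : g t₂ = m) (g3 : g t₃ = M)
    (g4 : g t₄ = m) (g5 : g (t₁ + 2 * Real.pi) = M) : False := by
  have hpi := Real.pi_pos
  have d12 := angle_drop hg hρ hβ hM hm hle hcrit h12 g1 g2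
  have d34 := angle_drop hg hρ hβ hM hm hle hcrit h34 g3 g4
  have key : ∀ {t t' : ℝ}, t < t' → g t = m → g t' = M → β t' ≤ β t - Real.pi := by
    intro t t' htt ht ht'
    have := angle_drop (g := fun t => - g t) (β := fun t => β t + Real.pi) (ρ := ρ)
      (M := -m) (m := -M) (t := t) (t' := t') ?_ hρ (by fun_prop) ?_ ?_ ?_ ?_ htt
      (by simpa using ht) (by simpa using ht')
    · linarith
    · intro t
      have := (hg t).neg
      rw [Real.sin_add_pi]
      have e : ρ t * -Real.sin (β t) = -(ρ t * Real.sin (β t)) := by ring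
      rw [e]
      exact this
    · intro t ht
      obtain ⟨k, hk⟩ := hm t (neg_injective ht)
      refine ⟨k + 1, ?_⟩
      rw [hk]; push_cast; ring
    · intro t ht
      obtain ⟨k, hk⟩ := hM t (neg_injective ht)
      refine ⟨k, ?_⟩
      rw [hk]; ring
    · intro t
      have := hge t
      linarith
    · intro t ht
      rw [Real.sin_add_pi, neg_eq_zero] at ht
      rcases hcrit t ht with h | h
      · right; rw [h]
      · left; rw [h]
  have d23 := key h23 g2 g3
  have d45 := key h41 g4 g5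
  have := hper t₁
  linarith

end Pool.Agent.R747
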