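import Mathlib

/-!
Frames, membranes and realised normal directions.
-/

open Set Metric
open scoped ContDiff RealInnerProductSpace

namespace Pool.Agent.R747

section general

variable {E F : Type*} [NormedAddCommGroup E] [NormedSpace ℝ E] [NormedAddCommGroup F]
  [InnerProductSpace ℝ F]

/-- `H` restricts to a `C^∞` immersion of the closed unit ball of `E` into `F`. -/
def IsBallImmersion (H : E → F) : Prop :=
  ContDiffOn ℝ ∞ H (closedBall 0 1) ∧
    ∀ x ∈ closedBall (0 : E) 1, Function.Injective (fderivWithin ℝ H (closedBall 0 1) x)

/-- At some point of the closed unit ball the vector `ξ` is orthogonal to the range of the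
differential of `H`. -/
def HasNormal (H : E → F) (ξ : F) : Prop :=
  ∃ x ∈ closedBall (0 : E) 1, ∀ v : E, ⟪fderivWithin ℝ H (closedBall 0 1) x v, ξ⟫ = 0

/-- `l` is the image of a `2π`-periodic `C^∞` immersion of the line into `F`, i.e. the image of
a `C^∞` immersion of the circle. -/
def IsImmersedLoop (l : Set F) : Prop :=
  ∃ h : ℝ → F, ContDiff ℝ ∞ h ∧ (∀ t, h (t + 2 * Real.pi) = h t) ∧ (∀ t, deriv h t ≠ 0) ∧
    Set.range h = l

end general

/-- The Euclidean plane. -/
abbrev Plane : Type := EuclideanSpace ℝ (Fin 2)

/-- Euclidean 3-space. -/
abbrev Space : Type := EuclideanSpace ℝ (Fin 3)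

/-- A frame: an immersed smooth closed curve in 3-space. -/
def IsFrame (l : Set Space) : Prop := IsImmersedLoop l

/-- `H` is (a parametrisation of) a membrane spanned by `l` : a smooth immersion of the closed unit
disk into 3-space which maps the unit circle onto `l`. -/
def IsMembrane (l : Set Space) (H : Plane → Space) : Prop :=
  IsBallImmersion H ∧ H '' sphere 0 1 = l

/-- The membrane realises `ξ` as a normal direction: at some point of the closed disk the vector
`ξ` is orthogonal to the tangent plane. -/
def RealizesNormal (H : Plane → Space) (ξ : Space) : Prop := HasNormal H ξ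

end Pool.Agent.R747
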