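import Mathlib
import Pool.Agent.R747.FrameDefs
import Pool.Agent.R747.DiskLift

/-!
A criterion for a frame to force a normal direction.
-/

open Set Filter Topology Metric
open scoped ContDiff RealInnerProductSpace

namespace Pool.Agent.R747

/-- If a curve `γ` runs inside the compact image of a regular curve `h`, then the tangent
direction of `γ` at a point is a tangent direction of `h` there. -/
lemma tangent_parallel {F : Type*} [NormedAddCommGroup F] [InnerProductSpace ℝ F]
    {h γ : ℝ → F} {h' : ℝ → F} {T : ℝ} (hT : 0 < T) (hper : ∀ s, h (s + T) = h s)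
    (hh : ∀ s, HasDerivAt h (h' s) s) {t : ℝ} {γ' : F} (hγ : HasDerivAt γ γ' t)
    (hγc : Continuous γ) (hsub : ∀ t, γ t ∈ range h) (hγ0 : γ' ≠ 0) {ξ : F} (hξ : ⟪γ', ξ⟫ = 0) :
    ∃ s, h s = γ t ∧ ⟪h' s, ξ⟫ = 0 := by
  have hhc : Continuous h := continuous_iff_continuousAt.2 fun s => (hh s).continuousAt
  -- sequence
  have hex : ∀ τ, ∃ s ∈ Icc 0 T, h s = γ τ := by
    intro τ
    obtain ⟨s, hs⟩ := hsub τ
    have hp : Function.Periodic h T := hper
    refine ⟨toIcoMod hT 0 s, ?_, ?_⟩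
    · have := toIcoMod_mem_Ico hT 0 s
      rw [zero_add] at this
      exact ⟨this.1, this.2.le⟩
    · rw [toIcoMod, ← hs]
      exact hp.sub_zsmul_eq _
  choose σ hσI hσ using hex
  set tn : ℕ → ℝ := fun n => t + 1 / ((n : ℝ) + 1) with htn
  have htn_lim : Tendsto tn atTop (𝓝 t) := by
    have := tendsto_one_div_add_atTop_nhds_zero_nat (𝕜 := ℝ)
    simpa [htn] using this.const_add t
  have htn_ne : ∀ n, tn n ≠ t := by
    intro n h
    have : (0 : ℝ) < 1 / ((n : ℝ) + 1) := by positivity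
    simp only [htn] at h
    linarith
  obtain ⟨s, -, φ, hφ, hφlim⟩ := isCompact_Icc.tendsto_subseq (x := fun n => σ (tn n))
    (fun n => hσI (tn n))
  have hlim1 : Tendsto (fun n => tn (φ n)) atTop (𝓝 t) := htn_lim.comp hφ.tendsto_atTop
  have hs : h s = γ t := by
    have h1 : Tendsto (fun n => h (σ (tn (φ n)))) atTop (𝓝 (h s)) := (hhc.tendsto s).comp hφlim
    have h2 : Tendsto (fun n => γ (tn (φ n))) atTop (𝓝 (γ t)) := (hγc.tendsto t).comp hlim1
    simp only [hσ] at h1
    exact tendsto_nhds_unique h1 h2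
  refine ⟨s, hs, ?_⟩
  by_contra hκ
  -- slopes
  set a : ℕ → ℝ := fun n => (σ (tn (φ n)) - s) / (tn (φ n) - t) with ha
  set D : ℕ → F := fun n => dslope h s (σ (tn (φ n))) with hD
  have hDlim : Tendsto D atTop (𝓝 (h' s)) := by
    have h1 : ContinuousAt (dslope h s) s := continuousAt_dslope_same.2 (hh s).differentiableAt
    have h2 := h1.tendsto.comp hφlim
    rw [dslope_same, (hh s).deriv] at h2
    exact h2
  have hslope : Tendsto (fun n => a n • D n) atTop (𝓝 γ') := by
    have h1 := hasDerivAt_iff_tendsto_slope.1 hγ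
    have h2 : Tendsto (fun n => tn (φ n)) atTop (𝓝[≠] t) :=
      tendsto_nhdsWithin_of_tendsto_nhds_of_eventually_within _ hlim1
        (Eventually.of_forall fun n => htn_ne _)
    have h3 := h1.comp h2
    refine h3.congr fun n => ?_
    simp only [Function.comp_apply, slope_def_module, ha, hD]
    rw [div_eq_inv_mul, mul_smul, sub_smul_dslope, hσ, hs]
  have hin : Tendsto (fun n => a n * ⟪D n, ξ⟫) atTop (𝓝 0) := by
    have h1 : Tendsto (fun n => ⟪a n • D n, ξ⟫) atTop (𝓝 ⟪γ', ξ⟫) :=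
      hslope.inner tendsto_const_nhds
    rw [hξ] at h1
    refine h1.congr fun n => ?_
    rw [inner_smul_left]; simp
  have hDin : Tendsto (fun n => ⟪D n, ξ⟫) atTop (𝓝 ⟪h' s, ξ⟫) := hDlim.inner tendsto_const_nhds
  have ha0 : Tendsto a atTop (𝓝 0) := by
    have h1 := hin.div hDin hκ
    rw [zero_div] at h1
    refine h1.congr' ?_
    have h2 : ∀ᶠ n in atTop, ⟪D n, ξ⟫ ≠ 0 := hDin.eventually_ne hκ
    filter_upwards [h2] with n hn
    simp only [Pi.div_apply]
    field_simp
  have h0 : Tendsto (fun n => a n • D n) atTop (𝓝 ((0 : ℝ) • h' s)) := ha0.smul hDlim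
  rw [zero_smul] at h0
  exact hγ0 (tendsto_nhds_unique hslope h0)

/-- First basis vector of the plane. -/
noncomputable def ex : Plane := EuclideanSpace.single 0 1

/-- Second basis vector of the plane. -/
noncomputable def ey : Plane := EuclideanSpace.single 1 1

/-- The point of the unit circle with angle `t`. -/
noncomputable def circ (t : ℝ) : Plane := Real.cos t • ex + Real.sin t • ey

/-- The velocity of `circ`. -/
noncomputable def circ' (t : ℝ) : Plane := (-Real.sin t) • ex + Real.cos t • ey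

lemma circ_apply0 (t : ℝ) : circ t 0 = Real.cos t := by simp [circ, ex, ey]

lemma circ_apply1 (t : ℝ) : circ t 1 = Real.sin t := by simp [circ, ex, ey]

lemma hasDerivAt_circ (t : ℝ) : HasDerivAt circ (circ' t) t :=
  ((Real.hasDerivAt_cos t).smul_const ex).add ((Real.hasDerivAt_sin t).smul_const ey)

lemma norm_circ (t : ℝ) : ‖circ t‖ = 1 := by
  rw [EuclideanSpace.norm_eq, Fin.sum_univ_two, circ_apply0, circ_apply1]
  simp

lemma circ_mem (t : ℝ) : circ t ∈ sphere (0 : Plane) 1 := by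
  simp [norm_circ]

lemma circ_mem' (t : ℝ) : circ t ∈ closedBall (0 : Plane) 1 := sphere_subset_closedBall (circ_mem t)

lemma circ'_ne (t : ℝ) : circ' t ≠ 0 := by
  intro h
  have h0 := congrArg (fun v : Plane => v 0) h
  have h1 := congrArg (fun v : Plane => v 1) h
  simp [circ', ex, ey] at h0 h1
  have := Real.sin_sq_add_cos_sq t
  rw [h0, h1] at this
  norm_num at this

lemma circ_periodic (t : ℝ) : circ (t + 2 * Real.pi) = circ t := by
  simp [circ]

lemma plane_ext {x y : Plane} (h0 : x 0 = y 0) (h1 : x 1 = y 1) : x = y := by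
  ext i
  fin_cases i
  · exact h0
  · exact h1

lemma exists_circ {x : Plane} (hx : x ∈ sphere (0 : Plane) 1) : ∃ t, circ t = x := by
  rw [mem_sphere_zero_iff_norm, EuclideanSpace.norm_eq, Fin.sum_univ_two,
    Real.sqrt_eq_one] at hx
  simp only [Real.norm_eq_abs, sq_abs] at hx
  set z : ℂ := ⟨x 0, x 1⟩ with hz
  have hzn : ‖z‖ = 1 := by
    rw [Complex.norm_def, Complex.normSq_apply]
    rw [Real.sqrt_eq_one]
    simp only [hz]
    nlinarith
  refine ⟨Complex.arg z, plane_ext ?_ ?_⟩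
  · have h1 := Complex.norm_mul_cos_arg z
    rw [hzn, one_mul] at h1
    rw [circ_apply0, h1]
  · have h1 := Complex.norm_mul_sin_arg z
    rw [hzn, one_mul] at h1
    rw [circ_apply1, h1]

lemma exists_circ_Ioo {x : Plane} (hx : x ∈ sphere (0 : Plane) 1) {a : ℝ} (ha : circ a ≠ x) :
    ∃ t ∈ Ioo a (a + 2 * Real.pi), circ t = x := by
  obtain ⟨s, hs⟩ := exists_circ hx
  have h2pi : (0 : ℝ) < 2 * Real.pi := by positivity
  have hp : Function.Periodic circ (2 * Real.pi) := circ_periodic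
  refine ⟨toIcoMod h2pi a s, ?_, ?_⟩
  · have := toIcoMod_mem_Ico h2pi a s
    refine ⟨lt_of_le_of_ne this.1 ?_, this.2⟩
    intro h
    apply ha
    rw [h, toIcoMod, hp.sub_zsmul_eq, hs]
  · rw [toIcoMod, hp.sub_zsmul_eq, hs]

lemma plane_decomp (v : Plane) : v = v 0 • ex + v 1 • ey := by
  refine plane_ext ?_ ?_ <;> simp [ex, ey]

/-- The forcing criterion. -/
theorem force {l : Set Space} {H : Plane → Space} (hH : IsMembrane l H) {h h' : ℝ → Space}
    {T : ℝ} (hT : 0 < T) (hper : ∀ s, h (s + T) = h s) (hh : ∀ s, HasDerivAt h (h' s) s)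
    (hl : range h = l) {ξ : Space} {M m : ℝ} (hmM : m < M)
    (hcrit : ∀ s, ⟪h' s, ξ⟫ = 0 → ⟪h s, ξ⟫ = M ∨ ⟪h s, ξ⟫ = m)
    (hctbl' : {s | ⟪h' s, ξ⟫ = 0}.Countable) {s₁ s₂ : ℝ} (hne : h s₁ ≠ h s₂)
    (h1 : ⟪h s₁, ξ⟫ = M) (h2 : ⟪h s₂, ξ⟫ = M) : RealizesNormal H ξ := by
  obtain ⟨⟨hsm, himm⟩, hbd⟩ := hH
  by_contra hreal
  have hpi := Real.pi_pos
  set B : Set Plane := closedBall 0 1 with hB
  have hUD : UniqueDiffOn ℝ B := uniqueDiffOn_convex (convex_closedBall (0 : Plane) 1) (by
    rw [interior_closedBall _ one_ne_zero]; exact ⟨0, by simp⟩)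
  have hfd : ∀ x ∈ B, HasFDerivWithinAt H (fderivWithin ℝ H B x) B x := fun x hx =>
    ((hsm.differentiableOn (by simp)) x hx).hasFDerivWithinAt
  -- the boundary curve
  set γ : ℝ → Space := fun t => H (circ t) with hγ
  have hγd : ∀ t, HasDerivAt γ (fderivWithin ℝ H B (circ t) (circ' t)) t := by
    intro t
    have := (hfd (circ t) (circ_mem' t)).comp_hasDerivWithinAt (s := univ) t
      (hasDerivAt_circ t).hasDerivWithinAt (fun τ _ => circ_mem' τ)
    rwa [hasDerivWithinAt_univ] at this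
  have hγc : Continuous γ := continuous_iff_continuousAt.2 fun t => (hγd t).continuousAt
  have hγl : ∀ t, γ t ∈ l := fun t => hbd ▸ mem_image_of_mem H (circ_mem t)
  have hγ0 : ∀ t, fderivWithin ℝ H B (circ t) (circ' t) ≠ 0 := by
    intro t h0
    exact circ'_ne t (himm _ (circ_mem' t) (by rw [h0, map_zero]))
  -- the height function on the boundary
  set g : ℝ → ℝ := fun t => ⟪γ t, ξ⟫ with hg
  have hgd : ∀ t, HasDerivAt g ⟪fderivWithin ℝ H B (circ t) (circ' t), ξ⟫ t := by
    intro t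
    have := (hγd t).inner ℝ (hasDerivAt_const t ξ)
    simpa using this
  have hgcrit : ∀ t, ⟪fderivWithin ℝ H B (circ t) (circ' t), ξ⟫ = 0 → g t = M ∨ g t = m := by
    intro t ht
    obtain ⟨s, hs, hs'⟩ := tangent_parallel hT hper hh (hγd t) hγc
      (fun t => hl ▸ hγl t) (hγ0 t) ht
    simp only [hg]
    rw [← hs]
    exact hcrit s hs'
  -- bounds for the height on the frame
  have hlc : IsCompact l := by
    rw [← hbd]
    exact (isCompact_sphere 0 1).image_of_continuousOn
      (hsm.continuousOn.mono sphere_subset_closedBall)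
  have hlne : l.Nonempty := ⟨h 0, hl ▸ mem_range_self 0⟩
  have hcrit' : ∀ s, HasDerivAt (fun s => ⟪h s, ξ⟫) ⟪h' s, ξ⟫ s := by
    intro s
    have := (hh s).inner ℝ (hasDerivAt_const s ξ)
    simpa using this
  have hlM : ∀ x ∈ l, ⟪x, ξ⟫ ≤ M := by
    obtain ⟨x, hx, hmax⟩ := hlc.exists_isMaxOn hlne
      (f := fun x => (⟪x, ξ⟫ : ℝ)) (by fun_prop)
    obtain ⟨s, rfl⟩ : x ∈ range h := hl ▸ hx
    have hloc : IsLocalMax (fun s => (⟪h s, ξ⟫ : ℝ)) s :=
      Eventually.of_forall fun s' => hmax (hl ▸ mem_range_self s')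
    have := hcrit s (hloc.hasDerivAt_eq_zero (hcrit' s))
    intro y hy
    have hy' : ⟪y, ξ⟫ ≤ ⟪h s, ξ⟫ := hmax hy
    rcases this with h | h <;> linarith
  have hctbl : {x ∈ l | ⟪x, ξ⟫ = M}.Countable := by
    refine (hctbl'.image h).mono ?_
    rintro x ⟨hx, hxM⟩
    obtain ⟨s, rfl⟩ : x ∈ range h := hl ▸ hx
    have hloc : IsLocalMax (fun s => (⟪h s, ξ⟫ : ℝ)) s :=
      Eventually.of_forall fun s' => by
        simp only [hxM]
        exact hlM _ (hl ▸ mem_range_self s')
    exact ⟨s, hloc.hasDerivAt_eq_zero (hcrit' s), rfl⟩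
  have hlm : ∀ x ∈ l, m ≤ ⟪x, ξ⟫ := by
    obtain ⟨x, hx, hmin⟩ := hlc.exists_isMinOn hlne
      (f := fun x => (⟪x, ξ⟫ : ℝ)) (by fun_prop)
    obtain ⟨s, rfl⟩ : x ∈ range h := hl ▸ hx
    have hloc : IsLocalMin (fun s => (⟪h s, ξ⟫ : ℝ)) s :=
      Eventually.of_forall fun s' => hmin (hl ▸ mem_range_self s')
    have := hcrit s (hloc.hasDerivAt_eq_zero (hcrit' s))
    intro y hy
    have hy' : ⟪h s, ξ⟫ ≤ ⟪y, ξ⟫ := hmin hy
    rcases this with h | h <;> linarith
  have hgM : ∀ t, g t ≤ M := fun t => hlM _ (hγl t)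
  have hgm : ∀ t, m ≤ g t := fun t => hlm _ (hγl t)
  -- between two different points at level M there is a point at level m
  have hbetween : ∀ a b : ℝ, a < b → γ a ≠ γ b → g a = M → g b = M →
      ∃ c ∈ Ioo a b, g c = m := by
    intro a b hab hne ha hb
    have hgc : Continuous g := continuous_iff_continuousAt.2 fun t => (hgd t).continuousAt
    obtain ⟨c, hc, hcmin⟩ := isCompact_Icc.exists_isMinOn (nonempty_Icc.2 hab.le)
      hgc.continuousOn
    rcases (hgM c).lt_or_eq with hlt | heq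
    · have hcIoo : c ∈ Ioo a b := by
        refine ⟨lt_of_le_of_ne hc.1 ?_, lt_of_le_of_ne hc.2 ?_⟩
        · rintro rfl; linarith
        · rintro rfl; linarith
      have hloc : IsLocalMin g c := hcmin.isLocalMin (Icc_mem_nhds hcIoo.1 hcIoo.2)
      rcases hgcrit c (hloc.hasDerivAt_eq_zero (hgd c)) with h | h
      · linarith
      · exact ⟨c, hcIoo, h⟩
    · exfalso
      have hall : ∀ t ∈ Icc a b, g t = M := fun t ht =>
        le_antisymm (hgM t) (heq ▸ hcmin ht)
      have hpre : IsPreconnected (γ '' Icc a b) := isPreconnected_Icc.image γ hγc.continuousOn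
      have hss : γ '' Icc a b ⊆ {x ∈ l | ⟪x, ξ⟫ = M} := by
        rintro _ ⟨t, ht, rfl⟩
        exact ⟨hγl t, hall t ht⟩
      exact hne (hctbl.isTotallyDisconnected _ hss hpre
        (mem_image_of_mem γ ⟨le_rfl, hab.le⟩) (mem_image_of_mem γ ⟨hab.le, le_rfl⟩))
  -- the gradient as a complex number
  set V : Plane → ℂ := fun x => ⟨⟪fderivWithin ℝ H B x ex, ξ⟫, ⟪fderivWithin ℝ H B x ey, ξ⟫⟩ with hV
  have hVne : ∀ x ∈ B, V x ≠ 0 := by
    intro x hx h0
    apply hreal
    refine ⟨x, hx, fun v => ?_⟩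
    have e0 : ⟪fderivWithin ℝ H B x ex, ξ⟫ = 0 := congrArg Complex.re h0
    have e1 : ⟪fderivWithin ℝ H B x ey, ξ⟫ = 0 := congrArg Complex.im h0
    have := plane_decomp v
    rw [this, map_add, map_smul, map_smul, inner_add_left, inner_smul_left, inner_smul_left,
      e0, e1]
    simp
  have hfdc : ContinuousOn (fderivWithin ℝ H B) B :=
    hsm.continuousOn_fderivWithin hUD (by simp)
  have hVc : ContinuousOn V B := by
    have c0 : ContinuousOn (fun x => (⟪fderivWithin ℝ H B x ex, ξ⟫ : ℝ)) B :=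
      (hfdc.clm_apply continuousOn_const).inner continuousOn_const
    have c1 : ContinuousOn (fun x => (⟪fderivWithin ℝ H B x ey, ξ⟫ : ℝ)) B :=
      (hfdc.clm_apply continuousOn_const).inner continuousOn_const
    have : V = fun x => ((⟪fderivWithin ℝ H B x ex, ξ⟫ : ℝ) : ℂ) +
        ((⟪fderivWithin ℝ H B x ey, ξ⟫ : ℝ) : ℂ) * Complex.I := by
      funext x
      apply Complex.ext <;> simp [hV]
    rw [this]
    exact (Complex.continuous_ofReal.comp_continuousOn c0).add
      ((Complex.continuous_ofReal.comp_continuousOn c1).mul continuousOn_const)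
  obtain ⟨α, hαc, hα⟩ := exists_lift hVc hVne
  have hre : ∀ x ∈ B, ⟪fderivWithin ℝ H B x ex, ξ⟫ = ‖V x‖ * Real.cos (α x) := by
    intro x hx
    have := congrArg Complex.re (hα x hx)
    rw [Complex.re_ofReal_mul, Complex.exp_ofReal_mul_I_re] at this
    exact this
  have him : ∀ x ∈ B, ⟪fderivWithin ℝ H B x ey, ξ⟫ = ‖V x‖ * Real.sin (α x) := by
    intro x hx
    have := congrArg Complex.im (hα x hx)
    rw [Complex.im_ofReal_mul, Complex.exp_ofReal_mul_I_im] at this
    exact this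
  set β : ℝ → ℝ := fun t => α (circ t) - t with hβ
  set ρ : ℝ → ℝ := fun t => ‖V (circ t)‖ with hρ
  have hcircc : Continuous circ :=
    continuous_iff_continuousAt.2 fun t => (hasDerivAt_circ t).continuousAt
  have hβc : Continuous β := (hαc.comp_continuous hcircc circ_mem').sub continuous_id
  have hρpos : ∀ t, 0 < ρ t := fun t => norm_pos_iff.2 (hVne _ (circ_mem' t))
  have htan : ∀ t, ⟪fderivWithin ℝ H B (circ t) (circ' t), ξ⟫ = ρ t * Real.sin (β t) := by
    intro t
    rw [circ', map_add, map_smul, map_smul, inner_add_left, inner_smul_left, inner_smul_left,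
      hre _ (circ_mem' t), him _ (circ_mem' t)]
    simp only [hβ, hρ, Real.sin_sub]
    simp
    ring
  have hrad : ∀ t, ⟪fderivWithin ℝ H B (circ t) (circ t), ξ⟫ = ρ t * Real.cos (β t) := by
    intro t
    have e : fderivWithin ℝ H B (circ t) (circ t) =
      Real.cos t • fderivWithin ℝ H B (circ t) ex + Real.sin t • fderivWithin ℝ H B (circ t) ey := by
      conv_lhs => rw [show fderivWithin ℝ H B (circ t) (circ t) =
        fderivWithin ℝ H B (circ t) (Real.cos t • ex + Real.sin t • ey) from rfl]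
      rw [map_add, map_smul, map_smul]
    rw [e, inner_add_left, inner_smul_left, inner_smul_left,
      hre _ (circ_mem' t), him _ (circ_mem' t)]
    simp only [hβ, hρ, Real.cos_sub]
    simp
    ring
  -- the height function on the disk
  set f : Plane → ℝ := fun x => ⟪H x, ξ⟫ with hf
  have hfc : ContinuousOn f B := hsm.continuousOn.inner continuousOn_const
  set Lf : Plane → (Plane →L[ℝ] ℝ) := fun x => (innerSL ℝ ξ).comp (fderivWithin ℝ H B x) with hLf
  have hffd : ∀ x ∈ B, HasFDerivWithinAt f (Lf x) B x := by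
    intro x hx
    have h3 : HasFDerivWithinAt (fun x => innerSL ℝ ξ (H x)) (Lf x) B x :=
      (innerSL ℝ ξ).hasFDerivAt.comp_hasFDerivWithinAt x (hfd x hx)
    refine h3.congr (fun y _ => ?_) ?_ <;> simp [hf, real_inner_comm]
  have hLfa : ∀ x v, Lf x v = ⟪fderivWithin ℝ H B x v, ξ⟫ := by
    intro x v
    simp [hLf, real_inner_comm]
  have hLf0 : ∀ x ∈ B, Lf x ≠ 0 := by
    intro x hx h0
    apply hVne x hx
    apply Complex.ext
    · simp only [hV]
      rw [← hLfa, h0]; simp
    · simp only [hV]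
      rw [← hLfa, h0]; simp
  have hKc : IsCompact B := isCompact_closedBall _ _
  have hBne : B.Nonempty := ⟨0, by simp [hB]⟩
  have hfM : ∀ x ∈ B, f x ≤ M := by
    obtain ⟨x, hx, hmax⟩ := hKc.exists_isMaxOn hBne hfc
    have hxs : x ∈ sphere (0 : Plane) 1 := by
      by_contra hns
      have hxb : x ∈ ball (0 : Plane) 1 := by
        rw [mem_ball_zero_iff]
        rw [mem_sphere_zero_iff_norm] at hns
        exact lt_of_le_of_ne (mem_closedBall_zero_iff.1 hx) hns
      have hnb : B ∈ 𝓝 x := mem_of_superset (isOpen_ball.mem_nhds hxb) ball_subset_closedBall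
      have hloc : IsLocalMax f x := hmax.isLocalMax hnb
      exact hLf0 x hx (hloc.hasFDerivAt_eq_zero ((hffd x hx).hasFDerivAt hnb))
    intro y hy
    exact (hmax hy).trans (hlM _ (hbd ▸ mem_image_of_mem H hxs))
  have hfm : ∀ x ∈ B, m ≤ f x := by
    obtain ⟨x, hx, hmin⟩ := hKc.exists_isMinOn hBne hfc
    have hxs : x ∈ sphere (0 : Plane) 1 := by
      by_contra hns
      have hxb : x ∈ ball (0 : Plane) 1 := by
        rw [mem_ball_zero_iff]
        rw [mem_sphere_zero_iff_norm] at hns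
        exact lt_of_le_of_ne (mem_closedBall_zero_iff.1 hx) hns
      have hnb : B ∈ 𝓝 x := mem_of_superset (isOpen_ball.mem_nhds hxb) ball_subset_closedBall
      have hloc : IsLocalMin f x := hmin.isLocalMin hnb
      exact hLf0 x hx (hloc.hasFDerivAt_eq_zero ((hffd x hx).hasFDerivAt hnb))
    intro y hy
    exact (hlm _ (hbd ▸ mem_image_of_mem H hxs)).trans (hmin hy)
  -- radial derivative at boundary extrema
  have hcone : ∀ t, -circ t ∈ posTangentConeAt B (circ t) := by
    intro t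
    refine mem_posTangentConeAt_of_segment_subset ?_
    rw [add_neg_cancel]
    exact (convex_closedBall 0 1).segment_subset (circ_mem' t) (by simp)
  have hradM : ∀ t, g t = M → 0 ≤ Real.cos (β t) := by
    intro t ht
    have hmax : IsLocalMaxOn f B (circ t) := by
      refine IsMaxOn.localize ?_
      intro y hy
      have : f (circ t) = M := ht
      exact this ▸ hfM y hy
    have h3 := hmax.hasFDerivWithinAt_nonpos (hffd _ (circ_mem' t)) (hcone t)
    rw [map_neg, hLfa, hrad] at h3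
    have := hρpos t
    by_contra hcon
    push Not at hcon
    nlinarith
  have hradm : ∀ t, g t = m → Real.cos (β t) ≤ 0 := by
    intro t ht
    have hmin : IsLocalMinOn f B (circ t) := by
      refine IsMinOn.localize ?_
      intro y hy
      have : f (circ t) = m := ht
      exact this ▸ hfm y hy
    have h3 := hmin.hasFDerivWithinAt_nonneg (hffd _ (circ_mem' t)) (hcone t)
    rw [map_neg, hLfa, hrad] at h3
    have := hρpos t
    by_contra hcon
    push Not at hcon
    nlinarith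
  have hsin0 : ∀ t, (g t = M ∨ g t = m) → Real.sin (β t) = 0 := by
    intro t ht
    have h3 : ρ t * Real.sin (β t) = 0 := by
      rw [← htan]
      rcases ht with ht | ht
      · have : IsLocalMax g t := Eventually.of_forall fun τ => ht ▸ hgM τ
        exact this.hasDerivAt_eq_zero (hgd t)
      · have : IsLocalMin g t := Eventually.of_forall fun τ => ht ▸ hgm τ
        exact this.hasDerivAt_eq_zero (hgd t)
    exact (mul_eq_zero.1 h3).resolve_left (hρpos t).ne'
  have hMk : ∀ t, g t = M → ∃ k : ℤ, β t = 2 * Real.pi * k := by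
    intro t ht
    have h3 := hsin0 t (Or.inl ht)
    have h4 := hradM t ht
    have h5 : Real.cos (β t) = 1 := by
      have := Real.sin_sq_add_cos_sq (β t)
      rw [h3] at this
      nlinarith
    obtain ⟨k, hk⟩ := (Real.cos_eq_one_iff _).1 h5
    exact ⟨k, by rw [← hk]; ring⟩
  have hmk : ∀ t, g t = m → ∃ k : ℤ, β t = Real.pi + 2 * Real.pi * k := by
    intro t ht
    have h3 := hsin0 t (Or.inr ht)
    have h4 := hradm t ht
    have h5 : Real.cos (β t - Real.pi) = 1 := by
      rw [Real.cos_sub_pi]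
      have := Real.sin_sq_add_cos_sq (β t)
      rw [h3] at this
      nlinarith
    obtain ⟨k, hk⟩ := (Real.cos_eq_one_iff _).1 h5
    exact ⟨k, by linarith⟩
  -- the four times
  obtain ⟨x₁, hx₁, hHx₁⟩ : h s₁ ∈ H '' sphere 0 1 := by rw [hbd, ← hl]; exact mem_range_self _
  obtain ⟨x₂, hx₂, hHx₂⟩ : h s₂ ∈ H '' sphere 0 1 := by rw [hbd, ← hl]; exact mem_range_self _
  obtain ⟨t₁, ht₁⟩ := exists_circ hx₁
  obtain ⟨t₃, ht₃I, ht₃⟩ := exists_circ_Ioo hx₂ (a := t₁) (by
    rintro rfl
    apply hne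
    rw [← hHx₁, ← hHx₂, ht₁])
  have g1 : g t₁ = M := by simp only [hg, hγ]; rw [ht₁, hHx₁, h1]
  have g3 : g t₃ = M := by simp only [hg, hγ]; rw [ht₃, hHx₂, h2]
  have g5 : g (t₁ + 2 * Real.pi) = M := by
    simp only [hg, hγ]; rw [circ_periodic, ht₁, hHx₁, h1]
  have n13 : γ t₁ ≠ γ t₃ := by
    simp only [hγ]; rw [ht₁, ht₃, hHx₁, hHx₂]; exact hne
  have n35 : γ t₃ ≠ γ (t₁ + 2 * Real.pi) := by
    simp only [hγ]; rw [circ_periodic, ht₁, ht₃, hHx₁, hHx₂]; exact hne.symm
  obtain ⟨t₂, ht₂, g2⟩ := hbetween t₁ t₃ ht₃I.1 n13 g1 g3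
  obtain ⟨t₄, ht₄, g4⟩ := hbetween t₃ (t₁ + 2 * Real.pi) ht₃I.2 n35 g3 g5
  refine angle_nogo (g := g) (β := β) (ρ := ρ) (M := M) (m := m) ?_ hρpos hβc hMk hmk hgM hgm ?_ ?_
    ht₂.1 ht₂.2 ht₄.1 ht₄.2 g1 g2 g3 g4 g5
  · intro t
    rw [← htan]
    exact hgd t
  · intro t ht
    refine hgcrit t ?_
    rw [htan, ht, mul_zero]
  · intro t
    simp only [hβ, circ_periodic]
    ring

end Pool.Agent.R747
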