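import Mathlib
import Pool.Agent.R747.FrameDefs
import Pool.Agent.R747.FrameForce

/-!
Construction of a frame which forces finitely many prescribed normal directions: a planar, locally
convex closed curve of turning number two, given by its support function.
-/

open Set Filter Topology Metric
open scoped ContDiff RealInnerProductSpace

namespace Pool.Agent.R747

lemma ib (b : OrthonormalBasis (Fin 3) ℝ Space) (i j : Fin 3) :
    ⟪b i, b j⟫ = if i = j then (1 : ℝ) else 0 :=
  orthonormal_iff_ite.1 b.orthonormal i j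

/-- An orthonormal basis such that no `ξ i` is orthogonal to the first two vectors. -/
lemma exists_good_basis {k : ℕ} (ξ : Fin k → Space) (hξ : ∀ i, ξ i ≠ 0) :
    ∃ b : OrthonormalBasis (Fin 3) ℝ Space, ∀ i, ¬(⟪b 0, ξ i⟫ = 0 ∧ ⟪b 1, ξ i⟫ = 0) := by
  classical
  set S : Finset (Submodule ℝ Space) :=
    insert ⊥ (Finset.univ.image fun i => Submodule.span ℝ {ξ i}) with hS
  have htop : (⊤ : Submodule ℝ Space) ∉ S := by
    intro h
    rw [hS, Finset.mem_insert, Finset.mem_image] at h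
    have h3 : Module.finrank ℝ (⊤ : Submodule ℝ Space) = 3 := by
      rw [finrank_top]; simp
    rcases h with h | ⟨i, -, h⟩
    · rw [h, finrank_bot] at h3
      omega
    · rw [← h, finrank_span_singleton (hξ i)] at h3
      omega
  have hne := Subspace.biUnion_ne_univ_of_top_notMem htop
  obtain ⟨v, hv⟩ := (ne_univ_iff_exists_notMem _).1 hne
  have hv' : ∀ p ∈ S, v ∉ p := fun p hp hvp => hv (mem_iUnion₂.2 ⟨p, hp, hvp⟩)
  have hv0 : v ≠ 0 := fun h => hv' ⊥ (by simp [hS]) (by simp [h])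
  have hvi : ∀ i, v ∉ Submodule.span ℝ {ξ i} := fun i => hv' _ (by
    rw [hS, Finset.mem_insert, Finset.mem_image]
    exact Or.inr ⟨i, Finset.mem_univ _, rfl⟩)
  have hvn : 0 < ‖v‖ := norm_pos_iff.2 hv0
  set ν : Space := ‖v‖⁻¹ • v with hν
  have hνn : ‖ν‖ = 1 := by
    rw [hν, norm_smul, norm_inv, norm_norm, inv_mul_cancel₀ hvn.ne']
  have hon : Orthonormal ℝ (({2} : Set (Fin 3)).domRestrict (fun _ : Fin 3 => ν)) := by
    constructor
    · intro i; simpa using hνn
    · intro i j hij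
      exact absurd (Subtype.ext (i.2.trans j.2.symm)) hij
  obtain ⟨b, hb⟩ := hon.exists_orthonormalBasis_extension_of_card_eq (by simp)
  refine ⟨b, fun i hi => hvi i ?_⟩
  have h2 : b 2 = ν := hb 2 (by simp)
  have hd := b.sum_repr' (ξ i)
  rw [Fin.sum_univ_three, hi.1, hi.2, h2] at hd
  simp only [zero_smul, zero_add] at hd
  rw [hν, smul_smul] at hd
  set c : ℝ := ⟪‖v‖⁻¹ • v, ξ i⟫ * ‖v‖⁻¹ with hc
  have hc0 : c ≠ 0 := by
    intro h0
    rw [h0, zero_smul] at hd
    exact hξ i hd.symm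
  rw [Submodule.mem_span_singleton]
  refine ⟨c⁻¹, ?_⟩
  rw [← hd, smul_smul, inv_mul_cancel₀ hc0, one_smul]

/-- Up to sign a nonzero vector of the plane has argument in `[0, π)`. -/
lemma exists_sign_angle {x y : ℝ} (h : ¬(x = 0 ∧ y = 0)) :
    ∃ σ r φ : ℝ, (σ = 1 ∨ σ = -1) ∧ 0 < r ∧ 0 ≤ φ ∧ φ < Real.pi ∧
      σ * x = r * Real.cos φ ∧ σ * y = r * Real.sin φ := by
  have key : ∀ z : ℂ, z ≠ 0 → (0 < z.im ∨ (z.im = 0 ∧ 0 < z.re)) →
      ∃ r φ : ℝ, 0 < r ∧ 0 ≤ φ ∧ φ < Real.pi ∧ z.re = r * Real.cos φ ∧ z.im = r * Real.sin φ := by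
    intro z hz hcase
    refine ⟨‖z‖, Complex.arg z, norm_pos_iff.2 hz, ?_, ?_, (Complex.norm_mul_cos_arg z).symm,
      (Complex.norm_mul_sin_arg z).symm⟩
    · rw [Complex.arg_nonneg_iff]
      rcases hcase with h | h
      · exact h.le
      · exact h.1.ge
    · refine lt_of_le_of_ne (Complex.arg_le_pi z) fun h => ?_
      rw [Complex.arg_eq_pi_iff] at h
      rcases hcase with h' | h'
      · linarith [h.2]
      · linarith [h.1]
  have hz : (⟨x, y⟩ : ℂ) ≠ 0 := by
    intro h0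
    exact h ⟨congrArg Complex.re h0, congrArg Complex.im h0⟩
  by_cases hcase : 0 < y ∨ (y = 0 ∧ 0 < x)
  · obtain ⟨r, φ, h1, h2, h3, h4, h5⟩ := key ⟨x, y⟩ hz hcase
    exact ⟨1, r, φ, Or.inl rfl, h1, h2, h3, by rw [one_mul]; exact h4, by rw [one_mul]; exact h5⟩
  · have hcase' : 0 < -y ∨ (-y = 0 ∧ 0 < -x) := by
      push Not at hcase
      rcases lt_trichotomy y 0 with hy | hy | hy
      · left; linarith
      · right
        refine ⟨by linarith, ?_⟩
        have := hcase.2 hy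
        have hx : x ≠ 0 := fun hx => h ⟨hx, hy⟩
        have := lt_of_le_of_ne this hx
        linarith
      · linarith [hcase.1]
    have hz' : (⟨-x, -y⟩ : ℂ) ≠ 0 := by
      intro h0
      have e1 := congrArg Complex.re h0
      have e2 := congrArg Complex.im h0
      simp at e1 e2
      exact h ⟨e1, e2⟩
    obtain ⟨r, φ, h1, h2, h3, h4, h5⟩ := key ⟨-x, -y⟩ hz' hcase'
    refine ⟨-1, r, φ, Or.inr rfl, h1, h2, h3, ?_, ?_⟩
    · simpa using h4
    · simpa using h5

/-- The perturbation of the support function. -/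
noncomputable def qf (Φ : Finset ℝ) (θ : ℝ) : ℝ :=
  Real.cos (θ / 2) * ∏ φ ∈ Φ, Real.sin (θ - φ)

lemma qf_contDiff (Φ : Finset ℝ) : ContDiff ℝ ∞ (qf Φ) := by
  unfold qf
  have h1 : ContDiff ℝ ∞ (fun θ : ℝ => ∏ φ ∈ Φ, Real.sin (θ - φ)) :=
    contDiff_prod fun φ _ => Real.contDiff_sin.comp (contDiff_id.sub contDiff_const)
  exact (Real.contDiff_cos.comp (contDiff_id.div_const 2)).mul h1

lemma qf_anti (Φ : Finset ℝ) (θ : ℝ) : qf Φ (θ + 2 * Real.pi) = -qf Φ θ := by
  unfold qf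
  have h1 : Real.cos ((θ + 2 * Real.pi) / 2) = -Real.cos (θ / 2) := by
    rw [show (θ + 2 * Real.pi) / 2 = θ / 2 + Real.pi by ring, Real.cos_add_pi]
  have h2 : ∀ φ ∈ Φ, Real.sin (θ + 2 * Real.pi - φ) = Real.sin (θ - φ) := by
    intro φ _
    rw [show θ + 2 * Real.pi - φ = θ - φ + 2 * Real.pi by ring, Real.sin_add_two_pi]
  rw [h1, Finset.prod_congr rfl h2]
  ring

lemma qf_zero (Φ : Finset ℝ) {φ θ : ℝ} (hφ : φ ∈ Φ) (h : Real.sin (θ - φ) = 0) : qf Φ θ = 0 := by
  unfold qf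
  rw [Finset.prod_eq_zero hφ h, mul_zero]

lemma qf_deriv_ne (Φ : Finset ℝ) (hΦ : ∀ φ ∈ Φ, 0 ≤ φ ∧ φ < Real.pi) {φ : ℝ} (hφ : φ ∈ Φ) :
    deriv (qf Φ) φ ≠ 0 := by
  set G : ℝ → ℝ := fun θ => Real.cos (θ / 2) * ∏ ψ ∈ Φ.erase φ, Real.sin (θ - ψ) with hG
  have hq : qf Φ = fun θ => Real.sin (θ - φ) * G θ := by
    funext θ
    simp only [qf, hG]
    rw [← Finset.mul_prod_erase Φ _ hφ]
    ring
  have hGd : DifferentiableAt ℝ G φ := by
    have h1 : ContDiff ℝ ∞ G := by
      have h1 : ContDiff ℝ ∞ (fun θ : ℝ => ∏ ψ ∈ Φ.erase φ, Real.sin (θ - ψ)) :=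
        contDiff_prod fun φ _ => Real.contDiff_sin.comp (contDiff_id.sub contDiff_const)
      exact (Real.contDiff_cos.comp (contDiff_id.div_const 2)).mul h1
    exact h1.differentiable (by simp) φ
  have hs : HasDerivAt (fun θ : ℝ => Real.sin (θ - φ)) 1 φ := by
    have := ((hasDerivAt_id φ).sub_const φ).sin
    simpa using this
  have hd := hs.mul hGd.hasDerivAt
  have hd' : deriv (qf Φ) φ = G φ := by
    rw [hq]
    have h1 : HasDerivAt (fun θ : ℝ => Real.sin (θ - φ) * G θ) (1 * G φ +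
      Real.sin (φ - φ) * deriv G φ) φ := hd
    rw [h1.deriv]
    simp
  rw [hd']
  simp only [hG]
  have hpi := Real.pi_pos
  refine mul_ne_zero ?_ (Finset.prod_ne_zero_iff.2 fun ψ hψ => ?_)
  · have := hΦ φ hφ
    exact (Real.cos_pos_of_mem_Ioo ⟨by linarith, by linarith⟩).ne'
  · have h1 := hΦ φ hφ
    have h2 := hΦ ψ (Finset.mem_of_mem_erase hψ)
    have h3 : ψ ≠ φ := (Finset.mem_erase.1 hψ).1
    intro h0
    rcases lt_or_gt_of_ne h3 with h | h
    · exact absurd h0 (Real.sin_pos_of_pos_of_lt_pi (by linarith) (by linarith)).ne'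
    · have : Real.sin (φ - ψ) < 0 := Real.sin_neg_of_neg_of_neg_pi_lt (by linarith) (by linarith)
      linarith

/-- A continuous antiperiodic function is bounded. -/
lemma bounded_of_anti {f : ℝ → ℝ} (hf : Continuous f) {T : ℝ} (hT : 0 < T)
    (h : ∀ t, f (t + T) = f t) : ∃ B, 0 < B ∧ ∀ t, |f t| ≤ B := by
  obtain ⟨B, hB⟩ := isCompact_Icc.exists_bound_of_continuousOn (s := Icc (0 : ℝ) T) hf.continuousOn
  refine ⟨max B 1, by positivity, fun t => ?_⟩
  have hp : Function.Periodic f T := h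
  have h1 : f t = f (toIcoMod hT 0 t) := by rw [toIcoMod, hp.sub_zsmul_eq]
  have h2 := toIcoMod_mem_Ico hT 0 t
  rw [zero_add] at h2
  rw [h1]
  exact (hB _ ⟨h2.1, h2.2.le⟩).trans (le_max_left _ _)

/-- The unit vectors of the plane of the frame. -/
noncomputable def ev (b : OrthonormalBasis (Fin 3) ℝ Space) (θ : ℝ) : Space :=
  Real.cos θ • b 0 + Real.sin θ • b 1

noncomputable def ev' (b : OrthonormalBasis (Fin 3) ℝ Space) (θ : ℝ) : Space :=
  (-Real.sin θ) • b 0 + Real.cos θ • b 1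

lemma hasDerivAt_ev (b : OrthonormalBasis (Fin 3) ℝ Space) (θ : ℝ) :
    HasDerivAt (ev b) (ev' b θ) θ :=
  ((Real.hasDerivAt_cos θ).smul_const _).add ((Real.hasDerivAt_sin θ).smul_const _)

lemma hasDerivAt_ev' (b : OrthonormalBasis (Fin 3) ℝ Space) (θ : ℝ) :
    HasDerivAt (ev' b) (-ev b θ) θ := by
  have := ((Real.hasDerivAt_sin θ).neg.smul_const (b 0)).add
    ((Real.hasDerivAt_cos θ).smul_const (b 1))
  have e : -ev b θ = (-Real.cos θ) • b 0 + (-Real.sin θ) • b 1 := by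
    simp only [ev, neg_add, neg_smul]
  rw [e]
  exact this

lemma ev'_ne (b : OrthonormalBasis (Fin 3) ℝ Space) (θ : ℝ) : ev' b θ ≠ 0 := by
  intro h
  have h0 : ⟪b 0, ev' b θ⟫ = -Real.sin θ := by
    simp [ev', inner_add_right, inner_smul_right, ib]
  have h1 : ⟪b 1, ev' b θ⟫ = Real.cos θ := by
    simp [ev', inner_add_right, inner_smul_right, ib]
  rw [h, inner_zero_right] at h0 h1
  have := Real.sin_sq_add_cos_sq θ
  rw [← h1, show Real.sin θ = 0 by linarith] at this
  norm_num at this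

lemma ev_per (b : OrthonormalBasis (Fin 3) ℝ Space) (θ : ℝ) :
    ev b (θ + 2 * Real.pi) = ev b θ := by simp [ev]

lemma ev'_per (b : OrthonormalBasis (Fin 3) ℝ Space) (θ : ℝ) :
    ev' b (θ + 2 * Real.pi) = ev' b θ := by simp [ev']

theorem exists_frame {k : ℕ} (ξ : Fin k → Space) (hξ : ∀ i, ξ i ≠ 0) :
    ∃ l : Set Space, IsFrame l ∧ ∀ H, IsMembrane l H → ∀ i, RealizesNormal H (ξ i) := by
  classical
  obtain ⟨b, hb⟩ := exists_good_basis ξ hξ
  choose σ r φ hσ hr hφ0 hφπ hx hy using fun i => exists_sign_angle (hb i)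
  have hpi := Real.pi_pos
  set Φ : Finset ℝ := Finset.univ.image φ with hΦ
  have hΦmem : ∀ i, φ i ∈ Φ := fun i => Finset.mem_image_of_mem _ (Finset.mem_univ i)
  have hΦr : ∀ ψ ∈ Φ, 0 ≤ ψ ∧ ψ < Real.pi := by
    intro ψ hψ
    obtain ⟨i, -, rfl⟩ := Finset.mem_image.1 hψ
    exact ⟨hφ0 i, hφπ i⟩
  set q : ℝ → ℝ := qf Φ with hq
  have hqc : ContDiff ℝ ∞ q := qf_contDiff Φ
  set q1 : ℝ → ℝ := deriv q with hq1
  have hq1c : ContDiff ℝ ∞ q1 := (contDiff_infty_iff_deriv.1 hqc).2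
  set q2 : ℝ → ℝ := deriv q1 with hq2
  have hq2c : ContDiff ℝ ∞ q2 := (contDiff_infty_iff_deriv.1 hq1c).2
  have hqd : ∀ θ, HasDerivAt q (q1 θ) θ := fun θ =>
    (hqc.differentiable (by simp) θ).hasDerivAt
  have hq1d : ∀ θ, HasDerivAt q1 (q2 θ) θ := fun θ =>
    (hq1c.differentiable (by simp) θ).hasDerivAt
  have hqa : ∀ θ, q (θ + 2 * Real.pi) = -q θ := qf_anti Φ
  have hq1a : ∀ θ, q1 (θ + 2 * Real.pi) = -q1 θ := by
    intro θ
    have h1 : HasDerivAt (fun θ => q (θ + 2 * Real.pi)) (q1 (θ + 2 * Real.pi)) θ :=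
      (hqd (θ + 2 * Real.pi)).comp_add_const θ (2 * Real.pi)
    have h2 : (fun θ => q (θ + 2 * Real.pi)) = fun θ => -q θ := funext hqa
    rw [h2] at h1
    exact h1.unique (hqd θ).neg
  have hq2a : ∀ θ, q2 (θ + 2 * Real.pi) = -q2 θ := by
    intro θ
    have h1 : HasDerivAt (fun θ => q1 (θ + 2 * Real.pi)) (q2 (θ + 2 * Real.pi)) θ :=
      (hq1d (θ + 2 * Real.pi)).comp_add_const θ (2 * Real.pi)
    have h2 : (fun θ => q1 (θ + 2 * Real.pi)) = fun θ => -q1 θ := funext hq1a
    rw [h2] at h1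
    exact h1.unique (hq1d θ).neg
  have h4pi : (0 : ℝ) < 4 * Real.pi := by positivity
  obtain ⟨B, hBpos, hB⟩ := bounded_of_anti (f := fun θ => q θ + q2 θ)
    (hqc.continuous.add hq2c.continuous) h4pi (by
      intro t
      have e : t + 4 * Real.pi = t + 2 * Real.pi + 2 * Real.pi := by ring
      simp only [e, hqa, hq2a]; ring)
  set ε : ℝ := 1 / (2 * B) with hε
  have hεpos : 0 < ε := by positivity
  have hkey : ∀ θ, 0 < 1 + ε * q θ + ε * q2 θ := by
    intro θ
    have h1 := abs_le.1 (hB θ)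
    have h2 : ε * B = 1 / 2 := by rw [hε]; field_simp
    have h3 : -(ε * B) ≤ ε * (q θ + q2 θ) := by
      have := mul_le_mul_of_nonneg_left h1.1 hεpos.le
      linarith
    linarith
  set h : ℝ → Space := fun θ => (1 + ε * q θ) • ev b θ + (ε * q1 θ) • ev' b θ with hh
  set h' : ℝ → Space := fun θ => (1 + ε * q θ + ε * q2 θ) • ev' b θ with hh'
  have hd : ∀ θ, HasDerivAt h (h' θ) θ := by
    intro θ
    have h1 : HasDerivAt (fun θ => (1 + ε * q θ)) (ε * q1 θ) θ :=
      ((hqd θ).const_mul ε).const_add 1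
    have h2 : HasDerivAt (fun θ => ε * q1 θ) (ε * q2 θ) θ := (hq1d θ).const_mul ε
    have h3 := (h1.smul (hasDerivAt_ev b θ)).add (h2.smul (hasDerivAt_ev' b θ))
    have e : h' θ = ((1 + ε * q θ) • ev' b θ + (ε * q1 θ) • ev b θ) +
        ((ε * q1 θ) • (-ev b θ) + (ε * q2 θ) • ev' b θ) := by
      simp only [hh']
      module
    rw [e]
    exact h3
  have hper : ∀ θ, h (θ + 4 * Real.pi) = h θ := by
    intro θ
    have e : θ + 4 * Real.pi = θ + 2 * Real.pi + 2 * Real.pi := by ring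
    simp only [hh, e, hqa, hq1a, ev_per, ev'_per, neg_neg]
  have hne : ∀ θ, h' θ ≠ 0 := by
    intro θ h0
    rcases smul_eq_zero.1 h0 with h1 | h1
    · exact (hkey θ).ne' h1
    · exact ev'_ne b θ h1
  have hcd : ContDiff ℝ ∞ h := by
    have c1 : ContDiff ℝ ∞ (ev b) :=
      (Real.contDiff_cos.smul contDiff_const).add (Real.contDiff_sin.smul contDiff_const)
    have c2 : ContDiff ℝ ∞ (ev' b) :=
      (Real.contDiff_sin.neg.smul contDiff_const).add (Real.contDiff_cos.smul contDiff_const)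
    exact ((contDiff_const.add (contDiff_const.mul hqc)).smul c1).add
      ((contDiff_const.mul hq1c).smul c2)
  refine ⟨range h, ⟨fun t => h (2 * t), ?_, ?_, ?_, ?_⟩, ?_⟩
  · exact hcd.comp (contDiff_const.mul contDiff_id)
  · intro t
    simp only
    rw [show 2 * (t + 2 * Real.pi) = 2 * t + 4 * Real.pi by ring, hper]
  · intro t
    have h1 : HasDerivAt (fun t : ℝ => 2 * t) 2 t := by
      simpa using (hasDerivAt_id t).const_mul 2
    have h2 : HasDerivAt (fun t => h (2 * t)) ((2 : ℝ) • h' (2 * t)) t :=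
      (hd (2 * t)).scomp t h1
    rw [h2.deriv]
    exact smul_ne_zero two_ne_zero (hne _)
  · ext x
    constructor
    · rintro ⟨t, rfl⟩; exact ⟨2 * t, rfl⟩
    · rintro ⟨t, rfl⟩
      refine ⟨t / 2, ?_⟩
      simp only
      rw [mul_div_cancel₀ t two_ne_zero]
  · intro H hH i
    -- inner products with the signed direction
    set η : Space := σ i • ξ i with hη
    have hη0 : ⟪b 0, η⟫ = r i * Real.cos (φ i) := by rw [hη, inner_smul_right]; exact hx i
    have hη1 : ⟪b 1, η⟫ = r i * Real.sin (φ i) := by rw [hη, inner_smul_right]; exact hy i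
    have hev : ∀ θ, ⟪ev b θ, η⟫ = r i * Real.cos (θ - φ i) := by
      intro θ
      simp only [ev, inner_add_left, inner_smul_left, hη0, hη1, Real.cos_sub]
      simp
      ring
    have hev' : ∀ θ, ⟪ev' b θ, η⟫ = -(r i * Real.sin (θ - φ i)) := by
      intro θ
      simp only [ev', inner_add_left, inner_smul_left, hη0, hη1, Real.sin_sub]
      simp
      ring
    have hin : ∀ θ, ⟪h θ, η⟫ = (1 + ε * q θ) * (r i * Real.cos (θ - φ i)) -
        ε * q1 θ * (r i * Real.sin (θ - φ i)) := by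
      intro θ
      simp only [hh, inner_add_left, inner_smul_left, hev, hev']
      simp
      ring
    have hin' : ∀ θ, ⟪h' θ, η⟫ = -((1 + ε * q θ + ε * q2 θ) * (r i * Real.sin (θ - φ i))) := by
      intro θ
      simp only [hh', inner_smul_left, hev']
      simp
    have hsin : ∀ s, ⟪h' s, η⟫ = 0 → Real.sin (s - φ i) = 0 := by
      intro s hs
      rw [hin', neg_eq_zero] at hs
      exact ((mul_eq_zero.1 hs).resolve_left (hkey s).ne' |> mul_eq_zero.1).resolve_left (hr i).ne'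
    have hval : ∀ s, Real.sin (s - φ i) = 0 → ⟪h s, η⟫ = r i * Real.cos (s - φ i) := by
      intro s hs
      rw [hin, hs, hq, qf_zero Φ (hΦmem i) hs]
      ring
    have hreal : RealizesNormal H η := by
      refine force hH h4pi hper hd rfl (ξ := η) (M := r i) (m := -r i) (by linarith [hr i]) ?_ ?_
        (s₁ := φ i) (s₂ := φ i + 2 * Real.pi) ?_ ?_ ?_
      · intro s hs
        have h1 := hsin s hs
        rw [hval s h1]
        have h2 := Real.sin_sq_add_cos_sq (s - φ i)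
        rw [h1] at h2
        have h3 : Real.cos (s - φ i) ^ 2 = 1 := by linarith
        have h3' : (Real.cos (s - φ i) - 1) * (Real.cos (s - φ i) + 1) = 0 := by linarith
        rcases (mul_eq_zero.1 h3').imp (fun h => sub_eq_zero.1 h)
          (fun h => eq_neg_of_add_eq_zero_left h) with h4 | h4
        · left; rw [h4, mul_one]
        · right; rw [h4]; ring
      · refine (countable_range (fun n : ℤ => (n : ℝ) * Real.pi + φ i)).mono ?_
        intro s hs
        obtain ⟨n, hn⟩ := Real.sin_eq_zero_iff.1 (hsin s hs)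
        exact ⟨n, by simp only [hn]; ring⟩
      · intro heq
        have z1 : q (φ i) = 0 := qf_zero Φ (hΦmem i) (by simp)
        simp only [hh, hqa, hq1a, ev_per, ev'_per, z1, mul_zero, add_zero, neg_zero] at heq
        have h1 : (2 * (ε * q1 (φ i))) • ev' b (φ i) = 0 := by
          have h2 := sub_eq_zero.2 heq
          rw [← h2]
          module
        rcases smul_eq_zero.1 h1 with h2 | h2
        · have h3 : q1 (φ i) = 0 := by
            rcases mul_eq_zero.1 h2 with h3 | h3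
            · norm_num at h3
            · exact (mul_eq_zero.1 h3).resolve_left hεpos.ne'
          exact qf_deriv_ne Φ hΦr (hΦmem i) h3
        · exact ev'_ne b _ h2
      · rw [hval _ (by simp)]; simp
      · rw [hval _ (by simp)]; simp
    -- remove the sign
    obtain ⟨x, hx, hxv⟩ := hreal
    refine ⟨x, hx, fun v => ?_⟩
    have h1 := hxv v
    rw [hη, inner_smul_right] at h1
    rcases hσ i with h2 | h2
    · rw [h2, one_mul] at h1; exact h1
    · rw [h2] at h1; linarith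

end Pool.Agent.R747
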