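import Mathlib

/-!
A planar lemma.  Let `u` be differentiable on a compact set `K` of the plane with continuous
gradient `(P, Q)`.  The set of gradients at points of `K` from which there emanates a segment in `K`
along which the gradient is constant has planar Lebesgue measure zero.
-/

open MeasureTheory Set Filter Topology

namespace Pool.Agent.R747

/-- The linear form with coefficients `p, q`. -/
noncomputable def grad (p q : ℝ) : ℝ × ℝ →L[ℝ] ℝ :=
  p • ContinuousLinearMap.fst ℝ ℝ ℝ + q • ContinuousLinearMap.snd ℝ ℝ ℝ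

@[simp] lemma grad_apply (p q : ℝ) (v : ℝ × ℝ) : grad p q v = p * v.1 + q * v.2 := by
  simp [grad]

/-- There is a segment through `(x, h)` of slope `m` (with respect to the vertical), between heights
`h - δ` and `h + δ`, inside `K`, along which `P` and `Q` are constant. -/
def SteepAt (P Q : ℝ × ℝ → ℝ) (K : Set (ℝ × ℝ)) (h δ x m : ℝ) : Prop :=
  ∀ s ∈ Icc (-δ) δ, (x + m * s, h + s) ∈ K ∧ P (x + m * s, h + s) = P (x, h) ∧
    Q (x + m * s, h + s) = Q (x, h)

variable {u P Q : ℝ × ℝ → ℝ} {K : Set (ℝ × ℝ)}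

lemma SteepAt.mem {h δ x m : ℝ} (hδ : 0 < δ) (H : SteepAt P Q K h δ x m) : (x, h) ∈ K := by
  have := (H 0 ⟨by linarith, hδ.le⟩).1
  simpa using this

lemma linear_along (hu : ∀ w ∈ K, HasFDerivAt u (grad (P w) (Q w)) w) {h δ x m : ℝ} (hδ : 0 < δ)
    (H : SteepAt P Q K h δ x m) :
    u (x + m * δ, h + δ) = u (x, h) + δ * (m * P (x, h) + Q (x, h)) := by
  have hd : ∀ s ∈ Icc (-δ) δ, HasDerivAt (fun s : ℝ => u (x + m * s, h + s))
      (m * P (x, h) + Q (x, h)) s := by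
    intro s hs
    obtain ⟨h1, h2, h3⟩ := H s hs
    have hγ : HasDerivAt (fun s : ℝ => ((x + m * s, h + s) : ℝ × ℝ)) (m, 1) s := by
      have h1 : HasDerivAt (fun s : ℝ => x + m * s) m s := by
        simpa using ((hasDerivAt_id s).const_mul m).const_add x
      have h2 : HasDerivAt (fun s : ℝ => h + s) 1 s := by
        simpa using (hasDerivAt_id s).const_add h
      exact h1.prodMk h2
    have := (hu _ h1).comp_hasDerivAt s hγ
    rw [h2, h3, grad_apply] at this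
    have e : P (x, h) * ((m, (1 : ℝ)) : ℝ × ℝ).1 + Q (x, h) * ((m, (1 : ℝ)) : ℝ × ℝ).2 =
        m * P (x, h) + Q (x, h) := by
      simp only [mul_one]
      ring
    rw [e] at this
    exact this
  obtain ⟨c, hc, hc'⟩ := exists_hasDerivAt_eq_slope (fun s : ℝ => u (x + m * s, h + s))
    (fun _ => m * P (x, h) + Q (x, h)) hδ
    (fun s hs => (hd s ⟨by linarith [hs.1], hs.2⟩).continuousAt.continuousWithinAt)
    (fun s hs => hd s ⟨by linarith [hs.1], hs.2.le⟩)
  simp only [mul_zero, add_zero, sub_zero] at hc'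
  have hδ' : δ ≠ 0 := hδ.ne'
  field_simp at hc'
  linarith

/-- Two steep segments starting at height `h` with different values of `Q` do not cross. -/
lemma slope_diff {h δ x m y m' : ℝ} (Hx : SteepAt P Q K h δ x m)
    (Hy : SteepAt P Q K h δ y m') (hne : Q (x, h) ≠ Q (y, h)) : |m' - m| * δ ≤ |y - x| := by
  by_contra hcon
  push Not at hcon
  have hmm : m' - m ≠ 0 := by
    intro h0
    rw [h0] at hcon
    simp at hcon
    exact absurd hcon (not_lt.2 (abs_nonneg _))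
  have hpos : 0 < |m' - m| := abs_pos.2 hmm
  set s : ℝ := -(y - x) / (m' - m) with hs
  have hsδ : |s| ≤ δ := by
    rw [hs, abs_div, abs_neg, div_le_iff₀ hpos]
    linarith
  have hsm : s ∈ Icc (-δ) δ := abs_le.1 hsδ
  have hcross : x + m * s = y + m' * s := by
    rw [hs]
    field_simp
    ring
  have h1 := (Hx s hsm).2.2
  have h2 := (Hy s hsm).2.2
  rw [hcross] at h1
  exact hne (h1.symm.trans h2)

lemma hasDerivWithinAt_zero (hu : ∀ w ∈ K, HasFDerivAt u (grad (P w) (Q w)) w) {h δ c : ℝ}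
    (hδ : 0 < δ) {x : ℝ} (hx : ∃ m, |m| ≤ 1 ∧ SteepAt P Q K h δ x m) (hxc : P (x, h) = c) :
    HasDerivWithinAt (fun y => Q (y, h)) 0
      {y | (∃ m, |m| ≤ 1 ∧ SteepAt P Q K h δ y m) ∧ P (y, h) = c} x := by
  obtain ⟨m, -, Hx⟩ := hx
  rw [hasDerivWithinAt_iff_isLittleO, Asymptotics.isLittleO_iff]
  intro ε hε
  have hη : 0 < ε * δ / 3 := by positivity
  have h1 := (hasFDerivAt_iff_isLittleO.1 (hu _ (Hx.mem hδ)))
  rw [Asymptotics.isLittleO_iff] at h1
  have h1 := h1 hη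
  have h2 := (hasFDerivAt_iff_isLittleO.1 (hu _ (Hx δ ⟨by linarith, le_rfl⟩).1))
  rw [Asymptotics.isLittleO_iff] at h2
  have h2 := h2 hη
  obtain ⟨r1, hr1, hb1⟩ := Metric.eventually_nhds_iff.1 h1
  obtain ⟨r2, hr2, hb2⟩ := Metric.eventually_nhds_iff.1 h2
  have hnear : ∀ᶠ y in 𝓝 x, |y - x| < min r1 (r2 / 2) := by
    have : ∀ᶠ y in 𝓝 x, dist y x < min r1 (r2 / 2) :=
      Metric.ball_mem_nhds x (lt_min hr1 (by positivity))
    simpa [Real.dist_eq] using this
  filter_upwards [mem_nhdsWithin_of_mem_nhds hnear, self_mem_nhdsWithin] with y hy hyA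
  obtain ⟨⟨m', -, Hy⟩, hyc⟩ := hyA
  simp only [smul_zero, sub_zero, Real.norm_eq_abs]
  by_cases hne : Q (x, h) = Q (y, h)
  · rw [hne]; simp; positivity
  have hsl := slope_diff Hx Hy hne
  have hyr1 : |y - x| < r1 := lt_of_lt_of_le hy (min_le_left _ _)
  have hyr2 : |y - x| < r2 / 2 := lt_of_lt_of_le hy (min_le_right _ _)
  have hkey : |(y + m' * δ) - (x + m * δ)| ≤ 2 * |y - x| := by
    have : (y + m' * δ) - (x + m * δ) = (y - x) + (m' - m) * δ := by ring
    rw [this]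
    calc |(y - x) + (m' - m) * δ| ≤ |y - x| + |(m' - m) * δ| := abs_add_le _ _
      _ = |y - x| + |m' - m| * δ := by rw [abs_mul, abs_of_pos hδ]
      _ ≤ 2 * |y - x| := by linarith
  have e1 : |u (y, h) - u (x, h) - c * (y - x)| ≤ ε * δ / 3 * |y - x| := by
    have := hb1 (y := (y, h)) (by simpa [Prod.dist_eq, Real.dist_eq] using hyr1)
    simpa [hxc, Prod.norm_def] using this
  have e2 : |u (y + m' * δ, h + δ) - u (x + m * δ, h + δ) - c * ((y + m' * δ) - (x + m * δ))|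
      ≤ ε * δ / 3 * |(y + m' * δ) - (x + m * δ)| := by
    have := hb2 (y := (y + m' * δ, h + δ)) (by
      have : |(y + m' * δ) - (x + m * δ)| < r2 := by linarith
      rw [Prod.dist_eq]
      exact max_lt (by rw [Real.dist_eq]; exact this) (by simpa using hr2))
    have hPδ := (Hx δ ⟨by linarith, le_rfl⟩).2.1
    simpa [hPδ, hxc, Prod.norm_def] using this
  rw [linear_along hu hδ Hx, linear_along hu hδ Hy, hxc, hyc] at e2
  have e3 : |δ * (Q (y, h) - Q (x, h))| ≤ ε * δ * |y - x| := by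
    have : δ * (Q (y, h) - Q (x, h)) =
        (u (y, h) + δ * (m' * c + Q (y, h)) - (u (x, h) + δ * (m * c + Q (x, h))) -
          c * ((y + m' * δ) - (x + m * δ))) - (u (y, h) - u (x, h) - c * (y - x)) := by ring
    rw [this]
    calc _ ≤ _ := abs_sub _ _
      _ ≤ ε * δ / 3 * |(y + m' * δ) - (x + m * δ)| + ε * δ / 3 * |y - x| := add_le_add e2 e1
      _ ≤ ε * δ / 3 * (2 * |y - x|) + ε * δ / 3 * |y - x| := by gcongr
      _ = ε * δ * |y - x| := by ring
  rw [abs_mul, abs_of_pos hδ] at e3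
  have : δ * |Q (y, h) - Q (x, h)| ≤ δ * (ε * |y - x|) := by linarith
  exact le_of_mul_le_mul_left this hδ

/-- The parameter set of steep segments is compact. -/
lemma isCompact_param (hK : IsCompact K) (hP : ContinuousOn P K) (hQ : ContinuousOn Q K)
    {h δ : ℝ} (hδ : 0 < δ) :
    IsCompact {z : ℝ × ℝ | |z.2| ≤ 1 ∧ SteepAt P Q K h δ z.1 z.2} := by
  have hcl : IsClosed {z : ℝ × ℝ | |z.2| ≤ 1 ∧ SteepAt P Q K h δ z.1 z.2} := by
    have heq : {z : ℝ × ℝ | |z.2| ≤ 1 ∧ SteepAt P Q K h δ z.1 z.2} =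
        {z : ℝ × ℝ | |z.2| ≤ 1} ∩ ⋂ s ∈ Icc (-δ) δ,
          ((((fun z : ℝ × ℝ => ((z.1 + z.2 * s, h + s) : ℝ × ℝ)) ⁻¹' K) ∩
            ((fun z : ℝ × ℝ => ((z.1, h) : ℝ × ℝ)) ⁻¹' K)) ∩
            (fun z : ℝ × ℝ => ((P (z.1 + z.2 * s, h + s) - P (z.1, h),
              Q (z.1 + z.2 * s, h + s) - Q (z.1, h)) : ℝ × ℝ)) ⁻¹' {(0, 0)}) := by
      ext z
      simp only [SteepAt, mem_ofPred_eq, mem_inter_iff, mem_iInter, mem_preimage,
        mem_singleton_iff, Prod.mk.injEq, sub_eq_zero]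
      constructor
      · rintro ⟨h1, h2⟩
        refine ⟨h1, fun s hs => ⟨⟨(h2 s hs).1, ?_⟩, (h2 s hs).2⟩⟩
        have := (h2 0 ⟨by linarith, hδ.le⟩).1
        simpa using this
      · rintro ⟨h1, h2⟩
        exact ⟨h1, fun s hs => ⟨(h2 s hs).1.1, (h2 s hs).2⟩⟩
    rw [heq]
    refine IsClosed.inter (isClosed_le (by fun_prop) (by fun_prop)) ?_
    refine isClosed_biInter fun s _ => ?_
    have c1 : Continuous (fun z : ℝ × ℝ => ((z.1 + z.2 * s, h + s) : ℝ × ℝ)) := by fun_prop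
    have c2 : Continuous (fun z : ℝ × ℝ => ((z.1, h) : ℝ × ℝ)) := by fun_prop
    have hKc := hK.isClosed
    refine ContinuousOn.preimage_isClosed_of_isClosed ?_
      ((hKc.preimage c1).inter (hKc.preimage c2)) isClosed_singleton
    have m1 : MapsTo (fun z : ℝ × ℝ => ((z.1 + z.2 * s, h + s) : ℝ × ℝ))
      (((fun z : ℝ × ℝ => ((z.1 + z.2 * s, h + s) : ℝ × ℝ)) ⁻¹' K) ∩
            ((fun z : ℝ × ℝ => ((z.1, h) : ℝ × ℝ)) ⁻¹' K)) K := fun z hz => hz.1
    have m2 : MapsTo (fun z : ℝ × ℝ => ((z.1, h) : ℝ × ℝ))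
      (((fun z : ℝ × ℝ => ((z.1 + z.2 * s, h + s) : ℝ × ℝ)) ⁻¹' K) ∩
            ((fun z : ℝ × ℝ => ((z.1, h) : ℝ × ℝ)) ⁻¹' K)) K := fun z hz => hz.2
    exact ((hP.comp c1.continuousOn m1).sub (hP.comp c2.continuousOn m2)).prodMk
      ((hQ.comp c1.continuousOn m1).sub (hQ.comp c2.continuousOn m2))
  obtain ⟨R, hR⟩ := hK.isBounded.subset_closedBall 0
  refine Metric.isCompact_of_isClosed_isBounded hcl
    ((Metric.isBounded_closedBall (x := (0 : ℝ × ℝ)) (r := max R 1)).subset ?_)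
  rintro ⟨x, m⟩ ⟨h1, h2⟩
  have := hR (h2.mem hδ)
  rw [Metric.mem_closedBall, dist_zero_right, Prod.norm_def] at this ⊢
  exact max_le_max ((le_max_left _ _).trans this) h1

lemma isCompact_T (hK : IsCompact K) (hP : ContinuousOn P K) (hQ : ContinuousOn Q K)
    {h δ : ℝ} (hδ : 0 < δ) :
    IsCompact ((fun x : ℝ => ((P (x, h), Q (x, h)) : ℝ × ℝ)) ''
      {x | ∃ m, |m| ≤ 1 ∧ SteepAt P Q K h δ x m}) := by
  have hZ := isCompact_param hK hP hQ (h := h) hδ
  have himg : ((fun x : ℝ => ((P (x, h), Q (x, h)) : ℝ × ℝ)) ''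
      {x | ∃ m, |m| ≤ 1 ∧ SteepAt P Q K h δ x m}) =
      (fun z : ℝ × ℝ => ((P (z.1, h), Q (z.1, h)) : ℝ × ℝ)) ''
        {z : ℝ × ℝ | |z.2| ≤ 1 ∧ SteepAt P Q K h δ z.1 z.2} := by
    ext y
    constructor
    · rintro ⟨x, ⟨m, hm, H⟩, rfl⟩
      exact ⟨(x, m), ⟨hm, H⟩, rfl⟩
    · rintro ⟨⟨x, m⟩, ⟨hm, H⟩, rfl⟩
      exact ⟨x, ⟨m, hm, H⟩, rfl⟩
  rw [himg]
  refine hZ.image_of_continuousOn ?_
  have c2 : Continuous (fun z : ℝ × ℝ => ((z.1, h) : ℝ × ℝ)) := by fun_prop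
  have m2 : MapsTo (fun z : ℝ × ℝ => ((z.1, h) : ℝ × ℝ))
      {z : ℝ × ℝ | |z.2| ≤ 1 ∧ SteepAt P Q K h δ z.1 z.2} K := fun z hz => hz.2.mem hδ
  exact (hP.comp c2.continuousOn m2).prodMk (hQ.comp c2.continuousOn m2)

lemma volume_T (hK : IsCompact K) (hu : ∀ w ∈ K, HasFDerivAt u (grad (P w) (Q w)) w)
    (hP : ContinuousOn P K) (hQ : ContinuousOn Q K) {h δ : ℝ} (hδ : 0 < δ) :
    volume ((fun x : ℝ => ((P (x, h), Q (x, h)) : ℝ × ℝ)) ''
      {x | ∃ m, |m| ≤ 1 ∧ SteepAt P Q K h δ x m}) = 0 := by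
  rw [Measure.volume_eq_prod, Measure.measure_prod_null (isCompact_T hK hP hQ hδ).measurableSet]
  refine Eventually.of_forall fun c => ?_
  have hsub : Prod.mk c ⁻¹' ((fun x : ℝ => ((P (x, h), Q (x, h)) : ℝ × ℝ)) ''
      {x | ∃ m, |m| ≤ 1 ∧ SteepAt P Q K h δ x m}) ⊆
      (fun y => Q (y, h)) '' {y | (∃ m, |m| ≤ 1 ∧ SteepAt P Q K h δ y m) ∧ P (y, h) = c} := by
    rintro q ⟨x, hx, hxq⟩
    rw [Prod.mk.injEq] at hxq
    exact ⟨x, ⟨hx, hxq.1⟩, hxq.2⟩
  refine measure_mono_null hsub ?_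
  refine addHaar_image_eq_zero_of_det_fderivWithin_eq_zero volume
    (f' := fun _ => (0 : ℝ →L[ℝ] ℝ)) ?_ ?_
  · rintro x ⟨hx, hxc⟩
    have := (hasDerivWithinAt_zero hu hδ hx hxc).hasFDerivWithinAt
    have e : ContinuousLinearMap.toSpanSingleton ℝ (0 : ℝ) = 0 := by
      ext
      simp
    rw [e] at this
    exact this
  · intro x _
    simp [ContinuousLinearMap.det]

lemma steep_null (hK : IsCompact K) (hu : ∀ w ∈ K, HasFDerivAt u (grad (P w) (Q w)) w)
    (hP : ContinuousOn P K) (hQ : ContinuousOn Q K) :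
    volume ((fun w => ((P w, Q w) : ℝ × ℝ)) '' {w : ℝ × ℝ | ∃ m a b : ℝ, |m| ≤ 1 ∧ a < b ∧
      w.2 ∈ Icc a b ∧ ∀ s ∈ Icc a b, (w.1 + m * (s - w.2), s) ∈ K ∧
        P (w.1 + m * (s - w.2), s) = P w ∧ Q (w.1 + m * (s - w.2), s) = Q w}) = 0 := by
  have hsub : ((fun w => ((P w, Q w) : ℝ × ℝ)) '' {w : ℝ × ℝ | ∃ m a b : ℝ, |m| ≤ 1 ∧ a < b ∧
      w.2 ∈ Icc a b ∧ ∀ s ∈ Icc a b, (w.1 + m * (s - w.2), s) ∈ K ∧
        P (w.1 + m * (s - w.2), s) = P w ∧ Q (w.1 + m * (s - w.2), s) = Q w}) ⊆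
      ⋃ (h : ℚ) (n : ℕ), ((fun x : ℝ => ((P (x, (h : ℝ)), Q (x, (h : ℝ))) : ℝ × ℝ)) ''
      {x | ∃ m, |m| ≤ 1 ∧ SteepAt P Q K h (1 / ((n : ℝ) + 1)) x m}) := by
    rintro _ ⟨w, ⟨m, a, b, hm, hab, hw, H⟩, rfl⟩
    obtain ⟨h, hah, hhb⟩ := exists_rat_btwn hab
    obtain ⟨n, hn⟩ := exists_nat_one_div_lt (lt_min (sub_pos.2 hah) (sub_pos.2 hhb))
    have hn1 : 1 / ((n : ℝ) + 1) < h - a := lt_of_lt_of_le hn (min_le_left _ _)
    have hn2 : 1 / ((n : ℝ) + 1) < b - h := lt_of_lt_of_le hn (min_le_right _ _)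
    have hh := H h ⟨hah.le, hhb.le⟩
    refine mem_iUnion.2 ⟨h, mem_iUnion.2 ⟨n, ⟨w.1 + m * (h - w.2), ⟨m, hm, ?_⟩, ?_⟩⟩⟩
    · intro s hs
      have hs' : (h : ℝ) + s ∈ Icc a b := ⟨by linarith [hs.1], by linarith [hs.2]⟩
      have := H _ hs'
      have e : w.1 + m * ((h : ℝ) - w.2) + m * s = w.1 + m * ((h : ℝ) + s - w.2) := by ring
      rw [e]
      exact ⟨this.1, this.2.1.trans hh.2.1.symm, this.2.2.trans hh.2.2.symm⟩
    · simp only [hh.2.1, hh.2.2]
  refine measure_mono_null hsub ?_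
  rw [measure_iUnion_null_iff]
  intro h
  rw [measure_iUnion_null_iff]
  intro n
  exact volume_T hK hu hP hQ (by positivity)

/-- The planar lemma. -/
theorem planar_null (hK : IsCompact K) (hu : ∀ w ∈ K, HasFDerivAt u (grad (P w) (Q w)) w)
    (hP : ContinuousOn P K) (hQ : ContinuousOn Q K) :
    volume ((fun w => ((P w, Q w) : ℝ × ℝ)) '' {w : ℝ × ℝ | ∃ d : ℝ × ℝ, d ≠ 0 ∧
      ∀ t ∈ Icc (0 : ℝ) 1, w + t • d ∈ K ∧ P (w + t • d) = P w ∧ Q (w + t • d) = Q w}) = 0 := by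
  -- the swapped data
  set K' : Set (ℝ × ℝ) := Prod.swap ⁻¹' K with hK'
  have hK'c : IsCompact K' := by
    have : K' = Prod.swap '' K := by rw [hK', image_swap_eq_preimage_swap]
    rw [this]
    exact hK.image continuous_swap
  have hu' : ∀ w ∈ K', HasFDerivAt (u ∘ Prod.swap) (grad (Q w.swap) (P w.swap)) w := by
    intro w hw
    have h1 := hu w.swap hw
    have h2 : HasFDerivAt (Prod.swap : ℝ × ℝ → ℝ × ℝ)
        ((ContinuousLinearMap.snd ℝ ℝ ℝ).prod (ContinuousLinearMap.fst ℝ ℝ ℝ)) w :=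
      ((ContinuousLinearMap.snd ℝ ℝ ℝ).prod (ContinuousLinearMap.fst ℝ ℝ ℝ)).hasFDerivAt
    have h3 := h1.comp w h2
    have e : grad (Q w.swap) (P w.swap) = (grad (P w.swap) (Q w.swap)).comp
        ((ContinuousLinearMap.snd ℝ ℝ ℝ).prod (ContinuousLinearMap.fst ℝ ℝ ℝ)) := by
      ext <;> simp
    rw [e]
    exact h3
  have hPs : ContinuousOn (P ∘ Prod.swap) K' := hP.comp continuous_swap.continuousOn fun _ h => h
  have hQs : ContinuousOn (Q ∘ Prod.swap) K' := hQ.comp continuous_swap.continuousOn fun _ h => h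
  have A := steep_null hK hu hP hQ
  have B := steep_null (P := Q ∘ Prod.swap) (Q := P ∘ Prod.swap) hK'c hu' hQs hPs
  have B' := (Measure.measurePreserving_swap (μ := (volume : Measure ℝ))
    (ν := (volume : Measure ℝ))).quasiMeasurePreserving.preimage_null B
  refine measure_mono_null ?_ (measure_union_null A B')
  rintro _ ⟨w, ⟨d, hd, H⟩, rfl⟩
  by_cases hcase : |d.1| ≤ |d.2|
  · left
    have hd2 : d.2 ≠ 0 := by
      intro h0
      apply hd
      rw [h0, abs_zero] at hcase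
      exact Prod.ext (abs_nonpos_iff.1 hcase) h0
    have hd2' : 0 < |d.2| := abs_pos.2 hd2
    refine ⟨w, ⟨d.1 / d.2, min w.2 (w.2 + d.2), max w.2 (w.2 + d.2), ?_, ?_, ?_, ?_⟩, rfl⟩
    · rw [abs_div, div_le_one hd2']; exact hcase
    · rcases lt_or_gt_of_ne hd2 with h | h
      · rw [min_eq_right (by linarith), max_eq_left (by linarith)]; linarith
      · rw [min_eq_left (by linarith), max_eq_right (by linarith)]; linarith
    · exact ⟨min_le_left _ _, le_max_left _ _⟩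
    · intro s hs
      have hmem : (s - w.2) / d.2 ∈ Icc (0 : ℝ) 1 := by
        rcases lt_or_gt_of_ne hd2 with h | h
        · rw [min_eq_right (by linarith), max_eq_left (by linarith)] at hs
          refine ⟨div_nonneg_of_nonpos (by linarith [hs.2]) h.le, ?_⟩
          rw [div_le_one_of_neg h]
          linarith [hs.1]
        · rw [min_eq_left (by linarith), max_eq_right (by linarith)] at hs
          refine ⟨div_nonneg (by linarith [hs.1]) h.le, ?_⟩
          rw [div_le_one h]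
          linarith [hs.2]
      have := H _ hmem
      have e : w + ((s - w.2) / d.2) • d = (w.1 + d.1 / d.2 * (s - w.2), s) := by
        ext
        · simp only [Prod.fst_add, Prod.smul_fst, smul_eq_mul]
          ring
        · simp only [Prod.snd_add, Prod.smul_snd, smul_eq_mul]
          field_simp
          ring
      rw [e] at this
      exact this
  · right
    push Not at hcase
    have hd1 : d.1 ≠ 0 := by
      intro h0
      rw [h0, abs_zero] at hcase
      exact absurd hcase (not_lt.2 (abs_nonneg _))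
    have hd1' : 0 < |d.1| := abs_pos.2 hd1
    rw [mem_preimage]
    refine ⟨w.swap, ⟨d.2 / d.1, min w.1 (w.1 + d.1), max w.1 (w.1 + d.1), ?_, ?_, ?_, ?_⟩, ?_⟩
    · rw [abs_div, div_le_one hd1']; exact hcase.le
    · rcases lt_or_gt_of_ne hd1 with h | h
      · rw [min_eq_right (by linarith), max_eq_left (by linarith)]; linarith
      · rw [min_eq_left (by linarith), max_eq_right (by linarith)]; linarith
    · exact ⟨min_le_left _ _, le_max_left _ _⟩
    · intro s hs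
      have hmem : (s - w.1) / d.1 ∈ Icc (0 : ℝ) 1 := by
        rcases lt_or_gt_of_ne hd1 with h | h
        · rw [min_eq_right (by linarith), max_eq_left (by linarith)] at hs
          refine ⟨div_nonneg_of_nonpos (by linarith [hs.2]) h.le, ?_⟩
          rw [div_le_one_of_neg h]
          linarith [hs.1]
        · rw [min_eq_left (by linarith), max_eq_right (by linarith)] at hs
          refine ⟨div_nonneg (by linarith [hs.1]) h.le, ?_⟩
          rw [div_le_one h]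
          linarith [hs.2]
      have := H _ hmem
      have e : w + ((s - w.1) / d.1) • d = (s, w.2 + d.2 / d.1 * (s - w.1)) := by
        ext
        · simp only [Prod.fst_add, Prod.smul_fst, smul_eq_mul]
          field_simp
          ring
        · simp only [Prod.snd_add, Prod.smul_snd, smul_eq_mul]
          ring
      rw [e] at this
      simp only [hK', mem_preimage, Prod.fst_swap, Prod.snd_swap, Prod.swap_prod_mk,
        Function.comp_apply]
      exact ⟨this.1, this.2.2.trans (by simp), this.2.1.trans (by simp)⟩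
    · simp

end Pool.Agent.R747
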