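import Mathlib

/-!
Definitions for `C¹` surfaces in Euclidean 3-space: tangent planes, torses, semi-torses, unit
normals and Pogorelov's class of surfaces of bounded extrinsic curvature.
-/

open Set MeasureTheory
open scoped Manifold ContDiff RealInnerProductSpace

namespace Pool.Agent.R747

/-- Euclidean 3-space. -/
abbrev E3 : Type := EuclideanSpace ℝ (Fin 3)

section general

variable {E H N F : Type*} [NormedAddCommGroup E] [NormedSpace ℝ E] [TopologicalSpace H]
  [TopologicalSpace N] [ChartedSpace H N] [NormedAddCommGroup F] [NormedSpace ℝ F]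

/-- `f` is a `C¹` immersion of a manifold into a normed space. -/
def IsC1ImmersionInto (I : ModelWithCorners ℝ E H) (f : N → F) : Prop :=
  ContMDiff I 𝓘(ℝ, F) 1 f ∧ ∀ p : N, Function.Injective (mfderiv I 𝓘(ℝ, F) f p)

/-- The range of the differential at `p` of a map `f` of a manifold into a normed space. -/
def differentialRange (I : ModelWithCorners ℝ E H) (f : N → F) (p : N) : Set F :=
  Set.range (fun v : TangentSpace I p => (mfderiv I 𝓘(ℝ, F) f p v : F))

end general

variable {M : Type*} [TopologicalSpace M] [ChartedSpace (EuclideanSpace ℝ (Fin 2)) M]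

/-- `f : M → E3` is a `C¹` immersion of the 2-manifold `M`; such an `f` is a `C¹` surface. -/
def IsC1Immersion (f : M → E3) : Prop := IsC1ImmersionInto (𝓡 2) f

/-- The direction space of the tangent plane of the surface `f` at the point `p`, i.e. the range
of the differential. The tangent plane itself is `f p + tangentPlane f p`. -/
def tangentPlane (f : M → E3) (p : M) : Set E3 := differentialRange (𝓡 2) f p

/-- A stationary segment with end point `p` emanates from `p`: a path `c` in `M` starting at `p`
which `f` maps affinely onto a straight segment of positive length, with the same tangent plane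
at all points of the path. (As the segment lies in the surface, its direction belongs to all the
tangent planes along it, and the planes coincide if and only if their direction spaces do.) -/
def EmanatesFrom (f : M → E3) (p : M) : Prop :=
  ∃ (d : E3) (ε : ℝ) (c : ℝ → M), d ≠ 0 ∧ 0 < ε ∧ ContinuousOn c (Icc 0 ε) ∧ c 0 = p ∧
    (∀ t ∈ Icc 0 ε, f (c t) = f p + t • d) ∧
    ∀ t ∈ Icc 0 ε, tangentPlane f (c t) = tangentPlane f p

/-- A stationary segment passes through `p` : the point `p` is an interior point of it. -/
def PassesThrough (f : M → E3) (p : M) : Prop :=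
  ∃ (d : E3) (ε : ℝ) (c : ℝ → M), d ≠ 0 ∧ 0 < ε ∧ ContinuousOn c (Icc (-ε) ε) ∧ c 0 = p ∧
    (∀ t ∈ Icc (-ε) ε, f (c t) = f p + t • d) ∧
    ∀ t ∈ Icc (-ε) ε, tangentPlane f (c t) = tangentPlane f p

/-- A torse: a stationary segment passes through every point. -/
def IsTorse (f : M → E3) : Prop := ∀ p : M, PassesThrough f p

/-- A semi-torse: a stationary segment emanates from every point. -/
def IsSemiTorse (f : M → E3) : Prop := ∀ p : M, EmanatesFrom f p

/-- `ν` is a unit normal vector of the surface `f` at the point `p`. -/
def IsUnitNormal (f : M → E3) (p : M) (ν : E3) : Prop :=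
  ‖ν‖ = 1 ∧ ∀ v ∈ tangentPlane f p, ⟪ν, v⟫ = 0

/-- `n` is a continuous unit normal field of the surface `f` on the set `G`. -/
def IsUnitNormalFieldOn (f : M → E3) (G : Set M) (n : M → E3) : Prop :=
  ContinuousOn n G ∧ ∀ q ∈ G, IsUnitNormal f q (n q)

/-- Bounded extrinsic curvature in the sense of Pogorelov: every point has a neighbourhood `G` with
a continuous unit normal field `n` and a constant `C` such that, for every finite family of pairwise
disjoint (relatively) closed subsets of `G`, the sum of the areas of their spherical images is at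
most `C`. The area of a subset of the unit sphere is its two-dimensional Hausdorff measure (in
Mathlib's normalisation, a constant multiple of Lebesgue measure on the sphere). -/
def IsBECP (f : M → E3) : Prop :=
  ∀ p : M, ∃ G : Set M, IsOpen G ∧ p ∈ G ∧ ∃ n : M → E3, IsUnitNormalFieldOn f G n ∧
    ∃ C : NNReal, ∀ (k : ℕ) (H : Fin k → Set M), (∀ i, ∃ F, IsClosed F ∧ H i = F ∩ G) →
      Pairwise (fun i j => Disjoint (H i) (H j)) → ∑ i, μH[2] (n '' H i) ≤ (C : ENNReal)

theorem IsTorse.isSemiTorse {f : M → E3} (h : IsTorse f) : IsSemiTorse f := by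
  intro p
  obtain ⟨d, ε, c, hd, hε, hc, hc0, hf, ht⟩ := h p
  have hsub : Icc (0 : ℝ) ε ⊆ Icc (-ε) ε := Icc_subset_Icc (by linarith) le_rfl
  exact ⟨d, ε, c, hd, hε, hc.mono hsub, hc0, fun t ht' => hf t (hsub ht'),
    fun t ht' => ht t (hsub ht')⟩

end Pool.Agent.R747
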