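import Mathlib
import Pool.Agent.R747.TorseDefs
import Pool.Agent.R747.Planar

/-!
A `C¹` surface in Euclidean 3-space is locally a graph.
-/

open Set Filter Topology MeasureTheory
open scoped Manifold ContDiff RealInnerProductSpace

namespace Pool.Agent.R747

variable {M : Type*} [TopologicalSpace M] [ChartedSpace (EuclideanSpace ℝ (Fin 2)) M]

/-- Coordinates with respect to the first two vectors of an orthonormal basis. -/
noncomputable def pr (b : OrthonormalBasis (Fin 3) ℝ E3) : E3 →L[ℝ] ℝ × ℝ :=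
  (innerSL ℝ (b 0)).prod (innerSL ℝ (b 1))

@[simp] lemma pr_apply (b : OrthonormalBasis (Fin 3) ℝ E3) (v : E3) :
    pr b v = (⟪b 0, v⟫, ⟪b 1, v⟫) := by
  simp [pr]

/-- For an immersed point there is an orthonormal basis whose last vector is normal. -/
lemma exists_basis {F : Type*} [NormedAddCommGroup F] [NormedSpace ℝ F]
    (hF : Module.finrank ℝ F = 2) [FiniteDimensional ℝ F] (A : F →L[ℝ] E3) :
    ∃ b : OrthonormalBasis (Fin 3) ℝ E3, ∀ v, ⟪b 2, A v⟫ = 0 := by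
  set R : Submodule ℝ E3 := LinearMap.range (A : F →ₗ[ℝ] E3) with hR
  have h1 : Module.finrank ℝ R ≤ 2 := hF ▸ LinearMap.finrank_range_le _
  have h2 : Module.finrank ℝ R + Module.finrank ℝ Rᗮ = 3 := by
    rw [Submodule.finrank_add_finrank_orthogonal]; simp
  have h3 : 0 < Module.finrank ℝ Rᗮ := by omega
  have : Nontrivial Rᗮ := Module.finrank_pos_iff.1 h3
  obtain ⟨n, hn⟩ := exists_ne (0 : Rᗮ)
  have hn0 : (n : E3) ≠ 0 := fun h => hn (Subtype.ext h)
  set ν : E3 := (‖(n : E3)‖)⁻¹ • (n : E3) with hν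
  have hνn : ‖ν‖ = 1 := by
    rw [hν, norm_smul, norm_inv, norm_norm, inv_mul_cancel₀ (norm_ne_zero_iff.2 hn0)]
  have hon : Orthonormal ℝ (({2} : Set (Fin 3)).domRestrict (fun _ : Fin 3 => ν)) := by
    constructor
    · intro i; simpa using hνn
    · intro i j hij
      exact absurd (Subtype.ext (i.2.trans j.2.symm)) hij
  obtain ⟨b, hb⟩ := hon.exists_orthonormalBasis_extension_of_card_eq (by simp)
  refine ⟨b, fun v => ?_⟩
  rw [hb 2 (by simp), hν, inner_smul_left]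
  have : ⟪(A v : E3), (n : E3)⟫ = 0 := (Submodule.mem_orthogonal _ _).1 n.2 (A v) ⟨v, rfl⟩
  rw [real_inner_comm, this, mul_zero]

lemma basis_ext (b : OrthonormalBasis (Fin 3) ℝ E3) {v : E3} (h0 : ⟪b 0, v⟫ = 0)
    (h1 : ⟪b 1, v⟫ = 0) (h2 : ⟪b 2, v⟫ = 0) : v = 0 := by
  have := b.sum_repr' v
  rw [Fin.sum_univ_three, h0, h1, h2] at this
  simpa using this.symm

/-- Local description of a `C¹` surface as a graph. -/
structure GraphData (f : M → E3) (p : M) where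
  b : OrthonormalBasis (Fin 3) ℝ E3
  N : Set M
  u : ℝ × ℝ → ℝ
  P : ℝ × ℝ → ℝ
  Q : ℝ × ℝ → ℝ
  K : Set (ℝ × ℝ)
  r : ℝ
  hr : 0 < r
  hKball : K = Metric.closedBall (pr b (f p)) r
  isOpen_N : IsOpen N
  mem_N : p ∈ N
  hu : ∀ w ∈ K, HasFDerivAt u (grad (P w) (Q w)) w
  hP : ContinuousOn P K
  hQ : ContinuousOn Q K
  maps : ∀ q ∈ N, pr b (f q) ∈ Metric.ball (pr b (f p)) r
  inj : InjOn (fun q => pr b (f q)) N
  eq : ∀ q ∈ N, ⟪b 2, f q⟫ = u (pr b (f q))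

lemma fderiv_eq_grad {u : ℝ × ℝ → ℝ} {w : ℝ × ℝ} (h : DifferentiableAt ℝ u w) :
    HasFDerivAt u (grad (fderiv ℝ u w (1, 0)) (fderiv ℝ u w (0, 1))) w := by
  have e : grad (fderiv ℝ u w (1, 0)) (fderiv ℝ u w (0, 1)) = fderiv ℝ u w := by
    ext <;> simp
  rw [e]
  exact h.hasFDerivAt

theorem exists_graphData [IsManifold (𝓡 2) 1 M] {f : M → E3} (hf : IsC1Immersion f) (p : M) :
    Nonempty (GraphData f p) := by
  set e := chartAt (EuclideanSpace ℝ (Fin 2)) p with he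
  have hps : p ∈ e.source := mem_chart_source _ p
  have hpt : e p ∈ e.target := e.map_source hps
  set F : EuclideanSpace ℝ (Fin 2) → E3 := f ∘ e.symm with hF
  -- smoothness of F at e p
  have hesm : ContMDiffAt (𝓡 2) (𝓡 2) 1 e.symm (e p) :=
    contMDiffAt_symm_of_mem_maximalAtlas
      (IsManifold.subset_maximalAtlas (chart_mem_atlas _ p)) hpt
  have hFc : ContDiffAt ℝ 1 F (e p) := by
    rw [← contMDiffAt_iff_contDiffAt]
    exact (hf.1.contMDiffAt (x := e.symm (e p))).comp (e p) hesm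
  -- injectivity of the derivative
  have hFinj : Function.Injective (fderiv ℝ F (e p)) := by
    have h1 : mfderiv (𝓡 2) 𝓘(ℝ, E3) F (e p) =
        (mfderiv (𝓡 2) 𝓘(ℝ, E3) f (e.symm (e p))).comp (mfderiv (𝓡 2) (𝓡 2) e.symm (e p)) :=
      mfderiv_comp (e p) ((hf.1.contMDiffAt (x := e.symm (e p))).mdifferentiableAt one_ne_zero)
        (hesm.mdifferentiableAt one_ne_zero)
    rw [mfderiv_eq_fderiv] at h1
    have h2 : Function.Injective (mfderiv (𝓡 2) (𝓡 2) e.symm (e p)) :=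
      (mdifferentiable_chart p).symm.mfderiv_injective (by simpa using hpt)
    intro v v' hv
    rw [h1] at hv
    exact h2 (hf.2 _ hv)
  obtain ⟨b, hb⟩ := exists_basis (F := EuclideanSpace ℝ (Fin 2)) (by simp) (fderiv ℝ F (e p))
  -- the projected map
  set G : EuclideanSpace ℝ (Fin 2) → ℝ × ℝ := fun x => pr b (F x) with hG
  have hGc : ContDiffAt ℝ 1 G (e p) := (pr b).contDiff.contDiffAt.comp (e p) hFc
  have hGd : HasFDerivAt G ((pr b).comp (fderiv ℝ F (e p))) (e p) :=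
    (pr b).hasFDerivAt.comp (e p) (hFc.differentiableAt one_ne_zero).hasFDerivAt
  have hGinj : Function.Injective ((pr b).comp (fderiv ℝ F (e p)) :
      EuclideanSpace ℝ (Fin 2) →ₗ[ℝ] ℝ × ℝ) := by
    rw [injective_iff_map_eq_zero]
    intro v hv
    have hv' : pr b (fderiv ℝ F (e p) v) = 0 := hv
    rw [pr_apply, Prod.mk_eq_zero] at hv'
    have : fderiv ℝ F (e p) v = 0 := basis_ext b hv'.1 hv'.2 (hb v)
    exact hFinj (by rw [this, map_zero])
  set A : EuclideanSpace ℝ (Fin 2) ≃L[ℝ] ℝ × ℝ :=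
    (LinearEquiv.ofInjectiveOfFinrankEq _ hGinj (by simp)).toContinuousLinearEquiv with hA
  have hGd' : HasFDerivAt G (A : EuclideanSpace ℝ (Fin 2) →L[ℝ] ℝ × ℝ) (e p) := by
    have : (A : EuclideanSpace ℝ (Fin 2) →L[ℝ] ℝ × ℝ) = (pr b).comp (fderiv ℝ F (e p)) := by
      ext v <;> rfl
    rw [this]
    exact hGd
  set Θ := hGc.toOpenPartialHomeomorph G hGd' one_ne_zero with hΘ
  have hΘc : ∀ x, Θ x = G x := fun x => rfl
  have hΘs : e p ∈ Θ.source := hGc.mem_toOpenPartialHomeomorph_source hGd' one_ne_zero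
  have hΘt : G (e p) ∈ Θ.target := hGc.image_mem_toOpenPartialHomeomorph_target hGd' one_ne_zero
  have hΘsym : ContDiffAt ℝ 1 Θ.symm (G (e p)) := by
    have h0 : Θ.symm (G (e p)) = e p := Θ.left_inv hΘs
    refine Θ.contDiffAt_symm (f₀' := A) hΘt ?_ ?_
    · rw [h0]; exact hGd'
    · rw [h0]; exact hGc
  have hw0 : G (e p) = pr b (f p) := by
    simp only [hG, hF, Function.comp_apply, e.left_inv hps]
  -- the height function
  set u : ℝ × ℝ → ℝ := fun w => ⟪b 2, F (Θ.symm w)⟫ with hu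
  have huc : ContDiffAt ℝ 1 u (pr b (f p)) := by
    have h0 : Θ.symm (G (e p)) = e p := Θ.left_inv hΘs
    have h1 : ContDiffAt ℝ 1 (F ∘ Θ.symm) (G (e p)) := by
      refine ContDiffAt.comp (G (e p)) ?_ hΘsym
      rw [h0]; exact hFc
    rw [← hw0]
    exact (innerSL ℝ (b 2)).contDiff.contDiffAt.comp (G (e p)) h1
  have hev : ∀ᶠ w in 𝓝 (pr b (f p)), ContDiffAt ℝ 1 u w := huc.eventually (by simp)
  obtain ⟨r, hr, hrK⟩ := Metric.nhds_basis_closedBall.eventually_iff.1 hev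
  have hcont : ∀ w ∈ Metric.closedBall (pr b (f p)) r, ContinuousAt (fderiv ℝ u) w := fun w hw =>
    ((hrK hw).fderiv_right (m := 0) (by simp)).continuousAt
  have hfcont : Continuous f := hf.1.continuous
  refine ⟨⟨b, e.source ∩ e ⁻¹' Θ.source ∩ (fun q => pr b (f q)) ⁻¹' Metric.ball (pr b (f p)) r,
    u, fun w => fderiv ℝ u w (1, 0), fun w => fderiv ℝ u w (0, 1),
    Metric.closedBall (pr b (f p)) r, r, hr, rfl, ?_, ?_, ?_, ?_, ?_, ?_, ?_, ?_⟩⟩
  · exact (e.isOpen_inter_preimage Θ.open_source).inter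
      (Metric.isOpen_ball.preimage ((pr b).continuous.comp hfcont))
  · exact ⟨⟨hps, hΘs⟩, Metric.mem_ball_self hr⟩
  · intro w hw
    exact fderiv_eq_grad ((hrK hw).differentiableAt one_ne_zero)
  · intro w hw
    exact ((hcont w hw).clm_apply continuousAt_const).continuousWithinAt
  · intro w hw
    exact ((hcont w hw).clm_apply continuousAt_const).continuousWithinAt
  · intro q hq
    exact hq.2
  · intro q hq q' hq' hqq
    have h1 : G (e q) = pr b (f q) := by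
      simp only [hG, hF, Function.comp_apply, e.left_inv hq.1.1]
    have h2 : G (e q') = pr b (f q') := by
      simp only [hG, hF, Function.comp_apply, e.left_inv hq'.1.1]
    have h3 : e q = e q' := Θ.injOn hq.1.2 hq'.1.2 (by
      rw [hΘc, hΘc, h1, h2]; exact hqq)
    exact e.injOn hq.1.1 hq'.1.1 h3
  · intro q hq
    have h1 : G (e q) = pr b (f q) := by
      simp only [hG, hF, Function.comp_apply, e.left_inv hq.1.1]
    have h2 : Θ.symm (pr b (f q)) = e q := by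
      rw [← h1]; exact Θ.left_inv hq.1.2
    simp only [hu, h2, hF, Function.comp_apply, e.left_inv hq.1.1]

/-- The tangent planes of a graph. -/
theorem GraphData.tangentPlane_eq [IsManifold (𝓡 2) 1 M] {f : M → E3} (hf : IsC1Immersion f)
    {p : M} (D : GraphData f p) {q : M} (hq : q ∈ D.N) :
    tangentPlane f q = {x : E3 | ⟪D.b 2, x⟫ =
      D.P (pr D.b (f q)) * ⟪D.b 0, x⟫ + D.Q (pr D.b (f q)) * ⟪D.b 1, x⟫} := by
  set w := pr D.b (f q) with hw
  have hwK : w ∈ D.K := by rw [D.hKball]; exact Metric.ball_subset_closedBall (D.maps q hq)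
  -- differentiate the graph equation
  have hfd : MDifferentiableAt (𝓡 2) 𝓘(ℝ, E3) f q :=
    (hf.1.contMDiffAt (x := q)).mdifferentiableAt one_ne_zero
  have hsub : ∀ v : TangentSpace (𝓡 2) q, ⟪D.b 2, (mfderiv (𝓡 2) 𝓘(ℝ, E3) f q v : E3)⟫ =
      D.P w * ⟪D.b 0, (mfderiv (𝓡 2) 𝓘(ℝ, E3) f q v : E3)⟫ +
        D.Q w * ⟪D.b 1, (mfderiv (𝓡 2) 𝓘(ℝ, E3) f q v : E3)⟫ := by
    have h1 : HasMFDerivAt 𝓘(ℝ, E3) 𝓘(ℝ, ℝ) (innerSL ℝ (D.b 2)) (f q) (innerSL ℝ (D.b 2)) :=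
      (innerSL ℝ (D.b 2)).hasFDerivAt.hasMFDerivAt
    have h2 : HasMFDerivAt 𝓘(ℝ, E3) 𝓘(ℝ, ℝ) (D.u ∘ pr D.b) (f q)
        ((grad (D.P w) (D.Q w)).comp (pr D.b)) :=
      ((D.hu w hwK).comp (f q) (pr D.b).hasFDerivAt).hasMFDerivAt
    have h3 := h1.comp q hfd.hasMFDerivAt
    have h4 := h2.comp q hfd.hasMFDerivAt
    have h5 : (innerSL ℝ (D.b 2) ∘ f) =ᶠ[𝓝 q] ((D.u ∘ pr D.b) ∘ f) := by
      filter_upwards [D.isOpen_N.mem_nhds hq] with q' hq'
      simpa using D.eq q' hq'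
    have h6 := h4.congr_of_eventuallyEq h5
    have h7 := hasMFDerivAt_unique h3 h6
    intro v
    have h8 : (⟪D.b 2, (mfderiv (𝓡 2) 𝓘(ℝ, E3) f q v : E3)⟫ : ℝ) =
        grad (D.P w) (D.Q w) (pr D.b (mfderiv (𝓡 2) 𝓘(ℝ, E3) f q v : E3)) :=
      congrArg (fun L => L v) h7
    have key : ∀ y : E3, grad (D.P w) (D.Q w) (pr D.b y) =
        D.P w * ⟪D.b 0, y⟫ + D.Q w * ⟪D.b 1, y⟫ := fun y => by simp
    exact h8.trans (key _)
  set A : EuclideanSpace ℝ (Fin 2) →ₗ[ℝ] E3 :=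
    (mfderiv (𝓡 2) 𝓘(ℝ, E3) f q : EuclideanSpace ℝ (Fin 2) →L[ℝ] E3).toLinearMap with hA
  have hAinj : Function.Injective A := hf.2 q
  have hR : Module.finrank ℝ (LinearMap.range A) = 2 := by
    rw [LinearMap.finrank_range_of_inj hAinj]; simp
  set φ : E3 →ₗ[ℝ] ℝ :=
    (innerSL ℝ (D.b 2 - D.P w • D.b 0 - D.Q w • D.b 1)).toLinearMap with hφ
  have hφa : ∀ x, φ x = ⟪D.b 2, x⟫ - D.P w * ⟪D.b 0, x⟫ - D.Q w * ⟪D.b 1, x⟫ := by
    intro x
    simp [hφ, inner_sub_left, inner_smul_left]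
  have hb : ∀ i j, ⟪D.b i, D.b j⟫ = if i = j then (1 : ℝ) else 0 :=
    orthonormal_iff_ite.1 D.b.orthonormal
  have hφ0 : φ ≠ 0 := by
    intro h0
    have := hφa (D.b 2)
    rw [h0, hb, hb, hb] at this
    simp at this
  have hker : Module.finrank ℝ (LinearMap.ker φ) = 2 := by
    have h1 := LinearMap.finrank_range_add_finrank_ker φ
    have h2 : LinearMap.range φ = ⊤ := LinearMap.range_eq_top.2 (LinearMap.surjective hφ0)
    rw [h2, finrank_top] at h1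
    simp at h1
    omega
  have hle : LinearMap.range A ≤ LinearMap.ker φ := by
    rintro _ ⟨v, rfl⟩
    rw [LinearMap.mem_ker, hφa]
    have := hsub v
    change ⟪D.b 2, A v⟫ = D.P w * ⟪D.b 0, A v⟫ + D.Q w * ⟪D.b 1, A v⟫ at this
    rw [this]
    ring
  have heq := Submodule.eq_of_le_of_finrank_eq hle (hR.trans hker.symm)
  ext x
  have h1 : x ∈ tangentPlane f q ↔ x ∈ LinearMap.range A := by
    constructor
    · rintro ⟨v, hv⟩; exact ⟨v, hv⟩
    · rintro ⟨v, hv⟩; exact ⟨v, hv⟩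
  rw [h1, heq, LinearMap.mem_ker, hφa, mem_ofPred_eq]
  constructor
  · intro h; linarith
  · intro h; linarith

/-- The unit normal of a graph. -/
noncomputable def nu (b : OrthonormalBasis (Fin 3) ℝ E3) (z : ℝ × ℝ) : E3 :=
  ‖b 2 - z.1 • b 0 - z.2 • b 1‖⁻¹ • (b 2 - z.1 • b 0 - z.2 • b 1)

lemma inner_basis (b : OrthonormalBasis (Fin 3) ℝ E3) (i j : Fin 3) :
    ⟪b i, b j⟫ = if i = j then (1 : ℝ) else 0 :=
  orthonormal_iff_ite.1 b.orthonormal i j

lemma one_le_norm (b : OrthonormalBasis (Fin 3) ℝ E3) (z : ℝ × ℝ) :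
    1 ≤ ‖b 2 - z.1 • b 0 - z.2 • b 1‖ := by
  have h1 : ⟪b 2, b 2 - z.1 • b 0 - z.2 • b 1⟫ = (1 : ℝ) := by
    simp [inner_sub_right, inner_smul_right, inner_basis]
  have h2 := real_inner_le_norm (b 2) (b 2 - z.1 • b 0 - z.2 • b 1)
  rw [h1, b.norm_eq_one, one_mul] at h2
  exact h2

lemma norm_nu (b : OrthonormalBasis (Fin 3) ℝ E3) (z : ℝ × ℝ) : ‖nu b z‖ = 1 := by
  have h := one_le_norm b z
  rw [nu, norm_smul, norm_inv, norm_norm, inv_mul_cancel₀ (by linarith)]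

lemma lipschitz_normalize {V : Type*} [NormedAddCommGroup V] [NormedSpace ℝ V] {v w : V}
    (hv : 1 ≤ ‖v‖) (hw : 1 ≤ ‖w‖) : ‖‖v‖⁻¹ • v - ‖w‖⁻¹ • w‖ ≤ 2 * ‖v - w‖ := by
  have hv0 : 0 < ‖v‖ := by linarith
  have hw0 : 0 < ‖w‖ := by linarith
  have e : ‖v‖⁻¹ • v - ‖w‖⁻¹ • w = ‖v‖⁻¹ • (v - w) + (‖v‖⁻¹ * (‖w‖ - ‖v‖)) • (‖w‖⁻¹ • w) := by
    rw [smul_sub, smul_smul]
    have : ‖v‖⁻¹ * (‖w‖ - ‖v‖) * ‖w‖⁻¹ = ‖v‖⁻¹ - ‖w‖⁻¹ := by
      field_simp
    rw [this, sub_smul]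
    abel
  rw [e]
  have hi : ‖v‖⁻¹ ≤ 1 := inv_le_one_of_one_le₀ hv
  have hnn : 0 ≤ ‖v - w‖ := norm_nonneg _
  have h1 : ‖‖v‖⁻¹ • (v - w)‖ ≤ ‖v - w‖ := by
    rw [norm_smul, norm_inv, norm_norm]
    calc ‖v‖⁻¹ * ‖v - w‖ ≤ 1 * ‖v - w‖ := by gcongr
      _ = ‖v - w‖ := one_mul _
  have h2 : ‖(‖v‖⁻¹ * (‖w‖ - ‖v‖)) • (‖w‖⁻¹ • w)‖ ≤ ‖v - w‖ := by
    rw [norm_smul, norm_smul, norm_inv, norm_norm, inv_mul_cancel₀ hw0.ne', mul_one, norm_mul,
      norm_inv, norm_norm, Real.norm_eq_abs]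
    have h3 : |‖w‖ - ‖v‖| ≤ ‖v - w‖ := by
      rw [← norm_sub_rev w v]; exact abs_norm_sub_norm_le w v
    calc ‖v‖⁻¹ * |‖w‖ - ‖v‖| ≤ 1 * ‖v - w‖ := by gcongr
      _ = ‖v - w‖ := one_mul _
  calc _ ≤ _ := norm_add_le _ _
    _ ≤ 2 * ‖v - w‖ := by linarith

lemma lipschitz_nu (b : OrthonormalBasis (Fin 3) ℝ E3) : LipschitzWith 4 (nu b) := by
  refine LipschitzWith.of_dist_le_mul fun z z' => ?_
  rw [dist_eq_norm, dist_eq_norm]
  refine (lipschitz_normalize (one_le_norm b z) (one_le_norm b z')).trans ?_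
  have e : b 2 - z.1 • b 0 - z.2 • b 1 - (b 2 - z'.1 • b 0 - z'.2 • b 1) =
      (z'.1 - z.1) • b 0 + (z'.2 - z.2) • b 1 := by
    rw [sub_smul, sub_smul]
    abel
  rw [e]
  have h1 : ‖(z'.1 - z.1) • b 0‖ ≤ ‖z - z'‖ := by
    rw [norm_smul, b.norm_eq_one, mul_one, norm_sub_rev]
    exact norm_fst_le (z - z')
  have h2 : ‖(z'.2 - z.2) • b 1‖ ≤ ‖z - z'‖ := by
    rw [norm_smul, b.norm_eq_one, mul_one, norm_sub_rev]
    exact norm_snd_le (z - z')
  have h3 := norm_add_le ((z'.1 - z.1) • b 0) ((z'.2 - z.2) • b 1)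
  have : ((4 : NNReal) : ℝ) = 4 := rfl
  rw [this]
  linarith

/-- The unit normals of a graph are `± nu`. -/
lemma eq_nu_or (b : OrthonormalBasis (Fin 3) ℝ E3) {P Q : ℝ} {ν : E3} (hν : ‖ν‖ = 1)
    (h : ∀ x : E3, ⟪b 2, x⟫ = P * ⟪b 0, x⟫ + Q * ⟪b 1, x⟫ → ⟪ν, x⟫ = 0) :
    ν = nu b (P, Q) ∨ ν = -nu b (P, Q) := by
  have h0 : ⟪ν, b 0 + P • b 2⟫ = 0 := h _ (by
    simp [inner_add_right, inner_smul_right, inner_basis])
  have h1 : ⟪ν, b 1 + Q • b 2⟫ = 0 := h _ (by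
    simp [inner_add_right, inner_smul_right, inner_basis])
  rw [inner_add_right, inner_smul_right, real_inner_comm, real_inner_comm (b 2)] at h0 h1
  have hd : ν = ⟪b 2, ν⟫ • (b 2 - P • b 0 - Q • b 1) := by
    have := b.sum_repr' ν
    rw [Fin.sum_univ_three] at this
    have e0 : ⟪b 0, ν⟫ = -(P * ⟪b 2, ν⟫) := by linarith
    have e1 : ⟪b 1, ν⟫ = -(Q * ⟪b 2, ν⟫) := by linarith
    rw [e0, e1] at this
    conv_lhs => rw [← this]
    module
  set v := b 2 - P • b 0 - Q • b 1 with hv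
  have hv1 : 1 ≤ ‖v‖ := one_le_norm b (P, Q)
  have hn : |⟪b 2, ν⟫| * ‖v‖ = 1 := by
    rw [← Real.norm_eq_abs, ← norm_smul, ← hd, hν]
  have habs : |⟪b 2, ν⟫| = ‖v‖⁻¹ := eq_inv_of_mul_eq_one_left hn
  have hnu : nu b (P, Q) = ‖v‖⁻¹ • v := rfl
  rcases abs_eq_abs.1 (habs.trans (abs_of_nonneg (inv_nonneg.2 (norm_nonneg v))).symm) with h | h
  · left; rw [hnu, ← h]; exact hd
  · right; rw [hnu, ← neg_smul, ← h]; exact hd

/-- The set of gradients at the points of a graph chart from which stationary segments emanate. -/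
def gradSet (P Q : ℝ × ℝ → ℝ) (K : Set (ℝ × ℝ)) : Set (ℝ × ℝ) :=
  (fun w => ((P w, Q w) : ℝ × ℝ)) '' {w : ℝ × ℝ | ∃ d : ℝ × ℝ, d ≠ 0 ∧
      ∀ t ∈ Icc (0 : ℝ) 1, w + t • d ∈ K ∧ P (w + t • d) = P w ∧ Q (w + t • d) = Q w}

theorem GraphData.mem_gradSet [IsManifold (𝓡 2) 1 M] {f : M → E3} (hf : IsC1Immersion f)
    {p : M} (D : GraphData f p) {q : M} (hq : q ∈ D.N) (hs : EmanatesFrom f q) :
    (D.P (pr D.b (f q)), D.Q (pr D.b (f q))) ∈ gradSet D.P D.Q D.K := by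
  obtain ⟨d, ε, c, hd, hε, hc, hc0, hfc, htp⟩ := hs
  -- shrink the segment into the chart
  have hcw : ContinuousWithinAt c (Icc 0 ε) 0 := hc 0 ⟨le_rfl, hε.le⟩
  have hev : ∀ᶠ t in 𝓝[Icc 0 ε] (0 : ℝ), c t ∈ D.N :=
    hcw (by rw [hc0]; exact D.isOpen_N.mem_nhds hq)
  obtain ⟨δ, hδ, hδs⟩ : ∃ δ : ℝ, 0 < δ ∧ ∀ t ∈ Icc 0 δ, t ∈ Icc 0 ε ∧ c t ∈ D.N := by
    rw [eventually_nhdsWithin_iff, Metric.eventually_nhds_iff] at hev
    obtain ⟨η, hη, h⟩ := hev
    refine ⟨min (η / 2) ε, lt_min (by positivity) hε, fun t ht => ?_⟩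
    have h1 : t ≤ η / 2 := ht.2.trans (min_le_left _ _)
    have h2 : t ∈ Icc 0 ε := ⟨ht.1, ht.2.trans (min_le_right _ _)⟩
    refine ⟨h2, h (y := t) ?_ h2⟩
    rw [Real.dist_eq, sub_zero, abs_of_nonneg ht.1]
    linarith
  refine ⟨pr D.b (f q), ⟨δ • pr D.b d, ?_, ?_⟩, rfl⟩
  · intro h0
    rcases smul_eq_zero.1 h0 with h | h
    · exact hδ.ne' h
    · have h1 := hδs δ ⟨hδ.le, le_rfl⟩
      have h2 : pr D.b (f (c δ)) = pr D.b (f q) := by
        rw [hfc δ h1.1, map_add, map_smul, h, smul_zero, add_zero]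
      have h3 : c δ = q := D.inj h1.2 hq h2
      have h4 := hfc δ h1.1
      rw [h3] at h4
      have h5 : δ • d = 0 := by
        have := h4.symm
        rwa [add_eq_left] at this
      rcases smul_eq_zero.1 h5 with h | h
      · exact hδ.ne' h
      · exact hd h
  · intro t ht
    have hδt : δ * t ∈ Icc 0 δ := ⟨by nlinarith [ht.1], by nlinarith [ht.2]⟩
    obtain ⟨h1, h2⟩ := hδs (δ * t) hδt
    have e : pr D.b (f q) + t • (δ • pr D.b d) = pr D.b (f (c (δ * t))) := by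
      rw [hfc _ h1, map_add, map_smul, smul_smul, mul_comm t δ]
    rw [e]
    have hT := htp _ h1
    rw [D.tangentPlane_eq hf h2, D.tangentPlane_eq hf hq] at hT
    have m0 : D.b 0 + D.P (pr D.b (f q)) • D.b 2 ∈ {x : E3 | ⟪D.b 2, x⟫ =
      D.P (pr D.b (f q)) * ⟪D.b 0, x⟫ + D.Q (pr D.b (f q)) * ⟪D.b 1, x⟫} := by
      rw [mem_ofPred_eq]
      simp [inner_add_right, inner_smul_right, inner_basis]
    have m1 : D.b 1 + D.Q (pr D.b (f q)) • D.b 2 ∈ {x : E3 | ⟪D.b 2, x⟫ =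
      D.P (pr D.b (f q)) * ⟪D.b 0, x⟫ + D.Q (pr D.b (f q)) * ⟪D.b 1, x⟫} := by
      rw [mem_ofPred_eq]
      simp [inner_add_right, inner_smul_right, inner_basis]
    rw [← hT, mem_ofPred_eq] at m0 m1
    simp only [inner_add_right, inner_smul_right, inner_basis] at m0 m1
    simp only [Fin.isValue, show ((2 : Fin 3) = 0) = False from by simp,
      show ((2 : Fin 3) = 1) = False from by simp, show ((0 : Fin 3) = 2) = False from by simp,
      show ((1 : Fin 3) = 2) = False from by simp, show ((0 : Fin 3) = 1) = False from by simp,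
      show ((1 : Fin 3) = 0) = False from by simp, if_true, if_false] at m0 m1
    refine ⟨?_, ?_, ?_⟩
    · rw [D.hKball]; exact Metric.ball_subset_closedBall (D.maps _ h2)
    · linarith
    · linarith

/-- Local statement: the unit normals at the points of a chart from which stationary segments
emanate form a set of measure zero. -/
theorem GraphData.null [IsManifold (𝓡 2) 1 M] {f : M → E3} (hf : IsC1Immersion f)
    {p : M} (D : GraphData f p) :
    μH[2] {ν : E3 | ∃ q ∈ D.N, EmanatesFrom f q ∧ IsUnitNormal f q ν} = 0 := by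
  have hK : IsCompact D.K := by rw [D.hKball]; exact isCompact_closedBall _ _
  have h0 : volume (gradSet D.P D.Q D.K) = 0 := planar_null hK D.hu D.hP D.hQ
  rw [← hausdorffMeasure_prod_real] at h0
  have h1 : μH[2] (nu D.b '' gradSet D.P D.Q D.K) = 0 := by
    have := (lipschitz_nu D.b).hausdorffMeasure_image_le (d := 2) (by norm_num)
      (gradSet D.P D.Q D.K)
    rw [h0, mul_zero] at this
    exact nonpos_iff_eq_zero.1 this
  have h2 : μH[2] ((fun z => -nu D.b z) '' gradSet D.P D.Q D.K) = 0 := by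
    have := (lipschitz_nu D.b).neg.hausdorffMeasure_image_le (d := 2) (by norm_num)
      (gradSet D.P D.Q D.K)
    rw [h0, mul_zero] at this
    exact nonpos_iff_eq_zero.1 this
  refine measure_mono_null ?_ (measure_union_null h1 h2)
  rintro ν ⟨q, hq, hs, hν, hν'⟩
  rw [D.tangentPlane_eq hf hq] at hν'
  have hg := D.mem_gradSet hf hq hs
  rcases eq_nu_or D.b hν (fun x hx => hν' x hx) with h | h
  · left; exact ⟨_, hg, h.symm⟩
  · right; exact ⟨_, hg, h.symm⟩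

/-- Global statement: the unit normals at the points of a surface from which stationary segments
emanate form a set of measure zero. -/
theorem normals_null [IsManifold (𝓡 2) 1 M] [SecondCountableTopology M] {f : M → E3}
    (hf : IsC1Immersion f) :
    μH[2] {ν : E3 | ∃ q, EmanatesFrom f q ∧ IsUnitNormal f q ν} = 0 := by
  have D : ∀ p : M, GraphData f p := fun p => (exists_graphData hf p).some
  obtain ⟨T, hTc, hT⟩ := TopologicalSpace.isOpen_iUnion_countable (fun p : M => (D p).N)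
    (fun p => (D p).isOpen_N)
  have hsub : {ν : E3 | ∃ q, EmanatesFrom f q ∧ IsUnitNormal f q ν} ⊆
      ⋃ p ∈ T, {ν : E3 | ∃ q ∈ (D p).N, EmanatesFrom f q ∧ IsUnitNormal f q ν} := by
    rintro ν ⟨q, h⟩
    have hq : q ∈ ⋃ p, (D p).N := mem_iUnion.2 ⟨q, (D q).mem_N⟩
    rw [← hT] at hq
    obtain ⟨p, hpT, hqp⟩ := mem_iUnion₂.1 hq
    exact mem_iUnion₂.2 ⟨p, hpT, q, hqp, h⟩
  exact measure_mono_null hsub ((measure_biUnion_null_iff hTc).2 fun p _ => (D p).null hf)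

/-- A `C¹` surface has local continuous unit normal fields. -/
theorem exists_normalField [IsManifold (𝓡 2) 1 M] {f : M → E3}
    (hf : IsC1Immersion f) (p : M) :
    ∃ G : Set M, IsOpen G ∧ p ∈ G ∧ ∃ n : M → E3, IsUnitNormalFieldOn f G n := by
  obtain ⟨D⟩ := exists_graphData hf p
  refine ⟨D.N, D.isOpen_N, D.mem_N,
    fun q => nu D.b (D.P (pr D.b (f q)), D.Q (pr D.b (f q))), ?_, ?_⟩
  · have hm : MapsTo (fun q => pr D.b (f q)) D.N D.K := fun q hq => by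
      rw [D.hKball]; exact Metric.ball_subset_closedBall (D.maps q hq)
    have hc : ContinuousOn (fun q => pr D.b (f q)) D.N :=
      ((pr D.b).continuous.comp hf.1.continuous).continuousOn
    exact (lipschitz_nu D.b).continuous.comp_continuousOn
      ((D.hP.comp hc hm).prodMk (D.hQ.comp hc hm))
  · intro q hq
    refine ⟨norm_nu _ _, fun v hv => ?_⟩
    rw [D.tangentPlane_eq hf hq, mem_ofPred_eq] at hv
    simp only [nu, inner_smul_left, inner_sub_left, hv]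
    simp

/-- Every semi-torse is of class BECP. -/
theorem isBECP_of_isSemiTorse [IsManifold (𝓡 2) 1 M] {f : M → E3} (hf : IsC1Immersion f)
    (hs : IsSemiTorse f) : IsBECP f := by
  intro p
  obtain ⟨D⟩ := exists_graphData hf p
  obtain ⟨G, hG, hpG, n, hn, hn'⟩ := exists_normalField hf p
  refine ⟨G ∩ D.N, hG.inter D.isOpen_N, ⟨hpG, D.mem_N⟩, n, ⟨hn.mono inter_subset_left,
    fun q hq => hn' q hq.1⟩, 0, fun k H hH _ => ?_⟩
  rw [Finset.sum_eq_zero]
  · simp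
  · intro i _
    refine measure_mono_null ?_ (D.null hf)
    rintro _ ⟨q, hq, rfl⟩
    obtain ⟨F, -, hF⟩ := hH i
    rw [hF] at hq
    exact ⟨q, hq.2.2, hs q, hn' q hq.2.1⟩

end Pool.Agent.R747
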