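import Mathlib

/-!
Surfaces in the three-sphere: regular parametrizations, flatness, normals, orientability and closed
asymptotic lines.
-/

open Set
open scoped RealInnerProductSpace ContDiff

namespace Pool.Agent.R747

/-- Euclidean 4-space. -/
abbrev E4 : Type := EuclideanSpace ℝ (Fin 4)

section general

variable {E M : Type*} [NormedAddCommGroup E] [InnerProductSpace ℝ E] [TopologicalSpace M]

/-- The local parametrization `e` of `M` is of class `C^n` and regular for the map `f : M → E`. -/
def IsRegularParam (n : WithTop ℕ∞) (f : M → E) (e : OpenPartialHomeomorph (ℝ × ℝ) M) : Prop :=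
  ContDiffOn ℝ n (f ∘ e) e.source ∧ ∀ x ∈ e.source, Function.Injective (fderiv ℝ (f ∘ e) x)

/-- The parametrization `e` is isometric: the first fundamental form of `f ∘ e` is the Euclidean
one. -/
def IsIsometricParam (f : M → E) (e : OpenPartialHomeomorph (ℝ × ℝ) M) : Prop :=
  ∀ x ∈ e.source, ∀ v w : ℝ × ℝ,
    ⟪fderiv ℝ (f ∘ e) x v, fderiv ℝ (f ∘ e) x w⟫ = v.1 * w.1 + v.2 * w.2

/-- `ν` is orthogonal to the tangent plane of `f` at `p`. -/
def IsOrthoTangent (f : M → E) (p : M) (ν : E) : Prop :=
  ∀ e : OpenPartialHomeomorph (ℝ × ℝ) M, IsRegularParam 1 f e → p ∈ e.target →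
    ∀ v, ⟪ν, fderiv ℝ (f ∘ e) (e.symm p) v⟫ = 0

end general

variable {M : Type*} [TopologicalSpace M]

/-- `f : M → E4` is a `C^n` surface in the unit sphere `S³`: a `C^n` regular immersion of the
2-manifold `M` (the regular parametrizations being the charts of `M`) with values in `S³`. -/
def IsSurfaceInSphere (n : WithTop ℕ∞) (f : M → E4) : Prop :=
  (∀ p, ‖f p‖ = 1) ∧ ∀ p, ∃ e : OpenPartialHomeomorph (ℝ × ℝ) M, p ∈ e.target ∧
    IsRegularParam n f e

/-- The metric induced by `f` is locally Euclidean: there are isometric `C^n` parametrizations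
around all points. -/
def IsLocallyEuclidean (n : WithTop ℕ∞) (f : M → E4) : Prop :=
  ∀ p, ∃ e : OpenPartialHomeomorph (ℝ × ℝ) M, p ∈ e.target ∧ IsRegularParam n f e ∧
    IsIsometricParam f e

/-- `ν` is a normal vector of the surface `f` in `S³` at `p`. -/
def IsNormalTo (f : M → E4) (p : M) (ν : E4) : Prop := ⟪ν, f p⟫ = 0 ∧ IsOrthoTangent f p ν

/-- The surface admits a continuous unit normal field in `S³`. Since `S³` is orientable, this is
equivalent to the orientability of `M`. -/
def IsOrientableSurface (f : M → E4) : Prop :=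
  ∃ ν : M → E4, Continuous ν ∧ ∀ p, ‖ν p‖ = 1 ∧ IsNormalTo f p (ν p)

/-- The surface contains a closed asymptotic line: a closed `C²` regular curve `γ` on the surface
whose acceleration has no component normal to the surface, i.e. whose normal curvature is zero. -/
def HasClosedAsymptoticLine (f : M → E4) : Prop :=
  ∃ (γ : ℝ → M) (T : ℝ), 0 < T ∧ Continuous γ ∧ (∀ t, γ (t + T) = γ t) ∧
    ContDiff ℝ 2 (f ∘ γ) ∧ (∀ t, deriv (f ∘ γ) t ≠ 0) ∧
    ∀ t ν, IsNormalTo f (γ t) ν → ⟪deriv (deriv (f ∘ γ)) t, ν⟫ = 0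

end Pool.Agent.R747
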