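import Mathlib
import Pool.Agent.R747.SurfS3

/-!
Tubes `r(u, v) = e^{iv} s(u)` over curves, in the three-sphere.
-/

open Set Filter Topology MeasureTheory
open scoped RealInnerProductSpace ContDiff

namespace Pool.Agent.R747

/-- Multiplication by `i` in `ℝ⁴ = ℂ²`. -/
noncomputable def JL : E4 →ₗ[ℝ] E4 where
  toFun q := !₂[-q 1, q 0, -q 3, q 2]
  map_add' p q := by
    ext i
    fin_cases i <;> simp <;> ring
  map_smul' c q := by
    ext i
    fin_cases i <;> simp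

/-- Multiplication by `i` in `ℝ⁴ = ℂ²`, as a continuous linear map. -/
noncomputable def J4 : E4 →L[ℝ] E4 := LinearMap.toContinuousLinearMap JL

lemma J4_0 (q : E4) : J4 q 0 = -q 1 := rfl
lemma J4_1 (q : E4) : J4 q 1 = q 0 := rfl
lemma J4_2 (q : E4) : J4 q 2 = -q 3 := rfl
lemma J4_3 (q : E4) : J4 q 3 = q 2 := rfl

lemma inner4 (p q : E4) : ⟪p, q⟫ = p 0 * q 0 + p 1 * q 1 + p 2 * q 2 + p 3 * q 3 := by
  rw [PiLp.inner_apply, Fin.sum_univ_four]
  simp only [RCLike.inner_apply, conj_trivial]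
  ring

lemma ext4 {p q : E4} (h0 : p 0 = q 0) (h1 : p 1 = q 1) (h2 : p 2 = q 2) (h3 : p 3 = q 3) :
    p = q := by
  ext i
  fin_cases i
  · exact h0
  · exact h1
  · exact h2
  · exact h3

lemma inner_JJ (p q : E4) : ⟪J4 p, J4 q⟫ = ⟪p, q⟫ := by
  simp only [inner4, J4_0, J4_1, J4_2, J4_3]; ring

lemma inner_J_left (p q : E4) : ⟪J4 p, q⟫ = -⟪p, J4 q⟫ := by
  simp only [inner4, J4_0, J4_1, J4_2, J4_3]; ring

lemma inner_J_self (p : E4) : ⟪p, J4 p⟫ = 0 := by
  simp only [inner4, J4_0, J4_1, J4_2, J4_3]; ring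

lemma J4_J4 (p : E4) : J4 (J4 p) = -p := by
  refine ext4 ?_ ?_ ?_ ?_ <;> simp [J4_0, J4_1, J4_2, J4_3]

/-- Multiplication by `e^{iv}`. -/
noncomputable def rot (v : ℝ) (q : E4) : E4 := Real.cos v • q + Real.sin v • J4 q

lemma rot_zero_eq {v : ℝ} {q : E4} (h : rot v q = 0) : q = 0 := by
  have hcs := Real.sin_sq_add_cos_sq v
  have h1 : Real.cos v • rot v q - Real.sin v • J4 (rot v q) = q := by
    simp only [rot, map_add, map_smul, J4_J4]
    have : Real.cos v • (Real.cos v • q + Real.sin v • J4 q) -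
        Real.sin v • (Real.cos v • J4 q + Real.sin v • -q) =
        (Real.sin v ^ 2 + Real.cos v ^ 2) • q := by module
    rw [this, hcs, one_smul]
  rw [← h1, h]
  simp

lemma inner_rot (v : ℝ) (p q : E4) : ⟪rot v p, rot v q⟫ = ⟪p, q⟫ := by
  have hcs := Real.sin_sq_add_cos_sq v
  simp only [rot, inner_add_left, inner_add_right, inner_smul_left, inner_smul_right, inner_JJ,
    inner_J_left]
  simp only [conj_trivial, J4_J4, inner_neg_right]
  linear_combination (⟪p, q⟫) * hcs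

lemma rot_J (v : ℝ) (q : E4) : rot v (J4 q) = J4 (rot v q) := by
  simp only [rot, map_add, map_smul]

lemma norm_rot (v : ℝ) (q : E4) : ‖rot v q‖ = ‖q‖ := by
  have h := inner_rot v q q
  rw [real_inner_self_eq_norm_sq, real_inner_self_eq_norm_sq] at h
  exact (sq_eq_sq₀ (norm_nonneg _) (norm_nonneg _)).1 h

lemma rot_add (v : ℝ) (p q : E4) : rot v (p + q) = rot v p + rot v q := by
  simp only [rot, map_add, smul_add]; abel

lemma rot_smul (v c : ℝ) (q : E4) : rot v (c • q) = c • rot v q := by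
  simp only [rot, map_smul]; module

/-- The tube over the curve `s`. -/
noncomputable def tube (s : ℝ → E4) (p : ℝ × ℝ) : E4 := rot p.2 (s p.1)

lemma tube_hasFDerivAt {s : ℝ → E4} {s' : E4} {p : ℝ × ℝ} (hs : HasDerivAt s s' p.1) :
    HasFDerivAt (tube s) ((ContinuousLinearMap.fst ℝ ℝ ℝ).smulRight (rot p.2 s') +
      (ContinuousLinearMap.snd ℝ ℝ ℝ).smulRight (J4 (rot p.2 (s p.1)))) p := by
  have h1 : HasFDerivAt (fun p : ℝ × ℝ => s p.1)
      ((ContinuousLinearMap.fst ℝ ℝ ℝ).smulRight s') p := by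
    have := hs.hasFDerivAt.comp p (hasFDerivAt_fst (𝕜 := ℝ) (p := p))
    refine this.congr_fderiv ?_
    ext v <;> simp
  have hc : HasFDerivAt (fun p : ℝ × ℝ => Real.cos p.2)
      ((-Real.sin p.2) • ContinuousLinearMap.snd ℝ ℝ ℝ) p :=
    (Real.hasDerivAt_cos p.2).comp_hasFDerivAt p hasFDerivAt_snd
  have hsn : HasFDerivAt (fun p : ℝ × ℝ => Real.sin p.2)
      ((Real.cos p.2) • ContinuousLinearMap.snd ℝ ℝ ℝ) p :=
    (Real.hasDerivAt_sin p.2).comp_hasFDerivAt p hasFDerivAt_snd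
  have h2 : HasFDerivAt (fun p : ℝ × ℝ => J4 (s p.1))
      (J4.comp ((ContinuousLinearMap.fst ℝ ℝ ℝ).smulRight s')) p :=
    J4.hasFDerivAt.comp p h1
  have h3 := (hc.smul h1).add (hsn.smul h2)
  refine h3.congr_fderiv ?_
  refine ContinuousLinearMap.ext fun v => ?_
  simp only [ContinuousLinearMap.add_apply, ContinuousLinearMap.smul_apply,
    ContinuousLinearMap.smulRight_apply, ContinuousLinearMap.comp_apply,
    ContinuousLinearMap.coe_fst', ContinuousLinearMap.coe_snd', rot, map_add, map_smul, J4_J4,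
    smul_eq_mul]
  module

lemma tube_contDiff {s : ℝ → E4} (hs : ContDiff ℝ ∞ s) : ContDiff ℝ ∞ (tube s) := by
  have h1 : ContDiff ℝ ∞ (fun p : ℝ × ℝ => s p.1) := hs.comp contDiff_fst
  have h2 : ContDiff ℝ ∞ (fun p : ℝ × ℝ => J4 (s p.1)) := J4.contDiff.comp h1
  exact ((Real.contDiff_cos.comp contDiff_snd).smul h1).add
    ((Real.contDiff_sin.comp contDiff_snd).smul h2)

/-- Data of a tube: a smooth curve in the sphere transversal to the fibres. -/
structure TubeData (s : ℝ → E4) : Prop where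
  smooth : ContDiff ℝ ∞ s
  unit : ∀ u, ‖s u‖ = 1
  indep : ∀ u a b : ℝ, a • deriv s u + b • J4 (s u) = 0 → a = 0 ∧ b = 0

namespace TubeData

variable {s : ℝ → E4} (h : TubeData s)
include h

lemma hasDerivAt (u : ℝ) : HasDerivAt s (deriv s u) u :=
  (h.smooth.differentiable (by simp) u).hasDerivAt

lemma fderiv_tube (p v : ℝ × ℝ) : fderiv ℝ (tube s) p v =
    v.1 • rot p.2 (deriv s p.1) + v.2 • J4 (rot p.2 (s p.1)) := by
  rw [(tube_hasFDerivAt (h.hasDerivAt p.1)).fderiv]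
  simp

lemma injective_fderiv (p : ℝ × ℝ) : Function.Injective (fderiv ℝ (tube s) p) := by
  rw [injective_iff_map_eq_zero]
  intro v hv
  rw [h.fderiv_tube, ← rot_J, ← rot_smul, ← rot_smul, ← rot_add] at hv
  have := h.indep _ _ _ (rot_zero_eq hv)
  exact Prod.ext this.1 this.2

lemma smooth_deriv : ContDiff ℝ ∞ (deriv s) := (contDiff_infty_iff_deriv.1 h.smooth).2

/-- The flat coordinates on a tube. -/
lemma exists_flat_coords : ∃ X G : ℝ → ℝ, ContDiff ℝ ∞ X ∧ ContDiff ℝ ∞ G ∧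
    (∀ u, 0 < deriv X u) ∧
    ∀ p v w : ℝ × ℝ, ⟪fderiv ℝ (tube s) p v, fderiv ℝ (tube s) p w⟫ =
      (deriv X p.1 * v.1) * (deriv X p.1 * w.1) +
        (v.2 + deriv G p.1 * v.1) * (w.2 + deriv G p.1 * w.1) := by
  set F : ℝ → ℝ := fun u => ⟪deriv s u, J4 (s u)⟫ with hF
  set S : ℝ → ℝ := fun u => ‖deriv s u - F u • J4 (s u)‖ with hS
  have hJs : ContDiff ℝ ∞ (fun u => J4 (s u)) := J4.contDiff.comp h.smooth
  have hFc : ContDiff ℝ ∞ F := h.smooth_deriv.inner ℝ hJs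
  have hne : ∀ u, deriv s u - F u • J4 (s u) ≠ 0 := by
    intro u h0
    have := (h.indep u 1 (-F u) (by rw [← h0]; module)).1
    exact one_ne_zero this
  have hSpos : ∀ u, 0 < S u := fun u => norm_pos_iff.2 (hne u)
  have hSc : ContDiff ℝ ∞ S := (h.smooth_deriv.sub (hFc.smul hJs)).norm ℝ hne
  have hanti : ∀ g : ℝ → ℝ, ContDiff ℝ ∞ g → ∃ G : ℝ → ℝ, ContDiff ℝ ∞ G ∧ deriv G = g := by
    intro g hg
    have hd : ∀ u, HasDerivAt (fun u => ∫ t in (0 : ℝ)..u, g t) (g u) u := fun u =>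
      intervalIntegral.integral_hasDerivAt_right (hg.continuous.intervalIntegrable _ _)
        (hg.continuous.stronglyMeasurableAtFilter _ _) hg.continuous.continuousAt
    have hde : deriv (fun u => ∫ t in (0 : ℝ)..u, g t) = g := funext fun u => (hd u).deriv
    refine ⟨fun u => ∫ t in (0 : ℝ)..u, g t, ?_, hde⟩
    rw [contDiff_infty_iff_deriv]
    exact ⟨fun u => (hd u).differentiableAt, by rw [hde]; exact hg⟩
  obtain ⟨X, hXc, hX⟩ := hanti S hSc
  obtain ⟨G, hGc, hG⟩ := hanti F hFc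
  refine ⟨X, G, hXc, hGc, fun u => by rw [hX]; exact hSpos u, fun p v w => ?_⟩
  rw [h.fderiv_tube, h.fderiv_tube, hX, hG]
  have hS2 : S p.1 * S p.1 = ⟪deriv s p.1, deriv s p.1⟫ - F p.1 * F p.1 := by
    have h1 : S p.1 * S p.1 = ⟪deriv s p.1 - F p.1 • J4 (s p.1),
        deriv s p.1 - F p.1 • J4 (s p.1)⟫ := by
      rw [real_inner_self_eq_norm_sq, sq]
    have h2 : ⟪J4 (s p.1), J4 (s p.1)⟫ = 1 := by
      rw [inner_JJ, real_inner_self_eq_norm_sq, h.unit]; norm_num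
    have h3 : ⟪J4 (s p.1), deriv s p.1⟫ = F p.1 := real_inner_comm _ _
    have h4 : ⟪deriv s p.1, J4 (s p.1)⟫ = F p.1 := rfl
    rw [h1]
    simp only [inner_sub_left, inner_sub_right, inner_smul_left, inner_smul_right, h2, h3, h4]
    simp only [conj_trivial]
    ring
  have h2 : ⟪J4 (s p.1), J4 (s p.1)⟫ = 1 := by
    rw [inner_JJ, real_inner_self_eq_norm_sq, h.unit]; norm_num
  have h3 : ⟪J4 (s p.1), deriv s p.1⟫ = F p.1 := real_inner_comm _ _
  have h4 : ⟪deriv s p.1, J4 (s p.1)⟫ = F p.1 := rfl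
  simp only [← rot_J, inner_add_left, inner_add_right, inner_smul_left, inner_smul_right, inner_rot,
    h2, h3, h4]
  simp only [conj_trivial]
  linear_combination (-(v.1 * w.1)) * hS2

end TubeData

end Pool.Agent.R747
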