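import Mathlib

/-!
Isotropic circles, their top views, cyclics and pencils of circles.
-/

open Set

namespace Pool.Agent.R747

/-- Isotropic spheres: vertical-axis paraboloids of revolution and vertical-axis circular
cylinders. -/
def IsIsotropicSphere (S : Set (ℝ × ℝ × ℝ)) : Prop :=
  (∃ A B C E : ℝ, A ≠ 0 ∧ S = {q | q.2.2 = A * (q.1 ^ 2 + q.2.1 ^ 2) + B * q.1 + C * q.2.1 + E}) ∨
    ∃ a b ρ : ℝ, 0 < ρ ∧ S = {q | (q.1 - a) ^ 2 + (q.2.1 - b) ^ 2 = ρ ^ 2}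

/-- Planes in space. -/
def IsPlaneSet (S : Set (ℝ × ℝ × ℝ)) : Prop :=
  ∃ l m n k : ℝ, (l ≠ 0 ∨ m ≠ 0 ∨ n ≠ 0) ∧ S = {q | l * q.1 + m * q.2.1 + n * q.2.2 = k}

/-- The data of an arc of a vertical-axis parabola: coefficients and parameter interval. -/
structure ParabolaData where
  x₀ : ℝ × ℝ → ℝ
  y₀ : ℝ × ℝ → ℝ
  a : ℝ × ℝ → ℝ
  b : ℝ × ℝ → ℝ
  c : ℝ × ℝ → ℝ
  d : ℝ × ℝ → ℝ
  e : ℝ × ℝ → ℝ
  t₁ : ℝ × ℝ → ℝ
  t₂ : ℝ × ℝ → ℝ

namespace ParabolaData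

variable (A : ParabolaData)

/-- The parametrised parabola with data at `p`. -/
def pt (p : ℝ × ℝ) (t : ℝ) : ℝ × ℝ × ℝ :=
  (A.x₀ p + A.a p * t, A.y₀ p + A.b p * t, A.c p * t ^ 2 + A.d p * t + A.e p)

/-- The velocity vector of the parametrised parabola. -/
def vel (p : ℝ × ℝ) (t : ℝ) : ℝ × ℝ × ℝ := (A.a p, A.b p, 2 * A.c p * t + A.d p)

/-- The arc with data at `p`. -/
def arc (p : ℝ × ℝ) : Set (ℝ × ℝ × ℝ) := A.pt p '' Ioo (A.t₁ p) (A.t₂ p)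

/-- The data depend analytically on `p ∈ D` and define nondegenerate parabolic arcs. -/
def Good (D : Set (ℝ × ℝ)) : Prop :=
  (AnalyticOnNhd ℝ A.x₀ D ∧ AnalyticOnNhd ℝ A.y₀ D ∧ AnalyticOnNhd ℝ A.a D ∧
    AnalyticOnNhd ℝ A.b D ∧ AnalyticOnNhd ℝ A.c D ∧ AnalyticOnNhd ℝ A.d D ∧
    AnalyticOnNhd ℝ A.e D ∧ AnalyticOnNhd ℝ A.t₁ D ∧ AnalyticOnNhd ℝ A.t₂ D) ∧
  ∀ p ∈ D, (A.a p ≠ 0 ∨ A.b p ≠ 0) ∧ A.c p ≠ 0 ∧ A.t₁ p < A.t₂ p

/-- The top view of the parabola is the line `b (x - x₀) - a (y - y₀) = 0`; this is its coefficient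
vector with respect to `x² + y², x, y, 1`. -/
def top (p : ℝ × ℝ) : Fin 4 → ℝ := ![0, A.b p, -A.a p, A.a p * A.y₀ p - A.b p * A.x₀ p]

end ParabolaData

/-- The data of an arc of an ellipse whose top view is a circle: centre `(m₁, m₂)` and radius `r` of
the top view, plane `z = α x + β y + γ`, and an interval of the polar angle. -/
structure EllipseData where
  m₁ : ℝ × ℝ → ℝ
  m₂ : ℝ × ℝ → ℝ
  r : ℝ × ℝ → ℝ
  α : ℝ × ℝ → ℝ
  β : ℝ × ℝ → ℝ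
  γ : ℝ × ℝ → ℝ
  s₁ : ℝ × ℝ → ℝ
  s₂ : ℝ × ℝ → ℝ

namespace EllipseData

variable (A : EllipseData)

/-- The parametrised ellipse with data at `p`. -/
noncomputable def pt (p : ℝ × ℝ) (s : ℝ) : ℝ × ℝ × ℝ :=
  (A.m₁ p + A.r p * Real.cos s, A.m₂ p + A.r p * Real.sin s,
    A.α p * (A.m₁ p + A.r p * Real.cos s) + A.β p * (A.m₂ p + A.r p * Real.sin s) + A.γ p)

/-- The velocity vector of the parametrised ellipse. -/
noncomputable def vel (p : ℝ × ℝ) (s : ℝ) : ℝ × ℝ × ℝ :=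
  (-(A.r p * Real.sin s), A.r p * Real.cos s,
    A.α p * -(A.r p * Real.sin s) + A.β p * (A.r p * Real.cos s))

/-- The arc with data at `p`. -/
def arc (p : ℝ × ℝ) : Set (ℝ × ℝ × ℝ) := A.pt p '' Ioo (A.s₁ p) (A.s₂ p)

/-- The data depend analytically on `p ∈ D` and define nondegenerate arcs. -/
def Good (D : Set (ℝ × ℝ)) : Prop :=
  (AnalyticOnNhd ℝ A.m₁ D ∧ AnalyticOnNhd ℝ A.m₂ D ∧ AnalyticOnNhd ℝ A.r D ∧
    AnalyticOnNhd ℝ A.α D ∧ AnalyticOnNhd ℝ A.β D ∧ AnalyticOnNhd ℝ A.γ D ∧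
    AnalyticOnNhd ℝ A.s₁ D ∧ AnalyticOnNhd ℝ A.s₂ D) ∧
  ∀ p ∈ D, 0 < A.r p ∧ A.s₁ p < A.s₂ p ∧ A.s₂ p < A.s₁ p + 2 * Real.pi

/-- The top view of the ellipse is the circle `(x - m₁)² + (y - m₂)² = r²`; this is its coefficient
vector with respect to `x² + y², x, y, 1`. -/
def top (p : ℝ × ℝ) : Fin 4 → ℝ :=
  ![1, -2 * A.m₁ p, -2 * A.m₂ p, A.m₁ p ^ 2 + A.m₂ p ^ 2 - A.r p ^ 2]

end EllipseData

/-- `σ` is an injective real-analytic immersion of the connected open set `D`. -/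
def IsAnalyticSurface (D : Set (ℝ × ℝ)) (σ : ℝ × ℝ → ℝ × ℝ × ℝ) : Prop :=
  IsOpen D ∧ IsConnected D ∧ AnalyticOnNhd ℝ σ D ∧ InjOn σ D ∧
    ∀ p ∈ D, Function.Injective (fderiv ℝ σ p)

/-- Hypothesis (H), in the case of a parabolic and an elliptic arc through each point: the arcs
through `σ p` are contained in the surface, meet transversally at `σ p`, depend analytically on
`p` and are contained neither in one isotropic sphere nor in one plane. -/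
def HypothesisH (D : Set (ℝ × ℝ)) (σ : ℝ × ℝ → ℝ × ℝ × ℝ) (A : ParabolaData)
    (B : EllipseData) : Prop :=
  A.Good D ∧ B.Good D ∧ ∀ p ∈ D,
    σ p ∈ A.arc p ∧ σ p ∈ B.arc p ∧ A.arc p ⊆ σ '' D ∧ B.arc p ⊆ σ '' D ∧
    (∀ t ∈ Ioo (A.t₁ p) (A.t₂ p), ∀ s ∈ Ioo (B.s₁ p) (B.s₂ p), A.pt p t = σ p → B.pt p s = σ p →
      LinearIndependent ℝ ![A.vel p t, B.vel p s]) ∧
    (¬∃ S, IsIsotropicSphere S ∧ A.arc p ∪ B.arc p ⊆ S) ∧
    ¬∃ S, IsPlaneSet S ∧ A.arc p ∪ B.arc p ⊆ S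

/-- The function `k₀ (x² + y²) + k₁ x + k₂ y + k₃` on the complex plane. -/
def circleFun (k : Fin 4 → ℝ) (z : ℂ × ℂ) : ℂ :=
  k 0 * (z.1 ^ 2 + z.2 ^ 2) + k 1 * z.1 + k 2 * z.2 + k 3

/-- The polynomial function defining a cyclic,
`a (x² + y²)² + (x² + y²) (b x + c y) + Q(x, y)`. -/
def cyclicFun (a b c : ℝ) (q : Fin 6 → ℝ) (z : ℂ × ℂ) : ℂ :=
  a * (z.1 ^ 2 + z.2 ^ 2) ^ 2 + (z.1 ^ 2 + z.2 ^ 2) * (b * z.1 + c * z.2) +
    (q 0 * z.1 ^ 2 + q 1 * z.1 * z.2 + q 2 * z.2 ^ 2 + q 3 * z.1 + q 4 * z.2 + q 5)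

/-- The function on the complex plane given by a polynomial in two variables. -/
noncomputable def polyFun (G : MvPolynomial (Fin 2) ℂ) (z : ℂ × ℂ) : ℂ :=
  MvPolynomial.eval ![z.1, z.2] G

/-- `z` is a nonsingular point of the reduced curve `F = 0`, and the kernel of the differential of
some polynomial `G` with the same zero set, with `dG ≠ 0` at `z`, is the kernel of `L`. (So `ker L`
is the direction of the tangent line of the reduced curve at `z`.) -/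
def HasTangentKernel (F : ℂ × ℂ → ℂ) (z : ℂ × ℂ) (L : ℂ × ℂ →L[ℂ] ℂ) : Prop :=
  F z = 0 ∧ ∃ G : MvPolynomial (Fin 2) ℂ, (∀ w, polyFun G w = 0 ↔ F w = 0) ∧
    fderiv ℂ (polyFun G) z ≠ 0 ∧ ∀ w, fderiv ℂ (polyFun G) z w = 0 ↔ L w = 0

/-- The line or circle `ℓ = 0` is tangent to the curve `F = 0` at the point `z`. -/
def TangentTo (ℓ F : ℂ × ℂ → ℂ) (z : ℂ × ℂ) : Prop :=
  ℓ z = 0 ∧ (∃ w, ℓ w = 0 ∧ F w ≠ 0) ∧ HasTangentKernel F z (fderiv ℂ ℓ z)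

/-- Alternative (a): some cyclic is tangent at two points (which may coincide) to the top view of
each of the two isotropic circles through every point. -/
def AlternativeA (D : Set (ℝ × ℝ)) (A : ParabolaData) (B : EllipseData) : Prop :=
  ∃ (a b c : ℝ) (q : Fin 6 → ℝ), ¬(a = 0 ∧ b = 0 ∧ c = 0 ∧ q = 0) ∧ ∀ p ∈ D,
    (∃ z w, TangentTo (circleFun (A.top p)) (cyclicFun a b c q) z ∧
      TangentTo (circleFun (A.top p)) (cyclicFun a b c q) w) ∧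
    ∃ z w, TangentTo (circleFun (B.top p)) (cyclicFun a b c q) z ∧
      TangentTo (circleFun (B.top p)) (cyclicFun a b c q) w

/-- Alternative (b): all the top views lie in a union of two pencils of circles. -/
def AlternativeB (D : Set (ℝ × ℝ)) (A : ParabolaData) (B : EllipseData) : Prop :=
  ∃ F₁ F₂ G₁ G₂ : Fin 4 → ℝ, LinearIndependent ℝ ![F₁, F₂] ∧ LinearIndependent ℝ ![G₁, G₂] ∧
    ∀ p ∈ D, (A.top p ∈ Submodule.span ℝ {F₁, F₂} ∨ A.top p ∈ Submodule.span ℝ {G₁, G₂}) ∧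
      (B.top p ∈ Submodule.span ℝ {F₁, F₂} ∨ B.top p ∈ Submodule.span ℝ {G₁, G₂})

end Pool.Agent.R747
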