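import Mathlib
import Pool.Agent.R747.IsoCircles

/-!
A plane algebraic curve is tangent to only countably many lines of a pencil of concurrent lines.
-/

open Set Filter Topology
open scoped ContDiff

namespace Pool.Agent.R747

lemma analyticAt_polyFun (G : MvPolynomial (Fin 2) ℂ) (z : ℂ × ℂ) :
    AnalyticAt ℂ (polyFun G) z := by
  have h : AnalyticAt ℂ (fun x : ℂ × ℂ => MvPolynomial.aeval (![x.1, x.2] : Fin 2 → ℂ) G) z := by
    refine AnalyticAt.aeval_mvPolynomial (f := fun x : ℂ × ℂ => (![x.1, x.2] : Fin 2 → ℂ)) ?_ G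
    intro i
    fin_cases i
    · exact analyticAt_fst
    · exact analyticAt_snd
  have e : (fun x : ℂ × ℂ => MvPolynomial.aeval (![x.1, x.2] : Fin 2 → ℂ) G) = polyFun G := by
    funext x
    exact DFunLike.congr_fun (MvPolynomial.coe_aeval_eq_eval (![x.1, x.2] : Fin 2 → ℂ)) G
  rwa [e] at h

/-- The slope of a tangent line through the origin is locally unique. -/
lemma slope_unique {ψ : ℂ → ℂ} {x₀ : ℂ} (hψ : AnalyticAt ℂ ψ x₀) :
    ∀ᶠ x in 𝓝 x₀, x * deriv ψ x = ψ x → deriv ψ x = deriv ψ x₀ := by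
  have hd : AnalyticAt ℂ (deriv ψ) x₀ := hψ.deriv
  set h : ℂ → ℂ := fun x => x * deriv ψ x - ψ x with hh
  have hha : AnalyticAt ℂ h x₀ := (analyticAt_id.mul hd).sub hψ
  rcases hha.eventually_eq_zero_or_eventually_ne_zero with h0 | h1
  · -- `h` vanishes near `x₀`, so `deriv ψ` is constant near `x₀`
    have hψe := hψ.eventually_analyticAt
    have hall : ∀ᶠ x in 𝓝 x₀, (∀ᶠ y in 𝓝 x, h y = 0) ∧ AnalyticAt ℂ ψ x :=
      (eventually_eventually_nhds.2 h0).and hψe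
    obtain ⟨ε, hε, hball⟩ := Metric.eventually_nhds_iff_ball.1 hall
    -- derivative of h
    have hder : ∀ x ∈ Metric.ball x₀ ε, x * deriv (deriv ψ) x = 0 := by
      intro x hx
      obtain ⟨hx1, hx2⟩ := hball x hx
      have h1 : HasDerivAt h (1 * deriv ψ x + x * deriv (deriv ψ) x - deriv ψ x) x :=
        ((hasDerivAt_id x).mul hx2.deriv.differentiableAt.hasDerivAt).sub
          hx2.differentiableAt.hasDerivAt
      have h2 : HasDerivAt h 0 x := (hasDerivAt_const x (0 : ℂ)).congr_of_eventuallyEq hx1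
      have h3 := h1.unique h2
      linear_combination h3
    have hdd : ∀ x ∈ Metric.ball x₀ ε, deriv (deriv ψ) x = 0 := by
      intro x hx
      by_cases hx0 : x = 0
      · -- by continuity
        have hc : ContinuousAt (deriv (deriv ψ)) x := (hball x hx).2.deriv.deriv.continuousAt
        have hev : ∀ᶠ y in 𝓝[≠] x, deriv (deriv ψ) y = 0 := by
          have h1 : ∀ᶠ y in 𝓝[≠] x, y ∈ Metric.ball x₀ ε :=
            mem_nhdsWithin_of_mem_nhds (Metric.isOpen_ball.mem_nhds hx)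
          filter_upwards [h1, self_mem_nhdsWithin] with y hy hyx
          have hy0 : y ≠ 0 := by
            rw [← hx0]; exact hyx
          exact (mul_eq_zero.1 (hder y hy)).resolve_left hy0
        have hlim : Tendsto (deriv (deriv ψ)) (𝓝[≠] x) (𝓝 (deriv (deriv ψ) x)) :=
          hc.tendsto.mono_left nhdsWithin_le_nhds
        have hlim2 : Tendsto (deriv (deriv ψ)) (𝓝[≠] x) (𝓝 0) :=
          tendsto_const_nhds.congr' (hev.mono fun y hy => hy.symm)
        exact tendsto_nhds_unique hlim hlim2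
      · exact (mul_eq_zero.1 (hder x hx)).resolve_left hx0
    have hdiff : DifferentiableOn ℂ (deriv ψ) (Metric.ball x₀ ε) := fun x hx =>
      (hball x hx).2.deriv.differentiableAt.differentiableWithinAt
    refine Metric.eventually_nhds_iff_ball.2 ⟨ε, hε, fun x hx _ => ?_⟩
    exact Metric.isOpen_ball.is_const_of_deriv_eq_zero (convex_ball x₀ ε).isPreconnected hdiff
      hdd hx (Metric.mem_ball_self hε)
  · have h2 : ∀ᶠ x in 𝓝 x₀, x ≠ x₀ → h x ≠ 0 := eventually_nhdsWithin_iff.1 h1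
    filter_upwards [h2] with x hx hxe
    by_cases hxx : x = x₀
    · rw [hxx]
    · exact absurd (by simp only [hh]; rw [hxe]; ring) (hx hxx)

/-- Near a nonsingular point with nonvertical tangent the curve is a graph. -/
lemma local_graph {F : ℂ × ℂ → ℂ} {g : ℂ × ℂ → ℂ} {z₀ : ℂ × ℂ} (hg : AnalyticAt ℂ g z₀)
    (hgF : ∀ w, g w = 0 ↔ F w = 0) (hz₀ : g z₀ = 0) (hgy : fderiv ℂ g z₀ (0, 1) ≠ 0) :
    ∃ ψ : ℂ → ℂ, AnalyticAt ℂ ψ z₀.1 ∧
      ∀ᶠ z in 𝓝 z₀, ∀ (L : ℂ × ℂ →L[ℂ] ℂ) (G : ℂ × ℂ → ℂ),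
      F z = 0 → DifferentiableAt ℂ G z → (∀ w, G w = 0 ↔ F w = 0) →
      (∀ w, fderiv ℂ G z w = 0 ↔ L w = 0) → ψ z.1 = z.2 ∧ L (1, deriv ψ z.1) = 0 := by
  have hcd : ContDiffAt ℂ ω g z₀ := hg.contDiffAt
  have hinv : (fderiv ℂ g z₀ ∘L .inr ℂ ℂ ℂ).IsInvertible := by
    set c : ℂ := fderiv ℂ g z₀ (0, 1) with hc
    have e : (fderiv ℂ g z₀ ∘L .inr ℂ ℂ ℂ) =
        ((ContinuousLinearEquiv.smulLeft (Units.mk0 c hgy) : ℂ ≃L[ℂ] ℂ) : ℂ →L[ℂ] ℂ) := by
      ext
      simp [hc, Units.smul_def]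
    rw [e]
    exact ContinuousLinearMap.isInvertible_equiv
  have hω : (ω : WithTop ℕ∞) ≠ 0 := by simp
  set ψ := hcd.implicitFunction hω hinv with hψ
  have hψc : ContDiffAt ℂ ω ψ z₀.1 := hcd.contDiffAt_implicitFunction hω hinv
  have hψa : AnalyticAt ℂ ψ z₀.1 := hψc.analyticAt
  have hiff : ∀ᶠ v in 𝓝 z₀, g v = g z₀ ↔ ψ v.1 = v.2 :=
    hcd.eventually_apply_eq_iff_implicitFunction hω hinv
  have hgr : ∀ᶠ x in 𝓝 z₀.1, g (x, ψ x) = g z₀ := hcd.eventually_apply_implicitFunction hω hinv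
  refine ⟨ψ, hψa, ?_⟩
  have hfst : Tendsto (Prod.fst : ℂ × ℂ → ℂ) (𝓝 z₀) (𝓝 z₀.1) := continuous_fst.tendsto z₀
  filter_upwards [hiff, hfst.eventually (eventually_eventually_nhds.2 hgr),
    hfst.eventually hψa.eventually_analyticAt] with z h1 h2 h3
  intro L G hFz hG hGF hker
  have hzψ : ψ z.1 = z.2 := h1.1 (by rw [hz₀]; exact (hgF z).2 hFz)
  -- differentiate `G (x, ψ x) = 0`
  have hGr : ∀ᶠ x in 𝓝 z.1, G (x, ψ x) = 0 := by
    filter_upwards [h2] with x hx
    exact (hGF _).2 ((hgF _).1 (hx.trans hz₀))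
  have hcurve : HasDerivAt (fun x => ((x, ψ x) : ℂ × ℂ)) (1, deriv ψ z.1) z.1 :=
    (hasDerivAt_id z.1).prodMk h3.differentiableAt.hasDerivAt
  have hzz : ((z.1, ψ z.1) : ℂ × ℂ) = z := by rw [hzψ]
  have hGd : HasFDerivAt G (fderiv ℂ G z) ((z.1, ψ z.1) : ℂ × ℂ) := by
    rw [hzz]; exact hG.hasFDerivAt
  have hcomp : HasDerivAt (fun x => G (x, ψ x)) (fderiv ℂ G z (1, deriv ψ z.1)) z.1 :=
    hGd.comp_hasDerivAt z.1 hcurve
  have hzero : HasDerivAt (fun x => G (x, ψ x)) 0 z.1 :=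
    (hasDerivAt_const z.1 (0 : ℂ)).congr_of_eventuallyEq hGr
  have h5 : fderiv ℂ G z (1, deriv ψ z.1) = 0 := hcomp.unique hzero
  exact ⟨hzψ, (hker _).1 h5⟩

/-- The line `k x - y = 0`. -/
lemma fderiv_line (k : ℝ) (z : ℂ × ℂ) (w : ℂ × ℂ) :
    fderiv ℂ (circleFun ![0, k, -1, 0]) z w = k * w.1 - w.2 := by
  have h : circleFun ![0, k, -1, 0] =
      ⇑((k : ℂ) • ContinuousLinearMap.fst ℂ ℂ ℂ - ContinuousLinearMap.snd ℂ ℂ ℂ) := by
    funext z
    simp [circleFun]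
    ring
  rw [h, ContinuousLinearMap.fderiv]
  simp

/-- The set of slopes of lines through the origin which are tangent to a curve is countable. -/
theorem countable_tangent (F : ℂ × ℂ → ℂ) :
    {k : ℝ | ∃ z, TangentTo (circleFun ![0, k, -1, 0]) F z}.Countable := by
  set R : Set (ℂ × ℂ) := {z | F z = 0 ∧ ∃ G : MvPolynomial (Fin 2) ℂ,
    (∀ w, polyFun G w = 0 ↔ F w = 0) ∧ fderiv ℂ (polyFun G) z ≠ 0} with hR
  have hloc : ∀ z₀ ∈ R, ∃ κ : ℂ, ∀ᶠ z in 𝓝 z₀, ∀ k : ℝ,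
      TangentTo (circleFun ![0, k, -1, 0]) F z → (k : ℂ) = κ := by
    rintro z₀ ⟨hFz₀, G₀, hG₀, hdG₀⟩
    by_cases hy : fderiv ℂ (polyFun G₀) z₀ (0, 1) = 0
    · -- the derivative in the first direction is nonzero: swap the coordinates
      have hx : fderiv ℂ (polyFun G₀) z₀ (1, 0) ≠ 0 := by
        intro hx
        apply hdG₀
        ext
        · simpa using hx
        · simpa using hy
      set g : ℂ × ℂ → ℂ := fun w => polyFun G₀ w.swap with hg
      have hsw : ∀ z : ℂ × ℂ, HasFDerivAt (Prod.swap : ℂ × ℂ → ℂ × ℂ)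
          ((ContinuousLinearMap.snd ℂ ℂ ℂ).prod (ContinuousLinearMap.fst ℂ ℂ ℂ)) z := fun z =>
        ((ContinuousLinearMap.snd ℂ ℂ ℂ).prod (ContinuousLinearMap.fst ℂ ℂ ℂ)).hasFDerivAt
      have hga : AnalyticAt ℂ g z₀.swap := by
        have h1 : AnalyticAt ℂ (Prod.swap : ℂ × ℂ → ℂ × ℂ) z₀.swap :=
          ((ContinuousLinearMap.snd ℂ ℂ ℂ).prod
            (ContinuousLinearMap.fst ℂ ℂ ℂ)).analyticAt z₀.swap
        exact AnalyticAt.fun_comp (g := polyFun G₀) (f := Prod.swap)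
          (analyticAt_polyFun G₀ _) h1
      have hgd : fderiv ℂ g z₀.swap (0, 1) ≠ 0 := by
        have h1 : HasFDerivAt g ((fderiv ℂ (polyFun G₀) z₀).comp
            ((ContinuousLinearMap.snd ℂ ℂ ℂ).prod (ContinuousLinearMap.fst ℂ ℂ ℂ))) z₀.swap := by
          have h2 : HasFDerivAt (polyFun G₀) (fderiv ℂ (polyFun G₀) z₀) z₀.swap.swap := by
            rw [Prod.swap_swap]
            exact (analyticAt_polyFun G₀ z₀).differentiableAt.hasFDerivAt
          exact h2.comp z₀.swap (hsw z₀.swap)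
        rw [h1.fderiv]
        simpa using hx
      obtain ⟨ψ, hψ, hev⟩ := local_graph (F := fun w => F w.swap) (g := g) (z₀ := z₀.swap) hga
        (fun w => hG₀ w.swap) (by simp only [hg, Prod.swap_swap]; exact (hG₀ z₀).2 hFz₀) hgd
      have hev' := (continuous_swap.tendsto z₀).eventually hev
      have hsl : ∀ᶠ z : ℂ × ℂ in 𝓝 z₀,
          z.2 * deriv ψ z.2 = ψ z.2 → deriv ψ z.2 = deriv ψ z₀.2 :=
        (continuous_snd.tendsto z₀).eventually (slope_unique hψ)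
      refine ⟨(deriv ψ z₀.2)⁻¹, ?_⟩
      filter_upwards [hev', hsl] with z hz hzs k hk
      obtain ⟨hℓ, -, hFz, G, hGF, hdG, hker⟩ := hk
      have hGz : HasFDerivAt (polyFun G) (fderiv ℂ (polyFun G) z) z.swap.swap := by
        rw [Prod.swap_swap]
        exact (analyticAt_polyFun G z).differentiableAt.hasFDerivAt
      have hGs : HasFDerivAt (fun w : ℂ × ℂ => polyFun G w.swap) ((fderiv ℂ (polyFun G) z).comp
            ((ContinuousLinearMap.snd ℂ ℂ ℂ).prod (ContinuousLinearMap.fst ℂ ℂ ℂ))) z.swap :=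
        hGz.comp z.swap (hsw z.swap)
      obtain ⟨h1, h2⟩ := hz ((fderiv ℂ (circleFun ![0, k, -1, 0]) z).comp
          ((ContinuousLinearMap.snd ℂ ℂ ℂ).prod (ContinuousLinearMap.fst ℂ ℂ ℂ)))
        (fun w => polyFun G w.swap) (by simpa using hFz) hGs.differentiableAt
        (fun w => hGF w.swap) (by
          intro w
          rw [hGs.fderiv]
          exact hker _)
      simp only [ContinuousLinearMap.comp_apply, ContinuousLinearMap.prod_apply,
        ContinuousLinearMap.coe_fst', ContinuousLinearMap.coe_snd', fderiv_line,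
        Prod.fst_swap, Prod.snd_swap] at h1 h2
      have h3 : (k : ℂ) * z.1 = z.2 := by
        simp [circleFun] at hℓ
        linear_combination hℓ
      have h4 : (k : ℂ) * deriv ψ z.2 = 1 := by linear_combination h2
      have h5 : deriv ψ z.2 = deriv ψ z₀.2 := hzs (by
        rw [h1]
        linear_combination (-(deriv ψ z.2)) * h3 + z.1 * h4)
      rw [h5] at h4
      exact eq_inv_of_mul_eq_one_left h4
    · obtain ⟨ψ, hψ, hev⟩ := local_graph (F := F) (g := polyFun G₀) (z₀ := z₀)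
        (analyticAt_polyFun G₀ z₀) hG₀ ((hG₀ z₀).2 hFz₀) hy
      have hsl : ∀ᶠ z : ℂ × ℂ in 𝓝 z₀,
          z.1 * deriv ψ z.1 = ψ z.1 → deriv ψ z.1 = deriv ψ z₀.1 :=
        (continuous_fst.tendsto z₀).eventually (slope_unique hψ)
      refine ⟨deriv ψ z₀.1, ?_⟩
      filter_upwards [hev, hsl] with z hz hzs k hk
      obtain ⟨hℓ, -, hFz, G, hGF, hdG, hker⟩ := hk
      obtain ⟨h1, h2⟩ := hz (fderiv ℂ (circleFun ![0, k, -1, 0]) z) (polyFun G) hFz
        (analyticAt_polyFun G z).differentiableAt hGF hker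
      rw [fderiv_line] at h2
      have h3 : (k : ℂ) * z.1 = z.2 := by
        simp [circleFun] at hℓ
        linear_combination hℓ
      have h4 : (k : ℂ) = deriv ψ z.1 := by linear_combination h2
      rw [h4]
      refine hzs ?_
      rw [h1, ← h3, h4]
      ring
  choose! κ hκ using hloc
  obtain ⟨T, hTR, hTc, hTcov⟩ := TopologicalSpace.countable_cover_nhdsWithin (s := R)
    (f := fun z₀ => {z | ∀ k : ℝ, TangentTo (circleFun ![0, k, -1, 0]) F z → (k : ℂ) = κ z₀})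
    (fun z₀ hz₀ => mem_nhdsWithin_of_mem_nhds (hκ z₀ hz₀))
  have hcount : (κ '' T).Countable := hTc.image κ
  have hpre : ((fun k : ℝ => (k : ℂ)) ⁻¹' (κ '' T)).Countable :=
    hcount.preimage Complex.ofReal_injective
  refine hpre.mono ?_
  rintro k ⟨z, hz⟩
  have hzR : z ∈ R := by
    obtain ⟨-, -, hFz, G, hGF, hdG, -⟩ := hz
    exact ⟨hFz, G, hGF, hdG⟩
  obtain ⟨z₀, hz₀T, hz₀⟩ := mem_iUnion₂.1 (hTcov hzR)
  exact ⟨z₀, hz₀T, (hz₀ k hz).symm⟩

end Pool.Agent.R747
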