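import Mathlib
import Pool.Agent.R747.IsoCircles
import Pool.Agent.R747.IsoTangent

/-!
The surface `z = x (√(2x² + y²) - x)` over the half-plane `x > 0`.  It carries parabolas over the
lines through the origin and ellipses over the circles `(x - v)² + y² = 2 v²`.
-/

open Set Filter Topology

namespace Pool.Agent.R747

/-- The half-plane. -/
def Hd : Set (ℝ × ℝ) := {p | 0 < p.1}

/-- The parameter of the circle through a point. -/
noncomputable def vf (p : ℝ × ℝ) : ℝ := √(2 * p.1 ^ 2 + p.2 ^ 2) - p.1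

lemma vf_spec (p : ℝ × ℝ) : (vf p + p.1) ^ 2 = 2 * p.1 ^ 2 + p.2 ^ 2 := by
  unfold vf
  rw [sub_add_cancel, Real.sq_sqrt (by positivity)]

lemma vf_pos {p : ℝ × ℝ} (hp : 0 < p.1) : 0 < vf p := by
  unfold vf
  rw [sub_pos]
  refine Real.lt_sqrt_of_sq_lt ?_
  nlinarith [sq_nonneg p.2]

lemma vf_eq {x y v : ℝ} (hvx : 0 ≤ v + x) (h : (v + x) ^ 2 = 2 * x ^ 2 + y ^ 2) : vf (x, y) = v := by
  unfold vf
  simp only
  rw [← h, Real.sqrt_sq hvx]
  ring

lemma vf_smul {p : ℝ × ℝ} {u : ℝ} (hu : 0 ≤ u) : vf (u * p.1, u * p.2) = u * vf p := by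
  unfold vf
  simp only
  have : 2 * (u * p.1) ^ 2 + (u * p.2) ^ 2 = u ^ 2 * (2 * p.1 ^ 2 + p.2 ^ 2) := by ring
  rw [this, Real.sqrt_mul (by positivity), Real.sqrt_sq hu]
  ring

lemma analyticAt_vf {p : ℝ × ℝ} (hp : 0 < p.1) : AnalyticAt ℝ vf p := by
  have hpos : 0 < 2 * p.1 ^ 2 + p.2 ^ 2 := by positivity
  have hs : AnalyticAt ℝ (fun x : ℝ => √x) (2 * p.1 ^ 2 + p.2 ^ 2) :=
    (Real.contDiffAt_sqrt (n := ⊤) hpos.ne').analyticAt
  have hin : AnalyticAt ℝ (fun p : ℝ × ℝ => 2 * p.1 ^ 2 + p.2 ^ 2) p :=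
    (analyticAt_const.mul (analyticAt_fst.pow 2)).add (analyticAt_snd.pow 2)
  have hc : AnalyticAt ℝ (fun p : ℝ × ℝ => √(2 * p.1 ^ 2 + p.2 ^ 2)) p :=
    AnalyticAt.fun_comp (g := fun x : ℝ => √x) (f := fun p : ℝ × ℝ => 2 * p.1 ^ 2 + p.2 ^ 2) hs hin
  exact hc.sub analyticAt_fst

/-- The height function. -/
noncomputable def hf (p : ℝ × ℝ) : ℝ := p.1 * vf p

lemma analyticAt_hf {p : ℝ × ℝ} (hp : 0 < p.1) : AnalyticAt ℝ hf p :=
  analyticAt_fst.mul (analyticAt_vf hp)

lemma hf_pos {p : ℝ × ℝ} (hp : 0 < p.1) : 0 < hf p := mul_pos hp (vf_pos hp)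

/-- The surface. -/
noncomputable def sg (p : ℝ × ℝ) : ℝ × ℝ × ℝ := (p.1, p.2, hf p)

/-- The parabolas. -/
noncomputable def pdat : ParabolaData where
  x₀ := fun p => p.1
  y₀ := fun p => p.2
  a := fun p => p.1
  b := fun p => p.2
  c := hf
  d := fun p => 2 * hf p
  e := hf
  t₁ := fun _ => -1
  t₂ := fun _ => 1

/-- The ellipses. -/
noncomputable def edat : EllipseData where
  m₁ := vf
  m₂ := fun _ => 0
  r := fun p => √2 * vf p
  α := vf
  β := fun _ => 0
  γ := fun _ => 0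
  s₁ := fun _ => -(3 * Real.pi / 4)
  s₂ := fun _ => 3 * Real.pi / 4

lemma isAnalyticSurface_sg : IsAnalyticSurface Hd sg := by
  refine ⟨isOpen_lt continuous_const continuous_fst, ⟨⟨(1, 0), by simp [Hd]⟩, ?_⟩, ?_, ?_, ?_⟩
  · have : Convex ℝ Hd := by
      intro p hp q hq a b ha hb hab
      change 0 < (a • p + b • q).1
      have h1 : (a • p + b • q).1 = a * p.1 + b * q.1 := rfl
      rw [h1]
      rcases ha.lt_or_eq with h | h
      · have := mul_pos h hp
        have := mul_nonneg hb (le_of_lt hq)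
        linarith
      · have hb' : b = 1 := by linarith
        rw [← h, hb']
        have : 0 < q.1 := hq
        linarith
    exact this.isPreconnected
  · intro p hp
    exact analyticAt_fst.prod (analyticAt_snd.prod (analyticAt_hf hp))
  · intro p _ q _ h
    simp only [sg, Prod.mk.injEq] at h
    exact Prod.ext h.1 h.2.1
  · intro p hp v w hvw
    have hd : HasFDerivAt sg ((ContinuousLinearMap.fst ℝ ℝ ℝ).prod
        ((ContinuousLinearMap.snd ℝ ℝ ℝ).prod (fderiv ℝ hf p))) p :=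
      hasFDerivAt_fst.prodMk (hasFDerivAt_snd.prodMk
        (analyticAt_hf hp).differentiableAt.hasFDerivAt)
    rw [hd.fderiv] at hvw
    simp only [ContinuousLinearMap.prod_apply, Prod.mk.injEq] at hvw
    exact Prod.ext hvw.1 hvw.2.1

lemma cos_gt {s : ℝ} (h1 : -(3 * Real.pi / 4) < s) (h2 : s < 3 * Real.pi / 4) :
    -(√2 / 2) < Real.cos s := by
  have hpi := Real.pi_pos
  have h3 : Real.cos (3 * Real.pi / 4) = -(√2 / 2) := by
    rw [show 3 * Real.pi / 4 = Real.pi - Real.pi / 4 by ring, Real.cos_pi_sub,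
      Real.cos_pi_div_four]
  rw [← h3, ← Real.cos_abs s]
  refine Real.cos_lt_cos_of_nonneg_of_le_pi (abs_nonneg s) (by linarith) ?_
  rw [abs_lt]
  exact ⟨h1, h2⟩

lemma lt_of_cos_gt {s : ℝ} (h1 : -Real.pi < s) (h2 : s ≤ Real.pi) (hc : -(√2 / 2) < Real.cos s) :
    -(3 * Real.pi / 4) < s ∧ s < 3 * Real.pi / 4 := by
  have hpi := Real.pi_pos
  have h3 : Real.cos (3 * Real.pi / 4) = -(√2 / 2) := by
    rw [show 3 * Real.pi / 4 = Real.pi - Real.pi / 4 by ring, Real.cos_pi_sub,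
      Real.cos_pi_div_four]
  rw [← abs_lt]
  by_contra hcon
  push Not at hcon
  have h4 : Real.cos |s| ≤ Real.cos (3 * Real.pi / 4) :=
    Real.cos_le_cos_of_nonneg_of_le_pi (by linarith) (abs_le.2 ⟨h1.le, h2⟩) hcon
  rw [Real.cos_abs, h3] at h4
  linarith

lemma exists_angle {p : ℝ × ℝ} (hp : 0 < p.1) :
    ∃ s ∈ Ioo (-(3 * Real.pi / 4)) (3 * Real.pi / 4), √2 * vf p * Real.cos s = p.1 - vf p ∧
      √2 * vf p * Real.sin s = p.2 := by
  have hv := vf_pos hp
  have hs := vf_spec p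
  have h2 : (√2) ^ 2 = 2 := Real.sq_sqrt (by norm_num)
  have h2p : 0 < √2 := by positivity
  set z : ℂ := ⟨p.1 - vf p, p.2⟩ with hz
  have hn : ‖z‖ = √2 * vf p := by
    rw [Complex.norm_def, Complex.normSq_apply]
    have : z.re * z.re + z.im * z.im = (√2 * vf p) ^ 2 := by
      simp only [hz]
      rw [mul_pow, h2]
      nlinarith
    rw [this, Real.sqrt_sq (by positivity)]
  have hc := Complex.norm_mul_cos_arg z
  have hsn := Complex.norm_mul_sin_arg z
  rw [hn] at hc hsn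
  refine ⟨Complex.arg z, ?_, hc, hsn⟩
  refine lt_of_cos_gt (Complex.neg_pi_lt_arg z) (Complex.arg_le_pi z) ?_
  have h3 : -(vf p) < √2 * vf p * Real.cos (Complex.arg z) := by
    rw [hc]; simp only [hz]; linarith
  have h4 : √2 * vf p * (-(√2 / 2)) < √2 * vf p * Real.cos (Complex.arg z) := by
    have : √2 * vf p * (-(√2 / 2)) = -(vf p) := by
      have : √2 * √2 = 2 := by rw [← sq]; exact h2
      linear_combination (-(vf p) / 2) * this
    rw [this]; exact h3
  exact lt_of_mul_lt_mul_left h4 (by positivity)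

lemma good_pdat : pdat.Good Hd := by
  refine ⟨⟨fun _ _ => analyticAt_fst, fun _ _ => analyticAt_snd, fun _ _ => analyticAt_fst,
    fun _ _ => analyticAt_snd, fun _ hp => analyticAt_hf hp,
    fun _ hp => analyticAt_const.mul (analyticAt_hf hp), fun _ hp => analyticAt_hf hp,
    fun _ _ => analyticAt_const, fun _ _ => analyticAt_const⟩, fun p hp => ⟨Or.inl ?_, ?_, ?_⟩⟩
  · exact (show (0 : ℝ) < p.1 from hp).ne'
  · exact (hf_pos hp).ne'
  · change (-1 : ℝ) < 1
    norm_num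

lemma good_edat : edat.Good Hd := by
  have hpi := Real.pi_pos
  refine ⟨⟨fun _ hp => analyticAt_vf hp, fun _ _ => analyticAt_const,
    fun _ hp => analyticAt_const.mul (analyticAt_vf hp), fun _ hp => analyticAt_vf hp,
    fun _ _ => analyticAt_const, fun _ _ => analyticAt_const,
    fun _ _ => analyticAt_const, fun _ _ => analyticAt_const⟩, fun p hp => ⟨?_, ?_, ?_⟩⟩
  · have := vf_pos hp
    change 0 < √2 * vf p
    positivity
  · change -(3 * Real.pi / 4) < 3 * Real.pi / 4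
    linarith
  · change 3 * Real.pi / 4 < -(3 * Real.pi / 4) + 2 * Real.pi
    linarith

lemma pdat_pt (p : ℝ × ℝ) (t : ℝ) : pdat.pt p t = (p.1 + p.1 * t, p.2 + p.2 * t,
    hf p * t ^ 2 + 2 * hf p * t + hf p) := rfl

lemma edat_pt (p : ℝ × ℝ) (s : ℝ) : edat.pt p s = (vf p + √2 * vf p * Real.cos s,
    0 + √2 * vf p * Real.sin s, vf p * (vf p + √2 * vf p * Real.cos s) +
      0 * (0 + √2 * vf p * Real.sin s) + 0) := rfl

lemma mem_parc (p : ℝ × ℝ) {u : ℝ} (h0 : 0 < u) (h2 : u < 2) :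
    ((u * p.1, u * p.2, hf p * u ^ 2) : ℝ × ℝ × ℝ) ∈ pdat.arc p := by
  refine ⟨u - 1, ⟨?_, ?_⟩, ?_⟩
  · change (-1 : ℝ) < u - 1
    linarith
  · change u - 1 < (1 : ℝ)
    linarith
  · rw [pdat_pt]
    simp only [Prod.mk.injEq]
    refine ⟨by ring, by ring, by ring⟩

lemma mem_earc (p : ℝ × ℝ) {s : ℝ} (h1 : -(3 * Real.pi / 4) < s) (h2 : s < 3 * Real.pi / 4) :
    ((vf p + √2 * vf p * Real.cos s, √2 * vf p * Real.sin s,
      vf p * (vf p + √2 * vf p * Real.cos s)) : ℝ × ℝ × ℝ) ∈ edat.arc p := by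
  refine ⟨s, ⟨h1, h2⟩, ?_⟩
  rw [edat_pt]
  simp only [Prod.mk.injEq]
  refine ⟨trivial, by ring, by ring⟩

lemma hypothesisH : HypothesisH Hd sg pdat edat := by
  have hpi := Real.pi_pos
  have h22 : (√2) ^ 2 = 2 := Real.sq_sqrt (by norm_num)
  have h2p : 0 < √2 := by positivity
  refine ⟨good_pdat, good_edat, fun p hp => ?_⟩
  have hx : 0 < p.1 := hp
  have hv := vf_pos hx
  have hs := vf_spec p
  have hf0 := hf_pos hx
  refine ⟨?_, ?_, ?_, ?_, ?_, ?_, ?_⟩
  · have := mem_parc p (u := 1) one_pos (by norm_num)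
    simpa [sg] using this
  · obtain ⟨s, hs1, hs2, hs3⟩ := exists_angle hx
    have := mem_earc p hs1.1 hs1.2
    rw [hs2, hs3] at this
    convert this using 1
    simp only [sg, hf, Prod.mk.injEq]
    refine ⟨by ring, trivial, by ring⟩
  · rintro _ ⟨t, ht, rfl⟩
    have ht1 : -1 < t := ht.1
    refine ⟨((1 + t) * p.1, (1 + t) * p.2), ?_, ?_⟩
    · change 0 < (1 + t) * p.1
      exact mul_pos (by linarith) hx
    · rw [pdat_pt]
      simp only [sg, hf, Prod.mk.injEq, vf_smul (show 0 ≤ 1 + t by linarith)]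
      refine ⟨by ring, by ring, by ring⟩
  · rintro _ ⟨s, hsI, rfl⟩
    have hcos := cos_gt hsI.1 hsI.2
    have hX : 0 < vf p + √2 * vf p * Real.cos s := by
      have h3 : √2 * vf p * (-(√2 / 2)) < √2 * vf p * Real.cos s :=
        mul_lt_mul_of_pos_left hcos (by positivity)
      have h4 : √2 * vf p * (-(√2 / 2)) = -(vf p) := by
        have : √2 * √2 = 2 := by rw [← sq]; exact h22
        linear_combination (-(vf p) / 2) * this
      linarith
    refine ⟨(vf p + √2 * vf p * Real.cos s, √2 * vf p * Real.sin s), hX, ?_⟩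
    have hvv : vf (vf p + √2 * vf p * Real.cos s, √2 * vf p * Real.sin s) = vf p := by
      refine vf_eq (by linarith) ?_
      have hcs := Real.sin_sq_add_cos_sq s
      have : Real.sin s ^ 2 = 1 - Real.cos s ^ 2 := by linarith
      rw [mul_pow (√2 * vf p) (Real.sin s), this]
      ring_nf
      rw [h22]
      ring
    rw [edat_pt]
    simp only [sg, hf, hvv, Prod.mk.injEq]
    refine ⟨trivial, by ring, by ring⟩
  · intro t _ s _ ht hs'
    rw [pdat_pt, sg, Prod.mk.injEq] at ht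
    rw [edat_pt, sg, Prod.mk.injEq, Prod.mk.injEq] at hs'
    obtain ⟨e1, e2, -⟩ := hs'
    rw [LinearIndependent.pair_iff]
    intro α β h
    have g1 : α * p.1 + β * -(√2 * vf p * Real.sin s) = 0 := congrArg (fun q => q.1) h
    have g2 : α * p.2 + β * (√2 * vf p * Real.cos s) = 0 := congrArg (fun q => q.2.1) h
    have e1' : √2 * vf p * Real.cos s = p.1 - vf p := by linarith
    have e2' : √2 * vf p * Real.sin s = p.2 := by linarith
    rw [e2'] at g1
    rw [e1'] at g2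
    have hdet : 0 < vf p ^ 2 + vf p * p.1 := by positivity
    have k1 : α * (vf p ^ 2 + vf p * p.1) = 0 := by
      linear_combination (p.1 - vf p) * g1 + p.2 * g2 + α * hs
    have k2 : β * (vf p ^ 2 + vf p * p.1) = 0 := by
      linear_combination p.1 * g2 - p.2 * g1 + β * hs
    exact ⟨(mul_eq_zero.1 k1).resolve_right hdet.ne', (mul_eq_zero.1 k2).resolve_right hdet.ne'⟩
  · rintro ⟨S, hS | hS, hsub⟩
    · obtain ⟨A, B, C, E, hA, rfl⟩ := hS
      have q1 := hsub (Or.inl (mem_parc p (u := 1) (by norm_num) (by norm_num)))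
      have q2 := hsub (Or.inl (mem_parc p (u := 1 / 2) (by norm_num) (by norm_num)))
      have q3 := hsub (Or.inl (mem_parc p (u := 3 / 2) (by norm_num) (by norm_num)))
      have r1 := hsub (Or.inr (mem_earc p (s := 0) (by linarith) (by linarith)))
      have r2 := hsub (Or.inr (mem_earc p (s := Real.pi / 2) (by linarith) (by linarith)))
      have r3 := hsub (Or.inr (mem_earc p (s := -(Real.pi / 2)) (by linarith) (by linarith)))
      simp only [mem_ofPred_eq, Real.cos_zero, Real.sin_zero, Real.cos_pi_div_two,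
        Real.sin_pi_div_two, Real.cos_neg, Real.sin_neg] at q1 q2 q3 r1 r2 r3
      have hE : E = 0 := by linear_combination (-3 : ℝ) * q2 + 3 * q1 - q3
      have hC : C * (√2 * vf p) = 0 := by linear_combination (r3 - r2) / 2
      have hC0 : C = 0 := (mul_eq_zero.1 hC).resolve_right (by positivity)
      rw [hE, hC0] at r1 r2
      have k1 : vf p = 3 * A * vf p + B := by
        have : vf p * vf p = vf p * (3 * A * vf p + B) := by
          linear_combination r2 + A * vf p ^ 2 * h22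
        exact mul_left_cancel₀ hv.ne' this
      have k2 : vf p = A * vf p * (1 + √2) + B := by
        have : (vf p * (1 + √2)) * vf p = (vf p * (1 + √2)) * (A * vf p * (1 + √2) + B) := by
          linear_combination r1
        exact mul_left_cancel₀ (by positivity) this
      have k3 : A * vf p * (2 - √2) = 0 := by linear_combination k2 - k1
      have h2lt : √2 < 2 := by nlinarith
      exact (mul_ne_zero (mul_ne_zero hA hv.ne') (by linarith : (2 : ℝ) - √2 ≠ 0)) k3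
    · obtain ⟨a, b, ρ, hρ, rfl⟩ := hS
      have q1 := hsub (Or.inl (mem_parc p (u := 1) (by norm_num) (by norm_num)))
      have q2 := hsub (Or.inl (mem_parc p (u := 1 / 2) (by norm_num) (by norm_num)))
      have q3 := hsub (Or.inl (mem_parc p (u := 3 / 2) (by norm_num) (by norm_num)))
      simp only [mem_ofPred_eq] at q1 q2 q3
      have : p.1 ^ 2 + p.2 ^ 2 = 0 := by linear_combination 2 * q2 - 4 * q1 + 2 * q3
      nlinarith [sq_nonneg p.2]
  · rintro ⟨S, ⟨l, m, n, k, hlmn, rfl⟩, hsub⟩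
    have q1 := hsub (Or.inl (mem_parc p (u := 1) (by norm_num) (by norm_num)))
    have q2 := hsub (Or.inl (mem_parc p (u := 1 / 2) (by norm_num) (by norm_num)))
    have q3 := hsub (Or.inl (mem_parc p (u := 3 / 2) (by norm_num) (by norm_num)))
    have r1 := hsub (Or.inr (mem_earc p (s := 0) (by linarith) (by linarith)))
    have r2 := hsub (Or.inr (mem_earc p (s := Real.pi / 2) (by linarith) (by linarith)))
    have r3 := hsub (Or.inr (mem_earc p (s := -(Real.pi / 2)) (by linarith) (by linarith)))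
    simp only [mem_ofPred_eq, Real.cos_zero, Real.sin_zero, Real.cos_pi_div_two,
      Real.sin_pi_div_two, Real.cos_neg, Real.sin_neg] at q1 q2 q3 r1 r2 r3
    have hn : n * hf p = 0 := by linear_combination 2 * q2 - 4 * q1 + 2 * q3
    have hn0 : n = 0 := (mul_eq_zero.1 hn).resolve_right hf0.ne'
    have hk : k = 0 := by
      rw [hn0] at q1 q2
      linear_combination q1 - 2 * q2
    have hm : m * (√2 * vf p) = 0 := by linear_combination (r2 - r3) / 2
    have hm0 : m = 0 := (mul_eq_zero.1 hm).resolve_right (by positivity)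
    rw [hn0, hk, hm0] at r2
    have hl : l * vf p = 0 := by linear_combination r2
    have hl0 : l = 0 := (mul_eq_zero.1 hl).resolve_right hv.ne'
    rcases hlmn with h | h | h
    · exact h hl0
    · exact h hm0
    · exact h hn0

lemma not_A : ¬AlternativeA Hd pdat edat := by
  rintro ⟨a, b, c, q, -, h⟩
  have hall : {k : ℝ | ∃ z, TangentTo (circleFun ![0, k, -1, 0]) (cyclicFun a b c q) z} = univ := by
    ext k
    simp only [mem_ofPred_eq, mem_univ, iff_true]
    obtain ⟨⟨z, w, hz, -⟩, -⟩ := h (1, k) (by simp [Hd])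
    refine ⟨z, ?_⟩
    have e : pdat.top (1, k) = ![0, k, -1, 0] := by
      simp [ParabolaData.top, pdat]
    rwa [e] at hz
  have := countable_tangent (cyclicFun a b c q)
  rw [hall] at this
  exact Cardinal.not_countable_real this

/-- Three vectors in the span of two vectors have vanishing minors. -/
lemma minor_zero {F₁ F₂ w₁ w₂ w₃ : Fin 4 → ℝ} (h₁ : w₁ ∈ Submodule.span ℝ {F₁, F₂})
    (h₂ : w₂ ∈ Submodule.span ℝ {F₁, F₂}) (h₃ : w₃ ∈ Submodule.span ℝ {F₁, F₂}) (i j k : Fin 4) :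
    w₁ i * (w₂ j * w₃ k - w₂ k * w₃ j) - w₁ j * (w₂ i * w₃ k - w₂ k * w₃ i) +
      w₁ k * (w₂ i * w₃ j - w₂ j * w₃ i) = 0 := by
  obtain ⟨a₁, b₁, rfl⟩ := Submodule.mem_span_pair.1 h₁
  obtain ⟨a₂, b₂, rfl⟩ := Submodule.mem_span_pair.1 h₂
  obtain ⟨a₃, b₃, rfl⟩ := Submodule.mem_span_pair.1 h₃
  simp only [Pi.add_apply, Pi.smul_apply, smul_eq_mul]
  ring

lemma not_B : ¬AlternativeB Hd pdat edat := by
  rintro ⟨F₁, F₂, G₁, G₂, -, -, h⟩
  -- the vectors of the lines and circles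
  have hline : ∀ k : ℝ, (![0, k, -1, 0] : Fin 4 → ℝ) ∈ Submodule.span ℝ {F₁, F₂} ∨
      (![0, k, -1, 0] : Fin 4 → ℝ) ∈ Submodule.span ℝ {G₁, G₂} := by
    intro k
    have := (h (1, k) (by simp [Hd])).1
    have e : pdat.top (1, k) = ![0, k, -1, 0] := by
      simp [ParabolaData.top, pdat]
    rwa [e] at this
  have h22 : (√2) ^ 2 = 2 := Real.sq_sqrt (by norm_num)
  have hcirc : ∀ v : ℝ, 0 < v → (![1, -2 * v, 0, -v ^ 2] : Fin 4 → ℝ) ∈
      Submodule.span ℝ {F₁, F₂} ∨ (![1, -2 * v, 0, -v ^ 2] : Fin 4 → ℝ) ∈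
      Submodule.span ℝ {G₁, G₂} := by
    intro v hv
    have hx : 0 < v * (1 + √2) := by positivity
    have := (h (v * (1 + √2), 0) hx).2
    have hvf : vf (v * (1 + √2), 0) = v := by
      refine vf_eq (by positivity) ?_
      ring_nf
      rw [h22]
      ring
    have e : edat.top (v * (1 + √2), 0) = ![1, -2 * v, 0, -v ^ 2] := by
      simp only [EllipseData.top, edat, hvf]
      have : v ^ 2 + 0 ^ 2 - (√2 * v) ^ 2 = -v ^ 2 := by
        rw [mul_pow, h22]; ring
      rw [this]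
      simp
    rwa [e] at this
  have two_lines : ∀ {F₁ F₂ : Fin 4 → ℝ} {k₁ k₂ v : ℝ}, k₁ ≠ k₂ →
      (![0, k₁, -1, 0] : Fin 4 → ℝ) ∈ Submodule.span ℝ {F₁, F₂} →
      (![0, k₂, -1, 0] : Fin 4 → ℝ) ∈ Submodule.span ℝ {F₁, F₂} →
      (![1, -2 * v, 0, -v ^ 2] : Fin 4 → ℝ) ∉ Submodule.span ℝ {F₁, F₂} := by
    intro F₁ F₂ k₁ k₂ v hk h₁ h₂ h₃
    have := minor_zero h₁ h₂ h₃ 0 1 2
    simp at this
    apply hk
    linarith
  have three_circles : ∀ {F₁ F₂ : Fin 4 → ℝ},
      (![1, -2 * 1, 0, -1 ^ 2] : Fin 4 → ℝ) ∈ Submodule.span ℝ {F₁, F₂} →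
      (![1, -2 * 2, 0, -2 ^ 2] : Fin 4 → ℝ) ∈ Submodule.span ℝ {F₁, F₂} →
      (![1, -2 * 3, 0, -3 ^ 2] : Fin 4 → ℝ) ∉ Submodule.span ℝ {F₁, F₂} := by
    intro F₁ F₂ h₁ h₂ h₃
    have := minor_zero h₁ h₂ h₃ 0 1 3
    have e0 : ∀ a b c d : ℝ, (![a, b, c, d] : Fin 4 → ℝ) 0 = a := fun _ _ _ _ => rfl
    have e1 : ∀ a b c d : ℝ, (![a, b, c, d] : Fin 4 → ℝ) 1 = b := fun _ _ _ _ => rfl
    have e3 : ∀ a b c d : ℝ, (![a, b, c, d] : Fin 4 → ℝ) 3 = d := fun _ _ _ _ => rfl
    rw [e0, e0, e0, e1, e1, e1, e3, e3, e3] at this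
    norm_num at this
  have key : ∀ {F₁ F₂ G₁ G₂ : Fin 4 → ℝ} {k₁ k₂ : ℝ}, k₁ ≠ k₂ →
      (![0, k₁, -1, 0] : Fin 4 → ℝ) ∈ Submodule.span ℝ {F₁, F₂} →
      (![0, k₂, -1, 0] : Fin 4 → ℝ) ∈ Submodule.span ℝ {F₁, F₂} →
      (∀ v : ℝ, 0 < v → (![1, -2 * v, 0, -v ^ 2] : Fin 4 → ℝ) ∈
      Submodule.span ℝ {F₁, F₂} ∨ (![1, -2 * v, 0, -v ^ 2] : Fin 4 → ℝ) ∈
      Submodule.span ℝ {G₁, G₂}) → False := by
    intro F₁ F₂ G₁ G₂ k₁ k₂ hk h₁ h₂ hc
    have c1 := (hc 1 (by norm_num)).resolve_left (two_lines hk h₁ h₂)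
    have c2 := (hc 2 (by norm_num)).resolve_left (two_lines hk h₁ h₂)
    have c3 := (hc 3 (by norm_num)).resolve_left (two_lines hk h₁ h₂)
    exact three_circles c1 c2 c3
  have hcirc' : ∀ v : ℝ, 0 < v → (![1, -2 * v, 0, -v ^ 2] : Fin 4 → ℝ) ∈
      Submodule.span ℝ {G₁, G₂} ∨ (![1, -2 * v, 0, -v ^ 2] : Fin 4 → ℝ) ∈
      Submodule.span ℝ {F₁, F₂} := fun v hv => (hcirc v hv).symm
  rcases hline 0 with a | a <;> rcases hline 1 with b | b <;> rcases hline 2 with c | c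
  · exact key (by norm_num) a b hcirc
  · exact key (by norm_num) a b hcirc
  · exact key (by norm_num) a c hcirc
  · exact key (by norm_num) b c hcirc'
  · exact key (by norm_num) b c hcirc
  · exact key (by norm_num) a c hcirc'
  · exact key (by norm_num) a b hcirc'
  · exact key (by norm_num) a b hcirc'

end Pool.Agent.R747
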