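import Mathlib

/-!
Analytic surfaces carrying a segment and a vertical-axis parabolic arc through each point, and
their parametrizations of bidegree type `(P/(UV), Q/(UV), Z/(U^2 V))`.
-/

open Set

namespace Pool.Agent.R747

/-- Three-dimensional space. -/
abbrev R3 : Type := ℝ × ℝ × ℝ

/-- An analytic surface (image of a real-analytic immersion `σ` of a connected open set `D` of the
plane) together with a segment and a parabolic arc with vertical axis through each of its points,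
contained in the surface, meeting transversally there and depending analytically on the point. -/
structure LineParabolaSurface where
  D : Set (ℝ × ℝ)
  isOpen_D : IsOpen D
  isConnected_D : IsConnected D
  σ : ℝ × ℝ → R3
  analytic_σ : AnalyticOnNhd ℝ σ D
  immersion_σ : ∀ p ∈ D, Function.Injective (fderiv ℝ σ p)
  injective_σ : InjOn σ D
  /-- the end points of the segment through `σ p` -/
  A : ℝ × ℝ → R3
  B : ℝ × ℝ → R3
  analytic_A : AnalyticOnNhd ℝ A D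
  analytic_B : AnalyticOnNhd ℝ B D
  ne_AB : ∀ p ∈ D, A p ≠ B p
  /-- the coefficients of the parabola through `σ p` and the parameter interval of the arc -/
  x₀ : ℝ × ℝ → ℝ
  y₀ : ℝ × ℝ → ℝ
  a : ℝ × ℝ → ℝ
  b : ℝ × ℝ → ℝ
  c : ℝ × ℝ → ℝ
  d : ℝ × ℝ → ℝ
  e : ℝ × ℝ → ℝ
  t₁ : ℝ × ℝ → ℝ
  t₂ : ℝ × ℝ → ℝ
  analytic_x₀ : AnalyticOnNhd ℝ x₀ D
  analytic_y₀ : AnalyticOnNhd ℝ y₀ D
  analytic_a : AnalyticOnNhd ℝ a D
  analytic_b : AnalyticOnNhd ℝ b D
  analytic_c : AnalyticOnNhd ℝ c D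
  analytic_d : AnalyticOnNhd ℝ d D
  analytic_e : AnalyticOnNhd ℝ e D
  analytic_t₁ : AnalyticOnNhd ℝ t₁ D
  analytic_t₂ : AnalyticOnNhd ℝ t₂ D
  ab_ne : ∀ p ∈ D, (a p, b p) ≠ (0, 0)
  c_ne : ∀ p ∈ D, c p ≠ 0
  t_lt : ∀ p ∈ D, t₁ p < t₂ p
  mem_seg : ∀ p ∈ D, σ p ∈ openSegment ℝ (A p) (B p)
  seg_sub : ∀ p ∈ D, segment ℝ (A p) (B p) ⊆ σ '' D
  mem_arc : ∀ p ∈ D, σ p ∈ (fun t : ℝ => ((x₀ p + a p * t, y₀ p + b p * t,
    c p * t ^ 2 + d p * t + e p) : R3)) '' Ioo (t₁ p) (t₂ p)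
  arc_sub : ∀ p ∈ D, (fun t : ℝ => ((x₀ p + a p * t, y₀ p + b p * t,
    c p * t ^ 2 + d p * t + e p) : R3)) '' Ioo (t₁ p) (t₂ p) ⊆ σ '' D
  transversal : ∀ p ∈ D, ∀ t ∈ Ioo (t₁ p) (t₂ p), ((x₀ p + a p * t, y₀ p + b p * t,
    c p * t ^ 2 + d p * t + e p) : R3) = σ p →
    LinearIndependent ℝ ![B p - A p, ((a p, b p, 2 * c p * t + d p) : R3)]

namespace LineParabolaSurface

variable (S : LineParabolaSurface)

/-- The segment through `σ p`. -/
def seg (p : ℝ × ℝ) : Set R3 := segment ℝ (S.A p) (S.B p)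

/-- The parabolic arc through `σ p`. -/
def arc (p : ℝ × ℝ) : Set R3 :=
  (fun t : ℝ => ((S.x₀ p + S.a p * t, S.y₀ p + S.b p * t,
    S.c p * t ^ 2 + S.d p * t + S.e p) : R3)) '' Ioo (S.t₁ p) (S.t₂ p)

end LineParabolaSurface

/-- The real polynomial in `(u, v)` of degree at most `m` in `u` and at most `n` in `v` with the
coefficients `k i j`. -/
def bipoly (m n : ℕ) (k : ℕ → ℕ → ℝ) (u v : ℝ) : ℝ :=
  ∑ i ∈ Finset.range (m + 1), ∑ j ∈ Finset.range (n + 1), k i j * u ^ i * v ^ j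

/-- The rational map `(P/(UV), Q/(UV), Z/(U^2 V))` with `P, Q` of bidegree `(1,1)`, `Z` of bidegree
`(2,1)`, `U = U0 + U1 u` and `V = V0 + V1 v`. -/
noncomputable def ratMap (P Q Z : ℕ → ℕ → ℝ) (U V : ℝ × ℝ) (u v : ℝ) : R3 :=
  (bipoly 1 1 P u v / ((U.1 + U.2 * u) * (V.1 + V.2 * v)),
    bipoly 1 1 Q u v / ((U.1 + U.2 * u) * (V.1 + V.2 * v)),
    bipoly 2 1 Z u v / ((U.1 + U.2 * u) ^ 2 * (V.1 + V.2 * v)))

/-- The surface is parametrized, up to a subset `E` of Hausdorff dimension at most one, by such a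
rational map: for each `p` with `σ p` outside `E`, the part outside `E` of the segment through
`σ p` lies on a curve `u = const`, and the part outside `E` of the arc through `σ p` lies on a
curve `v = const` (all parameter values being in the domain of the rational map). -/
def AdmitsBilinearParam (S : LineParabolaSurface) : Prop :=
  ∃ (P Q Z : ℕ → ℕ → ℝ) (U V : ℝ × ℝ) (E : Set R3), U ≠ 0 ∧ V ≠ 0 ∧ dimH E ≤ 1 ∧
    ∀ p ∈ S.D, S.σ p ∉ E →
      (∃ u : ℝ, ∀ q ∈ S.seg p \ E, ∃ v : ℝ,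
        U.1 + U.2 * u ≠ 0 ∧ V.1 + V.2 * v ≠ 0 ∧ ratMap P Q Z U V u v = q) ∧
      (∃ v : ℝ, ∀ q ∈ S.arc p \ E, ∃ u : ℝ,
        U.1 + U.2 * u ≠ 0 ∧ V.1 + V.2 * v ≠ 0 ∧ ratMap P Q Z U V u v = q)

end Pool.Agent.R747
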