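import Mathlib
import Pool.Agent.R747.LineParab

/-!
The hyperbolic paraboloid `z = xy` over the quadrant `x, y > 0` with the lines `x = const` and the
sections by the planes over the lines `y = m^2 x + 2 m`, `m > 0`.
-/

open Set Filter MeasureTheory Polynomial

namespace Pool.Agent.R747

/-- The slope parameter. -/
noncomputable def mf (p : ℝ × ℝ) : ℝ := p.2 / (1 + √(1 + p.1 * p.2))

/-- The open quadrant. -/
def Qd : Set (ℝ × ℝ) := {p | 0 < p.1 ∧ 0 < p.2}

lemma mf_pos {p : ℝ × ℝ} (hp : p ∈ Qd) : 0 < mf p := by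
  unfold mf
  have h1 := hp.1
  have h2 := hp.2
  positivity

lemma mf_eq {x m : ℝ} (hx : 0 < x) (hm : 0 < m) : mf (x, m ^ 2 * x + 2 * m) = m := by
  unfold mf
  have h1 : 1 + x * (m ^ 2 * x + 2 * m) = (1 + m * x) ^ 2 := by ring
  simp only [h1]
  rw [Real.sqrt_sq (by positivity)]
  have : (0 : ℝ) < 1 + (1 + m * x) := by positivity
  field_simp
  ring

lemma mf_spec {p : ℝ × ℝ} (hp : p ∈ Qd) : p.2 = mf p ^ 2 * p.1 + 2 * mf p := by
  have h1 := hp.1
  have h2 := hp.2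
  set s := √(1 + p.1 * p.2) with hs
  have hs0 : 0 ≤ s := Real.sqrt_nonneg _
  have hs2 : s ^ 2 = 1 + p.1 * p.2 := Real.sq_sqrt (by positivity)
  have hd : (0 : ℝ) < 1 + s := by positivity
  have hm : mf p = p.2 / (1 + s) := rfl
  rw [hm]
  field_simp
  nlinarith

lemma analyticAt_mf {p : ℝ × ℝ} (hp : p ∈ Qd) : AnalyticAt ℝ mf p := by
  have h1 := hp.1
  have h2 := hp.2
  have hpos : 0 < 1 + p.1 * p.2 := by positivity
  have hs : AnalyticAt ℝ (fun x : ℝ => √x) (1 + p.1 * p.2) :=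
    (Real.contDiffAt_sqrt (n := ⊤) hpos.ne').analyticAt
  have hin : AnalyticAt ℝ (fun p : ℝ × ℝ => 1 + p.1 * p.2) p := by fun_prop
  have hc : AnalyticAt ℝ (fun p : ℝ × ℝ => √(1 + p.1 * p.2)) p :=
    AnalyticAt.fun_comp (g := fun x : ℝ => √x) (f := fun p : ℝ × ℝ => 1 + p.1 * p.2) hs hin
  have hden : AnalyticAt ℝ (fun p : ℝ × ℝ => 1 + √(1 + p.1 * p.2)) p := analyticAt_const.add hc
  have hne : 1 + √(1 + p.1 * p.2) ≠ 0 := by positivity
  exact analyticAt_snd.div hden hne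

lemma isOpen_Qd : IsOpen Qd :=
  (isOpen_lt continuous_const continuous_fst).inter (isOpen_lt continuous_const continuous_snd)

lemma convex_Qd : Convex ℝ Qd := by
  intro p hp q hq a b ha hb hab
  refine ⟨?_, ?_⟩
  · have h1 : (a • p + b • q).1 = a * p.1 + b * q.1 := rfl
    rw [h1]
    rcases ha.lt_or_eq with h | h
    · have := mul_pos h hp.1
      have := mul_nonneg hb hq.1.le
      linarith
    · have hb' : b = 1 := by linarith
      rw [← h, hb']
      have := hq.1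
      linarith
  · have h1 : (a • p + b • q).2 = a * p.2 + b * q.2 := rfl
    rw [h1]
    rcases ha.lt_or_eq with h | h
    · have := mul_pos h hp.2
      have := mul_nonneg hb hq.2.le
      linarith
    · have hb' : b = 1 := by linarith
      rw [← h, hb']
      have := hq.2
      linarith

lemma nonempty_Qd : Qd.Nonempty := ⟨(1, 1), by simp [Qd]⟩

lemma hasFDerivAt_saddle (p : ℝ × ℝ) :
    HasFDerivAt (fun p : ℝ × ℝ => ((p.1, p.2, p.1 * p.2) : R3))
      ((ContinuousLinearMap.fst ℝ ℝ ℝ).prod ((ContinuousLinearMap.snd ℝ ℝ ℝ).prod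
        (p.1 • ContinuousLinearMap.snd ℝ ℝ ℝ + p.2 • ContinuousLinearMap.fst ℝ ℝ ℝ))) p :=
  hasFDerivAt_fst.prodMk (hasFDerivAt_snd.prodMk (hasFDerivAt_fst.mul hasFDerivAt_snd))

/-- The example. -/
noncomputable def saddle : LineParabolaSurface where
  D := Qd
  isOpen_D := isOpen_Qd
  isConnected_D := ⟨nonempty_Qd, convex_Qd.isPreconnected⟩
  σ := fun p => (p.1, p.2, p.1 * p.2)
  analytic_σ := fun _ _ => analyticAt_fst.prod (analyticAt_snd.prod (analyticAt_fst.mul analyticAt_snd))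
  immersion_σ := by
    intro p _ v w hvw
    rw [(hasFDerivAt_saddle p).fderiv] at hvw
    simp only [ContinuousLinearMap.prod_apply, Prod.mk.injEq] at hvw
    exact Prod.ext hvw.1 hvw.2.1
  injective_σ := by
    intro p _ q _ h
    simp only [Prod.mk.injEq] at h
    exact Prod.ext h.1 h.2.1
  A := fun p => (p.1, p.2 / 2, p.1 * (p.2 / 2))
  B := fun p => (p.1, 2 * p.2, p.1 * (2 * p.2))
  analytic_A := fun _ _ => analyticAt_fst.prod ((analyticAt_snd.div analyticAt_const two_ne_zero).prod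
    (analyticAt_fst.mul (analyticAt_snd.div analyticAt_const two_ne_zero)))
  analytic_B := fun _ _ => analyticAt_fst.prod ((analyticAt_const.mul analyticAt_snd).prod
    (analyticAt_fst.mul (analyticAt_const.mul analyticAt_snd)))
  ne_AB := by
    intro p hp h
    simp only [Prod.mk.injEq] at h
    have := hp.2
    linarith [h.2.1]
  x₀ := fun p => p.1
  y₀ := fun p => p.2
  a := fun _ => 1
  b := fun p => mf p ^ 2
  c := fun p => mf p ^ 2
  d := fun p => p.2 + mf p ^ 2 * p.1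
  e := fun p => p.1 * p.2
  t₁ := fun p => -p.1
  t₂ := fun p => p.1
  analytic_x₀ := fun _ _ => analyticAt_fst
  analytic_y₀ := fun _ _ => analyticAt_snd
  analytic_a := fun _ _ => analyticAt_const
  analytic_b := fun p hp => (analyticAt_mf hp).pow 2
  analytic_c := fun p hp => (analyticAt_mf hp).pow 2
  analytic_d := fun p hp => analyticAt_snd.add (((analyticAt_mf hp).pow 2).mul analyticAt_fst)
  analytic_e := fun _ _ => analyticAt_fst.mul analyticAt_snd
  analytic_t₁ := fun _ _ => analyticAt_fst.neg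
  analytic_t₂ := fun _ _ => analyticAt_fst
  ab_ne := by
    intro p _ h
    simp at h
  c_ne := fun p hp => pow_ne_zero 2 (mf_pos hp).ne'
  t_lt := fun p hp => by
    have := hp.1
    linarith
  mem_seg := by
    intro p hp
    refine ⟨2 / 3, 1 / 3, by norm_num, by norm_num, by norm_num, ?_⟩
    simp only [Prod.smul_mk, smul_eq_mul, Prod.mk_add_mk, Prod.mk.injEq]
    refine ⟨by ring, by ring, by ring⟩
  seg_sub := by
    rintro p hp _ ⟨s, t, hs, ht, hst, rfl⟩
    refine ⟨(p.1, s * (p.2 / 2) + t * (2 * p.2)), ⟨hp.1, ?_⟩, ?_⟩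
    · have := hp.2
      rcases hs.lt_or_eq with h | h
      · have := mul_pos h (half_pos hp.2)
        have := mul_nonneg ht (by linarith : 0 ≤ 2 * p.2)
        simp only
        linarith
      · have ht' : t = 1 := by linarith
        rw [← h, ht']
        simp only
        linarith
    · simp only [Prod.smul_mk, smul_eq_mul, Prod.mk_add_mk, Prod.mk.injEq]
      refine ⟨?_, trivial, by ring⟩
      rw [← add_mul, hst, one_mul]
  mem_arc := by
    intro p hp
    refine ⟨0, ⟨by have := hp.1; linarith, hp.1⟩, ?_⟩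
    simp
  arc_sub := by
    rintro p hp _ ⟨t, ht, rfl⟩
    have hm := mf_pos hp
    have hs := mf_spec hp
    refine ⟨(p.1 + t, p.2 + mf p ^ 2 * t), ⟨by simp only; linarith [ht.1], ?_⟩, ?_⟩
    · simp only
      rw [hs]
      have h1 : 0 < p.1 + t := by linarith [ht.1]
      have h2 : 0 < mf p ^ 2 * (p.1 + t) := by positivity
      nlinarith
    · simp only [Prod.mk.injEq]
      refine ⟨by ring, trivial, by ring⟩
  transversal := by
    intro p hp t _ _
    rw [LinearIndependent.pair_iff]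
    intro s r h
    simp only [Prod.mk_sub_mk, Prod.smul_mk, smul_eq_mul, Prod.mk_add_mk, Prod.mk_eq_zero] at h
    obtain ⟨h1, h2, h3⟩ := h
    have hr : r = 0 := by linarith
    rw [hr] at h2
    have : s * (2 * p.2 - p.2 / 2) = 0 := by linarith
    rcases mul_eq_zero.1 this with h4 | h4
    · exact ⟨h4, hr⟩
    · exfalso
      have := hp.2
      linarith

/-- The point of the surface with first coordinate `s` on the arc with slope parameter `m`. -/
def qpt (m s : ℝ) : R3 := (s, m ^ 2 * s + 2 * m, s * (m ^ 2 * s + 2 * m))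

/-- The inverse chart. -/
noncomputable def gch (q : R3) : ℝ × ℝ := (mf (q.1, q.2.1), q.1)

/-- The algebraic contradiction: a nonconstant Moebius function is not a square. -/
lemma no_square {α β V C : ℝ[X]} (hα : α.natDegree ≤ 1) (hβ : β.natDegree ≤ 1)
    {M : Set ℝ} (hMinf : M.Infinite) (hMpos : ∀ m ∈ M, 0 < m)
    (h : ∀ m ∈ M, ∃ v, V.eval v ≠ 0 ∧ α.eval v ≠ 0 ∧ β.eval v = m ^ 2 * α.eval v ∧
      C.eval v = 2 * m * V.eval v * α.eval v) : False := by
  choose! w hwV hwα hwβ hwC using h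
  have hinj : InjOn w M := by
    intro m hm m' hm' hww
    have h1 := hwβ m hm
    have h2 := hwβ m' hm'
    rw [hww] at h1
    have h3 : m ^ 2 = m' ^ 2 := by
      have := h1.symm.trans h2
      exact mul_right_cancel₀ (hwα m' hm') this
    exact (sq_eq_sq₀ (hMpos m hm).le (hMpos m' hm').le).1 h3
  have hT : C ^ 2 = 4 * V ^ 2 * (α * β) := by
    refine Polynomial.eq_of_infinite_eval_eq _ _ ((hMinf.image hinj).mono ?_)
    rintro _ ⟨m, hm, rfl⟩
    simp only [mem_ofPred_eq, eval_pow, eval_mul, hwC m hm, hwβ m hm]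
    rw [show (4 : ℝ[X]) = Polynomial.C 4 by simp [Polynomial.C_ofNat], eval_C]
    ring
  obtain ⟨m₀, hm₀⟩ := hMinf.nonempty
  have hV0 : V ≠ 0 := by
    rintro rfl
    exact hwV m₀ hm₀ (by simp)
  have hα0 : α ≠ 0 := by
    rintro rfl
    exact hwα m₀ hm₀ (by simp)
  have hdvd : V ∣ C := by
    have : V ^ 2 ∣ C ^ 2 := ⟨4 * (α * β), by rw [hT]; ring⟩
    exact (IsIntegrallyClosed.pow_dvd_pow_iff two_ne_zero).1 this
  obtain ⟨C', rfl⟩ := hdvd
  have hT' : C' ^ 2 = 4 * (α * β) := by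
    have h1 : V ^ 2 * C' ^ 2 = V ^ 2 * (4 * (α * β)) := by
      rw [← mul_pow, hT]; ring
    exact mul_left_cancel₀ (pow_ne_zero 2 hV0) h1
  have hm : ∀ m ∈ M, C'.eval (w m) = 2 * m * α.eval (w m) := by
    intro m hm
    have h1 := hwC m hm
    rw [eval_mul] at h1
    have h2 : V.eval (w m) * C'.eval (w m) = V.eval (w m) * (2 * m * α.eval (w m)) := by
      rw [h1]; ring
    exact mul_left_cancel₀ (hwV m hm) h2
  -- it suffices that C' is a constant multiple of α
  have hfin : ∀ κ : ℝ, C' = Polynomial.C κ * α → False := by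
    intro κ hκ
    refine hMinf ((Set.finite_singleton (κ / 2)).subset ?_)
    intro m hmM
    have h1 := hm m hmM
    rw [hκ, eval_mul, eval_C] at h1
    have h2 : κ = 2 * m := mul_right_cancel₀ (hwα m hmM) h1
    rw [mem_singleton_iff, h2]
    ring
  rcases Nat.lt_or_ge 0 α.natDegree with hd | hd
  · -- α has degree one, hence is irreducible
    have hd1 : α.degree = 1 := by
      rw [degree_eq_natDegree hα0]
      have : α.natDegree = 1 := by omega
      rw [this]; rfl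
    have hirr : Irreducible α := irreducible_of_degree_eq_one hd1
    have hprime : Prime α := hirr.prime
    have hdiv : α ∣ C' := hprime.dvd_of_dvd_pow (n := 2) ⟨4 * β, by rw [hT']; ring⟩
    obtain ⟨κ, rfl⟩ := hdiv
    have hβeq : α * κ ^ 2 = 4 * β := by
      have h1 : α * (α * κ ^ 2) = α * (4 * β) := by
        have : α * (α * κ ^ 2) = (α * κ) ^ 2 := by ring
        rw [this, hT']; ring
      exact mul_left_cancel₀ hα0 h1
    by_cases hκ0 : κ = 0
    · exact hfin 0 (by rw [hκ0]; simp)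
    have hdeg : (α * κ ^ 2).natDegree ≤ 1 := by
      rw [hβeq]
      refine (natDegree_mul_le).trans ?_
      have : (4 : ℝ[X]).natDegree = 0 := by
        rw [show (4 : ℝ[X]) = Polynomial.C 4 by simp [Polynomial.C_ofNat], natDegree_C]
      omega
    rw [natDegree_mul hα0 (pow_ne_zero 2 hκ0), natDegree_pow] at hdeg
    have hκd : κ.natDegree = 0 := by omega
    obtain ⟨k, hk⟩ := natDegree_eq_zero.1 hκd
    exact hfin k (by rw [hk]; ring)
  · -- α is constant
    have hα1 : α.natDegree = 0 := by omega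
    obtain ⟨a, ha⟩ := natDegree_eq_zero.1 hα1
    have ha0 : a ≠ 0 := by
      rintro rfl
      exact hα0 (by rw [← ha]; simp)
    have hdeg : (C' ^ 2).natDegree ≤ 1 := by
      rw [hT', show (4 : ℝ[X]) = Polynomial.C 4 by simp [Polynomial.C_ofNat]]
      refine (natDegree_mul_le).trans ?_
      rw [natDegree_C, zero_add]
      refine (natDegree_mul_le).trans ?_
      omega
    rw [natDegree_pow] at hdeg
    have hCd : C'.natDegree = 0 := by omega
    obtain ⟨k, hk⟩ := natDegree_eq_zero.1 hCd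
    exact hfin (k / a) (by
      rw [← hk, ← ha, ← Polynomial.C_mul, div_mul_cancel₀ k ha0])

/-- An open convex set of `R3` containing the surface. -/
def W3 : Set R3 := {q | 0 < q.1 ∧ 0 < q.2.1}

lemma convex_W3 : Convex ℝ W3 := by
  have h : W3 = (fun q : R3 => (q.1, q.2.1)) ⁻¹' Qd := rfl
  rw [h]
  exact convex_Qd.is_linear_preimage
    (f := fun q : R3 => ((q.1, q.2.1) : ℝ × ℝ)) ⟨fun _ _ => rfl, fun _ _ => rfl⟩

lemma contDiffOn_gch : ContDiffOn ℝ 1 gch W3 := by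
  intro q hq
  have h1 : ContDiffAt ℝ 1 mf (q.1, q.2.1) := (analyticAt_mf hq).contDiffAt
  have h2 : ContDiffAt ℝ 1 (fun q : R3 => ((q.1, q.2.1) : ℝ × ℝ)) q := by
    exact contDiffAt_fst.prodMk (contDiffAt_fst.comp q contDiffAt_snd)
  have h3 : ContDiffAt ℝ 1 (fun q : R3 => mf (q.1, q.2.1)) q :=
    ContDiffAt.comp (g := mf) (f := fun q : R3 => ((q.1, q.2.1) : ℝ × ℝ)) q h1 h2
  exact (h3.prodMk contDiffAt_fst).contDiffWithinAt

lemma null_of_dimH {E : Set R3} (hE : dimH E ≤ 1) :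
    volume (gch '' (E ∩ W3)) = 0 := by
  have h1 : dimH (gch '' (E ∩ W3)) ≤ dimH (E ∩ W3) :=
    contDiffOn_gch.dimH_image_le convex_W3 inter_subset_right
  have h2 : dimH (gch '' (E ∩ W3)) < ((2 : NNReal) : ENNReal) := by
    refine lt_of_le_of_lt (h1.trans ((dimH_mono inter_subset_left).trans hE)) ?_
    norm_num
  have h3 := hausdorffMeasure_of_dimH_lt h2
  have h4 : ((2 : NNReal) : ℝ) = 2 := rfl
  rw [h4, hausdorffMeasure_prod_real] at h3
  exact h3

lemma bipoly11 (k : ℕ → ℕ → ℝ) (u v : ℝ) :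
    bipoly 1 1 k u v = (k 0 0 + k 0 1 * v) + (k 1 0 + k 1 1 * v) * u := by
  simp only [bipoly, Finset.sum_range_succ, Finset.sum_range_zero]
  ring

theorem saddle_not : ¬AdmitsBilinearParam saddle := by
  rintro ⟨P, Q, Z, U, V, E, hU, hV, hE, H⟩
  have hnull := null_of_dimH hE
  have hae : ∀ᵐ m : ℝ, volume (Prod.mk m ⁻¹' (gch '' (E ∩ W3))) = 0 :=
    Measure.measure_ae_null_of_prod_null (by rw [← Measure.volume_eq_prod]; exact hnull)
  set M : Set ℝ := {m | m ∈ Ioo (1 : ℝ) 2 ∧ volume (Prod.mk m ⁻¹' (gch '' (E ∩ W3))) = 0} with hM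
  have hMinf : M.Infinite := by
    intro hfin
    have h0 : volume M = 0 := hfin.measure_zero _
    have h1 : Ioo (1 : ℝ) 2 ⊆ M ∪ {m | ¬volume (Prod.mk m ⁻¹' (gch '' (E ∩ W3))) = 0} := by
      intro m hm
      by_cases h : volume (Prod.mk m ⁻¹' (gch '' (E ∩ W3))) = 0
      · exact Or.inl ⟨hm, h⟩
      · exact Or.inr h
    have h2 : volume (Ioo (1 : ℝ) 2) = 0 := measure_mono_null h1 (measure_union_null h0 hae)
    rw [Real.volume_Ioo] at h2
    norm_num at h2
  have hout : ∀ m s : ℝ, 0 < m → 0 < s → s ∉ Prod.mk m ⁻¹' (gch '' (E ∩ W3)) → qpt m s ∉ E := by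
    intro m s hm hs hsN hqE
    apply hsN
    refine ⟨qpt m s, ⟨hqE, hs, ?_⟩, ?_⟩
    · simp only [qpt]; positivity
    · simp only [gch, qpt, mf_eq hs hm]
  -- polynomials in `v`
  set p0 : ℝ[X] := C (P 0 0) + C (P 0 1) * X with hp0
  set p1 : ℝ[X] := C (P 1 0) + C (P 1 1) * X with hp1
  set q0 : ℝ[X] := C (Q 0 0) + C (Q 0 1) * X with hq0
  set q1 : ℝ[X] := C (Q 1 0) + C (Q 1 1) * X with hq1
  set Vp : ℝ[X] := C V.1 + C V.2 * X with hVp
  have hlin : ∀ a b : ℝ, (C a + C b * X : ℝ[X]).natDegree ≤ 1 := by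
    intro a b
    refine (natDegree_add_le _ _).trans (max_le (by rw [natDegree_C]; omega) ?_)
    simpa using natDegree_C_mul_X_pow_le b 1
  have hdeg : ∀ r s : ℝ[X], r.natDegree ≤ 1 → s.natDegree ≤ 1 →
      (r * C U.2 - s * C U.1).natDegree ≤ 1 := by
    intro r s hr hs
    refine (natDegree_sub_le _ _).trans (max_le ?_ ?_)
    · exact (natDegree_mul_C_le _ _).trans hr
    · exact (natDegree_mul_C_le _ _).trans hs
  refine no_square (α := p0 * C U.2 - p1 * C U.1) (β := q0 * C U.2 - q1 * C U.1) (V := Vp)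
    (C := p0 * q1 - p1 * q0) (hdeg _ _ (hlin _ _) (hlin _ _)) (hdeg _ _ (hlin _ _) (hlin _ _))
    hMinf (fun m hm => by linarith [hm.1.1]) ?_
  intro m hm
  obtain ⟨⟨hm1, hm2⟩, hmN⟩ := hm
  have hm0 : 0 < m := by linarith
  have hexists : ∀ F : Set ℝ, volume F = 0 →
      ∃ s ∈ Ioo (1 : ℝ) 2, s ∉ Prod.mk m ⁻¹' (gch '' (E ∩ W3)) ∧ s ∉ F := by
    intro F hF
    by_contra hcon
    push Not at hcon
    have h1 : Ioo (1 : ℝ) 2 ⊆ (Prod.mk m ⁻¹' (gch '' (E ∩ W3))) ∪ F := by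
      intro s hs
      by_cases h : s ∈ Prod.mk m ⁻¹' (gch '' (E ∩ W3))
      · exact Or.inl h
      · exact Or.inr (hcon s hs h)
    have h2 := measure_mono_null h1 (measure_union_null hmN hF)
    rw [Real.volume_Ioo] at h2
    norm_num at h2
  obtain ⟨s₁, hs₁, hs₁N, -⟩ := hexists ∅ (by simp)
  obtain ⟨s₂, hs₂, hs₂N, hs₂₁⟩ := hexists {s₁} (by simp)
  have hs₁0 : 0 < s₁ := by linarith [hs₁.1]
  have hs₂0 : 0 < s₂ := by linarith [hs₂.1]
  have hne : s₂ ≠ s₁ := fun h => hs₂₁ h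
  have hq₁ := hout m s₁ hm0 hs₁0 hs₁N
  have hq₂ := hout m s₂ hm0 hs₂0 hs₂N
  set p : ℝ × ℝ := (s₁, m ^ 2 * s₁ + 2 * m) with hp
  have hpD : p ∈ saddle.D := ⟨hs₁0, by simp only [hp]; positivity⟩
  have hσp : saddle.σ p = qpt m s₁ := rfl
  have hmp : mf p = m := mf_eq hs₁0 hm0
  obtain ⟨-, v, hv⟩ := H p hpD (by rw [hσp]; exact hq₁)
  have harc : ∀ s, s ∈ Ioo (0 : ℝ) (2 * s₁) → qpt m s ∈ saddle.arc p := by
    intro s hs
    refine ⟨s - s₁, ⟨?_, ?_⟩, ?_⟩
    · change -p.1 < s - s₁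
      simp only [hp]; linarith [hs.1]
    · change s - s₁ < p.1
      simp only [hp]; linarith [hs.2]
    · change ((p.1 + 1 * (s - s₁), p.2 + mf p ^ 2 * (s - s₁), mf p ^ 2 * (s - s₁) ^ 2 +
        (p.2 + mf p ^ 2 * p.1) * (s - s₁) + p.1 * p.2) : R3) = qpt m s
      rw [hmp]
      simp only [hp, qpt, Prod.mk.injEq]
      refine ⟨by ring, by ring, by ring⟩
  obtain ⟨u₁, hUu₁, hVv, e₁⟩ := hv (qpt m s₁) ⟨harc s₁ ⟨hs₁0, by linarith⟩, hq₁⟩
  obtain ⟨u₂, hUu₂, -, e₂⟩ := hv (qpt m s₂) ⟨harc s₂ ⟨hs₂0, by linarith [hs₁.1, hs₂.2]⟩, hq₂⟩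
  simp only [ratMap, qpt, Prod.mk.injEq, bipoly11] at e₁ e₂
  obtain ⟨x₁, y₁, -⟩ := e₁
  obtain ⟨x₂, y₂, -⟩ := e₂
  rw [div_eq_iff (mul_ne_zero hUu₁ hVv)] at x₁ y₁
  rw [div_eq_iff (mul_ne_zero hUu₂ hVv)] at x₂ y₂
  set a0 := P 0 0 + P 0 1 * v with ha0
  set a1 := P 1 0 + P 1 1 * v with ha1
  set b0 := Q 0 0 + Q 0 1 * v with hb0
  set b1 := Q 1 0 + Q 1 1 * v with hb1
  set W := V.1 + V.2 * v with hW
  -- the parameters differ
  have key : (u₂ - u₁) * (a0 * U.2 - a1 * U.1) =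
      (s₁ - s₂) * (U.1 + U.2 * u₁) * (U.1 + U.2 * u₂) * W := by
    linear_combination (U.1 + U.2 * u₂) * x₁ - (U.1 + U.2 * u₁) * x₂
  have hα : a0 * U.2 - a1 * U.1 ≠ 0 := by
    intro h0
    rw [h0, mul_zero] at key
    have : (s₁ - s₂) * (U.1 + U.2 * u₁) * (U.1 + U.2 * u₂) * W ≠ 0 :=
      mul_ne_zero (mul_ne_zero (mul_ne_zero (sub_ne_zero.2 hne.symm) hUu₁) hUu₂) hVv
    exact this key.symm
  have hu : u₂ - u₁ ≠ 0 := by
    intro h0
    rw [h0, zero_mul] at key
    have : (s₁ - s₂) * (U.1 + U.2 * u₁) * (U.1 + U.2 * u₂) * W ≠ 0 :=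
      mul_ne_zero (mul_ne_zero (mul_ne_zero (sub_ne_zero.2 hne.symm) hUu₁) hUu₂) hVv
    exact this key.symm
  have r₁ : (b0 - m ^ 2 * a0 - 2 * m * (U.1 * W)) + (b1 - m ^ 2 * a1 - 2 * m * (U.2 * W)) * u₁
      = 0 := by linear_combination y₁ - m ^ 2 * x₁
  have r₂ : (b0 - m ^ 2 * a0 - 2 * m * (U.1 * W)) + (b1 - m ^ 2 * a1 - 2 * m * (U.2 * W)) * u₂
      = 0 := by linear_combination y₂ - m ^ 2 * x₂
  have c1 : b1 - m ^ 2 * a1 - 2 * m * (U.2 * W) = 0 := by
    have : (b1 - m ^ 2 * a1 - 2 * m * (U.2 * W)) * (u₂ - u₁) = 0 := by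
      linear_combination r₂ - r₁
    exact (mul_eq_zero.1 this).resolve_right hu
  have c0 : b0 - m ^ 2 * a0 - 2 * m * (U.1 * W) = 0 := by
    rw [c1, zero_mul, add_zero] at r₁
    exact r₁
  have ev : ∀ a b : ℝ, (C a + C b * X : ℝ[X]).eval v = a + b * v := by
    intro a b; simp
  refine ⟨v, ?_, ?_, ?_, ?_⟩
  · rw [hVp, ev]; exact hVv
  · simp only [hp0, hp1, eval_sub, eval_mul, eval_C, ev]
    exact hα
  · simp only [hp0, hp1, hq0, hq1, eval_sub, eval_mul, eval_C, ev]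
    linear_combination U.2 * c0 - U.1 * c1
  · simp only [hp0, hp1, hq0, hq1, hVp, eval_sub, eval_mul, eval_C, ev]
    linear_combination a0 * c1 - a1 * c0

end Pool.Agent.R747
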