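import Mathlib

/-!
Algebra of second derivatives of functions of two variables: a symmetric form is recorded by half of
its trace and by its trace free part.
-/

open Complex Set
open scoped ComplexConjugate

namespace Pool.Agent.R747.Mil

noncomputable section

/-- The bilinear form `Re (P P') - (1 - l) t t'` on pairs `(t, P)`. -/
def B (l : ℝ) (X Y : ℝ × ℂ) : ℝ := (X.2 * conj Y.2).re - (1 - l) * (X.1 * Y.1)

/-- The quadratic form of `B`. -/
def q (l : ℝ) (X : ℝ × ℂ) : ℝ := B l X X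

/-- Minus the determinant. -/
def kap (X : ℝ × ℂ) : ℝ := normSq X.2 - X.1 ^ 2

/-- The square `k ⊗ k`. -/
def sq (k : ℂ) : ℝ × ℂ := (normSq k / 2, k ^ 2 / 2)

/-- The symmetric product of `k` and `m`. -/
def od (k m : ℂ) : ℝ × ℂ := ((k * conj m).re / 2, k * m / 2)

lemma B_comm (l : ℝ) (X Y : ℝ × ℂ) : B l X Y = B l Y X := by
  simp only [B, Complex.mul_re, Complex.conj_re, Complex.conj_im]; ring

lemma B_add_left (l : ℝ) (X Y Z : ℝ × ℂ) : B l (X + Y) Z = B l X Z + B l Y Z := by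
  simp only [B, Prod.fst_add, Prod.snd_add, Complex.mul_re, Complex.conj_re, Complex.conj_im,
    Complex.add_re, Complex.add_im]; ring

lemma B_add_right (l : ℝ) (X Y Z : ℝ × ℂ) : B l X (Y + Z) = B l X Y + B l X Z := by
  simp only [B, Prod.fst_add, Prod.snd_add, Complex.mul_re, Complex.conj_re, Complex.conj_im,
    Complex.add_re, Complex.add_im]; ring

lemma B_smul_left (l r : ℝ) (X Z : ℝ × ℂ) : B l (r • X) Z = r * B l X Z := by
  simp only [B, Prod.smul_fst, Prod.smul_snd, Complex.mul_re, Complex.conj_re, Complex.conj_im,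
    Complex.smul_re, Complex.smul_im, smul_eq_mul]; ring

lemma B_smul_right (l r : ℝ) (X Z : ℝ × ℂ) : B l X (r • Z) = r * B l X Z := by
  rw [B_comm, B_smul_left, B_comm]

lemma q_add (l : ℝ) (X Y : ℝ × ℂ) : q l (X + Y) = q l X + 2 * B l X Y + q l Y := by
  simp only [q, B_add_left, B_add_right, B_comm l Y X]; ring

lemma q_eq (l : ℝ) (X : ℝ × ℂ) : q l X = normSq X.2 - (1 - l) * X.1 ^ 2 := by
  simp only [q, B, Complex.normSq_apply, Complex.mul_re, Complex.conj_re, Complex.conj_im]; ring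

lemma q_eq_kap (l : ℝ) (X : ℝ × ℂ) : q l X = kap X + l * X.1 ^ 2 := by
  rw [q_eq, kap]; ring

lemma abs_B_le {l : ℝ} (h0 : 0 ≤ l) (h1 : l ≤ 1) (X Y : ℝ × ℂ) :
    |B l X Y| ≤ 2 * (‖X‖ * ‖Y‖) := by
  have h2 : |(X.2 * conj Y.2).re| ≤ ‖X‖ * ‖Y‖ := by
    refine (Complex.abs_re_le_norm _).trans ?_
    rw [norm_mul, RCLike.norm_conj]
    exact mul_le_mul (norm_snd_le X) (norm_snd_le Y) (norm_nonneg _) (norm_nonneg _)
  have h3 : |X.1 * Y.1| ≤ ‖X‖ * ‖Y‖ := by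
    rw [abs_mul]
    exact mul_le_mul (norm_fst_le X) (norm_fst_le Y) (abs_nonneg _) (norm_nonneg _)
  have h4 : |(1 - l) * (X.1 * Y.1)| ≤ ‖X‖ * ‖Y‖ := by
    rw [abs_mul, abs_of_nonneg (by linarith : (0 : ℝ) ≤ 1 - l)]
    have := abs_nonneg (X.1 * Y.1)
    nlinarith
  unfold B
  have := abs_sub (X.2 * conj Y.2).re ((1 - l) * (X.1 * Y.1))
  linarith

lemma abs_q_sub_le {l : ℝ} (h0 : 0 ≤ l) (h1 : l ≤ 1) (X Y : ℝ × ℂ) :
    |q l (X + Y) - q l X| ≤ 4 * (‖X‖ + ‖Y‖) * ‖Y‖ := by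
  rw [q_add]
  have h2 := abs_B_le h0 h1 X Y
  have h3 := abs_B_le h0 h1 Y Y
  have h4 : |q l X + 2 * B l X Y + q l Y - q l X| ≤ 2 * |B l X Y| + |B l Y Y| := by
    rw [show q l X + 2 * B l X Y + q l Y - q l X = 2 * B l X Y + B l Y Y by unfold q; ring]
    refine (abs_add_le _ _).trans ?_
    rw [abs_mul, abs_two]
  have := mul_nonneg (norm_nonneg X) (norm_nonneg Y)
  nlinarith [norm_nonneg Y]

lemma sq_add (k m : ℂ) : sq (k + m) = sq k + sq m + (2 : ℝ) • od k m := by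
  ext
  · simp only [sq, od, Prod.fst_add, Prod.smul_fst, smul_eq_mul, Complex.normSq_apply,
      Complex.mul_re, Complex.conj_re, Complex.conj_im, Complex.add_re, Complex.add_im]
    ring
  · simp [sq, od, pow_two]; ring

lemma sq_sub (k m : ℂ) : sq (k - m) = sq k + sq m - (2 : ℝ) • od k m := by
  ext
  · simp only [sq, od, Prod.fst_add, Prod.fst_sub, Prod.smul_fst, smul_eq_mul,
      Complex.normSq_apply,
      Complex.mul_re, Complex.conj_re, Complex.conj_im, Complex.sub_re, Complex.sub_im]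
    ring
  · simp [sq, od, pow_two]; ring

lemma sq_smul (r : ℝ) (k : ℂ) : sq (r • k) = r ^ 2 • sq k := by
  ext
  · simp only [sq, Prod.smul_fst, smul_eq_mul, Complex.normSq_apply,
      Complex.smul_re, Complex.smul_im]
    ring
  · simp [sq, pow_two]; ring

lemma od_smul (r s : ℝ) (k m : ℂ) : od (r • k) (s • m) = (r * s) • od k m := by
  ext
  · simp only [od, Prod.smul_fst, smul_eq_mul, Complex.mul_re, Complex.conj_re, Complex.conj_im,
      Complex.smul_re, Complex.smul_im]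
    ring
  · simp [od]; ring

lemma norm_od_le (k m : ℂ) : ‖od k m‖ ≤ ‖k‖ * ‖m‖ / 2 := by
  rw [Prod.norm_def, max_le_iff]
  constructor
  · simp only [od]
    rw [Real.norm_eq_abs, abs_div, abs_two]
    have := Complex.abs_re_le_norm (k * conj m)
    rw [norm_mul, RCLike.norm_conj] at this
    linarith
  · simp only [od]
    rw [norm_div, norm_mul]
    simp

lemma od_self (k : ℂ) : od k k = sq k := by
  ext
  · simp [od, sq, Complex.mul_conj]
  · simp [od, sq, pow_two]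

lemma norm_sq_le (k : ℂ) : ‖sq k‖ ≤ ‖k‖ ^ 2 / 2 := by
  rw [← od_self, pow_two]; exact norm_od_le k k

lemma od_sub_left (k k' m : ℂ) : od k m - od k' m = od (k - k') m := by
  ext
  · simp only [od, Prod.fst_sub, Complex.mul_re, Complex.conj_re, Complex.conj_im,
      Complex.sub_re, Complex.sub_im]
    ring
  · simp [od]; ring

lemma od_sub_right (k m m' : ℂ) : od k m - od k m' = od k (m - m') := by
  ext
  · simp only [od, Prod.fst_sub, Complex.mul_re, Complex.conj_re, Complex.conj_im,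
      Complex.sub_re, Complex.sub_im]
    ring
  · simp [od]; ring

lemma norm_od_sub_od_le (k k' m m' : ℂ) :
    ‖od k m - od k' m'‖ ≤ (‖k - k'‖ * ‖m‖ + ‖k'‖ * ‖m - m'‖) / 2 := by
  have h : od k m - od k' m' = od (k - k') m + od k' (m - m') := by
    rw [← od_sub_left, ← od_sub_right]; abel
  rw [h]
  refine (norm_add_le _ _).trans ?_
  have h1 := norm_od_le (k - k') m
  have h2 := norm_od_le k' (m - m')
  linarith

lemma norm_sq_sub_sq_le (k k' : ℂ) :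
    ‖sq k - sq k'‖ ≤ ‖k - k'‖ * (‖k‖ + ‖k'‖) / 2 := by
  rw [← od_self, ← od_self]
  refine (norm_od_sub_od_le _ _ _ _).trans (le_of_eq ?_)
  ring

lemma q_sq {l : ℝ} {n : ℂ} (hn : ‖n‖ = 1) : q l (sq n) = l / 4 := by
  have h1 : normSq n = 1 := by rw [Complex.normSq_eq_norm_sq, hn]; norm_num
  rw [q_eq]
  simp only [sq, map_div₀, map_pow, h1]
  norm_num
  ring

lemma key_real {l0 l e E a b K : ℝ} (hl0 : 0 < l0) (hl : l0 ≤ l) (he : 0 < e)
    (hE0 : 0 ≤ E) (hE1 : E ≤ 1) (ha : a ^ 2 ≤ 4 * E) (hb : b ^ 2 ≤ 4 * E) (hK0 : 0 ≤ K)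
    (h1 : e ^ 2 * K ^ 2 * (16 / l0 + 1) ≤ l0 / 16)
    (h2 : 16 * e * K + e ^ 2 * K ^ 2 ≤ l0 / 16) : l0 * E ^ 2 / 16 ≤
      (l / 4) * ((1 - E) * (a ^ 2 + b ^ 2) + 2 * (a ^ 2 * b ^ 2) + E ^ 2 / 2) -
        2 * e * ((|a| + |b|) * (K * E)) - e ^ 2 * (K * E) ^ 2 := by
  have hs2 : (|a| + |b|) ^ 2 ≤ 2 * (a ^ 2 + b ^ 2) := by
    have h3 : (|a| + |b|) ^ 2 = 2 * (|a| ^ 2 + |b| ^ 2) - (|a| - |b|) ^ 2 := by ring
    rw [h3, sq_abs, sq_abs]
    linarith [sq_nonneg (|a| - |b|)]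
  have hs0 : 0 ≤ |a| + |b| := by positivity
  have hEE : 0 ≤ a ^ 2 * b ^ 2 := by positivity
  have hab : a ^ 2 + b ^ 2 ≤ 8 * E := by linarith
  clear ha hb
  generalize |a| + |b| = s at *
  have hs3 : s ≤ 4 := by
    have hss : s ^ 2 ≤ 4 ^ 2 := by linarith
    exact (abs_le_of_sq_le_sq' hss (by norm_num)).2
  have hl2 : 0 ≤ l := hl0.le.trans hl
  have hbase : (l0 / 4) * ((1 - E) * (s ^ 2 / 2) + E ^ 2 / 2) ≤
      (l / 4) * ((1 - E) * (a ^ 2 + b ^ 2) + 2 * (a ^ 2 * b ^ 2) + E ^ 2 / 2) := by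
    have h12 : (1 - E) * (s ^ 2 / 2) ≤ (1 - E) * (a ^ 2 + b ^ 2) :=
      mul_le_mul_of_nonneg_left (by linarith) (by linarith)
    have h13 : 0 ≤ (1 - E) * (s ^ 2 / 2) := mul_nonneg (by linarith) (by positivity)
    have h14 : 0 ≤ E ^ 2 := sq_nonneg E
    exact mul_le_mul (by linarith) (by linarith) (by linarith) (by linarith)
  refine le_trans ?_ (sub_le_sub_right (sub_le_sub_right hbase _) _)
  clear hbase
  generalize a ^ 2 * b ^ 2 = x at *
  have h23 : (l0 / 4) * ((1 - E) * (s ^ 2 / 2) + E ^ 2 / 2) =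
    (l0 / 4) * ((1 - E) * (s ^ 2 / 2)) + l0 * E ^ 2 / 8 := by ring
  rw [h23]
  clear h23
  rcases le_or_gt E (1 / 2) with hE | hE
  · -- absorb the cubic term in the quadratic one
    have h15 : 2 * e * (s * (K * E)) ≤ l0 / 16 * s ^ 2 + 16 / l0 * (e ^ 2 * (K * E) ^ 2) := by
      have h16 : 0 ≤ (√(l0 / 16) * s - √(16 / l0) * (e * (K * E))) ^ 2 := sq_nonneg _
      have h17 : √(l0 / 16) ^ 2 = l0 / 16 := Real.sq_sqrt (by positivity)
      have h18 : √(16 / l0) ^ 2 = 16 / l0 := Real.sq_sqrt (by positivity)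
      have h19 : √(l0 / 16) * √(16 / l0) = 1 := by
        rw [← Real.sqrt_mul (by positivity)]
        rw [show l0 / 16 * (16 / l0) = 1 by field_simp]
        exact Real.sqrt_one
      have h20 : (√(l0 / 16) * s - √(16 / l0) * (e * (K * E))) ^ 2 =
          √(l0 / 16) ^ 2 * s ^ 2 - 2 * (√(l0 / 16) * √(16 / l0)) * (e * (s * (K * E))) +
            √(16 / l0) ^ 2 * (e ^ 2 * (K * E) ^ 2) := by ring
      rw [h20, h17, h18, h19] at h16
      linarith
    have h21 : (16 / l0 + 1) * (e ^ 2 * (K * E) ^ 2) ≤ l0 / 16 * E ^ 2 := by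
      have := mul_le_mul_of_nonneg_right h1 (sq_nonneg E)
      calc _ = e ^ 2 * K ^ 2 * (16 / l0 + 1) * E ^ 2 := by ring
        _ ≤ _ := this
    have h22 : l0 / 16 * s ^ 2 ≤ (l0 / 4) * ((1 - E) * (s ^ 2 / 2)) := by
      have h3 : 0 ≤ l0 * s ^ 2 * (1 / 2 - E) := mul_nonneg (by positivity) (by linarith)
      have h4 : (l0 / 4) * ((1 - E) * (s ^ 2 / 2)) - l0 / 16 * s ^ 2 =
        l0 * s ^ 2 * (1 / 2 - E) / 8 := by ring
      linarith
    have h24 : (16 / l0 + 1) * (e ^ 2 * (K * E) ^ 2) =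
      16 / l0 * (e ^ 2 * (K * E) ^ 2) + e ^ 2 * (K * E) ^ 2 := by ring
    linarith
  · have h24 : 2 * e * (s * (K * E)) ≤ 16 * e * K * E ^ 2 := by
      have h25 : s * E ≤ 8 * E ^ 2 := by
        have h3 : s * E ≤ 4 * E := mul_le_mul_of_nonneg_right hs3 hE0
        have h4 : 4 * E ≤ 8 * E ^ 2 := by
          have : 0 ≤ 8 * E * (E - 1 / 2) := mul_nonneg (by positivity) (by linarith)
          linarith
        linarith
      have h26 : 0 ≤ 2 * e * K := by positivity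
      have h27 := mul_le_mul_of_nonneg_left h25 h26
      linarith
    have h27 : (16 * e * K + e ^ 2 * K ^ 2) * E ^ 2 ≤ l0 / 16 * E ^ 2 :=
      mul_le_mul_of_nonneg_right h2 (sq_nonneg E)
    have h28 : 0 ≤ (l0 / 4) * ((1 - E) * (s ^ 2 / 2)) := by
      have : 0 ≤ 1 - E := by linarith
      positivity
    have h29 : (16 * e * K + e ^ 2 * K ^ 2) * E ^ 2 = 16 * e * K * E ^ 2 + e ^ 2 * (K * E) ^ 2 := by
      ring
    linarith

/-- **The basic inequality**, in its ideal form. -/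
theorem ideal {l0 l e E a b u v w c1 c2 K : ℝ} {H : ℝ × ℂ} {n m : ℂ}
    (hl0 : 0 < l0) (hl : l0 ≤ l) (hl1 : l ≤ 1) (he : 0 < e)
    (hE0 : 0 ≤ E) (hE1 : E ≤ 1) (hn : ‖n‖ = 1) (hm : ‖m‖ = 1)
    (hHn : B l H (sq n) = 0) (hHm : B l H (sq m) = 0)
    (hc1 : 2 * c1 * B l H (od n m) = -B l (sq n) (sq m))
    (hc2 : 8 * c2 * B l H (od n m) = l)
    (ha : a ^ 2 ≤ 4 * E) (hb : b ^ 2 ≤ 4 * E)
    (hw : w = 2 * c1 * (a * b) + 2 * c2 * ((a ^ 2 - E / 2) * (b ^ 2 - E / 2)))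
    (hK : ‖u • sq n + v • sq m + w • od n m‖ ≤ K * E) (hK0 : 0 ≤ K)
    (h1 : e ^ 2 * K ^ 2 * (16 / l0 + 1) ≤ l0 / 16)
    (h2 : 16 * e * K + e ^ 2 * K ^ 2 ≤ l0 / 16) :
    q l H + e ^ 2 * l0 * E ^ 2 / 16 ≤
      q l (H + (e • (a • sq n + b • sq m) + e ^ 2 • (u • sq n + v • sq m + w • od n m))) := by
  set H2 : ℝ × ℂ := u • sq n + v • sq m + w • od n m with hH2
  set H1 : ℝ × ℂ := a • sq n + b • sq m with hH1
  have hl' : 0 ≤ l := hl0.le.trans hl
  have e1 : B l H H1 = 0 := by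
    rw [hH1, B_add_right, B_smul_right, B_smul_right, hHn, hHm]; ring
  have e2 : B l H H2 = w * B l H (od n m) := by
    rw [hH2, B_add_right, B_add_right, B_smul_right, B_smul_right, B_smul_right, hHn, hHm]; ring
  have e3 : q l H1 = l / 4 * (a ^ 2 + b ^ 2) + 2 * (a * b) * B l (sq n) (sq m) := by
    have h3 := q_sq (l := l) hn
    have h4 := q_sq (l := l) hm
    rw [q] at h3 h4
    rw [hH1, q]
    simp only [B_add_left, B_add_right, B_smul_left, B_smul_right, h3, h4, B_comm l (sq m) (sq n)]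
    ring
  have e4 : q l (H + (e • H1 + e ^ 2 • H2)) = q l H +
      e ^ 2 * (l / 4) * ((1 - E) * (a ^ 2 + b ^ 2) + 2 * (a ^ 2 * b ^ 2) + E ^ 2 / 2) +
      2 * e ^ 3 * B l H1 H2 + e ^ 4 * q l H2 := by
    rw [q_add, q_add]
    have h5 : q l (e • H1) = e ^ 2 * q l H1 := by
      rw [q, B_smul_left, B_smul_right, q]; ring
    have h6 : q l (e ^ 2 • H2) = e ^ 4 * q l H2 := by
      rw [q, B_smul_left, B_smul_right, q]; ring
    rw [h5, h6, B_add_right, B_smul_right, B_smul_right, B_smul_left, B_smul_right, e1, e2, e3]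
    have h7 : w * B l H (od n m) = -(a * b) * B l (sq n) (sq m) +
        l / 4 * ((a ^ 2 - E / 2) * (b ^ 2 - E / 2)) := by
      rw [hw]
      linear_combination (a * b) * hc1 + ((a ^ 2 - E / 2) * (b ^ 2 - E / 2)) / 4 * hc2
    rw [h7]
    ring
  rw [e4]
  have hn1 : ‖sq n‖ ≤ 1 / 2 := by have := norm_sq_le n; rw [hn] at this; linarith
  have hm1 : ‖sq m‖ ≤ 1 / 2 := by have := norm_sq_le m; rw [hm] at this; linarith
  have hnH1 : ‖H1‖ ≤ (|a| + |b|) / 2 := by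
    rw [hH1]
    refine (norm_add_le _ _).trans ?_
    rw [norm_smul, norm_smul, Real.norm_eq_abs, Real.norm_eq_abs]
    nlinarith [abs_nonneg a, abs_nonneg b]
  have hB : |B l H1 H2| ≤ (|a| + |b|) * (K * E) := by
    refine (abs_B_le hl' hl1 _ _).trans ?_
    have h8 : ‖H1‖ * ‖H2‖ ≤ (|a| + |b|) / 2 * (K * E) :=
      mul_le_mul hnH1 hK (norm_nonneg _) (by positivity)
    linarith
  have hq : -(K * E) ^ 2 ≤ q l H2 := by
    rw [q_eq]
    have h9 : |H2.1| ≤ K * E := (norm_fst_le H2).trans hK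
    have h10 : H2.1 ^ 2 ≤ (K * E) ^ 2 := by
      rw [← sq_abs]; exact pow_le_pow_left₀ (abs_nonneg _) h9 2
    have h11 := Complex.normSq_nonneg H2.2
    nlinarith [sq_nonneg H2.1]
  have hBl := (abs_le.1 hB).1
  have key := key_real hl0 hl he hE0 hE1 ha hb hK0 h1 h2
  set s : ℝ := |a| + |b| with hs
  have he2 : 0 < e ^ 2 := by positivity
  have key2 := mul_le_mul_of_nonneg_left key he2.le
  have hB3 : -(2 * e ^ 3 * (s * (K * E))) ≤ 2 * e ^ 3 * B l H1 H2 := by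
    have h29 : 0 ≤ 2 * e ^ 3 := by positivity
    have h30 := mul_le_mul_of_nonneg_left hBl h29
    linarith
  have hq4 : -(e ^ 4 * (K * E) ^ 2) ≤ e ^ 4 * q l H2 := by
    have h29 : 0 ≤ e ^ 4 := by positivity
    have h30 := mul_le_mul_of_nonneg_left hq h29
    linarith
  have h31 : e ^ 2 * ((l / 4) * ((1 - E) * (a ^ 2 + b ^ 2) + 2 * (a ^ 2 * b ^ 2) + E ^ 2 / 2) -
        2 * e * (s * (K * E)) - e ^ 2 * (K * E) ^ 2) =
      e ^ 2 * (l / 4) * ((1 - E) * (a ^ 2 + b ^ 2) + 2 * (a ^ 2 * b ^ 2) + E ^ 2 / 2) -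
        2 * e ^ 3 * (s * (K * E)) - e ^ 4 * (K * E) ^ 2 := by ring
  rw [h31] at key2
  linarith

end

end Pool.Agent.R747.Mil
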