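import Mathlib
import Pool.Agent.R747.MilAlg

/-!
Second derivatives of rapidly oscillating functions.
-/

open Complex Set Filter Topology
open scoped ComplexConjugate ContDiff

namespace Pool.Agent.R747.Mil

noncomputable section

/-- The derivative in the direction `v`. -/
def d1 (v : ℂ) (f : ℂ → ℝ) (x : ℂ) : ℝ := fderiv ℝ f x v

/-- The second derivative of `f` at `x`: half of its trace, and its trace free part. -/
def hs (f : ℂ → ℝ) (x : ℂ) : ℝ × ℂ :=
  ((d1 1 (d1 1 f) x + d1 I (d1 I f) x) / 2,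
    (((d1 1 (d1 1 f) x - d1 I (d1 I f) x) / 2 : ℝ) : ℂ) + ((d1 1 (d1 I f) x : ℝ) : ℂ) * I)

variable {f g : ℂ → ℝ} {v w x : ℂ}

lemma smooth_diff (hf : ContDiff ℝ ∞ f) : Differentiable ℝ f := hf.differentiable (by norm_num)

lemma smooth_d1 (hf : ContDiff ℝ ∞ f) (v : ℂ) : ContDiff ℝ ∞ (d1 v f) := by
  have h : ContDiff ℝ ∞ (fderiv ℝ f) := hf.fderiv_right (by exact_mod_cast le_top)
  exact h.clm_apply contDiff_const

lemma d1_add (hf : ContDiff ℝ ∞ f) (hg : ContDiff ℝ ∞ g) (v : ℂ) :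
    d1 v (fun y => f y + g y) = fun y => d1 v f y + d1 v g y := by
  funext y
  unfold d1
  rw [fderiv_fun_add (smooth_diff hf y) (smooth_diff hg y)]
  rfl

lemma d1_mul (hf : ContDiff ℝ ∞ f) (hg : ContDiff ℝ ∞ g) (v : ℂ) :
    d1 v (fun y => f y * g y) = fun y => d1 v f y * g y + f y * d1 v g y := by
  funext y
  unfold d1
  rw [fderiv_fun_mul (smooth_diff hf y) (smooth_diff hg y)]
  simp
  ring

lemma d1_const_mul (c : ℝ) (hf : ContDiff ℝ ∞ f) (v : ℂ) :
    d1 v (fun y => c * f y) = fun y => c * d1 v f y := by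
  funext y
  unfold d1
  rw [fderiv_const_mul (smooth_diff hf y)]
  rfl

lemma d1_scale (hf : ContDiff ℝ ∞ f) (om : ℝ) (v : ℂ) :
    d1 v (fun y => f (om • y)) = fun y => om * d1 v f (om • y) := by
  funext y
  unfold d1
  have h1 : HasFDerivAt (fun y : ℂ => om • y) (om • ContinuousLinearMap.id ℝ ℂ) y :=
    (hasFDerivAt_id y).const_smul om
  have h2 : HasFDerivAt (fun y => f (om • y)) _ y :=
    (smooth_diff hf (om • y)).hasFDerivAt.comp y h1
  rw [h2.fderiv]
  simp

lemma hs_add (hf : ContDiff ℝ ∞ f) (hg : ContDiff ℝ ∞ g) (x : ℂ) :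
    hs (fun y => f y + g y) x = hs f x + hs g x := by
  have h : ∀ v w, d1 v (d1 w (fun y => f y + g y)) x = d1 v (d1 w f) x + d1 v (d1 w g) x := by
    intro v w
    rw [d1_add hf hg w, d1_add (smooth_d1 hf w) (smooth_d1 hg w) v]
  unfold hs
  simp only [h]
  ext
  · simp; ring
  · simp; ring

lemma hs_const_mul (c : ℝ) (hf : ContDiff ℝ ∞ f) (x : ℂ) :
    hs (fun y => c * f y) x = c • hs f x := by
  have h : ∀ v w, d1 v (d1 w (fun y => c * f y)) x = c * d1 v (d1 w f) x := by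
    intro v w
    rw [d1_const_mul c hf w, d1_const_mul c (smooth_d1 hf w) v]
  unfold hs
  simp only [h]
  ext
  · simp; ring
  · simp; ring

lemma d1_zero (v : ℂ) : d1 v (fun _ => 0) = fun _ => 0 := by
  funext y; simp [d1]

lemma hs_zero (x : ℂ) : hs (fun _ => 0) x = 0 := by
  unfold hs
  simp [d1_zero]

lemma hs_sum {ι : Type*} (s : Finset ι) (F : ι → ℂ → ℝ) (hF : ∀ i ∈ s, ContDiff ℝ ∞ (F i))
    (x : ℂ) : hs (fun y => ∑ i ∈ s, F i y) x = ∑ i ∈ s, hs (F i) x := by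
  classical
  induction s using Finset.induction_on with
  | empty => simp [hs_zero]
  | insert i s hi ih =>
    simp only [Finset.sum_insert hi]
    rw [hs_add (hF i (Finset.mem_insert_self i s)) (ContDiff.sum fun j hj =>
      hF j (Finset.mem_insert_of_mem hj)), ih fun j hj => hF j (Finset.mem_insert_of_mem hj)]

/-- A rapidly oscillating function. -/
def osc (om : ℝ) (a u : ℂ → ℝ) (y : ℂ) : ℝ := (om⁻¹) ^ 2 * (a y * u (om • y))

/-- The admissible amplitudes and profiles. -/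
structure Wave (a u : ℂ → ℝ) : Prop where
  ha : ContDiff ℝ ∞ a
  hc : HasCompactSupport a
  hu : ContDiff ℝ ∞ u
  bd : ∃ C : ℝ, 0 ≤ C ∧ ∀ y, |u y| ≤ C ∧ |d1 1 u y| ≤ C ∧ |d1 I u y| ≤ C

lemma smooth_scale (hf : ContDiff ℝ ∞ f) (om : ℝ) : ContDiff ℝ ∞ (fun y => f (om • y)) :=
  hf.comp (contDiff_id.const_smul om)

lemma smooth_osc {a u : ℂ → ℝ} (h : Wave a u) (om : ℝ) : ContDiff ℝ ∞ (osc om a u) :=
  contDiff_const.mul (h.ha.mul (smooth_scale h.hu om))

lemma compact_d1 (hf : HasCompactSupport f) (v : ℂ) : HasCompactSupport (d1 v f) := by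
  refine (hf.fderiv ℝ).mono' ?_
  intro x hx
  apply subset_tsupport
  intro h
  apply hx
  simp [d1, h]

lemma exists_bound (hf : ContDiff ℝ ∞ f) (hc : HasCompactSupport f) :
    ∃ C : ℝ, 0 ≤ C ∧ ∀ y, |f y| ≤ C := by
  obtain ⟨C, hC⟩ := hc.exists_bound_of_continuous hf.continuous
  exact ⟨C, (norm_nonneg _).trans (hC 0), fun y => by simpa using hC y⟩

lemma d1_osc {a u : ℂ → ℝ} (h : Wave a u) (om : ℝ) (v : ℂ) : d1 v (osc om a u) =
    fun y => (om⁻¹) ^ 2 * (d1 v a y * u (om • y)) + (om⁻¹) ^ 2 * om * (a y * d1 v u (om • y)) := by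
  unfold osc
  rw [d1_const_mul _ (h.ha.mul (smooth_scale h.hu om)), d1_mul h.ha (smooth_scale h.hu om),
    d1_scale h.hu]
  funext y
  ring

lemma d2_osc {a u : ℂ → ℝ} (h : Wave a u) (om : ℝ) (v w : ℂ) : d1 v (d1 w (osc om a u)) =
    fun y => (om⁻¹) ^ 2 * (d1 v (d1 w a) y * u (om • y)) +
      (om⁻¹) ^ 2 * om * (d1 w a y * d1 v u (om • y)) +
      ((om⁻¹) ^ 2 * om * (d1 v a y * d1 w u (om • y)) +
      (om⁻¹) ^ 2 * om * om * (a y * d1 v (d1 w u) (om • y))) := by
  rw [d1_osc h om w]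
  have e1 := (smooth_d1 h.ha w).mul (smooth_scale h.hu om)
  have e2 := h.ha.mul (smooth_scale (smooth_d1 h.hu w) om)
  rw [d1_add (contDiff_const.mul e1) (contDiff_const.mul e2), d1_const_mul _ e1,
    d1_const_mul _ e2, d1_mul (smooth_d1 h.ha w) (smooth_scale h.hu om),
    d1_mul h.ha (smooth_scale (smooth_d1 h.hu w) om), d1_scale h.hu, d1_scale (smooth_d1 h.hu w)]
  funext y
  ring

lemma norm_pair_le (t p r : ℝ) : ‖((t, ((p : ℝ) : ℂ) + ((r : ℝ) : ℂ) * I) : ℝ × ℂ)‖ ≤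
    |t| + |p| + |r| := by
  rw [Prod.norm_def, max_le_iff]
  constructor
  · simp only [Real.norm_eq_abs]
    have := abs_nonneg p
    have := abs_nonneg r
    linarith
  · refine (norm_add_le _ _).trans ?_
    simp only [norm_mul, Complex.norm_real, Complex.norm_I, Real.norm_eq_abs, mul_one]
    have := abs_nonneg t
    linarith

theorem osc_bound {a u : ℂ → ℝ} (h : Wave a u) : ∃ C : ℝ, 0 ≤ C ∧ ∀ om : ℝ, 1 ≤ om → ∀ x,
    ‖hs (osc om a u) x - a x • hs u (om • x)‖ ≤ C / om ∧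
    |d1 1 (osc om a u) x| ≤ C / om ∧ |d1 I (osc om a u) x| ≤ C / om := by
  obtain ⟨U, hU0, hU⟩ := h.bd
  obtain ⟨A0, hA00, hA0⟩ := exists_bound h.ha h.hc
  obtain ⟨A1, hA10, hA1⟩ := exists_bound (smooth_d1 h.ha 1) (compact_d1 h.hc 1)
  obtain ⟨A2, hA20, hA2⟩ := exists_bound (smooth_d1 h.ha I) (compact_d1 h.hc I)
  obtain ⟨A3, hA30, hA3⟩ := exists_bound (smooth_d1 (smooth_d1 h.ha 1) 1)
    (compact_d1 (compact_d1 h.hc 1) 1)
  obtain ⟨A4, hA40, hA4⟩ := exists_bound (smooth_d1 (smooth_d1 h.ha I) I)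
    (compact_d1 (compact_d1 h.hc I) I)
  obtain ⟨A5, hA50, hA5⟩ := exists_bound (smooth_d1 (smooth_d1 h.ha I) 1)
    (compact_d1 (compact_d1 h.hc I) 1)
  set A : ℝ := A0 + A1 + A2 + A3 + A4 + A5 with hA
  have hA' : 0 ≤ A := by positivity
  -- one component
  have comp : ∀ v w : ℂ, (v = 1 ∨ v = I) → (w = 1 ∨ w = I) → (∀ y, |d1 v (d1 w a) y| ≤ A) →
      ∀ om : ℝ, 1 ≤ om → ∀ x, |d1 v (d1 w (osc om a u)) x - a x * d1 v (d1 w u) (om • x)| ≤
        3 * (A * U) / om := by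
    intro v w hv hw hvw om hom x
    have hom0 : 0 < om := by linarith
    have hb1 : ∀ z : ℂ, (z = 1 ∨ z = I) → |d1 z a x| ≤ A ∧ |d1 z u (om • x)| ≤ U := by
      rintro z (rfl | rfl)
      · exact ⟨(hA1 x).trans (by linarith), (hU (om • x)).2.1⟩
      · exact ⟨(hA2 x).trans (by linarith), (hU (om • x)).2.2⟩
    obtain ⟨hv1, hv2⟩ := hb1 v hv
    obtain ⟨hw1, hw2⟩ := hb1 w hw
    have hu1 := (hU (om • x)).1
    rw [d2_osc h]
    have e0 : (om⁻¹) ^ 2 * om * om = 1 := by field_simp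
    have e1 : (om⁻¹) ^ 2 * om = 1 / om := by field_simp
    have e2 : (om⁻¹) ^ 2 ≤ 1 / om := by
      rw [inv_pow, one_div]
      exact inv_anti₀ hom0 (by nlinarith)
    have e3 : (om⁻¹) ^ 2 * (d1 v (d1 w a) x * u (om • x)) +
      (om⁻¹) ^ 2 * om * (d1 w a x * d1 v u (om • x)) +
      ((om⁻¹) ^ 2 * om * (d1 v a x * d1 w u (om • x)) +
      (om⁻¹) ^ 2 * om * om * (a x * d1 v (d1 w u) (om • x))) - a x * d1 v (d1 w u) (om • x) =
      (om⁻¹) ^ 2 * (d1 v (d1 w a) x * u (om • x)) +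
      1 / om * (d1 w a x * d1 v u (om • x)) + 1 / om * (d1 v a x * d1 w u (om • x)) := by
      rw [e0, e1]; ring
    simp only
    rw [e3]
    have m1 : |d1 v (d1 w a) x * u (om • x)| ≤ A * U := by
      rw [abs_mul]; exact mul_le_mul (hvw x) hu1 (abs_nonneg _) hA'
    have m2 : |d1 w a x * d1 v u (om • x)| ≤ A * U := by
      rw [abs_mul]; exact mul_le_mul hw1 hv2 (abs_nonneg _) hA'
    have m3 : |d1 v a x * d1 w u (om • x)| ≤ A * U := by
      rw [abs_mul]; exact mul_le_mul hv1 hw2 (abs_nonneg _) hA'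
    have hAU : 0 ≤ A * U := mul_nonneg hA' hU0
    have hom1 : 0 ≤ 1 / om := by positivity
    calc _ ≤ |(om⁻¹) ^ 2 * (d1 v (d1 w a) x * u (om • x))| +
        |1 / om * (d1 w a x * d1 v u (om • x))| + |1 / om * (d1 v a x * d1 w u (om • x))| :=
          abs_add_three _ _ _
      _ ≤ 1 / om * (A * U) + 1 / om * (A * U) + 1 / om * (A * U) := by
          rw [abs_mul ((om⁻¹) ^ 2), abs_mul (1 / om), abs_mul (1 / om), abs_of_nonneg hom1,
            abs_of_nonneg (by positivity : (0 : ℝ) ≤ (om⁻¹) ^ 2)]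
          exact add_le_add (add_le_add (mul_le_mul e2 m1 (abs_nonneg _) hom1)
            (mul_le_mul_of_nonneg_left m2 hom1)) (mul_le_mul_of_nonneg_left m3 hom1)
      _ = _ := by ring
  refine ⟨9 * (A * U), by positivity, fun om hom x => ?_⟩
  have hom0 : 0 < om := by linarith
  have hAUom : 0 ≤ A * U / om := by positivity
  refine ⟨?_, ?_, ?_⟩
  · have c1 := comp 1 1 (Or.inl rfl) (Or.inl rfl) (fun y => (hA3 y).trans (by linarith)) om hom x
    have c2 := comp I I (Or.inr rfl) (Or.inr rfl) (fun y => (hA4 y).trans (by linarith)) om hom x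
    have c3 := comp 1 I (Or.inl rfl) (Or.inr rfl) (fun y => (hA5 y).trans (by linarith)) om hom x
    set X1 := d1 1 (d1 1 (osc om a u)) x - a x * d1 1 (d1 1 u) (om • x)
    set X2 := d1 I (d1 I (osc om a u)) x - a x * d1 I (d1 I u) (om • x)
    set X3 := d1 1 (d1 I (osc om a u)) x - a x * d1 1 (d1 I u) (om • x)
    have e : hs (osc om a u) x - a x • hs u (om • x) =
        (((X1 + X2) / 2, (((X1 - X2) / 2 : ℝ) : ℂ) + ((X3 : ℝ) : ℂ) * I) : ℝ × ℂ) := by
      simp only [hs, X1, X2, X3]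
      ext
      · simp; ring
      · simp; ring
    rw [e]
    refine (norm_pair_le _ _ _).trans ?_
    have h1 : |(X1 + X2) / 2| ≤ (|X1| + |X2|) / 2 := by
      rw [abs_div, abs_two]
      have := abs_add_le X1 X2
      linarith
    have h2 : |(X1 - X2) / 2| ≤ (|X1| + |X2|) / 2 := by
      rw [abs_div, abs_two]
      have := abs_sub X1 X2
      linarith
    have h3 : 9 * (A * U) / om = 3 * (3 * (A * U) / om) := by ring
    rw [h3]
    linarith
  all_goals
    have hd : ∀ z : ℂ, (z = 1 ∨ z = I) → |d1 z (osc om a u) x| ≤ 9 * (A * U) / om := by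
      intro z hz
      have hb1 : |d1 z a x| ≤ A ∧ |d1 z u (om • x)| ≤ U := by
        rcases hz with rfl | rfl
        · exact ⟨(hA1 x).trans (by linarith), (hU (om • x)).2.1⟩
        · exact ⟨(hA2 x).trans (by linarith), (hU (om • x)).2.2⟩
      have hu1 := (hU (om • x)).1
      rw [d1_osc h]
      have e1 : (om⁻¹) ^ 2 * om = 1 / om := by field_simp
      have e2 : (om⁻¹) ^ 2 ≤ 1 / om := by
        rw [inv_pow, one_div]
        exact inv_anti₀ hom0 (by nlinarith)
      have hom1 : 0 ≤ 1 / om := by positivity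
      have m1 : |d1 z a x * u (om • x)| ≤ A * U := by
        rw [abs_mul]; exact mul_le_mul hb1.1 hu1 (abs_nonneg _) hA'
      have m2 : |a x * d1 z u (om • x)| ≤ A * U := by
        rw [abs_mul]
        exact mul_le_mul ((hA0 x).trans (by linarith)) hb1.2 (abs_nonneg _) hA'
      simp only
      rw [e1]
      refine (abs_add_le _ _).trans ?_
      rw [abs_mul ((om⁻¹) ^ 2), abs_mul (1 / om), abs_of_nonneg hom1,
            abs_of_nonneg (by positivity : (0 : ℝ) ≤ (om⁻¹) ^ 2)]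
      have m3 := mul_le_mul e2 m1 (abs_nonneg _) hom1
      have m4 := mul_le_mul_of_nonneg_left m2 hom1
      have h3 : 9 * (A * U) / om = 9 * (A * U / om) := by ring
      have h4 : 1 / om * (A * U) = A * U / om := by ring
      rw [h4] at m3 m4
      rw [h3]
      linarith
  · exact hd 1 (Or.inl rfl)
  · exact hd I (Or.inr rfl)

/-! ### Profiles -/

/-- The phase. -/
def ph (k y : ℂ) : ℝ := k.re * y.re + k.im * y.im

lemma smooth_ph (k : ℂ) : ContDiff ℝ ∞ (ph k) :=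
  (contDiff_const.mul Complex.reCLM.contDiff).add (contDiff_const.mul Complex.imCLM.contDiff)

lemma hasFDerivAt_ph (k y : ℂ) :
    HasFDerivAt (ph k) (k.re • Complex.reCLM + k.im • Complex.imCLM) y :=
  (Complex.reCLM.hasFDerivAt.const_mul k.re).add (Complex.imCLM.hasFDerivAt.const_mul k.im)

lemma ph_smul (om : ℝ) (k y : ℂ) : ph k (om • y) = om * ph k y := by
  simp [ph]; ring

/-- Cosine profile. -/
def uc (k y : ℂ) : ℝ := Real.cos (ph k y)

/-- Sine profile. -/
def us (k y : ℂ) : ℝ := Real.sin (ph k y)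

lemma smooth_uc (k : ℂ) : ContDiff ℝ ∞ (uc k) := Real.contDiff_cos.comp (smooth_ph k)

lemma smooth_us (k : ℂ) : ContDiff ℝ ∞ (us k) := Real.contDiff_sin.comp (smooth_ph k)

lemma d1_uc (k v : ℂ) : d1 v (uc k) = fun y => -(ph k v) * us k y := by
  funext y
  have h : HasFDerivAt (uc k) _ y := (hasFDerivAt_ph k y).cos
  unfold d1
  rw [h.fderiv]
  simp [ph, us]
  ring

lemma d1_us (k v : ℂ) : d1 v (us k) = fun y => ph k v * uc k y := by
  funext y
  have h : HasFDerivAt (us k) _ y := (hasFDerivAt_ph k y).sin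
  unfold d1
  rw [h.fderiv]
  simp [ph, uc]
  ring

lemma abs_uc_le (k y : ℂ) : |uc k y| ≤ 1 := Real.abs_cos_le_one _

lemma abs_us_le (k y : ℂ) : |us k y| ≤ 1 := Real.abs_sin_le_one _

lemma hs_uc (k y : ℂ) : hs (uc k) y = (-uc k y) • sq k := by
  have h : ∀ v w, d1 v (d1 w (uc k)) y = -(ph k w) * (ph k v * uc k y) := by
    intro v w
    rw [d1_uc, d1_const_mul _ (smooth_us k), d1_us]
  unfold hs
  simp only [h]
  generalize uc k y = c
  ext
  · simp [ph, sq, Complex.normSq_apply]; ring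
  · have hk : k ^ 2 = ((k.re : ℂ) + (k.im : ℂ) * I) ^ 2 := by rw [Complex.re_add_im k]
    simp only [ph, sq, Prod.smul_snd, Complex.real_smul, Complex.one_re, Complex.one_im,
      Complex.I_re, Complex.I_im, hk]
    push_cast
    linear_combination (c : ℂ) * (k.im : ℂ) ^ 2 / 2 * I_sq

lemma wave_uc {a : ℂ → ℝ} (ha : ContDiff ℝ ∞ a) (hc : HasCompactSupport a) (k : ℂ) :
    Wave a (uc k) := by
  refine ⟨ha, hc, smooth_uc k, 1 + |k.re| + |k.im|, by positivity, fun y => ?_⟩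
  have h0 := abs_nonneg k.re
  have h1 := abs_nonneg k.im
  have h2 := abs_us_le k y
  have h3 := abs_uc_le k y
  refine ⟨by linarith, ?_, ?_⟩
  · rw [d1_uc]
    simp only [ph, Complex.one_re, Complex.one_im, mul_one, mul_zero, add_zero, neg_mul, abs_neg,
      abs_mul]
    nlinarith
  · rw [d1_uc]
    simp only [ph, Complex.I_re, Complex.I_im, mul_one, mul_zero, zero_add, neg_mul, abs_neg,
      abs_mul]
    nlinarith

/-- Product of two sine profiles. -/
def uss (k m y : ℂ) : ℝ := us k y * us m y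

lemma smooth_uss (k m : ℂ) : ContDiff ℝ ∞ (uss k m) := (smooth_us k).mul (smooth_us m)

lemma d1_uss (k m v : ℂ) : d1 v (uss k m) =
    fun y => ph k v * (uc k y * us m y) + ph m v * (us k y * uc m y) := by
  unfold uss
  rw [d1_mul (smooth_us k) (smooth_us m), d1_us, d1_us]
  funext y
  ring

lemma d2_uss (k m v w y : ℂ) : d1 v (d1 w (uss k m)) y =
    -(ph k w * ph k v + ph m w * ph m v) * (us k y * us m y) +
      (ph k w * ph m v + ph m w * ph k v) * (uc k y * uc m y) := by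
  rw [d1_uss, d1_add (contDiff_const.mul ((smooth_uc k).mul (smooth_us m)))
    (contDiff_const.mul ((smooth_us k).mul (smooth_uc m))),
    d1_const_mul _ ((smooth_uc k).mul (smooth_us m)),
    d1_const_mul _ ((smooth_us k).mul (smooth_uc m)),
    d1_mul (smooth_uc k) (smooth_us m), d1_mul (smooth_us k) (smooth_uc m), d1_uc, d1_us, d1_uc,
    d1_us]
  ring

lemma hs_uss (k m y : ℂ) : hs (uss k m) y =
    (-(us k y * us m y)) • (sq k + sq m) + (2 * (uc k y * uc m y)) • od k m := by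
  unfold hs
  simp only [d2_uss]
  generalize us k y * us m y = s
  generalize uc k y * uc m y = c
  ext
  · simp [ph, sq, od, Complex.normSq_apply]; ring
  · have hk : k ^ 2 = ((k.re : ℂ) + (k.im : ℂ) * I) ^ 2 := by rw [Complex.re_add_im k]
    have hm : m ^ 2 = ((m.re : ℂ) + (m.im : ℂ) * I) ^ 2 := by rw [Complex.re_add_im m]
    have hkm : k * m = ((k.re : ℂ) + (k.im : ℂ) * I) * ((m.re : ℂ) + (m.im : ℂ) * I) := by
      rw [Complex.re_add_im k, Complex.re_add_im m]
    simp only [ph, sq, od, Prod.snd_add, Prod.smul_snd, Complex.real_smul, Complex.one_re,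
      Complex.one_im, Complex.I_re, Complex.I_im, hk, hm, hkm]
    push_cast
    linear_combination ((s : ℂ) * ((k.im : ℂ) ^ 2 + (m.im : ℂ) ^ 2) / 2 -
      (c : ℂ) * (k.im * m.im : ℂ)) * I_sq

lemma wave_uss {a : ℂ → ℝ} (ha : ContDiff ℝ ∞ a) (hc : HasCompactSupport a) (k m : ℂ) :
    Wave a (uss k m) := by
  refine ⟨ha, hc, smooth_uss k m, 1 + (|k.re| + |k.im| + |m.re| + |m.im|), by positivity,
    fun y => ?_⟩
  have h0 := abs_nonneg k.re
  have h1 := abs_nonneg k.im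
  have h0' := abs_nonneg m.re
  have h1' := abs_nonneg m.im
  have hp : ∀ s t : ℝ, |s| ≤ 1 → |t| ≤ 1 → |s * t| ≤ 1 := by
    intro s t hs ht
    rw [abs_mul]
    nlinarith [abs_nonneg s, abs_nonneg t]
  have hsum : ∀ (r r' s s' : ℝ), |s| ≤ 1 → |s'| ≤ 1 → |r * s + r' * s'| ≤ |r| + |r'| := by
    intro r r' s s' hs hs'
    refine (abs_add_le _ _).trans ?_
    rw [abs_mul, abs_mul]
    nlinarith [abs_nonneg r, abs_nonneg r']
  have h2 := abs_us_le k y
  have h3 := abs_uc_le k y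
  have h4 := abs_us_le m y
  have h5 := abs_uc_le m y
  refine ⟨?_, ?_, ?_⟩
  · exact (hp _ _ h2 h4).trans (by linarith)
  · rw [d1_uss]
    refine (hsum _ _ _ _ (hp _ _ h3 h4) (hp _ _ h2 h5)).trans ?_
    simp only [ph, Complex.one_re, Complex.one_im, mul_one, mul_zero, add_zero]
    linarith
  · rw [d1_uss]
    refine (hsum _ _ _ _ (hp _ _ h3 h4) (hp _ _ h2 h5)).trans ?_
    simp only [ph, Complex.I_re, Complex.I_im, mul_one, mul_zero, zero_add]
    linarith

end

end Pool.Agent.R747.Mil
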