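import Mathlib
import Pool.Agent.R747.MilAlg

/-!
Double sums of products of waves with almost parallel wave vectors.
-/

open Complex Set
open scoped ComplexConjugate

namespace Pool.Agent.R747.Mil

noncomputable section

/-- The second derivative of a product of two sines. -/
def tw (S S' C C' : ℝ) (k k' : ℂ) : ℝ × ℂ :=
  (-(S * S')) • (sq k + sq k') + (2 * (C * C')) • od k k'

lemma abs_mul_le_one {s t : ℝ} (hs : |s| ≤ 1) (ht : |t| ≤ 1) : |s * t| ≤ 1 := by
  rw [abs_mul]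
  nlinarith [abs_nonneg s, abs_nonneg t]

lemma tw_norm {S S' C C' R : ℝ} {k k' : ℂ} (hS : |S| ≤ 1) (hS' : |S'| ≤ 1) (hC : |C| ≤ 1)
    (hC' : |C'| ≤ 1) (hk : ‖k‖ ≤ R) (hk' : ‖k'‖ ≤ R) : ‖tw S S' C C' k k'‖ ≤ 2 * R ^ 2 := by
  have hR : 0 ≤ R := (norm_nonneg k).trans hk
  have h1 : ‖sq k‖ ≤ R ^ 2 / 2 := (norm_sq_le k).trans (by
    have := pow_le_pow_left₀ (norm_nonneg k) hk 2
    linarith)
  have h2 : ‖sq k'‖ ≤ R ^ 2 / 2 := (norm_sq_le k').trans (by
    have := pow_le_pow_left₀ (norm_nonneg k') hk' 2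
    linarith)
  have h3 : ‖od k k'‖ ≤ R ^ 2 / 2 := (norm_od_le k k').trans (by
    have := mul_le_mul hk hk' (norm_nonneg _) hR
    rw [pow_two]
    linarith)
  have h4 := abs_mul_le_one hS hS'
  have h5 := abs_mul_le_one hC hC'
  unfold tw
  refine (norm_add_le _ _).trans ?_
  rw [norm_smul, norm_smul, Real.norm_eq_abs, Real.norm_eq_abs, abs_neg, abs_mul 2, abs_two]
  have h6 : ‖sq k + sq k'‖ ≤ R ^ 2 := (norm_add_le _ _).trans (by linarith)
  have h7 : |S * S'| * ‖sq k + sq k'‖ ≤ 1 * R ^ 2 :=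
    mul_le_mul h4 h6 (norm_nonneg _) zero_le_one
  have h8 : 2 * |C * C'| * ‖od k k'‖ ≤ 2 * 1 * (R ^ 2 / 2) :=
    mul_le_mul (by linarith) h3 (norm_nonneg _) (by norm_num)
  linarith

lemma tw_sub {S S' C C' R δ : ℝ} {k k' l l' : ℂ} (hS : |S| ≤ 1) (hS' : |S'| ≤ 1) (hC : |C| ≤ 1)
    (hC' : |C'| ≤ 1) (hk : ‖k‖ ≤ R) (hk' : ‖k'‖ ≤ R) (hl : ‖l‖ ≤ R) (hl' : ‖l'‖ ≤ R)
    (h : ‖k - l‖ ≤ δ) (h' : ‖k' - l'‖ ≤ δ) :
    ‖tw S S' C C' k k' - tw S S' C C' l l'‖ ≤ 4 * R * δ := by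
  have hR : 0 ≤ R := (norm_nonneg k).trans hk
  have hδ : 0 ≤ δ := (norm_nonneg _).trans h
  have h1 : ‖sq k - sq l‖ ≤ R * δ := (norm_sq_sub_sq_le k l).trans (by
    have := mul_le_mul h (add_le_add hk hl) (by positivity) hδ
    linarith)
  have h2 : ‖sq k' - sq l'‖ ≤ R * δ := (norm_sq_sub_sq_le k' l').trans (by
    have := mul_le_mul h' (add_le_add hk' hl') (by positivity) hδ
    linarith)
  have h3 : ‖od k k' - od l l'‖ ≤ R * δ := (norm_od_sub_od_le k l k' l').trans (by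
    have a1 := mul_le_mul h hk' (norm_nonneg _) hδ
    have a2 := mul_le_mul hl h' (norm_nonneg _) hR
    linarith)
  have h4 := abs_mul_le_one hS hS'
  have h5 := abs_mul_le_one hC hC'
  have e : tw S S' C C' k k' - tw S S' C C' l l' =
      (-(S * S')) • ((sq k - sq l) + (sq k' - sq l')) + (2 * (C * C')) • (od k k' - od l l') := by
    unfold tw
    module
  rw [e]
  refine (norm_add_le _ _).trans ?_
  rw [norm_smul, norm_smul, Real.norm_eq_abs, Real.norm_eq_abs, abs_neg, abs_mul 2, abs_two]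
  have h6 : ‖(sq k - sq l) + (sq k' - sq l')‖ ≤ 2 * (R * δ) :=
    (norm_add_le _ _).trans (by linarith)
  have h7 : |S * S'| * ‖(sq k - sq l) + (sq k' - sq l')‖ ≤ 1 * (2 * (R * δ)) :=
    mul_le_mul h4 h6 (norm_nonneg _) zero_le_one
  have h8 : 2 * |C * C'| * ‖od k k' - od l l'‖ ≤ 2 * 1 * (R * δ) :=
    mul_le_mul (by linarith) h3 (norm_nonneg _) (by norm_num)
  linarith

lemma tw_smul (S S' C C' a b : ℝ) (n m : ℂ) : tw S S' C C' (a • n) (b • m) =
    (-(S * S') * a ^ 2) • sq n + (-(S * S') * b ^ 2) • sq m + (2 * (C * C') * (a * b)) • od n m := by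
  unfold tw
  rw [sq_smul, sq_smul, od_smul]
  module

variable {ι κ : Type*} [Fintype ι] [Fintype κ]

theorem lemT {A ν c C S : ι → ℝ} {A' ν' C' S' : κ → ℝ} {k : ι → ℂ} {k' : κ → ℂ} {n m : ℂ}
    {c0 cb δ : ℝ} (hn : ‖n‖ = 1) (hm : ‖m‖ = 1) (hc0 : |c0| ≤ cb) (hcb : 1 ≤ cb)
    (hδ1 : δ ≤ 1) (hν : ∀ i, |ν i| ≤ 8) (hν' : ∀ i, |ν' i| ≤ 8)
    (hC : ∀ i, |C i| ≤ 1) (hC' : ∀ i, |C' i| ≤ 1) (hS : ∀ i, |S i| ≤ 1) (hS' : ∀ i, |S' i| ≤ 1)
    (h : ∀ i, A i ≠ 0 → |c i - c0| ≤ δ ∧ ‖k i - ν i • n‖ ≤ δ)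
    (h' : ∀ j, A' j ≠ 0 → ‖k' j - ν' j • m‖ ≤ δ) :
    ∃ u v w : ℝ, w = 2 * c0 * ((∑ i, A i * ν i * C i) * (∑ j, A' j * ν' j * C' j)) ∧
      ‖u • sq n + v • sq m + w • od n m‖ ≤ 128 * cb * ((∑ i, |A i|) * (∑ j, |A' j|)) ∧
      ‖(∑ i, ∑ j, (c i * (A i * A' j)) • tw (S i) (S' j) (C i) (C' j) (k i) (k' j)) -
        (u • sq n + v • sq m + w • od n m)‖ ≤ 200 * cb * δ * ((∑ i, |A i|) * (∑ j, |A' j|)) := by
  set X : ι → κ → ℝ × ℂ := fun i j =>
    (c0 * (A i * A' j)) • tw (S i) (S' j) (C i) (C' j) (ν i • n) (ν' j • m) with hX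
  refine ⟨∑ i, ∑ j, (c0 * (A i * A' j)) * (-(S i * S' j) * ν i ^ 2),
    ∑ i, ∑ j, (c0 * (A i * A' j)) * (-(S i * S' j) * ν' j ^ 2),
    2 * c0 * ((∑ i, A i * ν i * C i) * (∑ j, A' j * ν' j * C' j)), rfl, ?_⟩
  have e : (∑ i, ∑ j, (c0 * (A i * A' j)) * (-(S i * S' j) * ν i ^ 2)) • sq n +
      (∑ i, ∑ j, (c0 * (A i * A' j)) * (-(S i * S' j) * ν' j ^ 2)) • sq m +
      (2 * c0 * ((∑ i, A i * ν i * C i) * (∑ j, A' j * ν' j * C' j))) • od n m =
      ∑ i, ∑ j, X i j := by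
    rw [Finset.sum_mul_sum, Finset.mul_sum]
    simp only [Finset.mul_sum, Finset.sum_smul, ← Finset.sum_add_distrib]
    refine Finset.sum_congr rfl fun i _ => Finset.sum_congr rfl fun j _ => ?_
    simp only [hX, tw_smul]
    module
  rw [e]
  have hsum : ∀ r : ℝ, ∑ i, ∑ j, r * (|A i| * |A' j|) = r * ((∑ i, |A i|) * (∑ j, |A' j|)) := by
    intro r
    rw [Finset.sum_mul_sum, Finset.mul_sum]
    simp only [Finset.mul_sum]
  have hn8 : ∀ i, ‖ν i • n‖ ≤ 8 := by
    intro i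
    rw [norm_smul, hn, mul_one, Real.norm_eq_abs]; exact hν i
  have hm8 : ∀ i, ‖ν' i • m‖ ≤ 8 := by
    intro i
    rw [norm_smul, hm, mul_one, Real.norm_eq_abs]; exact hν' i
  constructor
  · rw [← hsum]
    refine (norm_sum_le _ _).trans (Finset.sum_le_sum fun i _ => ?_)
    refine (norm_sum_le _ _).trans (Finset.sum_le_sum fun j _ => ?_)
    simp only [hX]
    rw [norm_smul, Real.norm_eq_abs, abs_mul, abs_mul]
    have h1 := tw_norm (hS i) (hS' j) (hC i) (hC' j) (hn8 i) (hm8 j)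
    have h2 : |c0| * (|A i| * |A' j|) ≤ cb * (|A i| * |A' j|) :=
      mul_le_mul_of_nonneg_right hc0 (by positivity)
    calc _ ≤ cb * (|A i| * |A' j|) * (2 * 8 ^ 2) := mul_le_mul h2 h1 (norm_nonneg _) (by positivity)
      _ = _ := by ring
  · rw [← hsum, ← Finset.sum_sub_distrib]
    refine (norm_sum_le _ _).trans (Finset.sum_le_sum fun i _ => ?_)
    rw [← Finset.sum_sub_distrib]
    refine (norm_sum_le _ _).trans (Finset.sum_le_sum fun j _ => ?_)
    simp only [hX]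
    by_cases hA : A i = 0
    · simp [hA]
    by_cases hA' : A' j = 0
    · simp [hA']
    obtain ⟨h1, h2⟩ := h i hA
    have h3 := h' j hA'
    have hδ0 : 0 ≤ δ := (norm_nonneg _).trans h3
    have hk9 : ‖k i‖ ≤ 9 := by
      have : k i = (k i - ν i • n) + ν i • n := by ring
      rw [this]
      exact (norm_add_le _ _).trans (by linarith [hn8 i])
    have hk9' : ‖k' j‖ ≤ 9 := by
      have : k' j = (k' j - ν' j • m) + ν' j • m := by ring
      rw [this]
      exact (norm_add_le _ _).trans (by linarith [hm8 j])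
    have e2 : (c i * (A i * A' j)) • tw (S i) (S' j) (C i) (C' j) (k i) (k' j) -
        (c0 * (A i * A' j)) • tw (S i) (S' j) (C i) (C' j) (ν i • n) (ν' j • m) =
        (A i * A' j) • ((c i - c0) • tw (S i) (S' j) (C i) (C' j) (k i) (k' j) +
          c0 • (tw (S i) (S' j) (C i) (C' j) (k i) (k' j) -
            tw (S i) (S' j) (C i) (C' j) (ν i • n) (ν' j • m))) := by module
    rw [e2, norm_smul, Real.norm_eq_abs, abs_mul]
    have h4 := tw_norm (hS i) (hS' j) (hC i) (hC' j) hk9 hk9'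
    have h5 := tw_sub (hS i) (hS' j) (hC i) (hC' j) hk9 hk9' ((hn8 i).trans (by norm_num))
      ((hm8 j).trans (by norm_num)) h2 h3
    have h6 : ‖(c i - c0) • tw (S i) (S' j) (C i) (C' j) (k i) (k' j) +
          c0 • (tw (S i) (S' j) (C i) (C' j) (k i) (k' j) -
            tw (S i) (S' j) (C i) (C' j) (ν i • n) (ν' j • m))‖ ≤ 200 * cb * δ := by
      refine (norm_add_le _ _).trans ?_
      rw [norm_smul, norm_smul, Real.norm_eq_abs, Real.norm_eq_abs]
      have a1 := mul_le_mul h1 h4 (norm_nonneg _) hδ0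
      have a2 := mul_le_mul hc0 h5 (norm_nonneg _) (by linarith)
      have a3 : 162 * δ ≤ 162 * cb * δ := by nlinarith
      have a4 : 0 ≤ cb * δ := by nlinarith
      linarith
    calc _ ≤ |A i| * |A' j| * (200 * cb * δ) := mul_le_mul_of_nonneg_left h6 (by positivity)
      _ = _ := by ring

/-- The sum over the pairs. -/
lemma pair_sum [DecidableEq ι] {χ col C S : ι → ℝ} (hcol : ∀ j, 1 ≤ col j)
    (hd : ∀ j k, χ j ≠ 0 → χ k ≠ 0 → col j = col k → j = k) (hCS : ∀ j, C j ^ 2 + S j ^ 2 = 1) :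
    ∑ p : ι × ι × Bool,
      (χ p.1 * χ p.2.1 / (2 * (col p.1 + (if p.2.2 then 1 else -1) * col p.2.1))) *
      (col p.1 + (if p.2.2 then 1 else -1) * col p.2.1) *
      (C p.1 * C p.2.1 - (if p.2.2 then 1 else -1) * (S p.1 * S p.2.1)) =
    (∑ j, χ j * C j) ^ 2 - (∑ j, χ j ^ 2) / 2 := by
  rw [Fintype.sum_prod_type]
  simp only [Fintype.sum_prod_type, Fintype.sum_bool]
  have e : ∀ j k : ι,
      (χ j * χ k / (2 * (col j + (if True then 1 else -1) * col k))) *
      (col j + (if True then 1 else -1) * col k) *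
      (C j * C k - (if True then 1 else -1) * (S j * S k)) +
      (χ j * χ k / (2 * (col j + (if False then 1 else -1) * col k))) *
      (col j + (if False then 1 else -1) * col k) *
      (C j * C k - (if False then 1 else -1) * (S j * S k)) =
      (χ j * C j) * (χ k * C k) - if j = k then χ j ^ 2 / 2 else 0 := by
    intro j k
    simp only [if_true, if_false]
    have hj := hcol j
    have hk := hcol k
    have h1 : col j + 1 * col k ≠ 0 := by linarith
    have e1 : (χ j * χ k / (2 * (col j + 1 * col k))) * (col j + 1 * col k) = χ j * χ k / 2 := by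
      field_simp
    rw [e1]
    by_cases hjk : j = k
    · subst hjk
      have := hCS j
      simp only [if_true]
      rw [show col j + -1 * col j = 0 by ring]
      simp only [mul_zero, div_zero, zero_mul]
      linear_combination (-χ j ^ 2 / 2) * this
    · simp only [hjk, if_false]
      by_cases hjk2 : col j = col k
      · have h0 : χ j * χ k = 0 := by
          by_contra hne
          exact hjk (hd j k (left_ne_zero_of_mul hne) (right_ne_zero_of_mul hne) hjk2)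
        rw [h0, hjk2]
        have : (χ j * C j) * (χ k * C k) = (χ j * χ k) * (C j * C k) := by ring
        rw [this, h0]
        ring
      · have h2 : col j + -1 * col k ≠ 0 := by
          intro h; apply hjk2; linarith
        have e2 : (χ j * χ k / (2 * (col j + -1 * col k))) * (col j + -1 * col k) =
          χ j * χ k / 2 := by
          generalize col j + -1 * col k = z at h2
          field_simp
        rw [e2]; ring
  simp only [if_true, if_false, Bool.false_eq_true] at e ⊢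
  simp only [e]
  simp only [Finset.sum_sub_distrib, Finset.sum_ite_eq, Finset.mem_univ, if_true]
  rw [pow_two, Finset.sum_mul_sum, Finset.sum_div]

end

end Pool.Agent.R747.Mil
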