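import Mathlib
import Pool.Agent.R747.MilT
import Pool.Agent.R747.MilOsc

/-!
The corrugation of a function by a finite family of localized waves.
-/

open Complex Set Filter Topology
open scoped ComplexConjugate ContDiff

namespace Pool.Agent.R747.Mil

noncomputable section

/-- A finite family of bumps with colours. -/
structure Bumps {ι : Type*} [Fintype ι] (χ : ι → ℂ → ℝ) (col : ι → ℝ) : Prop where
  sm : ∀ j, ContDiff ℝ ∞ (χ j)
  cs : ∀ j, HasCompactSupport (χ j)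
  nn : ∀ j x, 0 ≤ χ j x
  c1 : ∀ j, 1 ≤ col j
  c4 : ∀ j, col j ≤ 4
  ci : ∀ j k, col j ≠ col k → 1 ≤ |col j - col k|
  dj : ∀ x j k, χ j x ≠ 0 → χ k x ≠ 0 → col j = col k → j = k
  e1 : ∀ x, ∑ j, χ j x ^ 2 ≤ 1
  s4 : ∀ x, (∑ j, χ j x) ^ 2 ≤ 4 * ∑ j, χ j x ^ 2

section sums

variable {κ : Type*} [Fintype κ]

/-- A finite sum of oscillating functions. -/
def oscs (om : ℝ) (a u : κ → ℂ → ℝ) (y : ℂ) : ℝ := ∑ i, osc om (a i) (u i) y

lemma smooth_oscs {a u : κ → ℂ → ℝ} (h : ∀ i, Wave (a i) (u i)) (om : ℝ) :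
    ContDiff ℝ ∞ (oscs om a u) := ContDiff.sum fun i _ => smooth_osc (h i) om

lemma d1_sum {ι : Type*} (s : Finset ι) (F : ι → ℂ → ℝ) (hF : ∀ i ∈ s, ContDiff ℝ ∞ (F i))
    (v x : ℂ) : d1 v (fun y => ∑ i ∈ s, F i y) x = ∑ i ∈ s, d1 v (F i) x := by
  classical
  induction s using Finset.induction_on with
  | empty => simp [d1_zero]
  | insert i s hi ih =>
    simp only [Finset.sum_insert hi]
    rw [d1_add (hF i (Finset.mem_insert_self i s)) (ContDiff.sum fun j hj =>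
      hF j (Finset.mem_insert_of_mem hj)), ← ih fun j hj => hF j (Finset.mem_insert_of_mem hj)]

theorem oscs_bound {a u : κ → ℂ → ℝ} (h : ∀ i, Wave (a i) (u i)) :
    ∃ C : ℝ, 0 ≤ C ∧ ∀ om : ℝ, 1 ≤ om → ∀ x,
    ‖hs (oscs om a u) x - ∑ i, a i x • hs (u i) (om • x)‖ ≤ C / om ∧
    |d1 1 (oscs om a u) x| ≤ C / om ∧ |d1 I (oscs om a u) x| ≤ C / om := by
  choose C hC0 hC using fun i => osc_bound (h i)
  refine ⟨∑ i, C i, Finset.sum_nonneg fun i _ => hC0 i, fun om hom x => ?_⟩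
  rw [Finset.sum_div]
  refine ⟨?_, ?_, ?_⟩
  · unfold oscs
    rw [hs_sum _ _ fun i _ => smooth_osc (h i) om, ← Finset.sum_sub_distrib]
    exact (norm_sum_le _ _).trans (Finset.sum_le_sum fun i _ => (hC i om hom x).1)
  · unfold oscs
    rw [d1_sum _ _ fun i _ => smooth_osc (h i) om]
    exact (Finset.abs_sum_le_sum_abs _ _).trans (Finset.sum_le_sum fun i _ => (hC i om hom x).2.1)
  · unfold oscs
    rw [d1_sum _ _ fun i _ => smooth_osc (h i) om]
    exact (Finset.abs_sum_le_sum_abs _ _).trans (Finset.sum_le_sum fun i _ => (hC i om hom x).2.2)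

end sums

variable {ι : Type*} [Fintype ι]

/-- A sign. -/
def sg (b : Bool) : ℝ := if b then 1 else -1

/-- The multipliers of the combined wave vectors. -/
def nu (col : ι → ℝ) (p : ι × ι × Bool) : ℝ := col p.1 + sg p.2.2 * col p.2.1

/-- The combined wave vectors. -/
def vec (col : ι → ℝ) (n : ι → ℂ) (p : ι × ι × Bool) : ℂ :=
  col p.1 • n p.1 + (sg p.2.2 * col p.2.1) • n p.2.1

/-- The amplitudes of the combined waves. -/
def alp (χ : ι → ℂ → ℝ) (col : ι → ℝ) (p : ι × ι × Bool) (x : ℂ) : ℝ :=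
  χ p.1 x * χ p.2.1 x / (2 * nu col p)

/-- The corrugation. -/
def cor (χ : ι → ℂ → ℝ) (col : ι → ℝ) (n m : ι → ℂ) (c1 c2 : ι → ℝ) (e om : ℝ) (y : ℂ) : ℝ :=
  oscs om (fun j x => -(e / col j ^ 2) * χ j x) (fun j => uc (col j • n j)) y +
  oscs om (fun j x => -(e / col j ^ 2) * χ j x) (fun j => uc (col j • m j)) y +
  oscs om (fun (p : ι × ι) x => e ^ 2 * c1 p.1 * ((χ p.1 x / col p.1) * (χ p.2 x / col p.2)))
    (fun p => uss (col p.1 • n p.1) (col p.2 • m p.2)) y +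
  oscs om (fun (p : (ι × ι × Bool) × (ι × ι × Bool)) x =>
      e ^ 2 * c2 p.1.1 * (alp χ col p.1 x * alp χ col p.2 x))
    (fun p => uss (vec col n p.1) (vec col m p.2)) y

lemma abs_sg (b : Bool) : |sg b| = 1 := by cases b <;> simp [sg]

lemma alp_sum_le {χ : ι → ℂ → ℝ} {col : ι → ℝ} (h : Bumps χ col) (x : ℂ) :
    ∑ p, |alp χ col p x| ≤ (∑ j, χ j x) ^ 2 := by
  rw [Fintype.sum_prod_type, pow_two, Finset.sum_mul_sum]
  refine Finset.sum_le_sum fun j _ => ?_
  rw [Fintype.sum_prod_type]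
  refine Finset.sum_le_sum fun k _ => ?_
  have key : ∀ b : Bool, |alp χ col (j, k, b) x| ≤ χ j x * χ k x / 2 := by
    intro b
    have h0 : 0 ≤ χ j x * χ k x := mul_nonneg (h.nn j x) (h.nn k x)
    unfold alp
    simp only
    by_cases hz : nu col (j, k, b) = 0
    · rw [hz]; simp only [mul_zero, div_zero, abs_zero]; linarith
    · have h1 : 1 ≤ |nu col (j, k, b)| := by
        have hj := h.c1 j
        have hk := h.c1 k
        cases b
        · simp only [nu, sg, Bool.false_eq_true, if_false] at hz ⊢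
          have h2 : col j ≠ col k := by intro h3; apply hz; rw [h3]; ring
          have h3 := h.ci j k h2
          rwa [show col j + -1 * col k = col j - col k by ring]
        · simp only [nu, sg, if_true]
          rw [abs_of_nonneg (by linarith)]
          linarith
      rw [abs_div, abs_of_nonneg h0, abs_mul, abs_two]
      exact div_le_div_of_nonneg_left h0 (by norm_num) (by linarith)
  rw [Fintype.sum_bool]
  linarith [key true, key false]

lemma abs_nu_le {χ : ι → ℂ → ℝ} {col : ι → ℝ} (h : Bumps χ col) (p : ι × ι × Bool) :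
    |nu col p| ≤ 8 := by
  unfold nu
  refine (abs_add_le _ _).trans ?_
  rw [abs_mul, abs_sg, one_mul, abs_of_nonneg (by linarith [h.c1 p.1]),
    abs_of_nonneg (by linarith [h.c1 p.2.1])]
  linarith [h.c4 p.1, h.c4 p.2.1]

lemma vec_sub {χ : ι → ℂ → ℝ} {col : ι → ℝ} (h : Bumps χ col) {n : ι → ℂ} {n0 : ℂ} {δ : ℝ}
    (p : ι × ι × Bool) (h1 : ‖n p.1 - n0‖ ≤ δ) (h2 : ‖n p.2.1 - n0‖ ≤ δ) :
    ‖vec col n p - nu col p • n0‖ ≤ 8 * δ := by
  have e : vec col n p - nu col p • n0 =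
      col p.1 • (n p.1 - n0) + (sg p.2.2 * col p.2.1) • (n p.2.1 - n0) := by
    unfold vec nu
    module
  rw [e]
  refine (norm_add_le _ _).trans ?_
  rw [norm_smul, norm_smul, Real.norm_eq_abs, Real.norm_eq_abs, abs_mul, abs_sg, one_mul,
    abs_of_nonneg (by linarith [h.c1 p.1]), abs_of_nonneg (by linarith [h.c1 p.2.1])]
  have a1 := mul_le_mul (h.c4 p.1) h1 (norm_nonneg _) (by norm_num)
  have a2 := mul_le_mul (h.c4 p.2.1) h2 (norm_nonneg _) (by norm_num)
  linarith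

omit [Fintype ι] in
lemma ph_vec (col : ι → ℝ) (n : ι → ℂ) (p : ι × ι × Bool) (y : ℂ) :
    ph (vec col n p) y = ph (col p.1 • n p.1) y + sg p.2.2 * ph (col p.2.1 • n p.2.1) y := by
  simp only [ph, vec, Complex.add_re, Complex.add_im, Complex.smul_re, Complex.smul_im,
    smul_eq_mul]
  ring

omit [Fintype ι] in
lemma uc_vec (col : ι → ℝ) (n : ι → ℂ) (p : ι × ι × Bool) (y : ℂ) :
    uc (vec col n p) y = uc (col p.1 • n p.1) y * uc (col p.2.1 • n p.2.1) y -
      sg p.2.2 * (us (col p.1 • n p.1) y * us (col p.2.1 • n p.2.1) y) := by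
  unfold uc us
  rw [ph_vec]
  rcases p with ⟨j, k, b⟩
  cases b
  · simp only [sg, Bool.false_eq_true, if_false]
    rw [show ph (col j • n j) y + -1 * ph (col k • n k) y =
      ph (col j • n j) y - ph (col k • n k) y by ring, Real.cos_sub]
    ring
  · simp only [sg, if_true]
    rw [one_mul, Real.cos_add]
    ring

lemma smooth_alp {χ : ι → ℂ → ℝ} {col : ι → ℝ} (h : Bumps χ col) (p : ι × ι × Bool) :
    ContDiff ℝ ∞ (alp χ col p) :=
  ((h.sm p.1).mul (h.sm p.2.1)).div_const _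

lemma compact_alp {χ : ι → ℂ → ℝ} {col : ι → ℝ} (h : Bumps χ col) (p : ι × ι × Bool) :
    HasCompactSupport (alp χ col p) := by
  refine (h.cs p.1).mono' ?_
  intro x hx
  apply subset_tsupport
  intro h0
  apply hx
  simp [alp, h0]

lemma wave1 {χ : ι → ℂ → ℝ} {col : ι → ℝ} (h : Bumps χ col) (e : ℝ) (n : ι → ℂ) (j : ι) :
    Wave (fun x => -(e / col j ^ 2) * χ j x) (uc (col j • n j)) := by
  refine wave_uc (contDiff_const.mul (h.sm j)) ((h.cs j).mono' ?_) _
  intro x hx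
  apply subset_tsupport
  intro h0
  apply hx
  simp [h0]

lemma wave3 {χ : ι → ℂ → ℝ} {col : ι → ℝ} (h : Bumps χ col) (e : ℝ) (n m : ι → ℂ) (c1 : ι → ℝ)
    (p : ι × ι) :
    Wave (fun x => e ^ 2 * c1 p.1 * ((χ p.1 x / col p.1) * (χ p.2 x / col p.2)))
      (uss (col p.1 • n p.1) (col p.2 • m p.2)) := by
  refine wave_uss (contDiff_const.mul (((h.sm p.1).div_const _).mul ((h.sm p.2).div_const _)))
    ((h.cs p.1).mono' ?_) _ _
  intro x hx
  apply subset_tsupport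
  intro h0
  apply hx
  simp [h0]

lemma wave4 {χ : ι → ℂ → ℝ} {col : ι → ℝ} (h : Bumps χ col) (e : ℝ) (n m : ι → ℂ) (c2 : ι → ℝ)
    (p : (ι × ι × Bool) × (ι × ι × Bool)) :
    Wave (fun x => e ^ 2 * c2 p.1.1 * (alp χ col p.1 x * alp χ col p.2 x))
      (uss (vec col n p.1) (vec col m p.2)) := by
  refine wave_uss (contDiff_const.mul ((smooth_alp h p.1).mul (smooth_alp h p.2)))
    ((compact_alp h p.1).mono' ?_) _ _
  intro x hx
  apply subset_tsupport
  intro h0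
  apply hx
  simp [h0]

lemma smooth_cor {χ : ι → ℂ → ℝ} {col : ι → ℝ} (h : Bumps χ col) (n m : ι → ℂ) (c1 c2 : ι → ℝ)
    (e om : ℝ) : ContDiff ℝ ∞ (cor χ col n m c1 c2 e om) :=
  (((smooth_oscs (wave1 h e n) om).add (smooth_oscs (wave1 h e m) om)).add
    (smooth_oscs (wave3 h e n m c1) om)).add (smooth_oscs (wave4 h e n m c2) om)

lemma cor_eq_zero {χ : ι → ℂ → ℝ} (col : ι → ℝ) (n m : ι → ℂ) (c1 c2 : ι → ℝ)
    (e om : ℝ) {y : ℂ} (hy : ∀ j, χ j y = 0) : cor χ col n m c1 c2 e om y = 0 := by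
  simp [cor, oscs, osc, hy, alp]

/-- The second derivative of the corrugation, up to small terms. -/
theorem cor_bound {χ : ι → ℂ → ℝ} {col : ι → ℝ} (h : Bumps χ col) (n m : ι → ℂ)
    (c1 c2 : ι → ℝ) (e : ℝ) : ∃ C : ℝ, 0 ≤ C ∧ ∀ om : ℝ, 1 ≤ om → ∀ x,
    ‖hs (cor χ col n m c1 c2 e om) x -
      (e • (∑ j, (χ j x * uc (col j • n j) (om • x)) • sq (n j) +
        ∑ j, (χ j x * uc (col j • m j) (om • x)) • sq (m j)) +
      e ^ 2 • ((∑ j, ∑ k, (c1 j * ((χ j x / col j) * (χ k x / col k))) •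
          tw (us (col j • n j) (om • x)) (us (col k • m k) (om • x))
            (uc (col j • n j) (om • x)) (uc (col k • m k) (om • x))
            (col j • n j) (col k • m k)) +
        ∑ p : ι × ι × Bool, ∑ p' : ι × ι × Bool, (c2 p.1 * (alp χ col p x * alp χ col p' x)) •
          tw (us (vec col n p) (om • x)) (us (vec col m p') (om • x))
            (uc (vec col n p) (om • x)) (uc (vec col m p') (om • x))
            (vec col n p) (vec col m p')))‖ ≤ C / om ∧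
    |d1 1 (cor χ col n m c1 c2 e om) x| ≤ C / om ∧
    |d1 I (cor χ col n m c1 c2 e om) x| ≤ C / om := by
  obtain ⟨C1, hC1, b1⟩ := oscs_bound (wave1 h e n)
  obtain ⟨C2, hC2, b2⟩ := oscs_bound (wave1 h e m)
  obtain ⟨C3, hC3, b3⟩ := oscs_bound (wave3 h e n m c1)
  obtain ⟨C4, hC4, b4⟩ := oscs_bound (wave4 h e n m c2)
  refine ⟨C1 + C2 + C3 + C4, by positivity, fun om hom x => ?_⟩
  have s1 := smooth_oscs (wave1 h e n) om
  have s2 := smooth_oscs (wave1 h e m) om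
  have s3 := smooth_oscs (wave3 h e n m c1) om
  have s4 := smooth_oscs (wave4 h e n m c2) om
  obtain ⟨b11, b12, b13⟩ := b1 om hom x
  obtain ⟨b21, b22, b23⟩ := b2 om hom x
  obtain ⟨b31, b32, b33⟩ := b3 om hom x
  obtain ⟨b41, b42, b43⟩ := b4 om hom x
  have hC : (C1 + C2 + C3 + C4) / om = C1 / om + C2 / om + C3 / om + C4 / om := by ring
  rw [hC]
  refine ⟨?_, ?_, ?_⟩
  · unfold cor
    rw [hs_add ((s1.add s2).add s3) s4, hs_add (s1.add s2) s3, hs_add s1 s2]
    have e1 : ∀ (r : ι → ℂ), ∑ j, (-(e / col j ^ 2) * χ j x) • hs (uc (col j • r j)) (om • x) =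
        e • ∑ j, (χ j x * uc (col j • r j) (om • x)) • sq (r j) := by
      intro r
      rw [Finset.smul_sum]
      refine Finset.sum_congr rfl fun j _ => ?_
      rw [hs_uc, sq_smul, smul_smul, smul_smul, smul_smul]
      congr 1
      have : col j ≠ 0 := by linarith [h.c1 j]
      field_simp
    have e3 : ∑ p : ι × ι, (e ^ 2 * c1 p.1 * ((χ p.1 x / col p.1) * (χ p.2 x / col p.2))) •
        hs (uss (col p.1 • n p.1) (col p.2 • m p.2)) (om • x) =
        e ^ 2 • ∑ j, ∑ k, (c1 j * ((χ j x / col j) * (χ k x / col k))) •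
          tw (us (col j • n j) (om • x)) (us (col k • m k) (om • x))
            (uc (col j • n j) (om • x)) (uc (col k • m k) (om • x))
            (col j • n j) (col k • m k) := by
      rw [Fintype.sum_prod_type, Finset.smul_sum]
      refine Finset.sum_congr rfl fun j _ => ?_
      rw [Finset.smul_sum]
      refine Finset.sum_congr rfl fun k _ => ?_
      rw [hs_uss, smul_smul]
      simp only [tw, mul_assoc]
    have e4 : ∑ p : (ι × ι × Bool) × (ι × ι × Bool),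
        (e ^ 2 * c2 p.1.1 * (alp χ col p.1 x * alp χ col p.2 x)) •
        hs (uss (vec col n p.1) (vec col m p.2)) (om • x) =
        e ^ 2 • ∑ p : ι × ι × Bool, ∑ p' : ι × ι × Bool,
          (c2 p.1 * (alp χ col p x * alp χ col p' x)) •
          tw (us (vec col n p) (om • x)) (us (vec col m p') (om • x))
            (uc (vec col n p) (om • x)) (uc (vec col m p') (om • x))
            (vec col n p) (vec col m p') := by
      rw [Fintype.sum_prod_type, Finset.smul_sum]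
      refine Finset.sum_congr rfl fun j _ => ?_
      rw [Finset.smul_sum]
      refine Finset.sum_congr rfl fun k _ => ?_
      rw [hs_uss, smul_smul]
      simp only [tw, mul_assoc]
    rw [e1 n] at b11
    rw [e1 m] at b21
    rw [e3] at b31
    rw [e4] at b41
    rw [smul_add, smul_add]
    refine le_trans (le_of_eq ?_) ((norm_add₄_le).trans
      (add_le_add (add_le_add (add_le_add b11 b21) b31) b41))
    congr 1
    abel
  · unfold cor
    rw [d1_add ((s1.add s2).add s3) s4, d1_add (s1.add s2) s3, d1_add s1 s2]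
    have h1 := abs_add_le (d1 1 (oscs om (fun j x => -(e / col j ^ 2) * χ j x)
      (fun j => uc (col j • n j))) x) (d1 1 (oscs om (fun j x => -(e / col j ^ 2) * χ j x)
      (fun j => uc (col j • m j))) x)
    refine (abs_add_le _ _).trans (add_le_add ((abs_add_le _ _).trans
      (add_le_add ((abs_add_le _ _).trans (add_le_add b12 b22)) b32)) b42)
  · unfold cor
    rw [d1_add ((s1.add s2).add s3) s4, d1_add (s1.add s2) s3, d1_add s1 s2]
    refine (abs_add_le _ _).trans (add_le_add ((abs_add_le _ _).trans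
      (add_le_add ((abs_add_le _ _).trans (add_le_add b13 b23)) b33)) b43)

lemma sq_sum_sub {χ : ι → ℂ → ℝ} {col : ι → ℝ} (h : Bumps χ col) {n : ι → ℂ} {n0 x : ℂ}
    {δ : ℝ} (hn1 : ∀ j, ‖n j‖ = 1) (hn : ‖n0‖ = 1) {C : ι → ℝ} (hC : ∀ j, |C j| ≤ 1)
    (hx : ∀ j, χ j x ≠ 0 → ‖n j - n0‖ ≤ δ) :
    ‖(∑ j, (χ j x * C j) • sq (n j)) - (∑ j, χ j x * C j) • sq n0‖ ≤ δ * ∑ j, χ j x := by
  rw [Finset.sum_smul, ← Finset.sum_sub_distrib, Finset.mul_sum]
  refine (norm_sum_le _ _).trans (Finset.sum_le_sum fun j _ => ?_)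
  rw [← smul_sub, norm_smul, Real.norm_eq_abs, abs_mul, abs_of_nonneg (h.nn j x)]
  by_cases h0 : χ j x = 0
  · simp [h0]
  have h1 := hx j h0
  have h2 := norm_sq_sub_sq_le (n j) n0
  rw [hn1 j, hn] at h2
  have h3 : ‖sq (n j) - sq n0‖ ≤ δ := by linarith
  have h4 : χ j x * |C j| ≤ χ j x * 1 := mul_le_mul_of_nonneg_left (hC j) (h.nn j x)
  calc _ ≤ χ j x * 1 * δ := mul_le_mul h4 h3 (norm_nonneg _) (by linarith [h.nn j x])
    _ = _ := by ring

lemma sum_sq_le {χ : ι → ℂ → ℝ} {col : ι → ℝ} (h : Bumps χ col) (x : ℂ) {C : ι → ℝ}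
    (hC : ∀ j, |C j| ≤ 1) : (∑ j, χ j x * C j) ^ 2 ≤ 4 * ∑ j, χ j x ^ 2 := by
  refine le_trans ?_ (h.s4 x)
  rw [← sq_abs]
  refine pow_le_pow_left₀ (abs_nonneg _) ?_ 2
  refine (Finset.abs_sum_le_sum_abs _ _).trans (Finset.sum_le_sum fun j _ => ?_)
  rw [abs_mul, abs_of_nonneg (h.nn j x)]
  exact mul_le_of_le_one_right (h.nn j x) (hC j)

/-- **The local model of the corrugation.** -/
theorem cor_model [DecidableEq ι] {χ : ι → ℂ → ℝ} {col : ι → ℝ} (h : Bumps χ col)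
    {n m : ι → ℂ} (hn1 : ∀ j, ‖n j‖ = 1) (hm1 : ∀ j, ‖m j‖ = 1)
    (c1 c2 : ι → ℝ) {e cb : ℝ} (he0 : 0 ≤ e) (he1 : e ≤ 1) (hcb : 1 ≤ cb) :
    ∃ C : ℝ, 0 ≤ C ∧ ∀ om : ℝ, 1 ≤ om → ∀ x,
    |d1 1 (cor χ col n m c1 c2 e om) x| ≤ C / om ∧
    |d1 I (cor χ col n m c1 c2 e om) x| ≤ C / om ∧
    ∀ (n0 m0 : ℂ) (k1 k2 δ : ℝ), ‖n0‖ = 1 → ‖m0‖ = 1 → |k1| ≤ cb → |k2| ≤ cb → 0 ≤ δ →
      δ ≤ 1 / 8 →
      (∀ j, χ j x ≠ 0 → ‖n j - n0‖ ≤ δ ∧ ‖m j - m0‖ ≤ δ ∧ |c1 j - k1| ≤ δ ∧ |c2 j - k2| ≤ δ) →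
      ∃ a b u v w : ℝ, a ^ 2 ≤ 4 * ∑ j, χ j x ^ 2 ∧ b ^ 2 ≤ 4 * ∑ j, χ j x ^ 2 ∧
        w = 2 * k1 * (a * b) + 2 * k2 * ((a ^ 2 - (∑ j, χ j x ^ 2) / 2) *
          (b ^ 2 - (∑ j, χ j x ^ 2) / 2)) ∧
        ‖u • sq n0 + v • sq m0 + w • od n0 m0‖ ≤ 2560 * cb * ∑ j, χ j x ^ 2 ∧
        ‖hs (cor χ col n m c1 c2 e om) x - (e • (a • sq n0 + b • sq m0) +
          e ^ 2 • (u • sq n0 + v • sq m0 + w • od n0 m0))‖ ≤ C / om + 40000 * cb * δ := by
  obtain ⟨C, hC0, hC⟩ := cor_bound h n m c1 c2 e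
  refine ⟨C, hC0, fun om hom x => ?_⟩
  obtain ⟨hx1, hx2, hx3⟩ := hC om hom x
  refine ⟨hx2, hx3, ?_⟩
  intro n0 m0 k1 k2 δ hn0 hm0 hk1 hk2 hδ0 hδ1 hδ
  set E : ℝ := ∑ j, χ j x ^ 2 with hE
  have hE0 : 0 ≤ E := Finset.sum_nonneg fun j _ => sq_nonneg _
  have hE1 : E ≤ 1 := h.e1 x
  set s : ℝ := ∑ j, χ j x with hsd
  have hs0 : 0 ≤ s := Finset.sum_nonneg fun j _ => h.nn j x
  have hs4 : s ^ 2 ≤ 4 * E := h.s4 x
  have hs2 : s ≤ 2 := by
    have : s ^ 2 ≤ 2 ^ 2 := by linarith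
    exact (abs_le_of_sq_le_sq' this (by norm_num)).2
  set Cn : ι → ℝ := fun j => uc (col j • n j) (om • x) with hCn
  set Cm : ι → ℝ := fun j => uc (col j • m j) (om • x) with hCm
  set Sn : ι → ℝ := fun j => us (col j • n j) (om • x) with hSn
  set Sm : ι → ℝ := fun j => us (col j • m j) (om • x) with hSm
  have hcol0 : ∀ j, col j ≠ 0 := fun j => by linarith [h.c1 j]
  have hcol8 : ∀ j, |col j| ≤ 8 := fun j => by
    rw [abs_of_nonneg (by linarith [h.c1 j])]; linarith [h.c4 j]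
  -- the first double sum
  obtain ⟨u1, v1, w1, hw1, hK1, hT1⟩ := lemT (A := fun j => χ j x / col j) (ν := col) (c := c1)
    (C := Cn) (S := Sn) (A' := fun j => χ j x / col j) (ν' := col) (C' := Cm) (S' := Sm)
    (k := fun j => col j • n j) (k' := fun j => col j • m j) (δ := 4 * δ)
    hn0 hm0 hk1 hcb (by linarith) hcol8 hcol8 (fun j => abs_uc_le _ _) (fun j => abs_uc_le _ _)
    (fun j => abs_us_le _ _) (fun j => abs_us_le _ _)
    (by
      intro i hi
      have hχ : χ i x ≠ 0 := by intro h0; apply hi; simp [h0]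
      obtain ⟨d1, d2, d3, d4⟩ := hδ i hχ
      refine ⟨by linarith, ?_⟩
      rw [← smul_sub, norm_smul, Real.norm_eq_abs, abs_of_nonneg (by linarith [h.c1 i])]
      exact mul_le_mul (h.c4 i) d1 (norm_nonneg _) (by norm_num))
    (by
      intro i hi
      have hχ : χ i x ≠ 0 := by intro h0; apply hi; simp [h0]
      obtain ⟨d1, d2, d3, d4⟩ := hδ i hχ
      rw [← smul_sub, norm_smul, Real.norm_eq_abs, abs_of_nonneg (by linarith [h.c1 i])]
      exact mul_le_mul (h.c4 i) d2 (norm_nonneg _) (by norm_num))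
  -- the second double sum
  have halp : ∀ p : ι × ι × Bool, alp χ col p x ≠ 0 → χ p.1 x ≠ 0 ∧ χ p.2.1 x ≠ 0 := by
    intro p hp
    constructor
    · intro h0; apply hp; simp [alp, h0]
    · intro h0; apply hp; simp [alp, h0]
  obtain ⟨u2, v2, w2, hw2, hK2, hT2⟩ := lemT (A := fun p => alp χ col p x) (ν := nu col)
    (c := fun p => c2 p.1) (C := fun p => uc (vec col n p) (om • x))
    (S := fun p => us (vec col n p) (om • x)) (A' := fun p => alp χ col p x) (ν' := nu col)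
    (C' := fun p => uc (vec col m p) (om • x)) (S' := fun p => us (vec col m p) (om • x))
    (k := vec col n) (k' := vec col m) (δ := 8 * δ)
    hn0 hm0 hk2 hcb (by linarith) (abs_nu_le h) (abs_nu_le h) (fun j => abs_uc_le _ _)
    (fun j => abs_uc_le _ _) (fun j => abs_us_le _ _) (fun j => abs_us_le _ _)
    (by
      intro p hp
      obtain ⟨h1, h2⟩ := halp p hp
      obtain ⟨d1, d2, d3, d4⟩ := hδ p.1 h1
      obtain ⟨d1', d2', d3', d4'⟩ := hδ p.2.1 h2
      exact ⟨by linarith, vec_sub h p d1 d1'⟩)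
    (by
      intro p hp
      obtain ⟨h1, h2⟩ := halp p hp
      obtain ⟨d1, d2, d3, d4⟩ := hδ p.1 h1
      obtain ⟨d1', d2', d3', d4'⟩ := hδ p.2.1 h2
      exact vec_sub h p d2 d2')
  have hA1 : ∑ j, |χ j x / col j| ≤ s := by
    refine Finset.sum_le_sum fun j _ => ?_
    rw [abs_div, abs_of_nonneg (h.nn j x), abs_of_nonneg (by linarith [h.c1 j])]
    exact div_le_self (h.nn j x) (h.c1 j)
  have hA10 : 0 ≤ ∑ j, |χ j x / col j| := Finset.sum_nonneg fun j _ => abs_nonneg _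
  have hA2 : ∑ p, |alp χ col p x| ≤ s ^ 2 := alp_sum_le h x
  have hA20 : 0 ≤ ∑ p, |alp χ col p x| := Finset.sum_nonneg fun j _ => abs_nonneg _
  have hAA1 : (∑ j, |χ j x / col j|) * (∑ j, |χ j x / col j|) ≤ 4 * E := by
    have := mul_le_mul hA1 hA1 hA10 hs0
    rw [← pow_two s] at this
    linarith
  have hAA2 : (∑ p, |alp χ col p x|) * (∑ p, |alp χ col p x|) ≤ 16 * E := by
    have h1 := mul_le_mul hA2 hA2 hA20 (by positivity)
    have h2 : s ^ 2 * s ^ 2 ≤ (4 * E) * 4 := mul_le_mul hs4 (by linarith) (by positivity)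
      (by positivity)
    linarith
  refine ⟨∑ j, χ j x * Cn j, ∑ j, χ j x * Cm j, u1 + u2, v1 + v2, w1 + w2,
    sum_sq_le h x fun j => abs_uc_le _ _, sum_sq_le h x fun j => abs_uc_le _ _, ?_, ?_, ?_⟩
  · have e1 : ∀ (D : ι → ℝ), ∑ j, χ j x / col j * col j * D j = ∑ j, χ j x * D j := by
      intro D
      refine Finset.sum_congr rfl fun j _ => ?_
      rw [div_mul_cancel₀ _ (hcol0 j)]
    have e2 : ∀ r : ι → ℂ, ∑ p, alp χ col p x * nu col p * uc (vec col r p) (om • x) =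
        (∑ j, χ j x * uc (col j • r j) (om • x)) ^ 2 - E / 2 := by
      intro r
      have := pair_sum (χ := fun j => χ j x) (col := col)
        (C := fun j => uc (col j • r j) (om • x)) (S := fun j => us (col j • r j) (om • x))
        h.c1 (fun j k hj hk hjk => h.dj x j k hj hk hjk)
        (fun j => by simp only [uc, us]; exact Real.cos_sq_add_sin_sq _)
      rw [← this]
      refine Finset.sum_congr rfl fun p _ => ?_
      rw [uc_vec]
      rfl
    rw [hw1, hw2]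
    simp only [e1, e2]
    simp only [hCn, hCm]
  · have e1 : (u1 + u2) • sq n0 + (v1 + v2) • sq m0 + (w1 + w2) • od n0 m0 =
        (u1 • sq n0 + v1 • sq m0 + w1 • od n0 m0) +
        (u2 • sq n0 + v2 • sq m0 + w2 • od n0 m0) := by module
    rw [e1]
    refine (norm_add_le _ _).trans ((add_le_add hK1 hK2).trans ?_)
    have a1 := mul_le_mul_of_nonneg_left hAA1 (by linarith : (0 : ℝ) ≤ 128 * cb)
    have a2 := mul_le_mul_of_nonneg_left hAA2 (by linarith : (0 : ℝ) ≤ 128 * cb)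
    linarith
  · set T1 : ℝ × ℂ := ∑ j, ∑ k, (c1 j * ((χ j x / col j) * (χ k x / col k))) •
          tw (Sn j) (Sm k) (Cn j) (Cm k) (col j • n j) (col k • m k) with hT1d
    set T2 : ℝ × ℂ := ∑ p : ι × ι × Bool, ∑ p' : ι × ι × Bool,
          (c2 p.1 * (alp χ col p x * alp χ col p' x)) •
          tw (us (vec col n p) (om • x)) (us (vec col m p') (om • x))
            (uc (vec col n p) (om • x)) (uc (vec col m p') (om • x))
            (vec col n p) (vec col m p') with hT2d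
    have q1 := sq_sum_sub h hn1 hn0 (C := Cn) (fun j => abs_uc_le _ _) fun j hj => (hδ j hj).1
    have q2 := sq_sum_sub h hm1 hm0 (C := Cm) (fun j => abs_uc_le _ _) fun j hj => (hδ j hj).2.1
    set P1 : ℝ × ℂ := ∑ j, (χ j x * Cn j) • sq (n j) with hP1
    set P2 : ℝ × ℂ := ∑ j, (χ j x * Cm j) • sq (m j) with hP2
    set a : ℝ := ∑ j, χ j x * Cn j with ha
    set b : ℝ := ∑ j, χ j x * Cm j with hb
    set R1 : ℝ × ℂ := u1 • sq n0 + v1 • sq m0 + w1 • od n0 m0 with hR1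
    set R2 : ℝ × ℂ := u2 • sq n0 + v2 • sq m0 + w2 • od n0 m0 with hR2
    have e1 : hs (cor χ col n m c1 c2 e om) x - (e • (a • sq n0 + b • sq m0) +
          e ^ 2 • ((u1 + u2) • sq n0 + (v1 + v2) • sq m0 + (w1 + w2) • od n0 m0)) =
        (hs (cor χ col n m c1 c2 e om) x - (e • (P1 + P2) + e ^ 2 • (T1 + T2))) +
        (e • ((P1 - a • sq n0) + (P2 - b • sq m0)) +
        e ^ 2 • ((T1 - R1) + (T2 - R2))) := by
      rw [hR1, hR2]
      module
    rw [e1]
    refine (norm_add_le _ _).trans (add_le_add hx1 ?_)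
    refine (norm_add_le _ _).trans ?_
    rw [norm_smul, norm_smul, Real.norm_eq_abs, Real.norm_eq_abs, abs_of_nonneg he0,
      abs_of_nonneg (by positivity : 0 ≤ e ^ 2)]
    have z1 : ‖(P1 - a • sq n0) + (P2 - b • sq m0)‖ ≤ 4 * δ := by
      refine (norm_add_le _ _).trans ?_
      have : δ * s ≤ δ * 2 := mul_le_mul_of_nonneg_left hs2 hδ0
      linarith
    have z2 : ‖(T1 - R1) + (T2 - R2)‖ ≤ 39000 * cb * δ := by
      refine (norm_add_le _ _).trans ?_
      have hcd : 0 ≤ cb * δ := by positivity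
      have a1 : 200 * cb * (4 * δ) * ((∑ j, |χ j x / col j|) * (∑ j, |χ j x / col j|)) ≤
        200 * cb * (4 * δ) * 4 := mul_le_mul_of_nonneg_left (by linarith) (by positivity)
      have a2 : 200 * cb * (8 * δ) * ((∑ p, |alp χ col p x|) * (∑ p, |alp χ col p x|)) ≤
        200 * cb * (8 * δ) * 16 := mul_le_mul_of_nonneg_left (by linarith) (by positivity)
      linarith
    have e2 : e ^ 2 ≤ 1 := by nlinarith
    have y1 : e * ‖(P1 - a • sq n0) + (P2 - b • sq m0)‖ ≤ 1 * (4 * δ) :=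
      mul_le_mul he1 z1 (norm_nonneg _) zero_le_one
    have y2 : e ^ 2 * ‖(T1 - R1) + (T2 - R2)‖ ≤ 1 * (39000 * cb * δ) :=
      mul_le_mul e2 z2 (norm_nonneg _) zero_le_one
    have hcd : δ ≤ cb * δ := by nlinarith
    linarith

end

end Pool.Agent.R747.Mil
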