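import Mathlib
import Pool.Agent.R747.MilAlg

/-!
The null directions of a field of quadratic forms on the plane.
-/

open Complex Set Filter Topology
open scoped ComplexConjugate

namespace Pool.Agent.R747.Mil

noncomputable section

lemma simply_univ : IsSimplyConnected (univ : Set ℂ) := by
  have h : SimplyConnectedSpace ℂ := inferInstance
  exact (Homeomorph.Set.univ ℂ).toHomotopyEquiv.simplyConnectedSpace_iff.2 h

lemma exists_sqrt {g : ℂ → ℂ} (hg : Continuous g) (h0 : ∀ x, g x ≠ 0) :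
    ∃ f : ℂ → ℂ, Continuous f ∧ ∀ x, f x ^ 2 = g x := by
  obtain ⟨f, hf, hfg⟩ := Complex.exists_continuousOn_pow_eq simply_univ isOpen_univ
    hg.continuousOn (by rintro ⟨x, -, hx⟩; exact h0 x hx) two_ne_zero
  exact ⟨f, continuousOn_univ.1 hf, hfg⟩

/-- The null directions at a point. -/
lemma null_dir {l t c s : ℝ} {P n : ℂ} (hP : P ≠ 0) (hc : c * ‖P‖ = (1 - l) * t)
    (hcs : c ^ 2 + s ^ 2 = 1) (hn : n ^ 2 = P * (c - s * I) / ‖P‖) :
    ‖n‖ = 1 ∧ ‖n * (c + s * I)‖ = 1 ∧ B l (t, P) (sq n) = 0 ∧ B l (t, P) (sq (n * (c + s * I))) = 0 ∧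
      B l (t, P) (od n (n * (c + s * I))) = ‖P‖ * s ^ 2 / 2 := by
  have hr : (‖P‖ : ℂ) ≠ 0 := by exact_mod_cast norm_ne_zero_iff.2 hP
  have hr0 : 0 < ‖P‖ := norm_pos_iff.2 hP
  have hz : ‖(c : ℂ) + s * I‖ = 1 := by
    have h1 : ‖(c : ℂ) + s * I‖ ^ 2 = 1 := by
      rw [← Complex.normSq_eq_norm_sq, Complex.normSq_add_mul_I]; exact hcs
    have h2 := norm_nonneg ((c : ℂ) + s * I)
    nlinarith
  have hz' : ‖(c : ℂ) - s * I‖ = 1 := by
    have h1 : ‖(c : ℂ) - s * I‖ ^ 2 = 1 := by
      have : (c : ℂ) - s * I = (c : ℂ) + ((-s : ℝ) : ℂ) * I := by push_cast; ring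
      rw [this, ← Complex.normSq_eq_norm_sq, Complex.normSq_add_mul_I]; linarith
    have h2 := norm_nonneg ((c : ℂ) - s * I)
    nlinarith
  have hn1 : ‖n‖ = 1 := by
    have h1 : ‖n‖ ^ 2 = 1 := by
      rw [← norm_pow, hn, norm_div, norm_mul, hz', Complex.norm_real, norm_norm]
      field_simp
    have h2 := norm_nonneg n
    nlinarith
  have hnn : normSq n = 1 := by rw [Complex.normSq_eq_norm_sq, hn1]; norm_num
  have hzz : ((c : ℂ) + s * I) * ((c : ℂ) - s * I) = 1 := by
    have : ((c : ℂ) + s * I) * ((c : ℂ) - s * I) = ((c ^ 2 + s ^ 2 : ℝ) : ℂ) := by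
      push_cast
      linear_combination (-(s : ℂ) ^ 2) * I_sq
    rw [this, hcs]; norm_num
  have hPP : P * conj P = (‖P‖ : ℂ) ^ 2 := by
    rw [Complex.mul_conj, Complex.normSq_eq_norm_sq]; push_cast; ring
  have hcz : conj ((c : ℂ) - s * I) = (c : ℂ) + s * I := by simp
  have hcz' : conj ((c : ℂ) + s * I) = (c : ℂ) - s * I := by simp [sub_eq_add_neg]
  have hm2 : (n * (c + s * I)) ^ 2 = P * (c + s * I) / ‖P‖ := by
    rw [mul_pow, hn, div_mul_eq_mul_div]
    congr 1
    linear_combination P * (c + s * I) * hzz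
  have hnm : n * (n * (c + s * I)) = P / ‖P‖ := by
    rw [← mul_assoc, ← pow_two, hn, div_mul_eq_mul_div]
    congr 1
    linear_combination P * hzz
  have key : ∀ z : ℂ, P * conj (P * z / ‖P‖) = ‖P‖ * conj z := by
    intro z
    rw [map_div₀, map_mul, Complex.conj_ofReal]
    field_simp
    linear_combination (conj z) * hPP
  have hc2 : conj (2 : ℂ) = 2 := Complex.conj_ofNat 2
  have hnorm : ‖n * (c + s * I)‖ = 1 := by rw [norm_mul, hn1, hz, mul_one]
  refine ⟨hn1, hnorm, ?_, ?_, ?_⟩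
  · have e : P * conj (n ^ 2 / 2) = ‖P‖ * (c + s * I) / 2 := by
      rw [map_div₀, hn, mul_div_assoc', key, hcz, hc2]
    simp only [B, sq, hnn, e]
    have : ((‖P‖ : ℂ) * (c + s * I) / 2).re = ‖P‖ * c / 2 := by
      rw [show (‖P‖ : ℂ) * (c + s * I) / 2 = ((‖P‖ * c / 2 : ℝ) : ℂ) +
        ((‖P‖ * s / 2 : ℝ) : ℂ) * I by push_cast; ring]
      simp
    rw [this]
    linear_combination hc / 2
  · have hmm : normSq (n * (c + s * I)) = 1 := by
      rw [Complex.normSq_eq_norm_sq, hnorm]; norm_num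
    have e : P * conj ((n * (c + s * I)) ^ 2 / 2) = ‖P‖ * (c - s * I) / 2 := by
      rw [map_div₀, hm2, mul_div_assoc', key, hcz', hc2]
    simp only [B, sq, hmm, e]
    have : ((‖P‖ : ℂ) * (c - s * I) / 2).re = ‖P‖ * c / 2 := by
      rw [show (‖P‖ : ℂ) * (c - s * I) / 2 = ((‖P‖ * c / 2 : ℝ) : ℂ) +
        ((-(‖P‖ * s / 2) : ℝ) : ℂ) * I by push_cast; ring]
      simp
    rw [this]
    linear_combination hc / 2
  · have e : P * conj (n * (n * (c + s * I)) / 2) = ‖P‖ / 2 := by
      have := key 1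
      rw [mul_one] at this
      rw [map_div₀, hnm, mul_div_assoc', this, hc2, map_one, mul_one]
    have e2 : (n * conj (n * (c + s * I))).re = c := by
      rw [map_mul, hcz', ← mul_assoc, Complex.mul_conj, hnn]
      simp
    simp only [B, od, e, e2]
    have : ((‖P‖ : ℂ) / 2).re = ‖P‖ / 2 := by
      rw [show (‖P‖ : ℂ) / 2 = ((‖P‖ / 2 : ℝ) : ℂ) by push_cast; ring]
      exact Complex.ofReal_re _
    rw [this]
    linear_combination -(‖P‖ / 2) * hcs + c / 2 * hc

/-- **Continuous null directions** for a field of quadratic forms. -/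
theorem exists_dirs {H : ℂ → ℝ × ℂ} {l C : ℂ → ℝ} (hH : Continuous H) (hl : Continuous l)
    (hl0 : ∀ x, 0 < l x) (hl1 : ∀ x, l x ≤ 1) (hC : ∀ x, 1 / 2 ≤ C x)
    (hq : ∀ x, C x < q (l x) (H x)) :
    ∃ (n m : ℂ → ℂ) (c1 c2 : ℂ → ℝ), Continuous n ∧ Continuous m ∧ Continuous c1 ∧
      Continuous c2 ∧ ∀ x, ‖n x‖ = 1 ∧ ‖m x‖ = 1 ∧
        B (l x) (H x) (sq (n x)) = 0 ∧ B (l x) (H x) (sq (m x)) = 0 ∧
        2 * c1 x * B (l x) (H x) (od (n x) (m x)) = -B (l x) (sq (n x)) (sq (m x)) ∧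
        8 * c2 x * B (l x) (H x) (od (n x) (m x)) = l x ∧
        |c1 x| ≤ 1 / l x ∧ |c2 x| ≤ 1 / l x := by
  set P : ℂ → ℂ := fun x => (H x).2 with hP
  set t : ℂ → ℝ := fun x => (H x).1 with ht
  have hPc : Continuous P := continuous_snd.comp hH
  have htc : Continuous t := continuous_fst.comp hH
  have hq' : ∀ x, 1 / 2 < ‖P x‖ ^ 2 - (1 - l x) * t x ^ 2 := by
    intro x
    have := hq x
    rw [q_eq, Complex.normSq_eq_norm_sq] at this
    exact lt_of_le_of_lt (hC x) this
  have hPn : ∀ x, 1 / 2 < ‖P x‖ ^ 2 := by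
    intro x
    have h1 := hq' x
    have h2 : 0 ≤ (1 - l x) * t x ^ 2 := mul_nonneg (by linarith [hl1 x]) (sq_nonneg _)
    linarith
  have hP0 : ∀ x, P x ≠ 0 := by
    intro x h0
    have := hPn x
    rw [h0] at this
    norm_num at this
  have hPp : ∀ x, 0 < ‖P x‖ := fun x => norm_pos_iff.2 (hP0 x)
  have hP2 : ∀ x, 1 / 2 ≤ ‖P x‖ := by
    intro x
    have := hPn x
    have := hPp x
    nlinarith
  set c : ℂ → ℝ := fun x => (1 - l x) * t x / ‖P x‖ with hc
  have hcc : Continuous c := ((continuous_const.sub hl).mul htc).div hPc.norm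
    fun x => (hPp x).ne'
  have hc1 : ∀ x, l x ≤ 1 - c x ^ 2 := by
    intro x
    have h1 : (1 - l x) ^ 2 * t x ^ 2 ≤ (1 - l x) * ‖P x‖ ^ 2 := by
      have h2 := mul_le_mul_of_nonneg_left (by linarith [hq' x] :
        (1 - l x) * t x ^ 2 ≤ ‖P x‖ ^ 2) (by linarith [hl1 x] : 0 ≤ 1 - l x)
      linarith
    have h3 : c x ^ 2 ≤ 1 - l x := by
      simp only [hc]
      rw [div_pow, mul_pow, div_le_iff₀ (by have := hPp x; positivity)]
      exact h1
    linarith
  set s : ℂ → ℝ := fun x => √(1 - c x ^ 2) with hs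
  have hsc : Continuous s := (continuous_const.sub (hcc.pow 2)).sqrt
  have hs2 : ∀ x, s x ^ 2 = 1 - c x ^ 2 := fun x =>
    Real.sq_sqrt (by linarith [hc1 x, hl0 x])
  have hcs : ∀ x, c x ^ 2 + s x ^ 2 = 1 := fun x => by rw [hs2]; ring
  have hsl : ∀ x, l x ≤ s x ^ 2 := fun x => by rw [hs2]; exact hc1 x
  have hPr : ∀ x, (‖P x‖ : ℂ) ≠ 0 := fun x => by exact_mod_cast (hPp x).ne'
  obtain ⟨n, hnc, hn⟩ := exists_sqrt
    (g := fun x => P x * (c x - s x * I) / ‖P x‖)
    ((hPc.mul ((continuous_ofReal.comp hcc).sub ((continuous_ofReal.comp hsc).mul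
      continuous_const))).div (continuous_ofReal.comp hPc.norm) hPr)
    (by
      intro x h0
      rw [div_eq_zero_iff] at h0
      rcases h0 with h0 | h0
      · rcases mul_eq_zero.1 h0 with h0 | h0
        · exact hP0 x h0
        · have h1 := congrArg Complex.re h0
          have h2 := congrArg Complex.im h0
          simp at h1 h2
          have := hcs x
          rw [h1, h2] at this
          norm_num at this
      · exact hPr x h0)
  set m : ℂ → ℂ := fun x => n x * (c x + s x * I) with hm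
  have hmc : Continuous m := hnc.mul ((continuous_ofReal.comp hcc).add
    ((continuous_ofReal.comp hsc).mul continuous_const))
  have hnull : ∀ x, ‖n x‖ = 1 ∧ ‖m x‖ = 1 ∧ B (l x) (H x) (sq (n x)) = 0 ∧
      B (l x) (H x) (sq (m x)) = 0 ∧ B (l x) (H x) (od (n x) (m x)) = ‖P x‖ * s x ^ 2 / 2 := by
    intro x
    exact null_dir (l := l x) (t := t x) (hP0 x)
      (by simp only [hc]; rw [div_mul_cancel₀ _ (hPp x).ne']) (hcs x) (hn x)
  have hBp : ∀ x, 0 < B (l x) (H x) (od (n x) (m x)) := by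
    intro x
    rw [(hnull x).2.2.2.2]
    have := hsl x
    have := hl0 x
    have := hPp x
    have h3 : 0 < s x ^ 2 := by linarith
    positivity
  have hBl : ∀ x, l x / 4 ≤ B (l x) (H x) (od (n x) (m x)) := by
    intro x
    rw [(hnull x).2.2.2.2]
    have h1 := hsl x
    have h2 := hP2 x
    have := hl0 x
    have h3 := mul_le_mul h2 h1 this.le (by linarith)
    linarith
  -- continuity of the bilinear form
  have hBc : ∀ {X Y : ℂ → ℝ × ℂ}, Continuous X → Continuous Y →
      Continuous fun x => B (l x) (X x) (Y x) := by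
    intro X Y hX hY
    unfold B
    exact (Complex.continuous_re.comp ((continuous_snd.comp hX).mul
      (Complex.continuous_conj.comp (continuous_snd.comp hY)))).sub
      ((continuous_const.sub hl).mul ((continuous_fst.comp hX).mul (continuous_fst.comp hY)))
  have hsqc : ∀ {k : ℂ → ℂ}, Continuous k → Continuous fun x => sq (k x) := by
    intro k hk
    unfold sq
    exact ((Complex.continuous_normSq.comp hk).div_const 2).prodMk ((hk.pow 2).div_const 2)
  have hodc : Continuous fun x => od (n x) (m x) := by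
    unfold od
    exact ((Complex.continuous_re.comp (hnc.mul (Complex.continuous_conj.comp hmc))).div_const
      2).prodMk ((hnc.mul hmc).div_const 2)
  have hDc := hBc hH hodc
  refine ⟨n, m, fun x => -B (l x) (sq (n x)) (sq (m x)) /
      (2 * B (l x) (H x) (od (n x) (m x))),
    fun x => l x / (8 * B (l x) (H x) (od (n x) (m x))), hnc, hmc, ?_, ?_, ?_⟩
  · exact ((hBc (hsqc hnc) (hsqc hmc)).neg).div (continuous_const.mul hDc)
      fun x => by have := hBp x; positivity
  · exact hl.div (continuous_const.mul hDc) fun x => by have := hBp x; positivity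
  · intro x
    obtain ⟨h1, h2, h3, h4, h5⟩ := hnull x
    have hB := hBp x
    have hB' := hBl x
    have hlx := hl0 x
    refine ⟨h1, h2, h3, h4, ?_, ?_, ?_, ?_⟩
    · field_simp
    · field_simp
    · -- the norms of the squares are at most one half
      have hn1 : ‖sq (n x)‖ ≤ 1 / 2 := by have := norm_sq_le (n x); rw [h1] at this; linarith
      have hm1 : ‖sq (m x)‖ ≤ 1 / 2 := by have := norm_sq_le (m x); rw [h2] at this; linarith
      have h6 := abs_B_le hlx.le (hl1 x) (sq (n x)) (sq (m x))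
      have h7 : ‖sq (n x)‖ * ‖sq (m x)‖ ≤ 1 / 2 * (1 / 2) :=
        mul_le_mul hn1 hm1 (norm_nonneg _) (by norm_num)
      have h8 : |B (l x) (sq (n x)) (sq (m x))| ≤ 1 / 2 := by linarith
      rw [abs_div, abs_neg, abs_of_pos (by positivity :
        0 < 2 * B (l x) (H x) (od (n x) (m x))), div_le_div_iff₀ (by positivity) hlx]
      nlinarith
    · rw [abs_div, abs_of_pos hlx, abs_of_pos (by positivity :
        0 < 8 * B (l x) (H x) (od (n x) (m x))), div_le_div_iff₀ (by positivity) hlx]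
      nlinarith [hl1 x]

end

end Pool.Agent.R747.Mil
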