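import Mathlib
import Pool.Agent.TH365.J1811

/-!
Principal curvatures of entire graphs.
-/

open Set Filter Topology
open scoped ContDiff RealInnerProductSpace

namespace Pool.Agent.R747.MilG

noncomputable section

open Pool.Agent.TH168.Mil (E3 IsPC IsCompleteSurf DivPathsInf pathLen)

/-- The graph of `F`. -/
def gph (F : ℝ × ℝ → ℝ) (P : ℝ × ℝ) : E3 := !₂[P.1, P.2, F P]

/-- The partial derivatives. -/
def px (F : ℝ × ℝ → ℝ) (P : ℝ × ℝ) : ℝ := fderiv ℝ F P (1, 0)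
def py (F : ℝ × ℝ → ℝ) (P : ℝ × ℝ) : ℝ := fderiv ℝ F P (0, 1)

/-- The area element. -/
def ww (F : ℝ × ℝ → ℝ) (P : ℝ × ℝ) : ℝ := √(1 + px F P ^ 2 + py F P ^ 2)

/-- The upward unit normal. -/
def nrm (F : ℝ × ℝ → ℝ) (P : ℝ × ℝ) : E3 := (ww F P)⁻¹ • !₂[-px F P, -py F P, 1]

variable {F : ℝ × ℝ → ℝ}

lemma fderiv_eq (F : ℝ × ℝ → ℝ) (P v : ℝ × ℝ) : fderiv ℝ F P v = v.1 * px F P + v.2 * py F P := by
  have h : v = v.1 • ((1, 0) : ℝ × ℝ) + v.2 • ((0, 1) : ℝ × ℝ) := by ext <;> simp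
  conv_lhs => rw [h]
  rw [map_add, map_smul, map_smul]
  rfl

lemma smooth_px (hF : ContDiff ℝ ∞ F) : ContDiff ℝ ∞ (px F) :=
  (hF.fderiv_right (by exact_mod_cast le_top)).clm_apply contDiff_const

lemma smooth_py (hF : ContDiff ℝ ∞ F) : ContDiff ℝ ∞ (py F) :=
  (hF.fderiv_right (by exact_mod_cast le_top)).clm_apply contDiff_const

lemma ww_pos (F : ℝ × ℝ → ℝ) (P : ℝ × ℝ) : 0 < ww F P := Real.sqrt_pos.2 (by positivity)

lemma ww_sq (F : ℝ × ℝ → ℝ) (P : ℝ × ℝ) : ww F P ^ 2 = 1 + px F P ^ 2 + py F P ^ 2 :=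
  Real.sq_sqrt (by positivity)

lemma smooth_gph (hF : ContDiff ℝ ∞ F) : ContDiff ℝ ∞ (gph F) := by
  rw [contDiff_euclidean]
  intro i
  fin_cases i
  · exact contDiff_fst
  · exact contDiff_snd
  · exact hF

lemma smooth_nrm (hF : ContDiff ℝ ∞ F) : ContDiff ℝ ∞ (nrm F) := by
  have hw : ContDiff ℝ ∞ (ww F) := by
    unfold ww
    refine ContDiff.sqrt ((contDiff_const.add ((smooth_px hF).pow 2)).add ((smooth_py hF).pow 2))
      fun P => ?_
    positivity
  have hY : ContDiff ℝ ∞ (fun P : ℝ × ℝ => (!₂[-px F P, -py F P, 1] : E3)) := by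
    rw [contDiff_euclidean]
    intro i
    fin_cases i
    · exact (smooth_px hF).neg
    · exact (smooth_py hF).neg
    · exact contDiff_const
  exact (hw.inv fun P => (ww_pos F P).ne').smul hY

lemma gph_injective (F : ℝ × ℝ → ℝ) : Function.Injective (gph F) := by
  intro P Q h
  have h0 := congrArg (fun x : E3 => x 0) h
  have h1 := congrArg (fun x : E3 => x 1) h
  simp only [gph] at h0 h1
  exact Prod.ext (by simpa using h0) (by simpa using h1)

lemma fderiv_gph (hF : ContDiff ℝ ∞ F) (P v : ℝ × ℝ) :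
    fderiv ℝ (gph F) P v = !₂[v.1, v.2, v.1 * px F P + v.2 * py F P] := by
  have hd : DifferentiableAt ℝ (gph F) P := (smooth_gph hF).differentiable (by simp) P
  have hFd : DifferentiableAt ℝ F P := hF.differentiable (by simp) P
  have key : ∀ i : Fin 3, (fderiv ℝ (gph F) P v) i = fderiv ℝ (fun Q => gph F Q i) P v := by
    intro i
    have h1 : HasFDerivAt (fun Q => gph F Q i)
        ((EuclideanSpace.proj i : E3 →L[ℝ] ℝ).comp (fderiv ℝ (gph F) P)) P :=
      (EuclideanSpace.proj i : E3 →L[ℝ] ℝ).hasFDerivAt.comp P hd.hasFDerivAt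
    rw [h1.fderiv]
    rfl
  ext i
  rw [key i]
  fin_cases i
  · have : (fun Q : ℝ × ℝ => gph F Q 0) = Prod.fst := by funext Q; simp [gph]
    simp only [Fin.zero_eta, this, fderiv_fst]
    simp
  · have : (fun Q : ℝ × ℝ => gph F Q 1) = Prod.snd := by funext Q; simp [gph]
    simp only [Fin.mk_one, this, fderiv_snd]
    simp
  · have : (fun Q : ℝ × ℝ => gph F Q 2) = F := by funext Q; simp [gph]
    simp only [Fin.reduceFinMk, this, fderiv_eq F P v]
    simp

lemma fderiv_gph_injective (hF : ContDiff ℝ ∞ F) (P : ℝ × ℝ) :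
    Function.Injective (fderiv ℝ (gph F) P) := by
  intro v w h
  rw [fderiv_gph hF, fderiv_gph hF] at h
  have h0 := congrArg (fun x : E3 => x 0) h
  have h1 := congrArg (fun x : E3 => x 1) h
  exact Prod.ext (by simpa using h0) (by simpa using h1)

lemma norm_nrm (F : ℝ × ℝ → ℝ) (P : ℝ × ℝ) : ‖nrm F P‖ = 1 := by
  have hw := ww_pos F P
  rw [nrm, norm_smul, norm_inv, Real.norm_of_nonneg hw.le, EuclideanSpace.norm_eq]
  simp only [Fin.sum_univ_three]
  have : (√(‖(!₂[-px F P, -py F P, 1] : E3) 0‖ ^ 2 + ‖(!₂[-px F P, -py F P, 1] : E3) 1‖ ^ 2 +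
      ‖(!₂[-px F P, -py F P, 1] : E3) 2‖ ^ 2)) = ww F P := by
    unfold ww
    congr 1
    simp
    ring
  rw [this, inv_mul_cancel₀ hw.ne']

lemma inner_nrm (hF : ContDiff ℝ ∞ F) (P v : ℝ × ℝ) : ⟪nrm F P, fderiv ℝ (gph F) P v⟫ = 0 := by
  rw [fderiv_gph hF, nrm, inner_smul_left]
  simp [PiLp.inner_apply, Fin.sum_univ_three]
  right
  ring

lemma gph_proper (F : ℝ × ℝ → ℝ) : Tendsto (gph F) (cocompact (ℝ × ℝ)) (cocompact E3) := by
  rw [← Metric.cobounded_eq_cocompact (α := E3), ← tendsto_norm_atTop_iff_cobounded]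
  refine tendsto_atTop_mono ?_ (tendsto_norm_cocompact_atTop (E := ℝ × ℝ))
  intro P
  rw [Prod.norm_def, max_le_iff]
  constructor
  · have := PiLp.norm_apply_le (gph F P) 0
    simpa [gph] using this
  · have := PiLp.norm_apply_le (gph F P) 1
    simpa [gph] using this

/-- The derivative of the normal. -/
lemma fderiv_nrm (hF : ContDiff ℝ ∞ F) (P v : ℝ × ℝ) {a b : ℝ}
    (ha : fderiv ℝ (px F) P v = a) (hb : fderiv ℝ (py F) P v = b) :
    fderiv ℝ (nrm F) P v = ((ww F P) ^ 3)⁻¹ •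
      !₂[-(ww F P ^ 2 * a) + px F P * (px F P * a + py F P * b),
        -(ww F P ^ 2 * b) + py F P * (px F P * a + py F P * b),
        -(px F P * a + py F P * b)] := by
  have hw := ww_pos F P
  have hpd : HasFDerivAt (px F) (fderiv ℝ (px F) P) P :=
    ((smooth_px hF).differentiable (by simp) P).hasFDerivAt
  have hqd : HasFDerivAt (py F) (fderiv ℝ (py F) P) P :=
    ((smooth_py hF).differentiable (by simp) P).hasFDerivAt
  set c : ℝ × ℝ →L[ℝ] ℝ := px F P • fderiv ℝ (px F) P + py F P • fderiv ℝ (py F) P with hc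
  have hrad : HasFDerivAt (fun Q => 1 + px F Q ^ 2 + py F Q ^ 2) ((2 : ℝ) • c) P := by
    have h1 := ((hpd.pow 2).const_add 1).add (hqd.pow 2)
    refine h1.congr_fderiv ?_
    ext <;> simp [hc] <;> ring
  have hwd : HasFDerivAt (ww F) ((ww F P)⁻¹ • c) P := by
    have h1 := hrad.sqrt (by positivity : (1 + px F P ^ 2 + py F P ^ 2) ≠ 0)
    refine h1.congr_fderiv ?_
    rw [smul_smul]
    congr 1
    change 1 / (2 * ww F P) * 2 = (ww F P)⁻¹
    field_simp
  have hwi : HasFDerivAt (fun Q => (ww F Q)⁻¹) (-((ww F P) ^ 3)⁻¹ • c) P := by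
    have h1 := (hasDerivAt_inv hw.ne').comp_hasFDerivAt P hwd
    refine h1.congr_fderiv ?_
    rw [smul_smul]
    congr 1
    field_simp
  have key : ∀ (g : ℝ × ℝ → ℝ) (g' : ℝ × ℝ →L[ℝ] ℝ), HasFDerivAt g g' P →
      fderiv ℝ (fun Q => (ww F Q)⁻¹ * g Q) P v =
        ((ww F P) ^ 3)⁻¹ * (ww F P ^ 2 * g' v - (px F P * a + py F P * b) * g P) := by
    intro g g' hg
    have h1 : HasFDerivAt (fun Q => (ww F Q)⁻¹ * g Q) _ P := hwi.mul hg
    rw [h1.fderiv]
    simp only [add_apply, smul_apply, smul_eq_mul, hc,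
      ha, hb]
    field_simp
    ring
  have hnd : DifferentiableAt ℝ (nrm F) P := (smooth_nrm hF).differentiable (by simp) P
  have key2 : ∀ i : Fin 3, (fderiv ℝ (nrm F) P v) i = fderiv ℝ (fun Q => nrm F Q i) P v := by
    intro i
    have h1 : HasFDerivAt (fun Q => nrm F Q i)
        ((EuclideanSpace.proj i : E3 →L[ℝ] ℝ).comp (fderiv ℝ (nrm F) P)) P :=
      (EuclideanSpace.proj i : E3 →L[ℝ] ℝ).hasFDerivAt.comp P hnd.hasFDerivAt
    rw [h1.fderiv]
    rfl
  ext i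
  rw [key2 i]
  fin_cases i
  · have : (fun Q : ℝ × ℝ => nrm F Q 0) = fun Q => (ww F Q)⁻¹ * (-px F Q) := by
      funext Q; simp [nrm]
    simp only [Fin.zero_eta, this]
    rw [key (fun Q => -px F Q) (-fderiv ℝ (px F) P) hpd.neg]
    simp [ha]
    left
    ring
  · have : (fun Q : ℝ × ℝ => nrm F Q 1) = fun Q => (ww F Q)⁻¹ * (-py F Q) := by
      funext Q; simp [nrm]
    simp only [Fin.mk_one, this]
    rw [key (fun Q => -py F Q) (-fderiv ℝ (py F) P) hqd.neg]
    simp [hb]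
    left
    ring
  · have : (fun Q : ℝ × ℝ => nrm F Q 2) = fun Q => (ww F Q)⁻¹ * 1 := by
      funext Q; simp [nrm]
    simp only [Fin.reduceFinMk, this]
    rw [key _ _ (hasFDerivAt_const (1 : ℝ) P)]
    simp

lemma exists_kernel {α β γ δ : ℝ} (h : α * δ - β * γ = 0) :
    ∃ v : ℝ × ℝ, v ≠ 0 ∧ α * v.1 + β * v.2 = 0 ∧ γ * v.1 + δ * v.2 = 0 := by
  by_cases h1 : α = 0 ∧ β = 0
  · obtain ⟨rfl, rfl⟩ := h1
    by_cases h2 : γ = 0 ∧ δ = 0
    · obtain ⟨rfl, rfl⟩ := h2
      exact ⟨(1, 0), by simp, by simp, by simp⟩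
    · refine ⟨(-δ, γ), ?_, by simp, by ring⟩
      intro h3
      rw [Prod.mk_eq_zero] at h3
      exact h2 ⟨h3.2, by linarith [h3.1]⟩
  · refine ⟨(-β, α), ?_, by ring, by simp only; linarith⟩
    intro h3
    rw [Prod.mk_eq_zero] at h3
    exact h1 ⟨h3.2, by linarith [h3.1]⟩

/-- The principal curvatures of a graph are the roots of a quadratic equation. -/
lemma isPC_iff (hF : ContDiff ℝ ∞ F) (P : ℝ × ℝ) {r s t : ℝ}
    (hp : ∀ v : ℝ × ℝ, fderiv ℝ (px F) P v = r * v.1 + s * v.2)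
    (hq : ∀ v : ℝ × ℝ, fderiv ℝ (py F) P v = s * v.1 + t * v.2) (k : ℝ) :
    IsPC (gph F) (nrm F) P k ↔
      (ww F P ^ 3 * k) ^ 2 - ((1 + py F P ^ 2) * r + (1 + px F P ^ 2) * t -
        2 * px F P * py F P * s) * (ww F P ^ 3 * k) - ww F P ^ 2 * (s ^ 2 - r * t) = 0 := by
  have hw := ww_pos F P
  have hw2 := ww_sq F P
  have hw3 : (ww F P) ^ 3 ≠ 0 := by positivity
  set w := ww F P with hwd
  set p := px F P with hpd
  set q := py F P with hqd
  -- the equation of Rodrigues in coordinates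
  have hrod : ∀ v : ℝ × ℝ, fderiv ℝ (nrm F) P v = -k • fderiv ℝ (gph F) P v ↔
      ((1 + q ^ 2) * r - p * q * s - w ^ 3 * k) * v.1 + ((1 + q ^ 2) * s - p * q * t) * v.2 = 0 ∧
      ((1 + p ^ 2) * s - p * q * r) * v.1 + ((1 + p ^ 2) * t - p * q * s - w ^ 3 * k) * v.2 = 0 := by
    intro v
    rw [fderiv_nrm hF P v (hp v) (hq v), fderiv_gph hF, ← hwd, ← hpd, ← hqd]
    constructor
    · intro h
      have h0 := congrArg (fun x : E3 => x 0) h
      have h1 := congrArg (fun x : E3 => x 1) h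
      simp at h0 h1
      field_simp at h0 h1
      constructor
      · linear_combination -h0 + (-(r * v.1 + s * v.2)) * hw2
      · linear_combination -h1 + (-(s * v.1 + t * v.2)) * hw2
    · rintro ⟨h0, h1⟩
      ext i
      fin_cases i
      · simp
        field_simp
        linear_combination -h0 + (-(r * v.1 + s * v.2)) * hw2
      · simp
        field_simp
        linear_combination -h1 + (-(s * v.1 + t * v.2)) * hw2
      · simp
        field_simp
        linear_combination -p * h0 - q * h1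
  constructor
  · rintro ⟨v, hv, h⟩
    obtain ⟨h0, h1⟩ := (hrod v).1 h
    set α := (1 + q ^ 2) * r - p * q * s - w ^ 3 * k with hα
    set β := (1 + q ^ 2) * s - p * q * t with hβ
    set γ := (1 + p ^ 2) * s - p * q * r with hγ
    set δ := (1 + p ^ 2) * t - p * q * s - w ^ 3 * k with hδ
    have hdet : α * δ - β * γ = 0 := by
      by_contra hne
      apply hv
      have e1 : (α * δ - β * γ) * v.1 = 0 := by linear_combination δ * h0 - β * h1
      have e2 : (α * δ - β * γ) * v.2 = 0 := by linear_combination α * h1 - γ * h0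
      exact Prod.ext ((mul_eq_zero.1 e1).resolve_left hne) ((mul_eq_zero.1 e2).resolve_left hne)
    rw [hα, hβ, hγ, hδ] at hdet
    linear_combination hdet - (s ^ 2 - r * t) * hw2
  · intro h
    have hdet : ((1 + q ^ 2) * r - p * q * s - w ^ 3 * k) *
        ((1 + p ^ 2) * t - p * q * s - w ^ 3 * k) -
        ((1 + q ^ 2) * s - p * q * t) * ((1 + p ^ 2) * s - p * q * r) = 0 := by
      linear_combination h + (s ^ 2 - r * t) * hw2
    obtain ⟨v, hv, h0, h1⟩ := exists_kernel hdet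
    exact ⟨v, hv, (hrod v).2 ⟨h0, h1⟩⟩

/-- **The principal curvatures of a saddle graph.** -/
theorem curvatures (hF : ContDiff ℝ ∞ F) (P : ℝ × ℝ) {r s t : ℝ}
    (hp : ∀ v : ℝ × ℝ, fderiv ℝ (px F) P v = r * v.1 + s * v.2)
    (hq : ∀ v : ℝ × ℝ, fderiv ℝ (py F) P v = s * v.1 + t * v.2)
    (hD : 0 < s ^ 2 - r * t) : ∃ k₁ k₂ : ℝ,
      (∀ k : ℝ, IsPC (gph F) (nrm F) P k ↔ k = k₁ ∨ k = k₂) ∧ k₁ < 0 ∧ 0 < k₂ ∧
      (r - t) ^ 2 + 4 * s ^ 2 ≤ (ww F P ^ 3 * (|k₁| + |k₂|)) ^ 2 := by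
  have hw := ww_pos F P
  have hw2 := ww_sq F P
  have hiff := isPC_iff hF P hp hq
  set w := ww F P with hwd
  set p := px F P with hpd
  set q := py F P with hqd
  set T : ℝ := (1 + q ^ 2) * r + (1 + p ^ 2) * t - 2 * p * q * s with hT
  set D : ℝ := s ^ 2 - r * t with hDd
  have hw3 : 0 < w ^ 3 := by positivity
  have hrad : 0 < T ^ 2 + 4 * w ^ 2 * D := by positivity
  set R : ℝ := √(T ^ 2 + 4 * w ^ 2 * D) with hR
  have hR2 : R ^ 2 = T ^ 2 + 4 * w ^ 2 * D := Real.sq_sqrt hrad.le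
  have hR0 : 0 < R := Real.sqrt_pos.2 hrad
  have hTR : |T| < R := by
    apply abs_lt_of_sq_lt_sq _ hR0.le
    rw [hR2]
    have : 0 < 4 * w ^ 2 * D := by positivity
    linarith
  rw [abs_lt] at hTR
  refine ⟨(T - R) / (2 * w ^ 3), (T + R) / (2 * w ^ 3), ?_, ?_, ?_, ?_⟩
  · intro k
    rw [hiff k]
    have e : (w ^ 3 * k) ^ 2 - T * (w ^ 3 * k) - w ^ 2 * D =
        (w ^ 3 * k - (T - R) / 2) * (w ^ 3 * k - (T + R) / 2) := by
      linear_combination (1 / 4 : ℝ) * hR2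
    rw [e, mul_eq_zero, sub_eq_zero, sub_eq_zero]
    constructor
    · rintro (h | h)
      · left; rw [eq_div_iff (by positivity)]; linarith
      · right; rw [eq_div_iff (by positivity)]; linarith
    · rintro (h | h)
      · left; rw [h]; field_simp
      · right; rw [h]; field_simp
  · exact div_neg_of_neg_of_pos (by linarith) (by positivity)
  · exact div_pos (by linarith) (by positivity)
  · rw [abs_of_neg (div_neg_of_neg_of_pos (by linarith) (by positivity)),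
      abs_of_pos (div_pos (by linarith) (by positivity))]
    have e : w ^ 3 * (-((T - R) / (2 * w ^ 3)) + (T + R) / (2 * w ^ 3)) = R := by
      field_simp
      ring
    rw [e, hR2, hw2]
    have key : T ^ 2 + 4 * (1 + p ^ 2 + q ^ 2) * D = (r - t) ^ 2 + 4 * s ^ 2 +
        ((p ^ 2 * t + q ^ 2 * r - 2 * p * q * s) ^ 2 +
          2 * ((r * q - s * p) ^ 2 + (s * q - t * p) ^ 2) + 2 * (p ^ 2 + q ^ 2) * D) := by
      rw [hT, hDd]
      ring
    rw [key]
    have : 0 ≤ 2 * (p ^ 2 + q ^ 2) * D := by positivity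
    have h2 : 0 ≤ (p ^ 2 * t + q ^ 2 * r - 2 * p * q * s) ^ 2 := sq_nonneg _
    have h3 : 0 ≤ (r * q - s * p) ^ 2 + (s * q - t * p) ^ 2 := by positivity
    linarith

end

end Pool.Agent.R747.MilG
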