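import Mathlib
import Pool.Agent.R747.MilCor

/-!
A partition of unity by the squares of a fine grid.
-/

open Complex Set Filter Topology
open scoped ComplexConjugate ContDiff

namespace Pool.Agent.R747.Mil

noncomputable section

/-- The one variable bump. -/
def th (t : ℝ) : ℝ := Real.sin (Real.pi / 2 * Real.smoothTransition (1 + t)) *
  Real.cos (Real.pi / 2 * Real.smoothTransition t)

lemma smooth_th : ContDiff ℝ ∞ th :=
  (Real.contDiff_sin.comp (contDiff_const.mul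
    (Real.smoothTransition.contDiff.comp (contDiff_const.add contDiff_id)))).mul
  (Real.contDiff_cos.comp (contDiff_const.mul Real.smoothTransition.contDiff))

lemma th_nonneg (t : ℝ) : 0 ≤ th t := by
  have hp := Real.pi_pos
  refine mul_nonneg (Real.sin_nonneg_of_nonneg_of_le_pi ?_ ?_)
    (Real.cos_nonneg_of_neg_pi_div_two_le_of_le ?_ ?_)
  · have := Real.smoothTransition.nonneg (1 + t)
    positivity
  · have := Real.smoothTransition.le_one (1 + t)
    nlinarith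
  · have := Real.smoothTransition.nonneg t
    have : 0 ≤ Real.pi / 2 * Real.smoothTransition t := by positivity
    linarith
  · have := Real.smoothTransition.le_one t
    nlinarith

lemma th_ne {t : ℝ} (h : th t ≠ 0) : |t| < 1 := by
  rw [abs_lt]
  by_contra hc
  rw [not_and_or, not_lt, not_lt] at hc
  apply h
  rcases hc with hc | hc
  · rw [th, Real.smoothTransition.zero_of_nonpos (by linarith : 1 + t ≤ 0)]
    simp
  · rw [th, Real.smoothTransition.one_of_one_le hc]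
    simp

lemma th_sq {t : ℝ} (h0 : 0 ≤ t) (h1 : t ≤ 1) : th t ^ 2 + th (t - 1) ^ 2 = 1 := by
  have e1 : th t = Real.cos (Real.pi / 2 * Real.smoothTransition t) := by
    rw [th, Real.smoothTransition.one_of_one_le (by linarith : (1 : ℝ) ≤ 1 + t)]
    simp
  have e2 : th (t - 1) = Real.sin (Real.pi / 2 * Real.smoothTransition t) := by
    rw [th, Real.smoothTransition.zero_of_nonpos (by linarith : t - 1 ≤ 0)]
    simp
  rw [e1, e2]
  exact Real.cos_sq_add_sin_sq _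

/-- The bump of the square of index `p`. -/
def chi (r : ℝ) (p : ℤ × ℤ) (x : ℂ) : ℝ := th (x.re / r - p.1) * th (x.im / r - p.2)

/-- The centre of the square of index `p`. -/
def ctr (r : ℝ) (p : ℤ × ℤ) : ℂ := ⟨r * p.1, r * p.2⟩

/-- The colour of the square of index `p`. -/
def clr (p : ℤ × ℤ) : ℝ := ((1 + p.1 % 2 + 2 * (p.2 % 2) : ℤ) : ℝ)

lemma smooth_chi (r : ℝ) (p : ℤ × ℤ) : ContDiff ℝ ∞ (chi r p) :=
  (smooth_th.comp ((Complex.reCLM.contDiff.div_const r).sub contDiff_const)).mul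
    (smooth_th.comp ((Complex.imCLM.contDiff.div_const r).sub contDiff_const))

lemma chi_nonneg (r : ℝ) (p : ℤ × ℤ) (x : ℂ) : 0 ≤ chi r p x :=
  mul_nonneg (th_nonneg _) (th_nonneg _)

lemma chi_ne {r : ℝ} {p : ℤ × ℤ} {x : ℂ} (h : chi r p x ≠ 0) :
    |x.re / r - p.1| < 1 ∧ |x.im / r - p.2| < 1 :=
  ⟨th_ne (left_ne_zero_of_mul h), th_ne (right_ne_zero_of_mul h)⟩

lemma norm_sub_ctr {r : ℝ} (hr : 0 < r) {p : ℤ × ℤ} {x : ℂ} (h : chi r p x ≠ 0) :
    ‖x - ctr r p‖ ≤ 2 * r := by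
  obtain ⟨h1, h2⟩ := chi_ne h
  refine (Complex.norm_le_abs_re_add_abs_im _).trans ?_
  have e1 : (x - ctr r p).re = r * (x.re / r - p.1) := by
    simp [ctr]; field_simp
  have e2 : (x - ctr r p).im = r * (x.im / r - p.2) := by
    simp [ctr]; field_simp
  rw [e1, e2, abs_mul, abs_mul, abs_of_pos hr]
  have a1 := mul_le_mul_of_nonneg_left h1.le hr.le
  have a2 := mul_le_mul_of_nonneg_left h2.le hr.le
  linarith

lemma compact_chi {r : ℝ} (hr : 0 < r) (p : ℤ × ℤ) : HasCompactSupport (chi r p) := by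
  refine HasCompactSupport.of_support_subset_isCompact
    (isCompact_closedBall (ctr r p) (2 * r)) ?_
  intro x hx
  rw [Metric.mem_closedBall, dist_eq_norm]
  exact norm_sub_ctr hr hx

/-- The four squares around `x`. -/
def four (r : ℝ) (x : ℂ) : Finset (ℤ × ℤ) :=
  {⌊x.re / r⌋, ⌊x.re / r⌋ + 1} ×ˢ {⌊x.im / r⌋, ⌊x.im / r⌋ + 1}

lemma int_near {t : ℝ} {i : ℤ} (h : |t - i| < 1) : i = ⌊t⌋ ∨ i = ⌊t⌋ + 1 := by
  rw [abs_lt] at h
  have h1 := Int.floor_le t
  have h2 := Int.lt_floor_add_one t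
  have h3 : (i : ℝ) < ((⌊t⌋ + 2 : ℤ) : ℝ) := by push_cast; linarith [h.1]
  have h4 : ((⌊t⌋ - 1 : ℤ) : ℝ) < (i : ℝ) := by push_cast; linarith [h.2]
  rw [Int.cast_lt] at h3 h4
  omega

lemma mem_four {r : ℝ} {p : ℤ × ℤ} {x : ℂ} (h : chi r p x ≠ 0) : p ∈ four r x := by
  obtain ⟨h1, h2⟩ := chi_ne h
  rw [four, Finset.mem_product, Finset.mem_insert, Finset.mem_singleton, Finset.mem_insert,
    Finset.mem_singleton]
  exact ⟨int_near h1, int_near h2⟩

lemma sum_four (r : ℝ) (x : ℂ) : ∑ p ∈ four r x, chi r p x ^ 2 = 1 := by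
  have hne : ∀ t : ℝ, ⌊t⌋ ≠ ⌊t⌋ + 1 := fun t => by omega
  have key : ∀ t : ℝ, ∑ i ∈ ({⌊t⌋, ⌊t⌋ + 1} : Finset ℤ), th (t - i) ^ 2 = 1 := by
    intro t
    rw [Finset.sum_pair (hne t)]
    have h1 := Int.floor_le t
    have h2 := Int.lt_floor_add_one t
    have := th_sq (t := t - ⌊t⌋) (by linarith) (by linarith)
    push_cast
    rw [show t - (⌊t⌋ + 1) = t - ⌊t⌋ - 1 by ring]
    exact this
  rw [four, Finset.sum_product]
  simp only [chi, mul_pow]
  simp only [← Finset.mul_sum, key, mul_one]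

lemma clr_one (p : ℤ × ℤ) : 1 ≤ clr p := by
  unfold clr
  exact_mod_cast (by omega : (1 : ℤ) ≤ 1 + p.1 % 2 + 2 * (p.2 % 2))

lemma clr_four (p : ℤ × ℤ) : clr p ≤ 4 := by
  unfold clr
  exact_mod_cast (by omega : 1 + p.1 % 2 + 2 * (p.2 % 2) ≤ (4 : ℤ))

lemma clr_int {p p' : ℤ × ℤ} (h : clr p ≠ clr p') : 1 ≤ |clr p - clr p'| := by
  unfold clr at h ⊢
  have h1 : (1 + p.1 % 2 + 2 * (p.2 % 2) : ℤ) - (1 + p'.1 % 2 + 2 * (p'.2 % 2)) ≠ 0 := by
    intro h0
    apply h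
    exact_mod_cast sub_eq_zero.1 h0
  have h2 := Int.one_le_abs h1
  exact_mod_cast h2

lemma clr_inj {r : ℝ} {p p' : ℤ × ℤ} {x : ℂ} (h : chi r p x ≠ 0) (h' : chi r p' x ≠ 0)
    (hc : clr p = clr p') : p = p' := by
  have m1 := mem_four h
  have m2 := mem_four h'
  rw [four, Finset.mem_product, Finset.mem_insert, Finset.mem_singleton, Finset.mem_insert,
    Finset.mem_singleton] at m1 m2
  unfold clr at hc
  have h3 : (1 + p.1 % 2 + 2 * (p.2 % 2) : ℤ) = 1 + p'.1 % 2 + 2 * (p'.2 % 2) := by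
    exact_mod_cast hc
  ext
  · omega
  · omega

lemma sum_sub_four {r : ℝ} (J : Finset (ℤ × ℤ)) (x : ℂ) (k : ℕ) (hk : k ≠ 0) :
    ∑ j : J, chi r j.1 x ^ k = ∑ j ∈ J ∩ four r x, chi r j x ^ k := by
  rw [Finset.sum_coe_sort J (fun j => chi r j x ^ k)]
  symm
  refine Finset.sum_subset Finset.inter_subset_left ?_
  intro j hj hj'
  by_contra hne
  apply hj'
  rw [Finset.mem_inter]
  refine ⟨hj, mem_four ?_⟩
  intro h0
  apply hne
  rw [h0, zero_pow hk]

lemma card_four (r : ℝ) (x : ℂ) : (four r x).card ≤ 4 := by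
  rw [four, Finset.card_product]
  have h1 : ∀ t : ℝ, ({⌊t⌋, ⌊t⌋ + 1} : Finset ℤ).card ≤ 2 := fun t => Finset.card_le_two
  exact Nat.mul_le_mul (h1 _) (h1 _)

theorem exists_grid {r R : ℝ} (hr : 0 < r) {Y : Set ℂ} (hY : ∀ y ∈ Y, ‖y‖ ≤ R) :
    ∃ (J : Finset (ℤ × ℤ)) (χ : J → ℂ → ℝ) (col : J → ℝ) (y : J → ℂ), Bumps χ col ∧
      (∀ x ∈ Y, ∑ j, χ j x ^ 2 = 1) ∧ ∀ j, y j ∈ Y ∧ ∀ x, χ j x ≠ 0 → ‖x - y j‖ ≤ r := by
  classical
  set r' : ℝ := r / 4 with hr'
  have hr0 : 0 < r' := by positivity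
  have hfin : {p : ℤ × ℤ | ∃ y ∈ Y, ‖y - ctr r' p‖ ≤ 2 * r'}.Finite := by
    refine (Set.finite_Icc ((-⌈R / r' + 2⌉, -⌈R / r' + 2⌉) : ℤ × ℤ)
      (⌈R / r' + 2⌉, ⌈R / r' + 2⌉)).subset ?_
    rintro p ⟨y, hy, hp⟩
    have h1 : ‖ctr r' p‖ ≤ R + 2 * r' := by
      have : ctr r' p = y - (y - ctr r' p) := by ring
      rw [this]
      exact (norm_sub_le _ _).trans (add_le_add (hY y hy) hp)
    have h2 : |(p.1 : ℝ)| ≤ R / r' + 2 := by
      have h3 := (Complex.abs_re_le_norm (ctr r' p)).trans h1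
      simp only [ctr] at h3
      rw [abs_mul, abs_of_pos hr0] at h3
      rw [← sub_le_iff_le_add, le_div_iff₀ hr0]
      linarith
    have h2' : |(p.2 : ℝ)| ≤ R / r' + 2 := by
      have h3 := (Complex.abs_im_le_norm (ctr r' p)).trans h1
      simp only [ctr] at h3
      rw [abs_mul, abs_of_pos hr0] at h3
      rw [← sub_le_iff_le_add, le_div_iff₀ hr0]
      linarith
    have h4 : ∀ i : ℤ, |(i : ℝ)| ≤ R / r' + 2 → -⌈R / r' + 2⌉ ≤ i ∧ i ≤ ⌈R / r' + 2⌉ := by
      intro i hi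
      have h5 : |(i : ℝ)| ≤ ((⌈R / r' + 2⌉ : ℤ) : ℝ) := hi.trans (Int.le_ceil _)
      rw [abs_le] at h5
      exact ⟨by exact_mod_cast h5.1, by exact_mod_cast h5.2⟩
    obtain ⟨a1, a2⟩ := h4 p.1 h2
    obtain ⟨b1, b2⟩ := h4 p.2 h2'
    exact ⟨⟨a1, b1⟩, ⟨a2, b2⟩⟩
  set J : Finset (ℤ × ℤ) := hfin.toFinset with hJ
  have hmem : ∀ j : J, ∃ y ∈ Y, ‖y - ctr r' j.1‖ ≤ 2 * r' := by
    intro j
    exact hfin.mem_toFinset.1 j.2
  choose y hyY hy using hmem
  have hle : ∀ x, ∑ j ∈ J ∩ four r' x, chi r' j x ^ 2 ≤ 1 := by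
    intro x
    rw [← sum_four r' x]
    exact Finset.sum_le_sum_of_subset_of_nonneg Finset.inter_subset_right
      fun j _ _ => sq_nonneg _
  refine ⟨J, fun j => chi r' j.1, fun j => clr j.1, y, ?_, ?_, ?_⟩
  · refine ⟨fun j => smooth_chi r' j.1, fun j => compact_chi hr0 j.1,
      fun j x => chi_nonneg r' j.1 x, fun j => clr_one j.1, fun j => clr_four j.1,
      fun j k h => clr_int h, fun x j k hj hk hc => Subtype.ext (clr_inj hj hk hc), ?_, ?_⟩
    · intro x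
      rw [sum_sub_four J x 2 two_ne_zero]
      exact hle x
    · intro x
      rw [sum_sub_four J x 2 two_ne_zero]
      have h1 := sum_sub_four (r := r') J x 1 one_ne_zero
      simp only [pow_one] at h1
      rw [h1]
      refine (sq_sum_le_card_mul_sum_sq).trans ?_
      have h2 : ((J ∩ four r' x).card : ℝ) ≤ 4 := by
        exact_mod_cast (Finset.card_le_card Finset.inter_subset_right).trans (card_four r' x)
      exact mul_le_mul_of_nonneg_right h2 (Finset.sum_nonneg fun j _ => sq_nonneg _)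
  · intro x hx
    rw [sum_sub_four J x 2 two_ne_zero, ← sum_four r' x]
    refine Finset.sum_subset Finset.inter_subset_right ?_
    intro j hj hj'
    by_contra hne
    have hne' : chi r' j x ≠ 0 := by
      intro h0; apply hne; rw [h0]; norm_num
    apply hj'
    rw [Finset.mem_inter]
    refine ⟨?_, hj⟩
    rw [hJ, Set.Finite.mem_toFinset]
    exact ⟨x, hx, norm_sub_ctr hr0 hne'⟩
  · intro j
    refine ⟨hyY j, fun x hx => ?_⟩
    have h1 := norm_sub_ctr hr0 hx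
    have h2 := hy j
    have e : x - y j = (x - ctr r' j.1) - (y j - ctr r' j.1) := by ring
    rw [e]
    refine (norm_sub_le _ _).trans ?_
    linarith

end

end Pool.Agent.R747.Mil
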