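import Mathlib
import Pool.Agent.R747.MilGrid
import Pool.Agent.R747.MilDir

/-!
One stage of the construction.
-/

open Complex Set Filter Topology
open scoped ComplexConjugate ContDiff

namespace Pool.Agent.R747.Mil

noncomputable section

lemma continuous_hs {f : ℂ → ℝ} (hf : ContDiff ℝ ∞ f) : Continuous (hs f) := by
  have h : ∀ v w, Continuous (d1 v (d1 w f)) := fun v w => (smooth_d1 (smooth_d1 hf w) v).continuous
  unfold hs
  exact (((h 1 1).add (h I I)).div_const 2).prodMk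
    ((continuous_ofReal.comp (((h 1 1).sub (h I I)).div_const 2)).add
      ((continuous_ofReal.comp (h 1 I)).mul continuous_const))

lemma d1_congr {f g : ℂ → ℝ} {x : ℂ} (h : f =ᶠ[𝓝 x] g) (v : ℂ) : d1 v f =ᶠ[𝓝 x] d1 v g := by
  filter_upwards [h.fderiv (𝕜 := ℝ)] with y hy
  simp [d1, hy]

lemma hs_congr {f g : ℂ → ℝ} {x : ℂ} (h : f =ᶠ[𝓝 x] g) : hs f x = hs g x := by
  have e : ∀ v w, d1 v (d1 w f) x = d1 v (d1 w g) x := fun v w =>
    (d1_congr (d1_congr h w) v).eq_of_nhds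
  simp only [hs, e]

/-- Uniform continuity on a compact set, in the form used below. -/
lemma unif_cont {E : Type*} [SeminormedAddCommGroup E] {K : Set ℂ} (hK : IsCompact K) {n : ℂ → E}
    (hn : Continuous n) {δ : ℝ} (hδ : 0 < δ) :
    ∃ r > 0, ∀ x ∈ K, ∀ y ∈ K, ‖x - y‖ ≤ r → ‖n x - n y‖ ≤ δ := by
  have h := hK.uniformContinuousOn_of_continuous hn.continuousOn
  rw [Metric.uniformContinuousOn_iff] at h
  obtain ⟨r, hr, h⟩ := h δ hδ
  refine ⟨r / 2, by positivity, fun x hx y hy hxy => ?_⟩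
  have := h x hx y hy (by rw [dist_eq_norm]; linarith)
  rw [dist_eq_norm] at this
  exact this.le

lemma young {a b s : ℝ} (hs : 0 < s) : (a + b) ^ 2 ≤ (1 + s) * a ^ 2 + (1 + 1 / s) * b ^ 2 := by
  have h : 0 ≤ (√s * a - √(1 / s) * b) ^ 2 := sq_nonneg _
  have h1 : √s ^ 2 = s := Real.sq_sqrt hs.le
  have h2 : √(1 / s) ^ 2 = 1 / s := Real.sq_sqrt (by positivity)
  have h3 : √s * √(1 / s) = 1 := by
    rw [← Real.sqrt_mul hs.le, mul_one_div_cancel hs.ne', Real.sqrt_one]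
  have h4 : (√s * a - √(1 / s) * b) ^ 2 = √s ^ 2 * a ^ 2 - 2 * (√s * √(1 / s)) * (a * b) +
    √(1 / s) ^ 2 * b ^ 2 := by ring
  rw [h4, h1, h2, h3] at h
  linarith

/-- The numerical choice of the size of the waves. -/
lemma choice {l0 : ℝ} (h0 : 0 < l0) (h1 : l0 ≤ 1) : ∃ e : ℝ, 0 < e ∧ e ≤ 1 ∧
    e ^ 2 * (2560 * (1 / l0)) ^ 2 * (16 / l0 + 1) ≤ l0 / 16 ∧
    16 * e * (2560 * (1 / l0)) + e ^ 2 * (2560 * (1 / l0)) ^ 2 ≤ l0 / 16 ∧
    2 * e + e ^ 2 * (2560 * (1 / l0)) ≤ 1 / 200 := by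
  refine ⟨l0 ^ 2 / 2000000, by positivity, by nlinarith, ?_, ?_, ?_⟩
  · have e1 : (l0 ^ 2 / 2000000) ^ 2 * (2560 * (1 / l0)) ^ 2 * (16 / l0 + 1) =
      (2560 / 2000000) ^ 2 * (16 * l0 + l0 ^ 2) := by field_simp
    rw [e1]
    nlinarith
  · have e1 : 16 * (l0 ^ 2 / 2000000) * (2560 * (1 / l0)) + (l0 ^ 2 / 2000000) ^ 2 *
      (2560 * (1 / l0)) ^ 2 = 16 * 2560 / 2000000 * l0 + (2560 / 2000000) ^ 2 * l0 ^ 2 := by
      field_simp
    rw [e1]
    nlinarith
  · have e1 : (l0 ^ 2 / 2000000) ^ 2 * (2560 * (1 / l0)) = 2560 / 2000000 ^ 2 * l0 ^ 3 := by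
      field_simp
    rw [e1]
    have h2 : l0 ^ 2 ≤ 1 := by nlinarith
    have h3 : l0 ^ 3 ≤ 1 := by
      calc l0 ^ 3 = l0 ^ 2 * l0 := by ring
        _ ≤ 1 * 1 := mul_le_mul h2 h1 h0.le zero_le_one
        _ = 1 := by norm_num
    linarith

/-- The outcome of a stage at a point reached by the waves. -/
lemma stage_point {l0 l e a b u v w c1 c2 E ε R : ℝ} {H D : ℝ × ℂ} {n m : ℂ}
    (hl0 : 0 < l0) (hl : l0 ≤ l) (hl1 : l ≤ 1) (he : 0 < e) (hE0 : 0 ≤ E) (hE1 : E ≤ 1)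
    (hn : ‖n‖ = 1) (hm : ‖m‖ = 1)
    (hHn : B l H (sq n) = 0) (hHm : B l H (sq m) = 0)
    (hc1 : 2 * c1 * B l H (od n m) = -B l (sq n) (sq m))
    (hc2 : 8 * c2 * B l H (od n m) = l)
    (ha : a ^ 2 ≤ 4 * E) (hb : b ^ 2 ≤ 4 * E)
    (hw : w = 2 * c1 * (a * b) + 2 * c2 * ((a ^ 2 - E / 2) * (b ^ 2 - E / 2)))
    (hK : ‖u • sq n + v • sq m + w • od n m‖ ≤ 2560 * (1 / l0) * E)
    (h1 : e ^ 2 * (2560 * (1 / l0)) ^ 2 * (16 / l0 + 1) ≤ l0 / 16)
    (h2 : 16 * e * (2560 * (1 / l0)) + e ^ 2 * (2560 * (1 / l0)) ^ 2 ≤ l0 / 16)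
    (h3 : 2 * e + e ^ 2 * (2560 * (1 / l0)) ≤ 1 / 200)
    (hD : ‖D - (e • (a • sq n + b • sq m) + e ^ 2 • (u • sq n + v • sq m + w • od n m))‖ ≤ ε)
    (hε : ε ≤ 1 / 200) (hR : ‖H‖ ≤ R) :
    ‖D‖ ≤ 1 / 100 ∧ q l H + e ^ 2 * l0 * E ^ 2 / 16 - 4 * (R + 2) * ε ≤ q l (H + D) := by
  set I0 : ℝ × ℂ := e • (a • sq n + b • sq m) + e ^ 2 • (u • sq n + v • sq m + w • od n m) with hI0
  have hK0 : 0 ≤ 2560 * (1 / l0) := by positivity
  have hid := ideal hl0 hl hl1 he hE0 hE1 hn hm hHn hHm hc1 hc2 ha hb hw hK hK0 h1 h2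
  rw [← hI0] at hid
  have hε0 : 0 ≤ ε := (norm_nonneg _).trans hD
  have hn1 : ‖sq n‖ ≤ 1 / 2 := by have := norm_sq_le n; rw [hn] at this; linarith
  have hm1 : ‖sq m‖ ≤ 1 / 2 := by have := norm_sq_le m; rw [hm] at this; linarith
  have ha2 : |a| ≤ 2 := by
    have : a ^ 2 ≤ 2 ^ 2 := by linarith
    exact abs_le_of_sq_le_sq this (by norm_num)
  have hb2 : |b| ≤ 2 := by
    have : b ^ 2 ≤ 2 ^ 2 := by linarith
    exact abs_le_of_sq_le_sq this (by norm_num)
  have hI : ‖I0‖ ≤ 1 / 200 := by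
    refine le_trans ?_ h3
    rw [hI0]
    refine (norm_add_le _ _).trans ?_
    rw [norm_smul, norm_smul, Real.norm_eq_abs, Real.norm_eq_abs, abs_of_pos he,
      abs_of_nonneg (by positivity : 0 ≤ e ^ 2)]
    have g1 : ‖a • sq n + b • sq m‖ ≤ 2 := by
      refine (norm_add_le _ _).trans ?_
      rw [norm_smul, norm_smul, Real.norm_eq_abs, Real.norm_eq_abs]
      have t1 := mul_le_mul ha2 hn1 (norm_nonneg _) (by norm_num)
      have t2 := mul_le_mul hb2 hm1 (norm_nonneg _) (by norm_num)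
      linarith
    have g2 : ‖u • sq n + v • sq m + w • od n m‖ ≤ 2560 * (1 / l0) := by
      refine hK.trans ?_
      exact mul_le_of_le_one_right hK0 hE1
    have t1 := mul_le_mul_of_nonneg_left g1 he.le
    have t2 := mul_le_mul_of_nonneg_left g2 (by positivity : 0 ≤ e ^ 2)
    linarith
  have hDI : D = I0 + (D - I0) := by abel
  constructor
  · rw [hDI]
    refine (norm_add_le _ _).trans ?_
    linarith
  · have e1 : H + D = (H + I0) + (D - I0) := by abel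
    rw [e1]
    have hl00 : 0 ≤ l := hl0.le.trans hl
    have h4 := (abs_le.1 (abs_q_sub_le hl00 hl1 (H + I0) (D - I0))).1
    have h5 : ‖H + I0‖ ≤ R + 1 := (norm_add_le _ _).trans (by linarith)
    have h6 : 4 * (‖H + I0‖ + ‖D - I0‖) * ‖D - I0‖ ≤ 4 * (R + 2) * ε := by
      have h7 : ‖H + I0‖ + ‖D - I0‖ ≤ R + 2 := by linarith
      have h8 : 0 ≤ ‖H + I0‖ + ‖D - I0‖ := by positivity
      have := mul_le_mul h7 hD (norm_nonneg _) (h8.trans h7)
      linarith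
    linarith

/-- The indefinite sign is preserved. -/
lemma stage_kap {l C t d : ℝ} {H : ℝ × ℂ} (hl0 : 0 < l) (hl1 : l ≤ 1) (hC : 1 / 2 ≤ C)
    (hq : C < q l H) (ht : l * t ^ 2 < 7 / 8 * C) (hd : |d| ≤ 1 / 100) (hH : H.1 = t + d) :
    0 < kap H := by
  have h1 : l * H.1 ^ 2 < C := by
    rw [hH]
    have h2 := young (a := t) (b := d) (s := 1 / 14) (by norm_num)
    have h3 : d ^ 2 ≤ (1 / 100) ^ 2 := by
      rw [← sq_abs]; exact pow_le_pow_left₀ (abs_nonneg _) hd 2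
    have h4 := mul_le_mul_of_nonneg_left h2 hl0.le
    have h5 : l * d ^ 2 ≤ 1 * (1 / 100) ^ 2 := mul_le_mul hl1 h3 (sq_nonneg _) (by norm_num)
    have h6 : l * ((1 + 1 / 14) * t ^ 2 + (1 + 1 / (1 / 14)) * d ^ 2) =
      15 / 14 * (l * t ^ 2) + 15 * (l * d ^ 2) := by ring
    rw [h6] at h4
    linarith
  rw [q_eq_kap] at hq
  linarith

/-- A large trace stays large. -/
lemma stage_fin {l C t d : ℝ} {H : ℝ × ℂ} (hl0 : 0 < l) (hl1 : l ≤ 1) (hC : 1 / 2 ≤ C)
    (ht : 3 / 4 * C / l < t ^ 2) (hd : |d| ≤ 1 / 100) (hH : H.1 = t + d) :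
    C / (2 * l) ≤ H.1 ^ 2 := by
  have h2 := young (a := t + d) (b := -d) (s := 1 / 6) (by norm_num)
  have h3 : d ^ 2 ≤ (1 / 100) ^ 2 := by
    rw [← sq_abs]; exact pow_le_pow_left₀ (abs_nonneg _) hd 2
  rw [hH]
  rw [show t + d + -d = t by ring] at h2
  have h4 : 1 / 2 ≤ C / l := by
    rw [le_div_iff₀ hl0]
    linarith
  have h5 : C / (2 * l) = C / l / 2 := by rw [div_div, mul_comm]
  have h6 : 3 / 4 * C / l = 3 / 4 * (C / l) := by ring
  rw [h5]
  rw [h6] at ht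
  have h7 : (-d) ^ 2 = d ^ 2 := by ring
  rw [h7] at h2
  linarith

/-- **One stage.** -/
theorem stage {l0 : ℝ} (hl0 : 0 < l0) (hl01 : l0 ≤ 1) : ∃ g : ℝ, 0 < g ∧
    ∀ (f l C : ℂ → ℝ) (K U : Set ℂ) (η : ℝ), ContDiff ℝ ∞ f → (∀ x, 0 < kap (hs f x)) →
      Continuous l → Continuous C → (∀ x, 0 < l x) → (∀ x, l x ≤ 1) → (∀ x, 1 / 2 ≤ C x) →
      (∀ x, C x < q (l x) (hs f x)) → IsCompact K → IsOpen U → K ⊆ U → (∀ x ∈ U, l0 ≤ l x) →
      0 < η → ∃ f' : ℂ → ℝ, ContDiff ℝ ∞ f' ∧ (∀ x ∉ U, f' =ᶠ[𝓝 x] f) ∧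
        (∀ x, |d1 1 f' x - d1 1 f x| ≤ η ∧ |d1 I f' x - d1 I f x| ≤ η) ∧
        (∀ x, 0 < kap (hs f' x)) ∧ (∀ x, C x < q (l x) (hs f' x)) ∧
        ∀ x ∈ K, C x + g ≤ q (l x) (hs f' x) ∨ C x / (2 * l x) ≤ (hs f' x).1 ^ 2 := by
  classical
  obtain ⟨e, he0, he1, hc1, hc2, hc3⟩ := choice hl0 hl01
  refine ⟨e ^ 2 * l0 / 32, by positivity, ?_⟩
  intro f l C K U η hf hkap hl hC hlpos hl1 hC2 hq hK hU hKU hlU hη
  set g : ℝ := e ^ 2 * l0 / 32 with hg
  have hg0 : 0 < g := by positivity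
  set cb : ℝ := 1 / l0 with hcb
  have hcb1 : 1 ≤ cb := by rw [hcb, le_div_iff₀ hl0]; linarith
  have hHc : Continuous (hs f) := continuous_hs hf
  have htc : Continuous fun x => (hs f x).1 := continuous_fst.comp hHc
  obtain ⟨n, m, k1, k2, hnc, hmc, hk1c, hk2c, hdir⟩ := exists_dirs hHc hl hlpos hl1 hC2 hq
  -- the unfinished points
  set Y : Set ℂ := K ∩ {x | (hs f x).1 ^ 2 ≤ 3 / 4 * C x / l x} with hY
  have hYc : IsCompact Y := hK.inter_right (isClosed_le (htc.pow 2)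
    ((continuous_const.mul hC).div hl fun x => (hlpos x).ne'))
  have hqc : Continuous fun x => q (l x) (hs f x) - C x := by
    have : Continuous fun x => q (l x) (hs f x) := by
      simp only [q_eq]
      exact (Complex.continuous_normSq.comp (continuous_snd.comp hHc)).sub
        ((continuous_const.sub hl).mul (htc.pow 2))
    exact this.sub hC
  -- a compact neighbourhood
  obtain ⟨r0, hr0, hr0U⟩ := hK.exists_cthickening_subset_open hU hKU
  set K1 : Set ℂ := Metric.cthickening r0 K with hK1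
  have hK1c : IsCompact K1 := hK.cthickening
  obtain ⟨μ, hμ, hμ'⟩ := hK1c.exists_forall_le' hqc.continuousOn (a := 0)
    (fun x _ => sub_pos.2 (hq x))
  obtain ⟨R, hR⟩ := hK1c.exists_bound_of_continuousOn hHc.continuousOn
  have hR' : ∀ x ∈ K1, ‖hs f x‖ ≤ |R| := fun x hx => (hR x hx).trans (le_abs_self R)
  have hR0 : 0 ≤ |R| := abs_nonneg R
  -- near the unfinished points
  set V : Set ℂ := {x | l x * (hs f x).1 ^ 2 < 7 / 8 * C x} with hV
  have hVo : IsOpen V := isOpen_lt (hl.mul (htc.pow 2)) (continuous_const.mul hC)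
  have hYV : Y ⊆ V := by
    rintro x ⟨-, hx⟩
    have hx' : (hs f x).1 ^ 2 ≤ 3 / 4 * C x / l x := hx
    rw [le_div_iff₀ (hlpos x)] at hx'
    have : 1 / 2 ≤ C x := hC2 x
    change l x * (hs f x).1 ^ 2 < 7 / 8 * C x
    linarith
  obtain ⟨r2, hr2, hr2V⟩ := hYc.exists_cthickening_subset_open hVo hYV
  -- the tolerances
  set ε : ℝ := min (1 / 200) (min (μ / 2) g / (4 * (|R| + 2))) with hε
  have hmin0 : 0 < min (μ / 2) g := lt_min (by positivity) hg0
  have hε0 : 0 < ε := lt_min (by norm_num) (div_pos hmin0 (by positivity))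
  have hε1 : ε ≤ 1 / 200 := min_le_left _ _
  have hε2 : 4 * (|R| + 2) * ε ≤ min (μ / 2) g := by
    have h1 : ε ≤ min (μ / 2) g / (4 * (|R| + 2)) := min_le_right _ _
    rw [le_div_iff₀ (by positivity)] at h1
    linarith
  set δ : ℝ := min (1 / 8) (ε / 2 / (40000 * cb)) with hδ
  have hcb0 : 0 < cb := by linarith
  have hδ0 : 0 < δ := lt_min (by norm_num) (by positivity)
  have hδ1 : δ ≤ 1 / 8 := min_le_left _ _
  have hδ2 : 40000 * cb * δ ≤ ε / 2 := by
    have h1 : δ ≤ ε / 2 / (40000 * cb) := min_le_right _ _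
    rw [le_div_iff₀ (by positivity)] at h1
    linarith
  obtain ⟨s1, hs1, hu1⟩ := unif_cont hK1c hnc hδ0
  obtain ⟨s2, hs2, hu2⟩ := unif_cont hK1c hmc hδ0
  obtain ⟨s3, hs3, hu3⟩ := unif_cont hK1c hk1c hδ0
  obtain ⟨s4, hs4, hu4⟩ := unif_cont hK1c hk2c hδ0
  set r : ℝ := min (min r0 r2) (min (min s1 s2) (min s3 s4)) with hr
  have hrpos : 0 < r := lt_min (lt_min hr0 hr2) (lt_min (lt_min hs1 hs2) (lt_min hs3 hs4))
  have hrr0 : r ≤ r0 := (min_le_left _ _).trans (min_le_left _ _)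
  have hrr2 : r ≤ r2 := (min_le_left _ _).trans (min_le_right _ _)
  have hrs1 : r ≤ s1 := (min_le_right _ _).trans ((min_le_left _ _).trans (min_le_left _ _))
  have hrs2 : r ≤ s2 := (min_le_right _ _).trans ((min_le_left _ _).trans (min_le_right _ _))
  have hrs3 : r ≤ s3 := (min_le_right _ _).trans ((min_le_right _ _).trans (min_le_left _ _))
  have hrs4 : r ≤ s4 := (min_le_right _ _).trans ((min_le_right _ _).trans (min_le_right _ _))
  obtain ⟨RY, hRY⟩ := hYc.isBounded.exists_norm_le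
  obtain ⟨J, χ, col, y, hB, hone, hy⟩ := exists_grid hrpos hRY
  obtain ⟨Cc, hCc0, hCc⟩ := cor_model hB (n := fun j => n (y j)) (m := fun j => m (y j))
    (fun j => (hdir (y j)).1) (fun j => (hdir (y j)).2.1) (fun j => k1 (y j))
    (fun j => k2 (y j)) he0.le he1 hcb1
  set om : ℝ := 1 + Cc / min (ε / 2) η with hom
  have hmin1 : 0 < min (ε / 2) η := lt_min (by positivity) hη
  have hom1 : 1 ≤ om := by
    have : 0 ≤ Cc / min (ε / 2) η := by positivity
    linarith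
  have hCom : Cc / om ≤ min (ε / 2) η := by
    rw [div_le_iff₀ (by linarith), hom, mul_add, mul_one, mul_div_cancel₀ _ hmin1.ne']
    linarith
  have hComε : Cc / om ≤ ε / 2 := hCom.trans (min_le_left _ _)
  have hComη : Cc / om ≤ η := hCom.trans (min_le_right _ _)
  set W : ℂ → ℝ := cor χ col (fun j => n (y j)) (fun j => m (y j)) (fun j => k1 (y j))
    (fun j => k2 (y j)) e om with hW
  have hWs : ContDiff ℝ ∞ W := smooth_cor hB _ _ _ _ _ _
  have hsum : ∀ x, hs (fun y => f y + W y) x = hs f x + hs W x := fun x => hs_add hf hWs x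
  -- the region reached by the waves
  set S : Set ℂ := ⋃ j, Metric.closedBall (y j) r with hS
  have hScl : IsClosed S := isClosed_iUnion_of_finite fun j => Metric.isClosed_closedBall
  have hSW : ∀ x ∉ S, W =ᶠ[𝓝 x] fun _ => 0 := by
    intro x hx
    filter_upwards [hScl.isOpen_compl.mem_nhds hx] with z hz
    apply cor_eq_zero
    intro j
    by_contra h0
    apply hz
    rw [hS, mem_iUnion]
    exact ⟨j, by rw [Metric.mem_closedBall, dist_eq_norm]; exact (hy j).2 z h0⟩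
  have hSf : ∀ x ∉ S, (fun y => f y + W y) =ᶠ[𝓝 x] f := by
    intro x hx
    filter_upwards [hSW x hx] with z hz
    rw [hz, add_zero]
  have hYK1 : ∀ j, y j ∈ K1 := fun j =>
    Metric.self_subset_cthickening _ ((hy j).1.1)
  have hSK1 : S ⊆ K1 := by
    intro x hx
    rw [hS, mem_iUnion] at hx
    obtain ⟨j, hj⟩ := hx
    rw [Metric.mem_closedBall] at hj
    exact Metric.mem_cthickening_of_dist_le x (y j) r0 K (hy j).1.1 (hj.trans hrr0)
  have hSV : S ⊆ V := by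
    intro x hx
    rw [hS, mem_iUnion] at hx
    obtain ⟨j, hj⟩ := hx
    rw [Metric.mem_closedBall] at hj
    exact hr2V (Metric.mem_cthickening_of_dist_le x (y j) r2 Y (hy j).1 (hj.trans hrr2))
  -- the estimates in that region
  have main : ∀ x ∈ S, ‖hs W x‖ ≤ 1 / 100 ∧
      q (l x) (hs f x) + 2 * g * (∑ j, χ j x ^ 2) ^ 2 - 4 * (|R| + 2) * ε ≤
        q (l x) (hs f x + hs W x) := by
    intro x hx
    obtain ⟨d1', d2', d3', d4', d5', d6', d7', d8'⟩ := hdir x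
    have hxK1 := hSK1 hx
    have hlx : l0 ≤ l x := hlU x (hr0U hxK1)
    have hcl : 1 / l x ≤ cb := one_div_le_one_div_of_le hl0 hlx
    obtain ⟨a, b, u, v, w, ha, hb, hw, hKK, hD⟩ := (hCc om hom1 x).2.2 (n x) (m x) (k1 x) (k2 x)
      δ d1' d2' (d7'.trans hcl) (d8'.trans hcl) hδ0.le hδ1 (by
        intro j hj
        have hxy := (hy j).2 x hj
        have hyx : ‖y j - x‖ ≤ r := by rw [norm_sub_rev]; exact hxy
        exact ⟨hu1 _ (hYK1 j) _ hxK1 (hyx.trans hrs1), hu2 _ (hYK1 j) _ hxK1 (hyx.trans hrs2),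
          by simpa using hu3 _ (hYK1 j) _ hxK1 (hyx.trans hrs3),
          by simpa using hu4 _ (hYK1 j) _ hxK1 (hyx.trans hrs4)⟩)
    have hE0 : 0 ≤ ∑ j, χ j x ^ 2 := Finset.sum_nonneg fun j _ => sq_nonneg _
    have hp := stage_point hl0 hlx (hl1 x) he0 hE0 (hB.e1 x) d1' d2' d3' d4' d5' d6'
      ha hb hw hKK hc1 hc2 hc3 (hD.trans (by linarith : _ ≤ ε)) hε1 (hR' x hxK1)
    refine ⟨hp.1, le_trans (le_of_eq ?_) hp.2⟩
    rw [hg]
    ring
  have hgt : ∀ x, C x < q (l x) (hs (fun y => f y + W y) x) := by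
    intro x
    by_cases hx : x ∈ S
    · rw [hsum]
      refine lt_of_lt_of_le ?_ (main x hx).2
      have h1 : μ ≤ q (l x) (hs f x) - C x := hμ' x (hSK1 hx)
      have h2 : min (μ / 2) g ≤ μ / 2 := min_le_left _ _
      have h3 : 0 ≤ 2 * g * (∑ j, χ j x ^ 2) ^ 2 := by positivity
      linarith
    · rw [hs_congr (hSf x hx)]
      exact hq x
  refine ⟨fun y => f y + W y, hf.add hWs, ?_, ?_, ?_, hgt, ?_⟩
  · intro x hx
    apply hSf
    intro hxS
    exact hx (hr0U (hSK1 hxS))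
  · intro x
    have h1 : ∀ v, d1 v (fun y => f y + W y) x - d1 v f x = d1 v W x := by
      intro v
      rw [d1_add hf hWs]
      ring
    rw [h1, h1]
    exact ⟨(hCc om hom1 x).1.trans hComη, (hCc om hom1 x).2.1.trans hComη⟩
  · intro x
    by_cases hx : x ∈ S
    · refine stage_kap (t := (hs f x).1) (d := (hs W x).1) (hlpos x) (hl1 x) (hC2 x) (hgt x)
        (hSV hx) ((norm_fst_le _).trans (main x hx).1) ?_
      rw [hsum]
      rfl
    · rw [hs_congr (hSf x hx)]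
      exact hkap x
  · intro x hxK
    by_cases hxY : x ∈ Y
    · left
      have hE : ∑ j, χ j x ^ 2 = 1 := hone x hxY
      have hxS : x ∈ S := by
        by_contra hxS
        have h0 : ∀ j, χ j x = 0 := by
          intro j
          by_contra h0
          apply hxS
          rw [hS, mem_iUnion]
          exact ⟨j, by rw [Metric.mem_closedBall, dist_eq_norm]; exact (hy j).2 x h0⟩
        simp [h0] at hE
      have h1 := (main x hxS).2
      rw [hE] at h1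
      rw [hsum]
      have h2 : min (μ / 2) g ≤ g := min_le_right _ _
      have h3 := (hq x).le
      linarith
    · right
      have ht : 3 / 4 * C x / l x < (hs f x).1 ^ 2 := by
        by_contra hc
        exact hxY ⟨hxK, not_lt.1 hc⟩
      by_cases hxS : x ∈ S
      · refine stage_fin (t := (hs f x).1) (d := (hs W x).1) (hlpos x) (hl1 x) (hC2 x) ht
          ((norm_fst_le _).trans (main x hxS).1) ?_
        rw [hsum]
        rfl
      · refine stage_fin (t := (hs f x).1) (d := 0) (hlpos x) (hl1 x) (hC2 x) ht (by norm_num) ?_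
        rw [hs_congr (hSf x hxS)]
        ring

end

end Pool.Agent.R747.Mil
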