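import Mathlib
import Pool.Agent.R747.MilStage

/-!
The iteration of the stages.
-/

open Complex Set Filter Topology
open scoped ComplexConjugate ContDiff

namespace Pool.Agent.R747.Mil

noncomputable section

/-- The interpolation parameter. -/
def Lam (a : ℂ → ℝ) (x : ℂ) (t : ℝ) : ℝ := Real.exp (-2 * a x * (1 - t))

/-- The required size. -/
def Cee (a : ℂ → ℝ) (x : ℂ) (t : ℝ) : ℝ := 1 / 2 * Real.exp (a x * t)

/-- The state of the construction, with progress `μ`. -/
structure St (a : ℂ → ℝ) (f μ : ℂ → ℝ) : Prop where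
  sm : ContDiff ℝ ∞ f
  kp : ∀ x, 0 < kap (hs f x)
  qq : ∀ x, Cee a x (μ x) < q (Lam a x (μ x)) (hs f x)

lemma one_sub_exp (s : ℝ) : Real.exp s - 1 ≤ s * Real.exp s := by
  have h1 := Real.add_one_le_exp (-s)
  have h2 := mul_le_mul_of_nonneg_right h1 (Real.exp_pos s).le
  rw [← Real.exp_add, neg_add_cancel, Real.exp_zero] at h2
  linarith

lemma two_exp (s : ℝ) : Real.exp s ≤ 1 + (Real.exp (2 * s) - 1) / 2 := by
  have h : Real.exp (2 * s) = Real.exp s ^ 2 := by rw [← Real.exp_nat_mul]; norm_num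
  rw [h]
  nlinarith [sq_nonneg (Real.exp s - 1)]

theorem substep {a : ℂ → ℝ} (ha : Continuous a) (ha0 : ∀ x, 0 ≤ a x) {U : Set ℂ} {A : ℝ}
    (hA0 : 0 ≤ A) (hA : ∀ x ∈ U, a x ≤ A) (hU : IsOpen U) : ∃ N : ℕ, 0 < N ∧
    ∀ (f μ μ' : ℂ → ℝ) (K : Set ℂ) (η : ℝ), St a f μ → Continuous μ → 
      (∀ x, 0 ≤ μ x) → (∀ x, μ x ≤ μ' x) → (∀ x, μ' x ≤ 1) → (∀ x, μ' x ≤ μ x + 1 / N) →
      IsCompact K → K ⊆ U → (∀ x ∉ K, μ' x = μ x) → 0 < η →
      ∃ f' : ℂ → ℝ, St a f' μ' ∧ (∀ x ∉ U, f' =ᶠ[𝓝 x] f) ∧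
        ∀ x, |d1 1 f' x - d1 1 f x| ≤ η ∧ |d1 I f' x - d1 I f x| ≤ η := by
  have hl0 : 0 < Real.exp (-2 * A) := Real.exp_pos _
  obtain ⟨g, hg, hst⟩ := stage hl0 (by rw [Real.exp_le_one_iff]; linarith)
  obtain ⟨N, hN⟩ := exists_nat_gt (1 / 2 * Real.exp A * (A * Real.exp A) / g)
  have hN0 : 0 < (N : ℝ) := lt_of_le_of_lt (by positivity) hN
  refine ⟨N, by exact_mod_cast hN0, ?_⟩
  intro f μ μ' K η hf hμc hμ0 hμμ hμ1 hμN hK hKU hout hη
  have hμ1' : ∀ x, μ x ≤ 1 := fun x => (hμμ x).trans (hμ1 x)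
  obtain ⟨f', hf's, hf'U, hf'd, hf'k, hf'q, hf'K⟩ := hst f (fun x => Lam a x (μ x))
    (fun x => Cee a x (μ x)) K U η hf.sm hf.kp
    (by
      unfold Lam
      exact Real.continuous_exp.comp ((continuous_const.mul ha).mul (continuous_const.sub hμc)))
    (by
      unfold Cee
      exact continuous_const.mul (Real.continuous_exp.comp (ha.mul hμc)))
    (fun x => Real.exp_pos _)
    (fun x => by
      unfold Lam
      rw [Real.exp_le_one_iff]
      have := mul_nonneg (ha0 x) (by linarith [hμ1' x] : 0 ≤ 1 - μ x)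
      linarith)
    (fun x => by
      unfold Cee
      have := Real.one_le_exp (mul_nonneg (ha0 x) (hμ0 x))
      linarith)
    hf.qq hK hU hKU
    (fun x hx => by
      unfold Lam
      rw [Real.exp_le_exp]
      have h1 : 0 ≤ 1 - μ x := by linarith [hμ1' x]
      have h2 : a x * (1 - μ x) ≤ A * 1 :=
        mul_le_mul (hA x hx) (by linarith [hμ0 x]) h1 hA0
      linarith)
    hη
  refine ⟨f', ⟨hf's, hf'k, ?_⟩, hf'U, hf'd⟩
  intro x
  by_cases hx : x ∈ K
  swap
  · rw [hout x hx]; exact hf'q x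
  have hxU := hKU hx
  have hq := hf'q x
  rw [q_eq_kap] at hq ⊢
  set t : ℝ := (hs f' x).1 ^ 2 with ht
  set κ : ℝ := kap (hs f' x) with hκ
  have ht0 : 0 ≤ t := sq_nonneg _
  set d : ℝ := a x * (μ' x - μ x) with hd
  have hd0 : 0 ≤ d := mul_nonneg (ha0 x) (by linarith [hμμ x])
  have eL : Lam a x (μ' x) = Lam a x (μ x) * Real.exp (2 * d) := by
    unfold Lam
    rw [← Real.exp_add]
    congr 1
    rw [hd]
    ring
  have eC : Cee a x (μ' x) = Cee a x (μ x) * Real.exp d := by
    unfold Cee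
    rw [mul_assoc, ← Real.exp_add]
    congr 2
    rw [hd]
    ring
  have hLp : 0 < Lam a x (μ x) := Real.exp_pos _
  have hCp : 0 < Cee a x (μ x) := by unfold Cee; positivity
  rw [eL, eC]
  set L := Lam a x (μ x) with hL
  set C := Cee a x (μ x) with hC
  have he2 : 1 ≤ Real.exp (2 * d) := Real.one_le_exp (by linarith)
  rcases hf'K x hx with h | h
  · rw [q_eq_kap] at h
    -- the size grows by less than `g`
    have h1 : C * (Real.exp d - 1) < g := by
      have hdA : d ≤ A * (1 / N) := mul_le_mul (hA x hxU) (by linarith [hμN x])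
        (by linarith [hμμ x]) hA0
      have hdA' : d ≤ A := by
        have h2 : μ' x - μ x ≤ 1 := by linarith [hμ0 x, hμ1 x]
        have := mul_le_mul (hA x hxU) h2 (by linarith [hμμ x]) hA0
        linarith
      have h3 : Real.exp d - 1 ≤ A * (1 / N) * Real.exp A :=
        (one_sub_exp d).trans (mul_le_mul hdA (Real.exp_le_exp.2 hdA') (Real.exp_pos _).le
          (by positivity))
      have h4 : C ≤ 1 / 2 * Real.exp A := by
        rw [hC]
        unfold Cee
        have : a x * μ x ≤ A := by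
          have := mul_le_mul (hA x hxU) (hμ1' x) (hμ0 x) hA0
          linarith
        have := Real.exp_le_exp.2 this
        linarith
      have h5 : 0 ≤ Real.exp d - 1 := by linarith [Real.one_le_exp hd0]
      have h6 := mul_le_mul h4 h3 h5 (by positivity)
      refine lt_of_le_of_lt h6 ?_
      rw [div_lt_iff₀ hg] at hN
      have h7 : 1 / 2 * Real.exp A * (A * (1 / N) * Real.exp A) =
        1 / 2 * Real.exp A * (A * Real.exp A) / N := by ring
      rw [h7, div_lt_iff₀ hN0]
      linarith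
    have h2 : L * t ≤ L * Real.exp (2 * d) * t :=
      mul_le_mul_of_nonneg_right (by nlinarith) ht0
    change C + g ≤ κ + L * t at h
    linarith
  · have h1 : C / (2 * L) ≤ t := h
    rw [div_le_iff₀ (by positivity)] at h1
    have h2 := two_exp d
    have h3 : C * Real.exp d ≤ C * (1 + (Real.exp (2 * d) - 1) / 2) :=
      mul_le_mul_of_nonneg_left h2 hCp.le
    have h4 : C * (Real.exp (2 * d) - 1) ≤ t * (2 * L) * (Real.exp (2 * d) - 1) :=
      mul_le_mul_of_nonneg_right h1 (by linarith)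
    change C < κ + L * t at hq
    have h5 : κ + L * Real.exp (2 * d) * t = κ + L * t + t * (2 * L) * (Real.exp (2 * d) - 1) / 2 := by
      ring
    have h6 : C * (1 + (Real.exp (2 * d) - 1) / 2) = C + C * (Real.exp (2 * d) - 1) / 2 := by ring
    rw [h5]
    linarith

theorem step {a : ℂ → ℝ} (ha : Continuous a) (ha0 : ∀ x, 0 ≤ a x) {U K : Set ℂ} {A : ℝ}
    (hA0 : 0 ≤ A) (hA : ∀ x ∈ U, a x ≤ A) (hU : IsOpen U) (hK : IsCompact K) (hKU : K ⊆ U)
    {f μ μ' : ℂ → ℝ} {η : ℝ} (hf : St a f μ) (hμc : Continuous μ) (hμc' : Continuous μ')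
    (hμ0 : ∀ x, 0 ≤ μ x) (hμμ : ∀ x, μ x ≤ μ' x) (hμ1 : ∀ x, μ' x ≤ 1)
    (hout : ∀ x ∉ K, μ' x = μ x) (hη : 0 < η) :
    ∃ f' : ℂ → ℝ, St a f' μ' ∧ (∀ x ∉ U, f' =ᶠ[𝓝 x] f) ∧
      ∀ x, |d1 1 f' x - d1 1 f x| ≤ η ∧ |d1 I f' x - d1 I f x| ≤ η := by
  obtain ⟨N, hN0, hN⟩ := substep ha ha0 hA0 hA hU
  have hNr : (0 : ℝ) < N := by exact_mod_cast hN0
  set ν : ℕ → ℂ → ℝ := fun k x => μ x + (k / N : ℝ) * (μ' x - μ x) with hν
  have key : ∀ k : ℕ, k ≤ N → ∃ f' : ℂ → ℝ, St a f' (ν k) ∧ (∀ x ∉ U, f' =ᶠ[𝓝 x] f) ∧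
      ∀ x, |d1 1 f' x - d1 1 f x| ≤ (k / N : ℝ) * η ∧ |d1 I f' x - d1 I f x| ≤ (k / N : ℝ) * η := by
    intro k
    induction k with
    | zero =>
      intro _
      refine ⟨f, ?_, fun x _ => EventuallyEq.rfl, fun x => by simp⟩
      have : ν 0 = μ := by funext x; simp [hν]
      rw [this]; exact hf
    | succ k ih =>
      intro hk
      obtain ⟨f1, hf1, hf1U, hf1d⟩ := ih (by omega)
      have hkN : ((k : ℝ) + 1) / N ≤ 1 := by
        rw [div_le_one hNr]; exact_mod_cast hk
      have hk0 : (0 : ℝ) ≤ (k : ℝ) / N := by positivity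
      have hkk : ((k : ℝ) + 1) / N = (k : ℝ) / N + 1 / N := by ring
      have h1N : (0 : ℝ) ≤ 1 / N := by positivity
      have hdiff : ∀ x, ν (k + 1) x = ν k x + 1 / N * (μ' x - μ x) := by
        intro x
        simp only [hν]
        push_cast
        rw [hkk]
        ring
      have hmm : ∀ x, 0 ≤ μ' x - μ x ∧ μ' x - μ x ≤ 1 := fun x =>
        ⟨by linarith [hμμ x], by linarith [hμ0 x, hμ1 x]⟩
      obtain ⟨f2, hf2, hf2U, hf2d⟩ := hN f1 (ν k) (ν (k + 1)) K (1 / N * η) hf1
        (hμc.add (continuous_const.mul (hμc'.sub hμc)))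
        (fun x => by
          have := mul_nonneg hk0 (hmm x).1
          have := hμ0 x
          simp only [hν]
          linarith)
        (fun x => by
          rw [hdiff]
          have := mul_nonneg h1N (hmm x).1
          linarith)
        (fun x => by
          simp only [hν]
          push_cast
          have h2 := mul_le_mul_of_nonneg_right hkN (hmm x).1
          have := hμ1 x
          linarith)
        (fun x => by
          rw [hdiff]
          have := mul_le_mul_of_nonneg_left (hmm x).2 h1N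
          linarith)
        hK hKU (fun x hx => by simp only [hν]; rw [hout x hx]; ring) (by positivity)
      refine ⟨f2, hf2, fun x hx => (hf2U x hx).trans (hf1U x hx), fun x => ?_⟩
      obtain ⟨p1, p2⟩ := hf1d x
      obtain ⟨p3, p4⟩ := hf2d x
      have e : ((k + 1 : ℕ) / N : ℝ) * η = (k / N : ℝ) * η + 1 / N * η := by
        push_cast; ring
      rw [e]
      constructor
      · have := abs_add_le (d1 1 f2 x - d1 1 f1 x) (d1 1 f1 x - d1 1 f x)
        rw [sub_add_sub_cancel] at this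
        linarith
      · have := abs_add_le (d1 I f2 x - d1 I f1 x) (d1 I f1 x - d1 I f x)
        rw [sub_add_sub_cancel] at this
        linarith
  obtain ⟨f', h1, h2, h3⟩ := key N le_rfl
  have hNN : (N / N : ℝ) = 1 := div_self hNr.ne'
  refine ⟨f', ?_, h2, fun x => by simpa [hNN] using h3 x⟩
  have : ν N = μ' := by funext x; simp only [hν]; rw [hNN]; ring
  rw [← this]; exact h1

/-- The progress after `n` steps. -/
def prog (n : ℕ) (x : ℂ) : ℝ := max 0 (min 1 (n - ‖x‖))

lemma prog_cont (n : ℕ) : Continuous (prog n) :=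
  continuous_const.max (continuous_const.min (continuous_const.sub continuous_norm))

/-- The starting function. -/
def base (x : ℂ) : ℝ := x.re * x.im

lemma smooth_base : ContDiff ℝ ∞ base := Complex.reCLM.contDiff.mul Complex.imCLM.contDiff

lemma d1_re (v : ℂ) : d1 v Complex.re = fun _ => v.re := by
  funext y
  have : fderiv ℝ Complex.re y = Complex.reCLM := Complex.reCLM.fderiv
  simp [d1, this]

lemma d1_im (v : ℂ) : d1 v Complex.im = fun _ => v.im := by
  funext y
  have : fderiv ℝ Complex.im y = Complex.imCLM := Complex.imCLM.fderiv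
  simp [d1, this]

lemma smooth_re : ContDiff ℝ ∞ Complex.re := Complex.reCLM.contDiff
lemma smooth_im : ContDiff ℝ ∞ Complex.im := Complex.imCLM.contDiff

lemma d1_base (v : ℂ) : d1 v base = fun y => v.re * y.im + v.im * y.re := by
  unfold base
  rw [d1_mul smooth_re smooth_im, d1_re, d1_im]
  funext y
  ring

lemma d2_base (v w : ℂ) (y : ℂ) : d1 v (d1 w base) y = w.re * v.im + w.im * v.re := by
  rw [d1_base, d1_add (contDiff_const.mul smooth_im) (contDiff_const.mul smooth_re),
    d1_const_mul _ smooth_im, d1_const_mul _ smooth_re, d1_re, d1_im]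

lemma hs_base (y : ℂ) : hs base y = (0, I) := by
  unfold hs
  simp only [d2_base]
  ext <;> simp

/-- **The construction.** -/
theorem exists_saddle {a : ℂ → ℝ} (ha : Continuous a) (ha0 : ∀ x, 0 ≤ a x) :
    ∃ f : ℂ → ℝ, ContDiff ℝ ∞ f ∧ ∀ x, 0 < kap (hs f x) ∧
      1 / 2 * Real.exp (a x) < normSq (hs f x).2 ∧
      |d1 1 f x - x.im| ≤ 1 ∧ |d1 I f x - x.re| ≤ 1 := by
  classical
  -- the steps
  have hstep : ∀ (n : ℕ) (f : ℂ → ℝ), St a f (prog n) → ∃ f' : ℂ → ℝ, St a f' (prog (n + 1)) ∧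
      (∀ x : ℂ, ‖x‖ ≤ n - 2 → f' =ᶠ[𝓝 x] f) ∧
      ∀ x, |d1 1 f' x - d1 1 f x| ≤ (1 / 2) ^ (n + 1) ∧ |d1 I f' x - d1 I f x| ≤ (1 / 2) ^ (n + 1) := by
    intro n f hf
    obtain ⟨A, hA⟩ := (isCompact_closedBall (0 : ℂ) (n + 2)).exists_bound_of_continuousOn
      ha.continuousOn
    set U : Set ℂ := {x | (n : ℝ) - 2 < ‖x‖} ∩ Metric.ball 0 (n + 2) with hU
    set K : Set ℂ := Metric.closedBall 0 (n + 1) ∩ {x | (n : ℝ) - 1 ≤ ‖x‖} with hK
    have hUo : IsOpen U := (isOpen_lt continuous_const continuous_norm).inter Metric.isOpen_ball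
    have hKc : IsCompact K := (isCompact_closedBall 0 _).inter_right
      (isClosed_le continuous_const continuous_norm)
    have hKU : K ⊆ U := by
      rintro x ⟨hx1, hx2⟩
      have hx1' : ‖x‖ ≤ n + 1 := by simpa using hx1
      have hx2' : (n : ℝ) - 1 ≤ ‖x‖ := hx2
      exact ⟨by change (n : ℝ) - 2 < ‖x‖; linarith,
        by rw [Metric.mem_ball, dist_zero_right]; linarith⟩
    obtain ⟨f', h1, h2, h3⟩ := step ha ha0 (A := |A|) (abs_nonneg A)
      (fun x hx => by
        have hx2 : ‖x‖ < n + 2 := by simpa using hx.2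
        have := hA x (by rw [Metric.mem_closedBall, dist_zero_right]; exact hx2.le)
        rw [Real.norm_eq_abs] at this
        exact (le_abs_self _).trans (this.trans (le_abs_self _)))
      hUo hKc hKU hf (prog_cont n) (prog_cont (n + 1))
      (fun x => le_max_left _ _)
      (fun x => by
        unfold prog
        push_cast
        exact max_le_max le_rfl (min_le_min le_rfl (by linarith)))
      (fun x => max_le zero_le_one (min_le_left _ _))
      (fun x hx => by
        unfold prog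
        push_cast
        rcases le_or_gt ‖x‖ (n + 1) with h4 | h4
        · have h5 : ‖x‖ < n - 1 := by
            by_contra h6
            exact hx ⟨by simpa using h4, not_lt.1 h6⟩
          rw [min_eq_left (by linarith), min_eq_left (by linarith)]
        · rw [min_eq_right (by linarith), min_eq_right (by linarith), max_eq_left (by linarith),
            max_eq_left (by linarith)])
      (by positivity : (0 : ℝ) < (1 / 2) ^ (n + 1))
    refine ⟨f', h1, fun x hx => h2 x ?_, h3⟩
    rintro ⟨hx1, -⟩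
    have hx1' : (n : ℝ) - 2 < ‖x‖ := hx1
    linarith
  choose! nxt hn1 hn2 hn3 using hstep
  have hbase : St a base (prog 0) := by
    refine ⟨smooth_base, fun x => ?_, fun x => ?_⟩
    · rw [hs_base]; simp [kap]
    · rw [hs_base, q_eq]
      have : prog 0 x = 0 := by
        unfold prog
        have := norm_nonneg x
        rw [min_eq_right (by push_cast; linarith)]
        exact max_eq_left (by push_cast; linarith)
      rw [this]
      simp [Cee]
      norm_num
  set F : ℕ → ℂ → ℝ := fun n => Nat.rec base (fun n f => nxt n f) n with hF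
  have hF0 : F 0 = base := rfl
  have hFs : ∀ n, F (n + 1) = nxt n (F n) := fun n => rfl
  have hFst : ∀ n, St a (F n) (prog n) := by
    intro n
    induction n with
    | zero => exact hbase
    | succ n ih => rw [hFs]; exact hn1 n (F n) ih
  have hFd : ∀ n x, |d1 1 (F n) x - x.im| ≤ 1 - (1 / 2) ^ n ∧
      |d1 I (F n) x - x.re| ≤ 1 - (1 / 2) ^ n := by
    intro n x
    induction n with
    | zero => rw [hF0, d1_base, d1_base]; simp
    | succ n ih =>
      obtain ⟨p1, p2⟩ := hn3 n (F n) (hFst n) x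
      rw [hFs]
      have e : (1 : ℝ) - (1 / 2) ^ (n + 1) = 1 - (1 / 2) ^ n + (1 / 2) ^ (n + 1) := by
        rw [pow_succ]; ring
      rw [e]
      constructor
      · have := abs_add_le (d1 1 (nxt n (F n)) x - d1 1 (F n) x) (d1 1 (F n) x - x.im)
        rw [sub_add_sub_cancel] at this
        linarith [ih.1]
      · have := abs_add_le (d1 I (nxt n (F n)) x - d1 I (F n) x) (d1 I (F n) x - x.re)
        rw [sub_add_sub_cancel] at this
        linarith [ih.2]
  have hstab : ∀ (m : ℕ) (x : ℂ), ‖x‖ ≤ m → ∀ n, m + 2 ≤ n → F n =ᶠ[𝓝 x] F (m + 2) := by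
    intro m x hx n hn
    induction n, hn using Nat.le_induction with
    | base => exact EventuallyEq.rfl
    | succ n hn ih =>
      rw [hFs]
      refine (hn2 n (F n) (hFst n) x ?_).trans ih
      have : ((m + 2 : ℕ) : ℝ) ≤ (n : ℝ) := by exact_mod_cast hn
      push_cast at this
      linarith
  set f : ℂ → ℝ := fun x => F (⌈‖x‖⌉₊ + 2) x with hf
  have hfF : ∀ (m : ℕ) (y : ℂ), ‖y‖ ≤ m → f y = F (m + 2) y := by
    intro m y hy
    have h1 : ⌈‖y‖⌉₊ ≤ m := Nat.ceil_le.2 hy
    exact (hstab _ y (Nat.le_ceil _) (m + 2) (by omega)).eq_of_nhds.symm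
  have hlim : ∀ x : ℂ, ∃ M : ℕ, ∀ n, M ≤ n → f =ᶠ[𝓝 x] F n := by
    intro x
    set m : ℕ := ⌈‖x‖⌉₊ + 1 with hm
    have hxm : ‖x‖ < m := by
      rw [hm]
      push_cast
      linarith [Nat.le_ceil ‖x‖]
    have h1 : f =ᶠ[𝓝 x] F (m + 2) := by
      have : ∀ᶠ y in 𝓝 x, ‖y‖ < m := continuous_norm.continuousAt.eventually_lt
        continuousAt_const hxm
      filter_upwards [this] with y hy
      exact hfF m y hy.le
    exact ⟨m + 2, fun n hn => h1.trans (hstab m x hxm.le n hn).symm⟩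
  refine ⟨f, ?_, ?_⟩
  · rw [contDiff_iff_contDiffAt]
    intro x
    obtain ⟨M, hM⟩ := hlim x
    exact ((hFst M).sm.contDiffAt).congr_of_eventuallyEq (hM M le_rfl)
  · intro x
    obtain ⟨M, hM⟩ := hlim x
    set n : ℕ := max M (⌈‖x‖⌉₊ + 1) with hn
    have hfn := hM n (le_max_left _ _)
    have hxn : ‖x‖ + 1 ≤ n := by
      have h1 : ((⌈‖x‖⌉₊ + 1 : ℕ) : ℝ) ≤ (n : ℝ) := by exact_mod_cast le_max_right _ _
      push_cast at h1
      linarith [Nat.le_ceil ‖x‖]
    have hp1 : prog n x = 1 := by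
      unfold prog
      rw [min_eq_left (by linarith)]
      exact max_eq_right zero_le_one
    have hd1 := (d1_congr hfn 1).eq_of_nhds
    have hdI := (d1_congr hfn I).eq_of_nhds
    rw [hs_congr hfn, hd1, hdI]
    have hpow : (0 : ℝ) < (1 / 2) ^ n := by positivity
    obtain ⟨g1, g2⟩ := hFd n x
    refine ⟨(hFst n).kp x, ?_, by linarith, by linarith⟩
    have h2 := (hFst n).qq x
    rw [hp1, q_eq] at h2
    simpa [Cee, Lam] using h2

end

end Pool.Agent.R747.Mil
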