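import Mathlib
import Pool.Agent.R747.MilGeom
import Pool.Agent.R747.MilIter

/-!
Complete saddle graphs with arbitrarily large second fundamental form.
-/

open Set Filter Topology Complex
open scoped ContDiff RealInnerProductSpace

namespace Pool.Agent.R747.MilG

noncomputable section

open Pool.Agent.TH168.Mil (E3 IsPC IsCompleteSurf DivPathsInf pathLen)
open Pool.Agent.R747.Mil (d1 hs kap smooth_d1 exists_saddle)

/-- The identification of the real plane with the complex plane. -/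
def ee : (ℝ × ℝ) ≃L[ℝ] ℂ := Complex.equivRealProdCLM.symm

lemma ee_apply (P : ℝ × ℝ) : ee P = ⟨P.1, P.2⟩ := by
  apply Complex.ext <;> simp [ee]

lemma ee_one : ee (1, 0) = 1 := by rw [ee_apply]; rfl
lemma ee_I : ee (0, 1) = I := by rw [ee_apply]; rfl

lemma fderiv_comp_ee {g : ℂ → ℝ} (hg : ContDiff ℝ ∞ g) (P v : ℝ × ℝ) :
    fderiv ℝ (fun Q => g (ee Q)) P v = d1 (ee v) g (ee P) := by
  have h : HasFDerivAt (fun Q => g (ee Q)) ((fderiv ℝ g (ee P)).comp (ee : (ℝ × ℝ) →L[ℝ] ℂ)) P :=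
    ((hg.differentiable (by simp) (ee P)).hasFDerivAt).comp P (ee : (ℝ × ℝ) →L[ℝ] ℂ).hasFDerivAt
  rw [h.fderiv]
  rfl

lemma d1_ee {g : ℂ → ℝ} (v : ℝ × ℝ) (z : ℂ) : d1 (ee v) g z = v.1 * d1 1 g z + v.2 * d1 I g z := by
  have h : ee v = v.1 • (1 : ℂ) + v.2 • I := by
    rw [ee_apply]
    apply Complex.ext <;> simp
  unfold d1
  rw [h, map_add, map_smul, map_smul]
  rfl

lemma d1_symm {f : ℂ → ℝ} (hf : ContDiff ℝ ∞ f) (v w z : ℂ) :
    d1 v (d1 w f) z = d1 w (d1 v f) z := by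
  have hd : DifferentiableAt ℝ (fderiv ℝ f) z :=
    (hf.fderiv_right (m := ∞) (by exact_mod_cast le_top)).differentiable (by simp) z
  have key : ∀ v w : ℂ, d1 v (d1 w f) z = fderiv ℝ (fderiv ℝ f) z v w := by
    intro v w
    unfold d1
    have h : HasFDerivAt (fun y => fderiv ℝ f y w)
        ((ContinuousLinearMap.apply ℝ ℝ w).comp (fderiv ℝ (fderiv ℝ f) z)) z :=
      (ContinuousLinearMap.apply ℝ ℝ w).hasFDerivAt.comp z hd.hasFDerivAt
    rw [h.fderiv]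
    rfl
  rw [key, key]
  have hs : IsSymmSndFDerivAt ℝ f z :=
    ((hf.of_le (m := 2) (WithTop.coe_le_coe.2 le_top)).contDiffAt (x := z)).isSymmSndFDerivAt
      (n := 2) (by simp)
  exact hs v w

theorem main (φ : ℝ × ℝ → ℝ) (hφ : Continuous φ) : ∃ F : ℝ × ℝ → ℝ, ContDiff ℝ ∞ F ∧
    ∀ P, ∃ k₁ k₂ : ℝ, (∀ k : ℝ, IsPC (gph F) (nrm F) P k ↔ k = k₁ ∨ k = k₂) ∧
      k₁ < 0 ∧ 0 < k₂ ∧ φ P ≤ |k₁| + |k₂| := by
  set w : ℂ → ℝ := fun z => 1 + 2 * (‖z‖ + 1) ^ 2 with hw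
  have hw0 : ∀ z, 0 < w z := fun z => by positivity
  set ψ : ℂ → ℝ := fun z => φ (ee.symm z) with hψ
  have hψc : Continuous ψ := hφ.comp ee.symm.continuous
  have hwc : Continuous w := by fun_prop
  set b : ℂ → ℝ := fun z => 1 + ψ z ^ 2 * w z ^ 3 with hb
  have hb1 : ∀ z, 1 ≤ b z := fun z => by
    have := hw0 z
    have : 0 ≤ ψ z ^ 2 * w z ^ 3 := by positivity
    simp only [hb]
    linarith
  have hbc : Continuous b := by fun_prop
  obtain ⟨f, hf, hfx⟩ := exists_saddle (a := fun z => Real.log (b z))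
    (hbc.log fun z => by linarith [hb1 z]) (fun z => Real.log_nonneg (hb1 z))
  set F : ℝ × ℝ → ℝ := fun P => f (ee P) with hF
  have hFs : ContDiff ℝ ∞ F := hf.comp ee.contDiff
  have hpx : px F = fun Q => d1 1 f (ee Q) := by
    funext Q
    unfold px
    rw [hF, fderiv_comp_ee hf, ee_one]
  have hpy : py F = fun Q => d1 I f (ee Q) := by
    funext Q
    unfold py
    rw [hF, fderiv_comp_ee hf, ee_I]
  refine ⟨F, hFs, fun P => ?_⟩
  set z : ℂ := ee P with hz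
  obtain ⟨h1, h2, h3, h4⟩ := hfx z
  set r : ℝ := d1 1 (d1 1 f) z with hr
  set s : ℝ := d1 1 (d1 I f) z with hs'
  set t : ℝ := d1 I (d1 I f) z with ht
  have hkap : kap (hs f z) = s ^ 2 - r * t := by
    simp only [kap, hs, Complex.normSq_add_mul_I]
    rw [← hr, ← ht, ← hs']
    ring
  have hnsq : 4 * Complex.normSq (hs f z).2 = (r - t) ^ 2 + 4 * s ^ 2 := by
    simp only [hs, Complex.normSq_add_mul_I]
    rw [← hr, ← ht, ← hs']
    ring
  have hp : ∀ v : ℝ × ℝ, fderiv ℝ (px F) P v = r * v.1 + s * v.2 := by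
    intro v
    rw [hpx, fderiv_comp_ee (smooth_d1 hf 1), d1_ee, d1_symm hf I 1]
    ring
  have hq : ∀ v : ℝ × ℝ, fderiv ℝ (py F) P v = s * v.1 + t * v.2 := by
    intro v
    rw [hpy, fderiv_comp_ee (smooth_d1 hf I), d1_ee]
    ring
  rw [hkap] at h1
  obtain ⟨k₁, k₂, g1, g2, g3, g4⟩ := curvatures hFs P hp hq h1
  refine ⟨k₁, k₂, g1, g2, g3, ?_⟩
  rw [← hnsq] at g4
  rw [Real.exp_log (by linarith [hb1 z])] at h2
  -- the area element is bounded
  have hww : ww F P ^ 2 ≤ w z := by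
    rw [ww_sq, hpx, hpy]
    simp only
    rw [← hz]
    have e1 : |d1 1 f z| ≤ ‖z‖ + 1 := by
      have a1 := abs_add_le (d1 1 f z - z.im) z.im
      rw [sub_add_cancel] at a1
      linarith [Complex.abs_im_le_norm z]
    have e2 : |d1 I f z| ≤ ‖z‖ + 1 := by
      have a1 := abs_add_le (d1 I f z - z.re) z.re
      rw [sub_add_cancel] at a1
      linarith [Complex.abs_re_le_norm z]
    have e3 : d1 1 f z ^ 2 ≤ (‖z‖ + 1) ^ 2 := by
      rw [← sq_abs]; exact pow_le_pow_left₀ (abs_nonneg _) e1 2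
    have e4 : d1 I f z ^ 2 ≤ (‖z‖ + 1) ^ 2 := by
      rw [← sq_abs]; exact pow_le_pow_left₀ (abs_nonneg _) e2 2
    simp only [hw]
    linarith
  have hψφ : ψ z = φ P := by simp only [hψ, hz, ContinuousLinearEquiv.symm_apply_apply]
  have hS0 : 0 ≤ |k₁| + |k₂| := by positivity
  rcases le_or_gt (φ P) 0 with h0 | h0
  · exact h0.trans hS0
  have hwp := ww_pos F P
  by_contra hlt
  rw [not_le] at hlt
  have h5 : (ww F P ^ 3 * (|k₁| + |k₂|)) ^ 2 ≤ w z ^ 3 * φ P ^ 2 := by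
    have h6 : (ww F P ^ 3 * (|k₁| + |k₂|)) ^ 2 = (ww F P ^ 2) ^ 3 * (|k₁| + |k₂|) ^ 2 := by ring
    rw [h6]
    exact mul_le_mul (pow_le_pow_left₀ (by positivity) hww 3)
      (pow_le_pow_left₀ hS0 hlt.le 2) (by positivity) (by have := hw0 z; positivity)
  simp only [hb, hψφ] at h2
  have h7 : 0 ≤ φ P ^ 2 * w z ^ 3 := by have := hw0 z; positivity
  linarith

end

end Pool.Agent.R747.MilG
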