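import Mathlib

/-!
# Planar isotropic measures have two atoms spanning a large area
-/

set_option autoImplicit false

namespace Pool.Agent.R747.Pk

open Finset

/-- reduction of a planar barycentre condition to at most three atoms, without decreasing a linear
functional -/
theorem three_atoms {ι : Type} [Fintype ι] (r x y : ι → ℝ) :
    ∀ (n : ℕ) (c : ι → ℝ), (∀ i, 0 ≤ c i) → (univ.filter (fun i => c i ≠ 0)).card = n →
      ∑ i, c i * x i = 0 → ∑ i, c i * y i = 0 →
      ∃ w : ι → ℝ, (∀ i, 0 ≤ w i) ∧ ∑ i, w i = ∑ i, c i ∧ ∑ i, w i * x i = 0 ∧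
        ∑ i, w i * y i = 0 ∧ ∑ i, c i * r i ≤ ∑ i, w i * r i ∧
        (univ.filter (fun i => w i ≠ 0)).card ≤ 3 := by
  classical
  intro n
  induction n using Nat.strong_induction_on with
  | _ n ih =>
  intro c hc hn hx hy
  by_cases h3 : n ≤ 3
  · exact ⟨c, hc, rfl, hx, hy, le_refl _, hn ▸ h3⟩
  push Not at h3
  -- a nontrivial relation supported on the support of `c`
  let M : Matrix (Fin 3) ι ℝ := Matrix.of ![fun _ => 1, x, y]
  let f : (ι → ℝ) →ₗ[ℝ] (Fin 3 → ℝ) × ({i // c i = 0} → ℝ) :=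
    M.mulVecLin.prod (LinearMap.funLeft ℝ ℝ (fun i : {i // c i = 0} => (i : ι)))
  have hcard : Fintype.card {i // c i = 0} + n = Fintype.card ι := by
    rw [Fintype.card_subtype, ← hn, ← Finset.card_univ (α := ι)]
    exact Finset.card_filter_add_card_filter_not _
  have hker : LinearMap.ker f ≠ ⊥ := by
    apply LinearMap.ker_ne_bot_of_finrank_lt
    rw [Module.finrank_prod, Module.finrank_fintype_fun_eq_card, Module.finrank_fintype_fun_eq_card,
      Module.finrank_fintype_fun_eq_card, Fintype.card_fin]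
    omega
  obtain ⟨μ, hμ, hμ0⟩ := (Submodule.ne_bot_iff _).1 hker
  rw [LinearMap.mem_ker] at hμ
  have h1 : M.mulVecLin μ = 0 := congrArg Prod.fst hμ
  have h2 : (LinearMap.funLeft ℝ ℝ (fun i : {i // c i = 0} => (i : ι))) μ = 0 :=
    congrArg Prod.snd hμ
  have hz : ∀ i, c i = 0 → μ i = 0 := by
    intro i hi
    have := congrFun h2 ⟨i, hi⟩
    simpa [LinearMap.funLeft] using this
  have s0 : ∑ i, μ i = 0 := by
    have := congrFun h1 0
    simpa [M, Matrix.mulVec, dotProduct] using this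
  have sx : ∑ i, μ i * x i = 0 := by
    have := congrFun h1 1
    simp only [M, Matrix.mulVecLin_apply, Matrix.mulVec, dotProduct, Matrix.of_apply,
      Matrix.cons_val_one, Pi.zero_apply] at this
    rw [← this]
    exact sum_congr rfl fun i _ => by simp [mul_comm]
  have sy : ∑ i, μ i * y i = 0 := by
    have := congrFun h1 2
    simp only [M, Matrix.mulVecLin_apply, Matrix.mulVec, dotProduct, Matrix.of_apply,
      Pi.zero_apply] at this
    rw [← this]
    exact sum_congr rfl fun i _ => by simp [mul_comm]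
  -- choose the sign
  obtain ⟨ν, hν0, hνz, t0, tx, ty, tr⟩ : ∃ ν : ι → ℝ, ν ≠ 0 ∧ (∀ i, c i = 0 → ν i = 0) ∧
      ∑ i, ν i = 0 ∧ ∑ i, ν i * x i = 0 ∧ ∑ i, ν i * y i = 0 ∧ 0 ≤ ∑ i, ν i * r i := by
    rcases le_total 0 (∑ i, μ i * r i) with h | h
    · exact ⟨μ, hμ0, hz, s0, sx, sy, h⟩
    · refine ⟨-μ, neg_ne_zero.2 hμ0, fun i hi => by simp [hz i hi], ?_, ?_, ?_, ?_⟩
      · simp [s0]
      · simp [sx]
      · simp [sy]
      · simpa using h
  obtain ⟨i0, hi0⟩ : ∃ i, ν i < 0 := by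
    by_contra hcon
    push Not at hcon
    apply hν0
    funext i
    exact (sum_eq_zero_iff_of_nonneg (fun i _ => hcon i)).1 t0 i (mem_univ i)
  obtain ⟨j, hj, hjm⟩ := exists_min_image (univ.filter (fun i => ν i < 0)) (fun i => c i / (-ν i))
    ⟨i0, by simp [hi0]⟩
  rw [mem_filter] at hj
  have hj0 := hj.2
  have hcj : 0 < c j := lt_of_le_of_ne (hc j) (fun h => by rw [hνz j h.symm] at hj0; exact lt_irrefl _ hj0)
  set θ := c j / (-ν j) with hθ
  have hθ0 : 0 < θ := div_pos hcj (by linarith)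
  have hwj : c j + θ * ν j = 0 := by
    have hj1 : ν j ≠ 0 := hj0.ne
    rw [hθ, div_neg, neg_mul, div_mul_cancel₀ _ hj1]; ring
  have hw0 : ∀ i, 0 ≤ c i + θ * ν i := by
    intro i
    rcases le_or_gt 0 (ν i) with h | h
    · have := hc i; positivity
    · have h' := hjm i (by simp [h])
      rw [le_div_iff₀ (by linarith)] at h'
      linarith
  have hlt : (univ.filter (fun i => c i + θ * ν i ≠ 0)).card < n := by
    rw [← hn]
    apply card_lt_card
    refine ⟨?_, ?_⟩
    · intro i hi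
      rw [mem_filter] at hi ⊢
      refine ⟨mem_univ _, fun h => hi.2 ?_⟩
      rw [h, hνz i h]; ring
    · intro hsub
      have h' := hsub (show j ∈ univ.filter (fun i => c i ≠ 0) by simp [hcj.ne'])
      rw [mem_filter] at h'
      exact h'.2 hwj
  have e : ∀ g : ι → ℝ, ∑ i, (c i + θ * ν i) * g i = ∑ i, c i * g i + θ * ∑ i, ν i * g i := by
    intro g
    rw [mul_sum, ← sum_add_distrib]
    exact sum_congr rfl fun i _ => by ring
  obtain ⟨w, g1, g2, g3, g4, g5, g6⟩ := ih _ hlt (fun i => c i + θ * ν i) hw0 rfl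
    (by rw [e, hx, tx]; ring) (by rw [e, hy, ty]; ring)
  refine ⟨w, g1, ?_, g3, g4, ?_, g6⟩
  · rw [g2, sum_add_distrib, ← mul_sum, t0]; ring
  · refine le_trans ?_ g5
    rw [e]
    have := mul_nonneg hθ0.le tr
    linarith

/-- an isotropic measure of mass at most `W` in the plane has two atoms which span an area at least
`√3 / W` -/
theorem cross_big {ι : Type} [Fintype ι] (c x y : ι → ℝ) (hc : ∀ i, 0 ≤ c i) {W : ℝ}
    (hW : ∑ i, c i ≤ W) (hxx : ∑ i, c i * x i ^ 2 = 1) (hyy : ∑ i, c i * y i ^ 2 = 1)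
    (hxy : ∑ i, c i * (x i * y i) = 0) :
    ∃ j k, 3 ≤ W ^ 2 * (x j * y k - x k * y j) ^ 2 := by
  classical
  have hne : Nonempty ι := by
    by_contra h
    rw [not_nonempty_iff] at h
    simp at hxx
  obtain ⟨w, h1, h2, h3, h4, h5, h6⟩ := three_atoms (fun i => x i ^ 2 + y i ^ 2)
    (fun i => x i ^ 2 - y i ^ 2) (fun i => 2 * (x i * y i)) _ c hc rfl
    (by
      have : ∑ i, c i * (x i ^ 2 - y i ^ 2) = ∑ i, c i * x i ^ 2 - ∑ i, c i * y i ^ 2 := by
        rw [← sum_sub_distrib]; exact sum_congr rfl fun i _ => by ring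
      rw [this, hxx, hyy]; ring)
    (by
      have : ∑ i, c i * (2 * (x i * y i)) = 2 * ∑ i, c i * (x i * y i) := by
        rw [mul_sum]; exact sum_congr rfl fun i _ => by ring
      rw [this, hxy]; ring)
  have hr : ∑ i, c i * (x i ^ 2 + y i ^ 2) = 2 := by
    have : ∑ i, c i * (x i ^ 2 + y i ^ 2) = ∑ i, c i * x i ^ 2 + ∑ i, c i * y i ^ 2 := by
      rw [← sum_add_distrib]; exact sum_congr rfl fun i _ => by ring
    rw [this, hxx, hyy]; norm_num
  rw [hr] at h5
  obtain ⟨⟨j, k⟩, -, hjk⟩ := exists_max_image (univ : Finset (ι × ι))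
    (fun p => (x p.1 * y p.2 - x p.2 * y p.1) ^ 2) ⟨(hne.some, hne.some), mem_univ _⟩
  simp only at hjk
  set m := (x j * y k - x k * y j) ^ 2 with hm
  have hm0 : 0 ≤ m := sq_nonneg _
  refine ⟨j, k, ?_⟩
  -- the double sum
  have hdbl : ∑ i, ∑ l, w i * w l * (2 * (x i * y l - x l * y i) ^ 2)
      = (∑ i, w i * (x i ^ 2 + y i ^ 2)) ^ 2 - (∑ i, w i * (x i ^ 2 - y i ^ 2)) ^ 2
        - (∑ i, w i * (2 * (x i * y i))) ^ 2 := by
    rw [sq, sq, sq, sum_mul_sum, sum_mul_sum, sum_mul_sum, ← sum_sub_distrib, ← sum_sub_distrib]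
    refine sum_congr rfl fun i _ => ?_
    rw [← sum_sub_distrib, ← sum_sub_distrib]
    exact sum_congr rfl fun l _ => by ring
  rw [h3, h4] at hdbl
  have hup : ∑ i, ∑ l, w i * w l * (2 * (x i * y l - x l * y i) ^ 2)
      ≤ ∑ i, ∑ l, w i * w l * (2 * (if i = l then 0 else m)) := by
    refine sum_le_sum fun i _ => sum_le_sum fun l _ => ?_
    apply mul_le_mul_of_nonneg_left _ (mul_nonneg (h1 i) (h1 l))
    split_ifs with h
    · rw [h]; ring_nf; exact le_refl _
    · have := hjk (i, l) (mem_univ _)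
      linarith
  have hval : ∑ i, ∑ l, w i * w l * (2 * (if i = l then 0 else m))
      = 2 * m * ((∑ i, w i) ^ 2 - ∑ i, w i ^ 2) := by
    have e1 : ∀ i, ∑ l, w i * w l * (2 * (if i = l then 0 else m))
        = 2 * m * (w i * ∑ l, w l) - 2 * m * w i ^ 2 := by
      intro i
      have : ∀ l, w i * w l * (2 * (if i = l then 0 else m))
          = 2 * m * (w i * w l) - (if i = l then 2 * m * (w i * w l) else 0) := by
        intro l
        split_ifs <;> ring
      rw [sum_congr rfl fun l _ => this l, sum_sub_distrib, sum_ite_eq, if_pos (mem_univ _),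
        ← mul_sum, ← mul_sum]
      ring
    rw [sum_congr rfl fun i _ => e1 i, sum_sub_distrib, ← mul_sum, ← mul_sum, ← sum_mul]
    ring
  have hcs : (∑ i, w i) ^ 2 ≤ 3 * ∑ i, w i ^ 2 := by
    have e1 : ∑ i, w i = ∑ i ∈ univ.filter (fun i => w i ≠ 0), w i := by
      rw [sum_filter_ne_zero]
    have e2 : ∑ i ∈ univ.filter (fun i => w i ≠ 0), w i ^ 2 ≤ ∑ i, w i ^ 2 :=
      sum_le_sum_of_subset_of_nonneg (filter_subset _ _) fun i _ _ => sq_nonneg _
    have e3 := sq_sum_le_card_mul_sum_sq (s := univ.filter (fun i => w i ≠ 0)) (f := w)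
    have e4 : ((univ.filter (fun i => w i ≠ 0)).card : ℝ) ≤ 3 := by exact_mod_cast h6
    have e5 : 0 ≤ ∑ i ∈ univ.filter (fun i => w i ≠ 0), w i ^ 2 :=
      sum_nonneg fun i _ => sq_nonneg _
    rw [e1]
    nlinarith
  have hS0 : 0 ≤ ∑ i, w i := sum_nonneg fun i _ => h1 i
  have hSW : ∑ i, w i ≤ W := h2.trans_le hW
  have hSW2 : (∑ i, w i) ^ 2 ≤ W ^ 2 := by nlinarith
  have h7 : 4 ≤ 2 * m * ((∑ i, w i) ^ 2 - ∑ i, w i ^ 2) := by
    rw [← hval]
    refine le_trans ?_ hup
    rw [hdbl]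
    nlinarith
  nlinarith [mul_le_mul_of_nonneg_left hcs hm0, mul_le_mul_of_nonneg_left hSW2 hm0]

end Pool.Agent.R747.Pk
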