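import Pool.Agent.Y498.ML.Geo
import Pool.Agent.R747.PkAtoms

/-!
# Shadows of large area and deep holes: a better lattice of columns
-/

set_option autoImplicit false

namespace Pool.Agent.R747.Pk

open MeasureTheory Filter Topology
open scoped ENNReal
open Pool.Agent.H349R2.Tet
open Pool.Agent.TH219.DL
open Pool.Agent.Y498.ML

/-- the area of a planar convex set is at least half of the parallelogram spanned by two of its
chords -/
theorem area_cross {S : Set W} (hS : Convex ℝ S) {x y z t : W} (hx : x ∈ S) (hy : y ∈ S)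
    (hz : z ∈ S) (ht : t ∈ S) :
    ENNReal.ofReal (|(x 0 - y 0) * (z 1 - t 1) - (x 1 - y 1) * (z 0 - t 0)| / 2) ≤ volume S := by
  have e : (x 0 - y 0) * (z 1 - t 1) - (x 1 - y 1) * (z 0 - t 0) = Dt x y t - Dt x y z := by
    unfold Dt; ring
  rw [e]
  have hone : ∀ p : W, p ∈ S → ENNReal.ofReal (|Dt x y p| / 2) ≤ volume S := by
    intro p hp
    exact (vol_tri y p x).trans (measure_mono (tri_sub hS hy hp hx))
  have hpos : ∀ p : W, p ∈ S → 0 < Dt x y p →
      ENNReal.ofReal (|Dt x y p| / 2) ≤ volume (S ∩ {q | 0 < Dt x y q}) := by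
    intro p hp h
    have h1 := vol_tri p y x
    have h2 : |Dt x p y| = |Dt x y p| := by
      have : Dt x p y = - Dt x y p := by unfold Dt; ring
      rw [this, abs_neg]
    rw [h2] at h1
    refine h1.trans (measure_mono ?_)
    intro q hq
    refine ⟨tri_sub hS hp hy hx hq, ?_⟩
    obtain ⟨c, ⟨h0, h1, h2⟩, rfl⟩ := hq
    show 0 < Dt x y (fun i => c 0 * p i + c 1 * y i + (1 - c 0 - c 1) * x i)
    have : Dt x y (fun i => c 0 * p i + c 1 * y i + (1 - c 0 - c 1) * x i)
        = c 0 * Dt x y p := by unfold Dt; ring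
    rw [this]; positivity
  have hneg : ∀ p : W, p ∈ S → Dt x y p < 0 →
      ENNReal.ofReal (|Dt x y p| / 2) ≤ volume (S \ {q | 0 < Dt x y q}) := by
    intro p hp h
    have h1 := vol_tri p y x
    have h2 : |Dt x p y| = |Dt x y p| := by
      have : Dt x p y = - Dt x y p := by unfold Dt; ring
      rw [this, abs_neg]
    rw [h2] at h1
    refine h1.trans (measure_mono ?_)
    intro q hq
    refine ⟨tri_sub hS hp hy hx hq, ?_⟩
    obtain ⟨c, ⟨h0, h1, h2⟩, rfl⟩ := hq
    show ¬ (0 < Dt x y (fun i => c 0 * p i + c 1 * y i + (1 - c 0 - c 1) * x i))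
    have : Dt x y (fun i => c 0 * p i + c 1 * y i + (1 - c 0 - c 1) * x i)
        = c 0 * Dt x y p := by unfold Dt; ring
    rw [this, not_lt]
    nlinarith
  have hm : MeasurableSet {q : W | 0 < Dt x y q} :=
    (isOpen_lt continuous_const (Dt_cont continuous_const continuous_const
      continuous_id)).measurableSet
  have hsplit := measure_inter_add_sdiff (μ := volume) S hm
  have htwo : ∀ p q : W, p ∈ S → q ∈ S → 0 < Dt x y p → Dt x y q < 0 →
      ENNReal.ofReal ((|Dt x y p| + |Dt x y q|) / 2) ≤ volume S := by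
    intro p q hp hq h1 h2
    rw [← hsplit, add_div, ENNReal.ofReal_add (by positivity) (by positivity)]
    exact add_le_add (hpos p hp h1) (hneg q hq h2)
  rcases lt_trichotomy (Dt x y z) 0 with h1 | h1 | h1
  · rcases lt_or_ge 0 (Dt x y t) with h2 | h2
    · refine le_trans (ENNReal.ofReal_le_ofReal ?_) (htwo t z ht hz h2 h1)
      rw [abs_of_pos h2, abs_of_neg h1, abs_of_pos (by linarith)]
      linarith
    · rcases le_total (Dt x y t) (Dt x y z) with h3 | h3
      · refine le_trans (ENNReal.ofReal_le_ofReal ?_) (hone t ht)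
        rw [abs_of_nonpos h2, abs_of_nonpos (by linarith)]
        linarith
      · refine le_trans (ENNReal.ofReal_le_ofReal ?_) (hone z hz)
        rw [abs_of_neg h1, abs_of_nonneg (by linarith)]
        linarith
  · rw [h1, sub_zero]
    exact hone t ht
  · rcases lt_or_ge (Dt x y t) 0 with h2 | h2
    · refine le_trans (ENNReal.ofReal_le_ofReal ?_) (htwo z t hz ht h1 h2)
      rw [abs_of_pos h1, abs_of_neg h2, abs_of_neg (by linarith)]
      linarith
    · rcases le_total (Dt x y t) (Dt x y z) with h3 | h3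
      · refine le_trans (ENNReal.ofReal_le_ofReal ?_) (hone z hz)
        rw [abs_of_pos h1, abs_of_nonpos (by linarith)]
        linarith
      · refine le_trans (ENNReal.ofReal_le_ofReal ?_) (hone t ht)
        rw [abs_of_nonneg h2, abs_of_nonneg (by linarith)]
        linarith

/-- the circumradius of a triangle of given area -/
theorem circ_area {a b c : ℝ} (ha : 0 < a) (hc : 0 < c) (hb : 0 ≤ b) (hΔ : 0 < a * c - b ^ 2) :
    4 * (a * c - b ^ 2) ≤ 27 * (a * c * (a + c - 2 * b) / (4 * (a * c - b ^ 2))) ^ 2 := by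
  set q : ℝ := √(a * c) with hq
  have hq2 : q ^ 2 = a * c := Real.sq_sqrt (by positivity)
  have hq0 : 0 < q := Real.sqrt_pos.2 (by positivity)
  have hqb : b < q := by
    by_contra h
    push Not at h
    nlinarith
  have h1 : 2 * q ≤ a + c := by nlinarith [sq_nonneg (a - c)]
  have h2 : 0 < q - b := by linarith
  have h3 : 2 * (q - b) ≤ a + c - 2 * b := by linarith
  have h4 : (2 * (q - b)) ^ 2 ≤ (a + c - 2 * b) ^ 2 := by
    apply pow_le_pow_left₀ (by linarith) h3
  have h5 : 16 * ((q - b) * (q + b) ^ 3) ≤ 27 * q ^ 4 := by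
    have : 27 * q ^ 4 - 16 * ((q - b) * (q + b) ^ 3)
        = (q - 2 * b) ^ 2 * (11 * q ^ 2 + 12 * q * b + 4 * b ^ 2) := by ring
    have h6 : 0 ≤ (q - 2 * b) ^ 2 * (11 * q ^ 2 + 12 * q * b + 4 * b ^ 2) := by positivity
    linarith
  have h7 : 64 * (a * c - b ^ 2) ^ 3 ≤ 27 * (a * c * (a + c - 2 * b)) ^ 2 := by
    rw [← hq2]
    calc 64 * (q ^ 2 - b ^ 2) ^ 3 = 4 * (q - b) ^ 2 * (16 * ((q - b) * (q + b) ^ 3)) := by ring
      _ ≤ 4 * (q - b) ^ 2 * (27 * q ^ 4) := by gcongr
      _ = 27 * q ^ 4 * (2 * (q - b)) ^ 2 := by ring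
      _ ≤ 27 * q ^ 4 * (a + c - 2 * b) ^ 2 := by gcongr
      _ = 27 * (q ^ 2 * (a + c - 2 * b)) ^ 2 := by ring
  rw [div_pow, ← mul_div_assoc, le_div_iff₀ (by positivity)]
  calc 4 * (a * c - b ^ 2) * (4 * (a * c - b ^ 2)) ^ 2 = 64 * (a * c - b ^ 2) ^ 3 := by ring
    _ ≤ _ := h7

/-- the deep hole of a planar lattice of given determinant -/
theorem hole_area {u w : Fin 2 → ℝ} (hD : 0 < u 0 * w 1 - u 1 * w 0) {ρ : ℝ} (hρ : 0 ≤ ρ)
    (hle : 27 * ρ ^ 2 ≤ 4 * (u 0 * w 1 - u 1 * w 0) ^ 2) :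
    ∃ t : Fin 2 → ℝ, ∀ m n : ℤ,
      ρ ≤ (t 0 - (m * u 0 + n * w 0)) ^ 2 + (t 1 - (m * u 1 + n * w 1)) ^ 2 := by
  obtain ⟨u', w', p, q, r, s, h1, hu', hw', h2, h3, h4⟩ := reduced hD
  have hε : p * s - q * r = 1 ∨ p * s - q * r = -1 := by
    have h : (p * s - q * r - 1) * (p * s - q * r + 1) = 0 := by linear_combination h1
    rcases mul_eq_zero.1 h with h | h
    · left; omega
    · right; omega
  set a := u' 0 ^ 2 + u' 1 ^ 2 with had
  set c := w' 0 ^ 2 + w' 1 ^ 2 with hcd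
  set b := u' 0 * w' 0 + u' 1 * w' 1 with hbd
  have h1' : ((p : ℝ) * s - q * r) ^ 2 = 1 := by exact_mod_cast h1
  have hΔe : a * c - b ^ 2 = (u 0 * w 1 - u 1 * w 0) ^ 2 := by
    have : a * c - b ^ 2 = (u' 0 * w' 1 - u' 1 * w' 0) ^ 2 := by
      rw [had, hcd, hbd]; ring
    rw [this, hu' 0, hu' 1, hw' 0, hw' 1]
    have e : ((p : ℝ) * u 0 + q * w 0) * (r * u 1 + s * w 1)
        - (p * u 1 + q * w 1) * (r * u 0 + s * w 0)
        = (p * s - q * r) * (u 0 * w 1 - u 1 * w 0) := by ring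
    rw [e, mul_pow, h1', one_mul]
  have hΔ : 0 < a * c - b ^ 2 := by rw [hΔe]; positivity
  have ha : 0 < a := by
    have h0 : 0 ≤ a := by positivity
    rcases h0.eq_or_lt with h | h
    · rw [← h] at hΔ; nlinarith
    · exact h
  have hc : 0 < c := by
    have h0 : 0 ≤ c := by positivity
    rcases h0.eq_or_lt with h | h
    · rw [← h] at hΔ; nlinarith
    · exact h
  obtain ⟨t, ht⟩ := hole_red (u := u') (w := w') had hcd hbd hΔ h2 h3 h4
  have h5 := circ_area ha hc h2 hΔ
  set R := a * c * (a + c - 2 * b) / (4 * (a * c - b ^ 2)) with hR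
  have hR0 : 0 ≤ R := by
    rw [hR]
    apply div_nonneg _ (by linarith)
    apply mul_nonneg (by positivity)
    linarith
  have hρR : ρ ≤ R := by
    rw [← hΔe] at hle
    have : ρ ^ 2 ≤ R ^ 2 := by linarith
    exact (pow_le_pow_iff_left₀ hρ hR0 (by norm_num)).1 this
  refine ⟨t, fun m n => hρR.trans ?_⟩
  rcases hε with h | h
  · have hR' : (p : ℝ) * s - q * r = 1 := by exact_mod_cast h
    have h6 := ht (m * s - n * r) (-m * q + n * p)
    rw [hu' 0, hu' 1, hw' 0, hw' 1] at h6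
    push_cast at h6
    have e0 : ((m : ℝ) * s - n * r) * (p * u 0 + q * w 0) + (-m * q + n * p) * (r * u 0 + s * w 0)
        = m * u 0 + n * w 0 := by linear_combination (m * u 0 + n * w 0) * hR'
    have e1 : ((m : ℝ) * s - n * r) * (p * u 1 + q * w 1) + (-m * q + n * p) * (r * u 1 + s * w 1)
        = m * u 1 + n * w 1 := by linear_combination (m * u 1 + n * w 1) * hR'
    rw [e0, e1] at h6
    linarith
  · have hR' : (p : ℝ) * s - q * r = -1 := by exact_mod_cast h
    have h6 := ht (-(m * s - n * r)) (-(-m * q + n * p))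
    rw [hu' 0, hu' 1, hw' 0, hw' 1] at h6
    push_cast at h6
    have e0 : (-((m : ℝ) * s - n * r)) * (p * u 0 + q * w 0)
        + (-(-m * q + n * p)) * (r * u 0 + s * w 0)
        = m * u 0 + n * w 0 := by linear_combination (-(m * u 0 + n * w 0)) * hR'
    have e1 : (-((m : ℝ) * s - n * r)) * (p * u 1 + q * w 1)
        + (-(-m * q + n * p)) * (r * u 1 + s * w 1)
        = m * u 1 + n * w 1 := by linear_combination (-(m * u 1 + n * w 1)) * hR'
    rw [e0, e1] at h6
    linarith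

/-- a body of diameter one with a vertical chord of length one and two chords whose shadows span a
parallelogram of area at least `2√3/5` -/
theorem geo {K : Set V} (hK : IsCompact K) (hc : Convex ℝ K) (hne : (interior K).Nonempty)
    (hd : ∀ x ∈ K, ∀ y ∈ K, (x 0 - y 0) ^ 2 + (x 1 - y 1) ^ 2 + (x 2 - y 2) ^ 2 ≤ 1)
    {x0 : Fin 2 → ℝ} (hx0 : x0 ∈ G K 1)
    (hw : ∃ x ∈ K, ∃ y ∈ K, ∃ z ∈ K, ∃ t ∈ K,
      12 / 25 ≤ ((x 1 - y 1) * (z 2 - t 2) - (x 2 - y 2) * (z 1 - t 1)) ^ 2) :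
    ∃ b : Fin 3 → V, Packs K b ∧
      ENNReal.ofReal (√5 / 9) * ENNReal.ofReal |dt b| ≤ volume K := by
  obtain ⟨u, w, hD, hDle, hadm⟩ := fary (shadow_convex hc) (shadow_compact hK)
    (shadow_interior hne)
  set D : ℝ := u 0 * w 1 - u 1 * w 0 with hDd
  have h3 : √3 ^ 2 = 3 := Real.sq_sqrt (by norm_num)
  have h30 : 0 < √3 := Real.sqrt_pos.2 (by norm_num)
  have h5 : √5 ^ 2 = 5 := Real.sq_sqrt (by norm_num)
  have h50 : 0 < √5 := Real.sqrt_pos.2 (by norm_num)
  have hcone := cone hK hc one_pos hx0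
  have hcone' : ENNReal.ofReal (1 / 3) * volume (G K 0) ≤ volume K := by
    simpa using hcone
  -- the area of the shadow
  have harea : ENNReal.ofReal (√3 / 5) ≤ volume (G K 0) := by
    obtain ⟨x, hx, y, hy, z, hz, t, ht, h⟩ := hw
    have hg : ∀ v ∈ K, pr v ∈ G K 0 := fun v hv => by rw [G_zero]; exact ⟨v, hv, rfl⟩
    refine le_trans (ENNReal.ofReal_le_ofReal ?_)
      (area_cross (shadow_convex hc) (hg x hx) (hg y hy) (hg z hz) (hg t ht))
    simp only [pr_zero, pr_one]
    have h1 : (2 * √3 / 5) ^ 2 ≤ ((x 1 - y 1) * (z 2 - t 2) - (x 2 - y 2) * (z 1 - t 1)) ^ 2 := by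
      rw [div_pow, mul_pow, h3]; linarith
    have h2 := sq_le_sq.1 h1
    rw [abs_of_pos (by positivity)] at h2
    linarith
  have main : ∀ s : ℝ, 0 < s → 1 ≤ 4 * s ^ 2 → 27 * (1 - s ^ 2) ^ 2 ≤ 4 * D ^ 2 → 0 ≤ 1 - s ^ 2 →
      ENNReal.ofReal (√5 / 9 * (s * D)) ≤ volume K →
      ∃ b : Fin 3 → V, Packs K b ∧ ENNReal.ofReal (√5 / 9) * ENNReal.ofReal |dt b| ≤ volume K := by
    intro s hs0 hs4 hle hs1 hvol
    obtain ⟨t, ht⟩ := hole_area hD hs1 hle
    refine ⟨bh s t u w, hole_packs hs0 hd hD hadm hs4 ht, ?_⟩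
    rw [dt_bh, abs_of_pos (mul_pos hs0 hD), ← ENNReal.ofReal_mul (by positivity)]
    exact hvol
  rcases le_or_gt (3 * √3 / 10) D with hx | hx
  · refine main (2 / √5) (by positivity) ?_ ?_ ?_ ?_
    · rw [div_pow, h5]; norm_num
    · rw [div_pow, h5]
      have : (3 * √3 / 10) ^ 2 ≤ D ^ 2 := pow_le_pow_left₀ (by positivity) hx 2
      rw [div_pow, mul_pow, h3] at this
      norm_num at this ⊢
      linarith
    · rw [div_pow, h5]; norm_num
    · have e : √5 / 9 * (2 / √5 * D) = 2 / 9 * D := by field_simp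
      rw [e]
      calc ENNReal.ofReal (2 / 9 * D)
          = ENNReal.ofReal (2 / 9) * ENNReal.ofReal D :=
            ENNReal.ofReal_mul (by norm_num)
        _ ≤ ENNReal.ofReal (2 / 9) * (ENNReal.ofReal (3 / 2) * volume (G K 0)) := by gcongr
        _ = ENNReal.ofReal (1 / 3) * volume (G K 0) := by
            rw [← mul_assoc, ← ENNReal.ofReal_mul (by norm_num)]
            congr 2
            norm_num
        _ ≤ volume K := hcone'
  · set τ : ℝ := 2 * √3 / 9 * D with hτ
    have hτ0 : 0 < τ := by positivity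
    have hτ5 : τ < 1 / 5 := by
      rw [hτ]
      have : 2 * √3 / 9 * D < 2 * √3 / 9 * (3 * √3 / 10) := by gcongr
      refine this.trans_le (le_of_eq ?_)
      have : 2 * √3 / 9 * (3 * √3 / 10) = √3 ^ 2 / 15 := by ring
      rw [this, h3]; norm_num
    have hτ2 : τ ^ 2 = 4 / 27 * D ^ 2 := by
      rw [hτ, mul_pow, div_pow, mul_pow, h3]; ring
    have hs2 : √(1 - τ) ^ 2 = 1 - τ := Real.sq_sqrt (by linarith)
    refine main (√(1 - τ)) (Real.sqrt_pos.2 (by linarith)) ?_ ?_ ?_ ?_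
    · rw [hs2]; linarith
    · rw [hs2]; nlinarith
    · rw [hs2]; linarith
    · refine le_trans ?_ hcone'
      calc ENNReal.ofReal (√5 / 9 * (√(1 - τ) * D))
          ≤ ENNReal.ofReal (1 / 3 * (√3 / 5)) := by
            apply ENNReal.ofReal_le_ofReal
            rw [← pow_le_pow_iff_left₀ (by positivity) (by positivity) (two_ne_zero)]
            rw [mul_pow, mul_pow, mul_pow, div_pow, div_pow, div_pow, h5, h3, hs2]
            have hf : 0 ≤ (1 / 5 - τ) * (4 / 25 + 4 / 5 * τ - τ ^ 2) := by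
              apply mul_nonneg (by linarith)
              nlinarith
            have hf2 : τ ^ 2 * (1 - τ) ≤ 4 / 125 := by nlinarith
            have hf3 : D ^ 2 * (1 - τ) ≤ 27 / 125 := by
              have : D ^ 2 = 27 / 4 * τ ^ 2 := by rw [hτ2]; ring
              rw [this]; nlinarith
            nlinarith
        _ = ENNReal.ofReal (1 / 3) * ENNReal.ofReal (√3 / 5) := ENNReal.ofReal_mul (by norm_num)
        _ ≤ ENNReal.ofReal (1 / 3) * volume (G K 0) := by gcongr

end Pool.Agent.R747.Pk
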