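import Pool.Agent.R747.PkGeo
import Pool.Agent.Y498.ML.Top

/-!
# Every convex body in space has a lattice packing of density at least `√5/9`
-/

set_option autoImplicit false

namespace Pool.Agent.R747.Pk

open MeasureTheory Filter Topology Matrix Finset
open scoped ENNReal
open Pool.Agent.H349R2.Tet
open Pool.Agent.TH219.DL
open Pool.Agent.Y498.ML

/-- a decomposition of the identity along unit vectors has a vector `e` such that, for every
orthonormal pair `a, b` orthogonal to `e`, two of the vectors project to the plane of `a, b` with a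
large cross product -/
theorem weight' {ι : Type} [Fintype ι] {v : ι → Fin 3 → ℝ} {c : ι → ℝ} (hc : ∀ i, 0 < c i)
    (hv : ∀ i, v i ⬝ᵥ v i = 1) (hs : ∑ i, c i • Matrix.vecMulVec (v i) (v i) = 1) :
    ∃ i, ∀ a b : Fin 3 → ℝ, a ⬝ᵥ a = 1 → b ⬝ᵥ b = 1 → a ⬝ᵥ b = 0 → a ⬝ᵥ v i = 0 →
      b ⬝ᵥ v i = 0 → ∃ j k, 12 / 25 ≤ ((a ⬝ᵥ v j) * (b ⬝ᵥ v k) - (a ⬝ᵥ v k) * (b ⬝ᵥ v j)) ^ 2 := by
  classical
  have hent : ∀ a b : Fin 3, ∑ i, c i * (v i a * v i b) = (1 : Matrix (Fin 3) (Fin 3) ℝ) a b := by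
    intro a b
    rw [← hs, Matrix.sum_apply]
    refine sum_congr rfl fun i _ => ?_
    simp [Matrix.vecMulVec_apply]
  have hv' : ∀ i, v i 0 ^ 2 + v i 1 ^ 2 + v i 2 ^ 2 = 1 := by
    intro i
    have := hv i
    simp only [dotProduct, Fin.sum_univ_three] at this
    linarith [this]
  have hsum : ∑ i, c i = 3 := by
    have h : ∑ i, c i = ∑ i, (c i * (v i 0 * v i 0) + c i * (v i 1 * v i 1)
        + c i * (v i 2 * v i 2)) := by
      refine sum_congr rfl fun i _ => ?_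
      linear_combination (-(c i)) * hv' i
    rw [h, sum_add_distrib, sum_add_distrib, hent, hent, hent]
    simp
    norm_num
  set tg : Fin 5 → ℝ := ![1 / 3, 1 / 3, 0, 0, 0] with htg
  have hmem : tg ∈ convexHull ℝ (Set.range fun i => ps (v i)) := by
    have h1 : tg = ∑ i, (c i / 3) • ps (v i) := by
      funext k
      rw [Finset.sum_apply]
      fin_cases k
      · have := hent 0 0
        simp only [Matrix.one_apply_eq] at this
        simp only [htg, ps, Pi.smul_apply, smul_eq_mul]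
        show (1 / 3 : ℝ) = ∑ i, c i / 3 * (v i 0 ^ 2)
        rw [← this, sum_div]
        exact sum_congr rfl fun i _ => by ring
      · have := hent 1 1
        simp only [Matrix.one_apply_eq] at this
        simp only [htg, ps, Pi.smul_apply, smul_eq_mul]
        show (1 / 3 : ℝ) = ∑ i, c i / 3 * (v i 1 ^ 2)
        rw [← this, sum_div]
        exact sum_congr rfl fun i _ => by ring
      · have := hent 0 1
        rw [Matrix.one_apply_ne (by decide)] at this
        simp only [htg, ps, Pi.smul_apply, smul_eq_mul]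
        show (0 : ℝ) = ∑ i, c i / 3 * (v i 0 * v i 1)
        rw [← zero_div 3, ← this, sum_div]
        exact sum_congr rfl fun i _ => by ring
      · have := hent 0 2
        rw [Matrix.one_apply_ne (by decide)] at this
        simp only [htg, ps, Pi.smul_apply, smul_eq_mul]
        show (0 : ℝ) = ∑ i, c i / 3 * (v i 0 * v i 2)
        rw [← zero_div 3, ← this, sum_div]
        exact sum_congr rfl fun i _ => by ring
      · have := hent 1 2
        rw [Matrix.one_apply_ne (by decide)] at this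
        simp only [htg, ps, Pi.smul_apply, smul_eq_mul]
        show (0 : ℝ) = ∑ i, c i / 3 * (v i 1 * v i 2)
        rw [← zero_div 3, ← this, sum_div]
        exact sum_congr rfl fun i _ => by ring
    rw [h1]
    refine (convex_convexHull ℝ _).sum_mem (fun i _ => by have := hc i; positivity) ?_
      fun i _ => subset_convexHull ℝ _ ⟨i, rfl⟩
    rw [← sum_div, hsum]; norm_num
  obtain ⟨κ, hκ, z, w, hz, haff, hw, hw1, hwz⟩ := eq_pos_convex_span_of_mem_convexHull hmem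
  have hcard : Fintype.card κ ≤ 6 := by
    have h1 := haff.card_le_finrank_succ
    have h2 : Module.finrank ℝ (vectorSpan ℝ (Set.range z)) ≤ 5 := by
      refine le_trans (Submodule.finrank_le _) ?_
      simp
    omega
  have hch : ∀ k, ∃ i, ps (v i) = z k := fun k => hz ⟨k, rfl⟩
  choose f hf using hch
  have hwz' : ∀ a : Fin 5, ∑ k, w k * z k a = tg a := by
    intro a
    rw [← hwz, Finset.sum_apply]
    rfl
  have z0 : ∀ k, z k 0 = v (f k) 0 ^ 2 := fun k => by rw [← hf k]; rfl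
  have z1 : ∀ k, z k 1 = v (f k) 1 ^ 2 := fun k => by rw [← hf k]; rfl
  have z2 : ∀ k, z k 2 = v (f k) 0 * v (f k) 1 := fun k => by rw [← hf k]; rfl
  have z3 : ∀ k, z k 3 = v (f k) 0 * v (f k) 2 := fun k => by rw [← hf k]; rfl
  have z4 : ∀ k, z k 4 = v (f k) 1 * v (f k) 2 := fun k => by rw [← hf k]; rfl
  have hquad : ∀ x : Fin 3 → ℝ, ∑ k, 3 * w k * (x ⬝ᵥ v (f k)) ^ 2 = x ⬝ᵥ x := by
    intro x
    have e : ∀ k, 3 * w k * (x ⬝ᵥ v (f k)) ^ 2 = 3 * (x 0 ^ 2 - x 2 ^ 2) * (w k * z k 0)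
        + 3 * (x 1 ^ 2 - x 2 ^ 2) * (w k * z k 1) + 6 * x 0 * x 1 * (w k * z k 2)
        + 6 * x 0 * x 2 * (w k * z k 3) + 6 * x 1 * x 2 * (w k * z k 4)
        + 3 * x 2 ^ 2 * w k := by
      intro k
      rw [z0, z1, z2, z3, z4]
      simp only [dotProduct, Fin.sum_univ_three]
      linear_combination (3 * x 2 ^ 2 * w k) * hv' (f k)
    rw [sum_congr rfl fun k _ => e k]
    simp only [sum_add_distrib, ← mul_sum, hwz', hw1]
    simp only [htg, dotProduct, Fin.sum_univ_three]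
    show 3 * (x 0 ^ 2 - x 2 ^ 2) * (1 / 3) + 3 * (x 1 ^ 2 - x 2 ^ 2) * (1 / 3)
      + 6 * x 0 * x 1 * 0 + 6 * x 0 * x 2 * 0 + 6 * x 1 * x 2 * 0 + 3 * x 2 ^ 2 * 1
      = x 0 * x 0 + x 1 * x 1 + x 2 * x 2
    ring
  obtain ⟨k, hk⟩ : ∃ k, 1 / 6 ≤ w k := by
    by_contra hcon
    push Not at hcon
    have hne : (univ : Finset κ).Nonempty := by
      rw [univ_nonempty_iff]
      by_contra hemp
      rw [not_nonempty_iff] at hemp
      simp at hw1
    have h1 : ∑ k, w k < ∑ _k : κ, (1 / 6 : ℝ) := sum_lt_sum_of_nonempty hne fun k _ => hcon k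
    rw [hw1, sum_const, card_univ, nsmul_eq_mul] at h1
    have h2 : (Fintype.card κ : ℝ) ≤ 6 := by exact_mod_cast hcard
    linarith
  refine ⟨f k, fun a b ha hb hab hak hbk => ?_⟩
  have hsplit : ∀ g : κ → ℝ, g k = 0 →
      ∑ j, (if j = k then 0 else 3 * w j) * g j = ∑ j, 3 * w j * g j := by
    intro g hg
    refine sum_congr rfl fun j _ => ?_
    split_ifs with h
    · rw [h, hg]; ring
    · rfl
  have hW : ∑ j, (if j = k then 0 else 3 * w j) ≤ 5 / 2 := by
    have h1 := add_sum_erase univ w (mem_univ k)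
    rw [hw1] at h1
    have h2 : ∑ j, (if j = k then 0 else 3 * w j) = 3 * ∑ j ∈ univ.erase k, w j := by
      rw [← add_sum_erase univ _ (mem_univ k), if_pos rfl, zero_add, mul_sum]
      refine sum_congr rfl fun j hj => ?_
      rw [if_neg (ne_of_mem_erase hj)]
    rw [h2]
    linarith
  have hxx : ∑ j, (if j = k then 0 else 3 * w j) * (a ⬝ᵥ v (f j)) ^ 2 = 1 := by
    rw [hsplit _ (by rw [hak]; ring), hquad, ha]
  have hyy : ∑ j, (if j = k then 0 else 3 * w j) * (b ⬝ᵥ v (f j)) ^ 2 = 1 := by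
    rw [hsplit _ (by rw [hbk]; ring), hquad, hb]
  have hxy : ∑ j, (if j = k then 0 else 3 * w j) * ((a ⬝ᵥ v (f j)) * (b ⬝ᵥ v (f j))) = 0 := by
    rw [hsplit _ (by rw [hak]; ring)]
    have h1 := hquad (a + b)
    have h2 : (a + b) ⬝ᵥ (a + b) = 2 := by
      rw [add_dotProduct, dotProduct_add, dotProduct_add, ha, hb, hab, dotProduct_comm b a, hab]
      norm_num
    rw [h2] at h1
    have h3 : ∑ j, 3 * w j * ((a + b) ⬝ᵥ v (f j)) ^ 2
        = ∑ j, 3 * w j * (a ⬝ᵥ v (f j)) ^ 2 + ∑ j, 3 * w j * (b ⬝ᵥ v (f j)) ^ 2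
          + 2 * ∑ j, 3 * w j * ((a ⬝ᵥ v (f j)) * (b ⬝ᵥ v (f j))) := by
      rw [mul_sum, ← sum_add_distrib, ← sum_add_distrib]
      refine sum_congr rfl fun j _ => ?_
      rw [add_dotProduct]
      ring
    rw [h3, hquad, hquad, ha, hb] at h1
    linarith
  obtain ⟨j, l, h⟩ := cross_big (fun j => if j = k then 0 else 3 * w j)
    (fun j => a ⬝ᵥ v (f j)) (fun j => b ⬝ᵥ v (f j))
    (fun j => by
      show (0 : ℝ) ≤ if j = k then 0 else 3 * w j
      split_ifs
      · exact le_rfl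
      · have := hw j; positivity) hW hxx hyy hxy
  refine ⟨f j, f l, ?_⟩
  nlinarith [h]

/-- every convex body has a linear image of diameter one with a vertical chord of length one, whose
shadow has two chords spanning a large parallelogram -/
theorem normal' {K : Set V} (hK : Body K) : ∃ L : V ≃ₗ[ℝ] V,
    (∀ x ∈ L '' K, ∀ y ∈ L '' K, (x 0 - y 0) ^ 2 + (x 1 - y 1) ^ 2 + (x 2 - y 2) ^ 2 ≤ 1) ∧
    (∃ x0, x0 ∈ G (L '' K) 1) ∧
    ∃ x ∈ L '' K, ∃ y ∈ L '' K, ∃ z ∈ L '' K, ∃ t ∈ L '' K,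
      12 / 25 ≤ ((x 1 - y 1) * (z 2 - t 2) - (x 2 - y 2) * (z 1 - t 1)) ^ 2 := by
  obtain ⟨hc, hv, hne⟩ := hK
  set D : Set V := (fun p : V × V => p.1 - p.2) '' (K ×ˢ K) with hD
  have hDc : IsCompact D := (hc.prod hc).image (continuous_fst.sub continuous_snd)
  have hDv : Convex ℝ D := by
    rintro _ ⟨⟨a, b⟩, ⟨ha, hb⟩, rfl⟩ _ ⟨⟨a', b'⟩, ⟨ha', hb'⟩, rfl⟩ s t hs ht hst
    refine ⟨(s • a + t • a', s • b + t • b'), ⟨hv ha ha' hs ht hst, hv hb hb' hs ht hst⟩, ?_⟩
    simp only [smul_sub]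
    abel
  have hDs : ∀ x ∈ D, -x ∈ D := by
    rintro _ ⟨⟨a, b⟩, ⟨ha, hb⟩, rfl⟩
    exact ⟨(b, a), ⟨hb, ha⟩, by simp⟩
  have hD0 : D ∈ 𝓝 (0 : V) := by
    obtain ⟨z, hz⟩ := hne
    have h1 : Tendsto (fun x : V => z + x) (𝓝 0) (𝓝 z) := by
      have : Continuous fun x : V => z + x := by fun_prop
      simpa using this.tendsto 0
    have h2 := h1.eventually (isOpen_interior.mem_nhds hz)
    refine mem_of_superset h2 fun x hx => ?_
    exact ⟨(z + x, z), ⟨interior_subset hx, interior_subset hz⟩, by simp⟩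
  obtain ⟨L, hdet, hL1, ι, hι, v, c, hcp, hvu, hsum, hcon⟩ := loewner (by norm_num) hDc hDv hDs hD0
  obtain ⟨i, hi⟩ := weight' hcp hvu hsum
  obtain ⟨O, hO1, hO2⟩ := rot (hvu i)
  have hOd : ∀ x y : V, (O *ᵥ x) ⬝ᵥ (O *ᵥ y) = x ⬝ᵥ y := by
    intro x y
    rw [dotProduct_mulVec, ← mulVec_transpose, mulVec_mulVec, hO1, one_mulVec]
  have hOdet : O.det ≠ 0 := by
    intro h
    have := congrArg Matrix.det hO1
    rw [det_mul, det_transpose, h] at this
    simp at this
  have hMdet : LinearMap.det (Matrix.toLin' (O * L)) ≠ 0 := by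
    rw [LinearMap.det_toLin', det_mul]
    exact mul_ne_zero hOdet hdet.ne'
  set E := LinearMap.equivOfDetNeZero _ hMdet with hE
  have hEa : ∀ x : V, E x = O *ᵥ (L *ᵥ x) := by
    intro x
    show Matrix.toLin' (O * L) x = _
    rw [toLin'_apply, ← mulVec_mulVec]
  refine ⟨E, ?_, ?_, ?_⟩
  · rintro _ ⟨x, hx, rfl⟩ _ ⟨y, hy, rfl⟩
    have h1 := hL1 (x - y) ⟨(x, y), ⟨hx, hy⟩, rfl⟩
    rw [← hOd, ← hEa, map_sub] at h1
    simp only [dotProduct, Fin.sum_univ_three, Pi.sub_apply] at h1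
    linarith
  · obtain ⟨_, ⟨⟨a, b⟩, ⟨ha, hb⟩, rfl⟩, hab⟩ := hcon i
    simp only at hab
    have h1 : E a - E b = ![1, 0, 0] := by
      rw [← map_sub, hEa, hab, hO2]
    refine ⟨pr (E b), E b 0, ?_, ?_⟩
    · rw [cs_pr]; exact ⟨b, hb, rfl⟩
    · have e : cs (E b 0 + 1) (pr (E b)) = E a := by
        have h0 := congrFun h1 0
        have h2 := congrFun h1 1
        have h3 := congrFun h1 2
        simp only [Pi.sub_apply, Matrix.cons_val_zero, Matrix.cons_val_one, Matrix.cons_val] at h0 h2 h3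
        symm
        apply cs_ext
        · linarith
        · simp only [pr_zero]; linarith
        · simp only [pr_one]; linarith
      rw [e]
      exact ⟨a, ha, rfl⟩
  · have hOO : O * Oᵀ = 1 := mul_eq_one_comm.1 hO1
    have hdot : ∀ g y : V, (Oᵀ *ᵥ g) ⬝ᵥ y = g ⬝ᵥ (O *ᵥ y) := by
      intro g y
      rw [mulVec_transpose, dotProduct_mulVec]
    have hdd : ∀ g h : V, (Oᵀ *ᵥ g) ⬝ᵥ (Oᵀ *ᵥ h) = g ⬝ᵥ h := by
      intro g h
      rw [hdot, mulVec_mulVec, hOO, one_mulVec]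
    obtain ⟨j, k, hjk⟩ := hi (Oᵀ *ᵥ ![0, 1, 0]) (Oᵀ *ᵥ ![0, 0, 1])
      (by rw [hdd]; simp [dotProduct, Fin.sum_univ_three])
      (by rw [hdd]; simp [dotProduct, Fin.sum_univ_three])
      (by rw [hdd]; simp [dotProduct, Fin.sum_univ_three])
      (by rw [hdot, hO2]; simp [dotProduct, Fin.sum_univ_three])
      (by rw [hdot, hO2]; simp [dotProduct, Fin.sum_univ_three])
    obtain ⟨_, ⟨⟨a, b⟩, ⟨ha, hb⟩, rfl⟩, hab⟩ := hcon j
    obtain ⟨_, ⟨⟨a', b'⟩, ⟨ha', hb'⟩, rfl⟩, hab'⟩ := hcon k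
    simp only at hab hab'
    refine ⟨E a, ⟨a, ha, rfl⟩, E b, ⟨b, hb, rfl⟩, E a', ⟨a', ha', rfl⟩, E b', ⟨b', hb', rfl⟩, ?_⟩
    rw [hdot, hdot, hdot, hdot, ← hab, ← hab', ← hEa, ← hEa, map_sub, map_sub] at hjk
    simp only [dotProduct, Fin.sum_univ_three, Pi.sub_apply, cons_val_zero, cons_val_one,
      Matrix.cons_val] at hjk
    refine hjk.trans (le_of_eq ?_)
    ring

/-- every convex body in space has a lattice packing of density at least `√5/9` -/
theorem low' {K : Set V} (hK : Body K) : ENNReal.ofReal (√5 / 9) ≤ dL K := by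
  obtain ⟨L, h1, ⟨x0, h2⟩, h3⟩ := normal' hK
  obtain ⟨hc, hv, hne⟩ := hK
  have himg : (L '' K) = (fun x => L x + 0) '' K := by
    apply Set.image_congr
    intro x _
    simp
  have hc' : IsCompact (L '' K) := hc.image (LinearMap.continuous_of_finiteDimensional L.toLinearMap)
  have hv' : Convex ℝ (L '' K) := hv.linear_image L.toLinearMap
  have hne' : (interior (L '' K)).Nonempty := by
    rw [himg, pack_interior_image]
    exact hne.image _
  obtain ⟨b, hb1, hb2⟩ := geo hc' hv' hne' h1 h2 h3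
  set b' : Fin 3 → V := fun i => L.symm (b i) with hb'
  have hbb : (fun i => L (b' i)) = b := by
    funext i
    simp [hb']
  have hpk : Packs K b' := by
    rw [← packs_image K L 0 b', hbb, ← himg]
    exact hb1
  have hb0 : dt b ≠ 0 := ((packs_iff _ _).1 hb1).1
  have hb0' : dt b' ≠ 0 := ((packs_iff _ _).1 hpk).1
  rw [dL_eq]
  have hle : dens K b' ≤ deltaL K := by
    unfold deltaL
    exact le_iSup₂_of_le b' hpk le_rfl
  refine le_trans ?_ hle
  rw [dens_eq b' ((dt_ne_zero_iff b').1 hb0') _ hc, ← ratio_image K L 0 b' hb0', hbb, ← himg]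
  rw [ENNReal.le_div_iff_mul_le (Or.inl (by
    rw [ne_eq, ENNReal.ofReal_eq_zero, not_le]; exact abs_pos.2 hb0))
    (Or.inl ENNReal.ofReal_ne_top)]
  exact hb2

end Pool.Agent.R747.Pk
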