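import Mathlib

/-!
The integral of the Laplacian of a function on the plane with logarithmic growth.
-/

open MeasureTheory Set Filter Topology

namespace Pool.Agent.R747.Flux

/-- Differentiation under the integral over the circle. -/
lemma hasDerivAt_param {F F' : ℝ → ℝ → ℝ} (hF : Continuous (Function.uncurry F))
    (hF' : Continuous (Function.uncurry F')) (hd : ∀ r θ, HasDerivAt (fun r => F r θ) (F' r θ) r)
    (a b r₀ : ℝ) :
    HasDerivAt (fun r => ∫ θ in a..b, F r θ) (∫ θ in a..b, F' r₀ θ) r₀ := by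
  have hcomp : IsCompact (Metric.closedBall r₀ 1 ×ˢ uIcc a b) :=
    (isCompact_closedBall r₀ 1).prod isCompact_uIcc
  obtain ⟨C, hC⟩ := hcomp.exists_bound_of_continuousOn hF'.continuousOn
  refine (intervalIntegral.hasDerivAt_integral_of_dominated_loc_of_deriv_le
    (s := Metric.closedBall r₀ 1) (bound := fun _ => C) (F := F) (F' := F')
    (Metric.closedBall_mem_nhds r₀ one_pos) ?_ ?_ ?_ ?_ ?_ ?_).2
  · exact Eventually.of_forall fun r => (hF.comp (Continuous.prodMk_right r)).aestronglyMeasurable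
  · exact (hF.comp (Continuous.prodMk_right r₀)).intervalIntegrable _ _
  · exact (hF'.comp (Continuous.prodMk_right r₀)).aestronglyMeasurable
  · exact Eventually.of_forall fun θ hθ r hr => hC (r, θ) ⟨hr, uIoc_subset_uIcc hθ⟩
  · exact intervalIntegrable_const
  · exact Eventually.of_forall fun θ _ r _ => hd r θ

/-- A bounded function whose derivative converges has derivative tending to zero. -/
lemma limit_zero {Q q : ℝ → ℝ} (hQ : ∀ x, HasDerivAt Q (q x) x) {B ℓ : ℝ}
    (hB : ∀ x, 0 ≤ x → |Q x| ≤ B) (hq : Tendsto q atTop (𝓝 ℓ)) : ℓ = 0 := by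
  have h1 : ∀ n : ℕ, ∃ ξ : ℝ, ((n : ℝ) + 1) < ξ ∧ q ξ = (Q (2 * (n + 1)) - Q (n + 1)) / (n + 1) := by
    intro n
    have hn : (0 : ℝ) < (n : ℝ) + 1 := by positivity
    obtain ⟨ξ, hξ, h⟩ := exists_hasDerivAt_eq_slope Q q (a := (n : ℝ) + 1) (b := 2 * ((n : ℝ) + 1))
      (by linarith) (fun x _ => (hQ x).continuousAt.continuousWithinAt) fun x _ => hQ x
    refine ⟨ξ, hξ.1, ?_⟩
    rw [h]
    congr 1
    ring
  choose ξ hξ1 hξ2 using h1
  have hξt : Tendsto ξ atTop atTop := by
    apply tendsto_atTop_mono (fun n => (hξ1 n).le)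
    exact tendsto_atTop_add_const_right _ _ tendsto_natCast_atTop_atTop
  have hl : Tendsto (fun n => q (ξ n)) atTop (𝓝 ℓ) := hq.comp hξt
  have h0 : Tendsto (fun n => q (ξ n)) atTop (𝓝 0) := by
    apply squeeze_zero_norm (a := fun n : ℕ => 2 * B / ((n : ℝ) + 1))
    · intro n
      have hn : (0 : ℝ) < (n : ℝ) + 1 := by positivity
      rw [hξ2, norm_div, Real.norm_of_nonneg hn.le, Real.norm_eq_abs]
      apply div_le_div_of_nonneg_right _ hn.le
      have e1 := hB (2 * (n + 1)) (by positivity)
      have e2 := hB (n + 1) (by positivity)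
      have e3 := abs_sub (Q (2 * (n + 1))) (Q (n + 1))
      linarith
    · exact tendsto_const_nhds.div_atTop
        (tendsto_atTop_add_const_right _ _ tendsto_natCast_atTop_atTop)
  exact tendsto_nhds_unique hl h0

/-- The unit vector. -/
noncomputable def ee (θ : ℝ) : ℂ := Complex.exp (Complex.I * θ)

lemma ee_eq (θ : ℝ) : ee θ = Real.cos θ + Real.sin θ * Complex.I := by
  rw [ee, mul_comm, Complex.exp_mul_I, Complex.ofReal_cos, Complex.ofReal_sin]

lemma continuous_ee : Continuous ee := by unfold ee; fun_prop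

lemma hasDerivAt_ee (θ : ℝ) : HasDerivAt ee (Complex.I * ee θ) θ := by
  have h : HasDerivAt (fun θ : ℝ => Complex.I * (θ : ℂ)) Complex.I θ := by
    simpa using (Complex.ofRealCLM.hasDerivAt (x := θ)).const_mul Complex.I
  refine h.cexp.congr_deriv ?_
  unfold ee
  ring

lemma ee_period : ee Real.pi = ee (-Real.pi) := by
  rw [ee_eq, ee_eq]
  simp

lemma rot_sum (B : ℂ →L[ℝ] ℂ →L[ℝ] ℝ) (θ : ℝ) :
    B (ee θ) (ee θ) + B (Complex.I * ee θ) (Complex.I * ee θ) =
      B 1 1 + B Complex.I Complex.I := by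
  have h1 : ee θ = Real.cos θ • (1 : ℂ) + Real.sin θ • Complex.I := by
    rw [ee_eq, Complex.real_smul, Complex.real_smul, mul_one]
  have h2 : Complex.I * ee θ = (-Real.sin θ) • (1 : ℂ) + Real.cos θ • Complex.I := by
    rw [ee_eq, Complex.real_smul, Complex.real_smul, mul_one, Complex.ofReal_neg]
    linear_combination (Real.sin θ : ℂ) * Complex.I_sq
  rw [h1] at h2 ⊢
  rw [h2]
  simp only [map_add, map_smul, add_apply, smul_apply, smul_eq_mul]
  linear_combination (B 1 1 + B Complex.I Complex.I) * Real.sin_sq_add_cos_sq θ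

variable {v : ℂ → ℝ}

/-- The Laplacian. -/
noncomputable def lap (v : ℂ → ℝ) (p : ℂ) : ℝ :=
  fderiv ℝ (fderiv ℝ v) p 1 1 + fderiv ℝ (fderiv ℝ v) p Complex.I Complex.I

lemma continuous_lap (hv : ContDiff ℝ 2 v) : Continuous (lap v) := by
  have h1 : ContDiff ℝ 1 (fderiv ℝ v) := hv.fderiv_right (by norm_num)
  have h2 : Continuous (fderiv ℝ (fderiv ℝ v)) := h1.continuous_fderiv (by norm_num)
  exact ((h2.clm_apply continuous_const).clm_apply continuous_const).add
    ((h2.clm_apply continuous_const).clm_apply continuous_const)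

/-- The circle mean and its derivative. -/
lemma hasDerivAt_mean (hv : ContDiff ℝ 2 v) (r : ℝ) :
    HasDerivAt (fun r : ℝ => ∫ θ in (-Real.pi)..Real.pi, v (r * ee θ))
      (∫ θ in (-Real.pi)..Real.pi, fderiv ℝ v (r * ee θ) (ee θ)) r := by
  have hc : Continuous (fderiv ℝ v) := hv.continuous_fderiv (by norm_num)
  have hre : Continuous (fun p : ℝ × ℝ => (p.1 : ℂ) * ee p.2) :=
    (Complex.continuous_ofReal.comp continuous_fst).mul (continuous_ee.comp continuous_snd)
  refine hasDerivAt_param (F := fun r θ => v (r * ee θ))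
    (F' := fun r θ => fderiv ℝ v (r * ee θ) (ee θ)) (hv.continuous.comp hre)
    ((hc.comp hre).clm_apply (continuous_ee.comp continuous_snd)) ?_ _ _ r
  intro r θ
  have h1 : HasDerivAt (fun r : ℝ => (r : ℂ) * ee θ) (ee θ) r := by
    simpa using (Complex.ofRealCLM.hasDerivAt (x := r)).mul_const (ee θ)
  exact ((hv.differentiable (by norm_num) _).hasFDerivAt).comp_hasDerivAt r h1

/-- The flux through the circle. -/
noncomputable def fl (v : ℂ → ℝ) (r : ℝ) : ℝ :=
  r * ∫ θ in (-Real.pi)..Real.pi, fderiv ℝ v (r * ee θ) (ee θ)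

lemma hasDerivAt_fl (hv : ContDiff ℝ 2 v) (r : ℝ) :
    HasDerivAt (fl v) (r * ∫ θ in (-Real.pi)..Real.pi, lap v (r * ee θ)) r := by
  have h1 : ContDiff ℝ 1 (fderiv ℝ v) := hv.fderiv_right (by norm_num)
  have hc : Continuous (fderiv ℝ v) := h1.continuous
  have hcc : Continuous (fderiv ℝ (fderiv ℝ v)) := h1.continuous_fderiv (by norm_num)
  have hre : Continuous (fun p : ℝ × ℝ => (p.1 : ℂ) * ee p.2) :=
    (Complex.continuous_ofReal.comp continuous_fst).mul (continuous_ee.comp continuous_snd)
  have he2 : Continuous (fun p : ℝ × ℝ => ee p.2) := continuous_ee.comp continuous_snd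
  have hinner : HasDerivAt
      (fun r : ℝ => ∫ θ in (-Real.pi)..Real.pi, fderiv ℝ v (r * ee θ) (ee θ))
      (∫ θ in (-Real.pi)..Real.pi, fderiv ℝ (fderiv ℝ v) (r * ee θ) (ee θ) (ee θ)) r := by
    refine hasDerivAt_param (F := fun r θ => fderiv ℝ v (r * ee θ) (ee θ))
      (F' := fun r θ => fderiv ℝ (fderiv ℝ v) (r * ee θ) (ee θ) (ee θ))
      ((hc.comp hre).clm_apply he2) (((hcc.comp hre).clm_apply he2).clm_apply he2) ?_ _ _ r
    intro r θ
    have h2 : HasDerivAt (fun r : ℝ => (r : ℂ) * ee θ) (ee θ) r := by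
      simpa using (Complex.ofRealCLM.hasDerivAt (x := r)).mul_const (ee θ)
    have h3 := ((h1.differentiable (by norm_num) ((r : ℂ) * ee θ)).hasFDerivAt).comp_hasDerivAt r h2
    have h4 := (ContinuousLinearMap.apply ℝ ℝ (ee θ)).hasFDerivAt.comp_hasDerivAt r h3
    exact h4
  have hper : ∫ θ in (-Real.pi)..Real.pi, (r * fderiv ℝ (fderiv ℝ v) (r * ee θ)
      (Complex.I * ee θ) (Complex.I * ee θ) - fderiv ℝ v (r * ee θ) (ee θ)) = 0 := by
    have hd : ∀ θ : ℝ, HasDerivAt (fun θ : ℝ => fderiv ℝ v (r * ee θ) (Complex.I * ee θ))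
        (r * fderiv ℝ (fderiv ℝ v) (r * ee θ) (Complex.I * ee θ) (Complex.I * ee θ) -
          fderiv ℝ v (r * ee θ) (ee θ)) θ := by
      intro θ
      have h2 : HasDerivAt (fun θ : ℝ => (r : ℂ) * ee θ) ((r : ℂ) * (Complex.I * ee θ)) θ :=
        (hasDerivAt_ee θ).const_mul _
      have h3 := ((h1.differentiable (by norm_num) ((r : ℂ) * ee θ)).hasFDerivAt).comp_hasDerivAt
        θ h2
      have h4 : HasDerivAt (fun θ : ℝ => Complex.I * ee θ) (-ee θ) θ := by
        refine ((hasDerivAt_ee θ).const_mul Complex.I).congr_deriv ?_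
        linear_combination (ee θ) * Complex.I_sq
      have h5 := h3.clm_apply h4
      refine h5.congr_deriv ?_
      have h6 : (r : ℂ) * (Complex.I * ee θ) = r • (Complex.I * ee θ) := by
        rw [Complex.real_smul]
      rw [h6]
      simp only [map_smul, smul_apply, smul_eq_mul, map_neg, Function.comp_apply]
      ring
    have hcont : Continuous (fun θ : ℝ => r * fderiv ℝ (fderiv ℝ v) (r * ee θ)
        (Complex.I * ee θ) (Complex.I * ee θ) - fderiv ℝ v (r * ee θ) (ee θ)) := by
      have hr : Continuous (fun θ : ℝ => (r : ℂ) * ee θ) := continuous_const.mul continuous_ee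
      have hI : Continuous (fun θ : ℝ => Complex.I * ee θ) := continuous_const.mul continuous_ee
      exact (continuous_const.mul (((hcc.comp hr).clm_apply hI).clm_apply hI)).sub
        ((hc.comp hr).clm_apply continuous_ee)
    rw [intervalIntegral.integral_eq_sub_of_hasDerivAt (fun θ _ => hd θ)
      (hcont.intervalIntegrable _ _), ee_period]
    ring
  refine ((hasDerivAt_id r).mul hinner).congr_deriv ?_
  have hr : Continuous (fun θ : ℝ => (r : ℂ) * ee θ) := continuous_const.mul continuous_ee
  have hI : Continuous (fun θ : ℝ => Complex.I * ee θ) := continuous_const.mul continuous_ee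
  have i1 : IntervalIntegrable (fun θ : ℝ => fderiv ℝ v (r * ee θ) (ee θ)) volume
      (-Real.pi) Real.pi := ((hc.comp hr).clm_apply continuous_ee).intervalIntegrable _ _
  have i2 : IntervalIntegrable (fun θ : ℝ => fderiv ℝ (fderiv ℝ v) (r * ee θ) (ee θ) (ee θ))
      volume (-Real.pi) Real.pi :=
    (((hcc.comp hr).clm_apply continuous_ee).clm_apply continuous_ee).intervalIntegrable _ _
  have i3 : IntervalIntegrable (fun θ : ℝ => fderiv ℝ (fderiv ℝ v) (r * ee θ) (Complex.I * ee θ)
      (Complex.I * ee θ)) volume (-Real.pi) Real.pi :=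
    (((hcc.comp hr).clm_apply hI).clm_apply hI).intervalIntegrable _ _
  rw [intervalIntegral.integral_sub (i3.const_mul r) i1, intervalIntegral.integral_const_mul]
    at hper
  have hl : ∫ θ in (-Real.pi)..Real.pi, lap v (r * ee θ) =
      (∫ θ in (-Real.pi)..Real.pi, fderiv ℝ (fderiv ℝ v) (r * ee θ) (ee θ) (ee θ)) +
        ∫ θ in (-Real.pi)..Real.pi, fderiv ℝ (fderiv ℝ v) (r * ee θ) (Complex.I * ee θ)
          (Complex.I * ee θ) := by
    rw [← intervalIntegral.integral_add i2 i3]
    apply intervalIntegral.integral_congr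
    intro θ _
    exact (rot_sum _ θ).symm
  rw [hl]
  simp only [id]
  linear_combination -hper

lemma fl_eq (hv : ContDiff ℝ 2 v) (R : ℝ) :
    fl v R = ∫ r in (0 : ℝ)..R, r * ∫ θ in (-Real.pi)..Real.pi, lap v (r * ee θ) := by
  have hre : Continuous (fun p : ℝ × ℝ => (p.1 : ℂ) * ee p.2) :=
    (Complex.continuous_ofReal.comp continuous_fst).mul (continuous_ee.comp continuous_snd)
  have hcont : Continuous (fun r : ℝ => ∫ θ in (-Real.pi)..Real.pi, lap v (r * ee θ)) :=
    intervalIntegral.continuous_parametric_intervalIntegral_of_continuous'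
      (f := fun (r θ : ℝ) => lap v (r * ee θ)) ((continuous_lap hv).comp hre) _ _
  rw [intervalIntegral.integral_eq_sub_of_hasDerivAt (fun r _ => hasDerivAt_fl hv r)
    ((continuous_id.mul hcont).intervalIntegrable _ _)]
  simp [fl]

/-- The divergence theorem on discs. -/
lemma fl_eq_ball (hv : ContDiff ℝ 2 v) {R : ℝ} (hR : 0 < R) :
    fl v R = ∫ z in Metric.ball (0 : ℂ) R, lap v z := by
  have hre : Continuous (fun p : ℝ × ℝ => (p.1 : ℂ) * ee p.2) :=
    (Complex.continuous_ofReal.comp continuous_fst).mul (continuous_ee.comp continuous_snd)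
  have hlap := continuous_lap hv
  rw [← integral_indicator Metric.isOpen_ball.measurableSet,
    ← Complex.integral_comp_polarCoord_symm, fl_eq hv]
  have h1 : ∀ p ∈ polarCoord.target, p.1 •
      (Metric.ball (0 : ℂ) R).indicator (lap v) (Complex.polarCoord.symm p) =
      (Iio R ×ˢ (univ : Set ℝ)).indicator (fun p : ℝ × ℝ => p.1 * lap v (p.1 * ee p.2)) p := by
    intro p hp
    have hp1 : 0 < p.1 := hp.1
    have h2 : Complex.polarCoord.symm p = p.1 * ee p.2 := by
      rw [Complex.polarCoord_symm_apply, ee_eq]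
    have h3 : ‖Complex.polarCoord.symm p‖ = p.1 := by
      rw [Complex.norm_polarCoord_symm, abs_of_pos hp1]
    by_cases h : p.1 < R
    · rw [indicator_of_mem (by rw [mem_ball_zero_iff, h3]; exact h),
        indicator_of_mem (by exact ⟨h, mem_univ _⟩), h2, smul_eq_mul]
    · rw [indicator_of_notMem (by rw [mem_ball_zero_iff, h3]; exact h),
        indicator_of_notMem (by exact fun h' => h h'.1), smul_zero]
  have hmeas : MeasurableSet polarCoord.target := polarCoord.open_target.measurableSet
  rw [setIntegral_congr_fun hmeas h1, setIntegral_indicator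
    (measurableSet_Iio.prod MeasurableSet.univ)]
  have h4 : polarCoord.target ∩ (Iio R ×ˢ (univ : Set ℝ)) =
      Ioo 0 R ×ˢ Ioo (-Real.pi) Real.pi := by
    rw [polarCoord_target, prod_inter_prod, Ioi_inter_Iio, inter_univ]
  rw [h4, Measure.volume_eq_prod, setIntegral_prod]
  · rw [intervalIntegral.integral_of_le hR.le, integral_Ioc_eq_integral_Ioo]
    apply setIntegral_congr_fun measurableSet_Ioo
    intro r _
    simp only
    rw [integral_const_mul, intervalIntegral.integral_of_le (by linarith [Real.pi_pos]),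
      integral_Ioc_eq_integral_Ioo]
  · have hK : IsCompact (Icc (0 : ℝ) R ×ˢ Icc (-Real.pi) Real.pi) :=
      isCompact_Icc.prod isCompact_Icc
    have hc : Continuous (fun p : ℝ × ℝ => p.1 * lap v (p.1 * ee p.2)) :=
      continuous_fst.mul (hlap.comp hre)
    exact (hc.continuousOn.integrableOn_compact hK).mono_set
      (prod_mono Ioo_subset_Icc_self Ioo_subset_Icc_self)

/-- The integral of the Laplacian is determined by the logarithmic growth. -/
theorem integral_lap (hv : ContDiff ℝ 2 v) (hint : Integrable (lap v)) {ε C : ℝ}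
    (hb : ∀ z : ℂ, |v z - ε * Real.log (1 + ‖z‖ ^ 2)| ≤ C) :
    ∫ z, lap v z = 4 * Real.pi * ε := by
  -- the flux converges
  have hfl : Tendsto (fl v) atTop (𝓝 (∫ z, lap v z)) := by
    have h1 : Tendsto (fun R : ℝ => ∫ z in Metric.ball (0 : ℂ) R, lap v z) atTop
        (𝓝 (∫ z, lap v z)) := by
      have hcov : AECover volume atTop (fun R : ℝ => Metric.ball (0 : ℂ) R) :=
        aecover_ball tendsto_id
      exact hcov.integral_tendsto_of_countably_generated hint
    refine h1.congr' ?_
    filter_upwards [eventually_gt_atTop 0] with R hR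
    exact (fl_eq_ball hv hR).symm
  -- the circle mean in logarithmic scale
  set M : ℝ → ℝ := fun r => ∫ θ in (-Real.pi)..Real.pi, v (r * ee θ) with hM
  have hQ : ∀ x : ℝ, HasDerivAt (fun x => M (Real.exp x) - 4 * Real.pi * ε * x)
      (fl v (Real.exp x) - 4 * Real.pi * ε) x := by
    intro x
    have h1 := (hasDerivAt_mean hv (Real.exp x)).comp x (Real.hasDerivAt_exp x)
    have h2 := h1.sub ((hasDerivAt_id x).const_mul (4 * Real.pi * ε))
    refine h2.congr_deriv ?_
    unfold fl
    ring
  have hlim : Tendsto (fun x => fl v (Real.exp x) - 4 * Real.pi * ε) atTop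
      (𝓝 ((∫ z, lap v z) - 4 * Real.pi * ε)) :=
    (hfl.comp Real.tendsto_exp_atTop).sub_const _
  have hpi := Real.pi_pos
  have hC : 0 ≤ C := (abs_nonneg _).trans (hb 0)
  have hbound : ∀ x : ℝ, 0 ≤ x → |M (Real.exp x) - 4 * Real.pi * ε * x| ≤
      C * (2 * Real.pi) + 2 * Real.pi * |ε| := by
    intro x hx
    have hre : Continuous (fun θ : ℝ => ((Real.exp x : ℝ) : ℂ) * ee θ) :=
      continuous_const.mul continuous_ee
    have h1 : M (Real.exp x) - 2 * Real.pi * (ε * Real.log (1 + Real.exp x ^ 2)) =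
        ∫ θ in (-Real.pi)..Real.pi, (v ((Real.exp x : ℝ) * ee θ) -
          ε * Real.log (1 + Real.exp x ^ 2)) := by
      have hvi : IntervalIntegrable (fun θ : ℝ => v ((Real.exp x : ℝ) * ee θ)) volume
          (-Real.pi) Real.pi := (hv.continuous.comp hre).intervalIntegrable _ _
      rw [intervalIntegral.integral_sub hvi
        intervalIntegrable_const, intervalIntegral.integral_const, smul_eq_mul]
      simp only [hM]
      ring
    have h2 : |M (Real.exp x) - 2 * Real.pi * (ε * Real.log (1 + Real.exp x ^ 2))| ≤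
        C * (2 * Real.pi) := by
      rw [h1, ← Real.norm_eq_abs]
      have h3 := intervalIntegral.norm_integral_le_of_norm_le_const (a := -Real.pi)
        (b := Real.pi) (C := C) (f := fun θ => v ((Real.exp x : ℝ) * ee θ) -
          ε * Real.log (1 + Real.exp x ^ 2)) (by
          intro θ _
          have h4 := hb ((Real.exp x : ℝ) * ee θ)
          have h5 : ‖((Real.exp x : ℝ) : ℂ) * ee θ‖ = Real.exp x := by
            rw [norm_mul, Complex.norm_real, Real.norm_of_nonneg (Real.exp_pos x).le, ee,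
              mul_comm Complex.I, Complex.norm_exp_ofReal_mul_I, mul_one]
          rw [h5] at h4
          exact h4)
      have h6 : |Real.pi - -Real.pi| = 2 * Real.pi := by
        rw [sub_neg_eq_add, ← two_mul, abs_of_pos (by positivity)]
      rwa [h6] at h3
    have h7 : |2 * Real.pi * (ε * Real.log (1 + Real.exp x ^ 2)) - 4 * Real.pi * ε * x| ≤
        2 * Real.pi * |ε| := by
      have h8 : 2 * Real.pi * (ε * Real.log (1 + Real.exp x ^ 2)) - 4 * Real.pi * ε * x =
          2 * Real.pi * ε * (Real.log (1 + Real.exp x ^ 2) - 2 * x) := by ring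
      have hex : 1 ≤ Real.exp x := Real.one_le_exp hx
      have h9 : 2 * x ≤ Real.log (1 + Real.exp x ^ 2) := by
        rw [Real.le_log_iff_exp_le (by positivity), two_mul, Real.exp_add]
        nlinarith
      have h10 : Real.log (1 + Real.exp x ^ 2) ≤ 2 * x + 1 := by
        rw [Real.log_le_iff_le_exp (by positivity), Real.exp_add, two_mul, Real.exp_add]
        have h11 := Real.add_one_le_exp (1 : ℝ)
        nlinarith
      rw [h8, abs_mul, abs_mul, abs_of_pos (by positivity : (0 : ℝ) < 2 * Real.pi)]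
      have h12 : |Real.log (1 + Real.exp x ^ 2) - 2 * x| ≤ 1 := by
        rw [abs_le]
        constructor <;> linarith
      calc _ ≤ 2 * Real.pi * |ε| * 1 := mul_le_mul_of_nonneg_left h12 (by positivity)
        _ = _ := by ring
    have h13 := abs_add_le (M (Real.exp x) - 2 * Real.pi * (ε * Real.log (1 + Real.exp x ^ 2)))
      (2 * Real.pi * (ε * Real.log (1 + Real.exp x ^ 2)) - 4 * Real.pi * ε * x)
    rw [sub_add_sub_cancel] at h13
    linarith
  have := limit_zero hQ hbound hlim
  linarith

end Pool.Agent.R747.Flux
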