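import Mathlib

/-!
Surfaces in the Lorentz space `ℝ⁴₁`: induced metric, mean curvature, Gaussian curvature, normal
curvature, completeness.
-/

open Set MeasureTheory Filter Topology Complex

namespace Pool.Agent.R747.Stat

noncomputable section

/-- The Lorentz inner product `-a₀b₀ + a₁b₁ + a₂b₂ + a₃b₃` of `ℝ⁴₁`. -/
def lor (a b : Fin 4 → ℝ) : ℝ := -(a 0 * b 0) + a 1 * b 1 + a 2 * b 2 + a 3 * b 3

/-- The metric induced by `X` at `p`: `g_p(v, w) = ⟨dX_p v, dX_p w⟩`. -/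
def inducedMetric (X : ℂ → Fin 4 → ℝ) (p v w : ℂ) : ℝ := lor (fderiv ℝ X p v) (fderiv ℝ X p w)

/-- `X` is a spacelike immersion of the plane `ℂ = ℝ²`. -/
def IsSpacelike (X : ℂ → Fin 4 → ℝ) : Prop := ∀ p v : ℂ, v ≠ 0 → 0 < inducedMetric X p v v

/-- The second derivative `D²X_p(v, w)`. -/
def secondDeriv (X : ℂ → Fin 4 → ℝ) (p v w : ℂ) : Fin 4 → ℝ :=
  fderiv ℝ (fun q => fderiv ℝ X q v) p w

/-- The mean curvature vector of `X` vanishes: at each `p` and for every basis `v, w` orthonormal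
for the induced metric, `D²X(v, v) + D²X(w, w)` is tangent to the surface, that is, its normal part
(twice the mean curvature vector) is zero. -/
def HasZeroMeanCurvature (X : ℂ → Fin 4 → ℝ) : Prop :=
  ∀ p v w : ℂ, inducedMetric X p v v = 1 → inducedMetric X p w w = 1 →
    inducedMetric X p v w = 0 →
    ∃ t : ℂ, secondDeriv X p v v + secondDeriv X p w w = fderiv ℝ X p t

/-- The coefficient `E` of the induced metric. -/
def cE (X : ℂ → Fin 4 → ℝ) (p : ℂ) : ℝ := inducedMetric X p 1 1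

/-- The coefficient `F` of the induced metric. -/
def cF (X : ℂ → Fin 4 → ℝ) (p : ℂ) : ℝ := inducedMetric X p 1 I

/-- The coefficient `G` of the induced metric. -/
def cG (X : ℂ → Fin 4 → ℝ) (p : ℂ) : ℝ := inducedMetric X p I I

/-- Partial derivative with respect to the first coordinate of `ℂ = ℝ²`. -/
def dx (f : ℂ → ℝ) (p : ℂ) : ℝ := fderiv ℝ f p 1

/-- Partial derivative with respect to the second coordinate of `ℂ = ℝ²`. -/
def dy (f : ℂ → ℝ) (p : ℂ) : ℝ := fderiv ℝ f p I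

/-- The Gaussian curvature of the metric `E du² + 2F du dv + G dv²`, by Brioschi's formula. -/
def brioschi (E F G : ℂ → ℝ) (p : ℂ) : ℝ :=
  (Matrix.det !![-(dy (dy E) p) / 2 + dy (dx F) p - dx (dx G) p / 2,
        dx E p / 2, dx F p - dy E p / 2;
      dy F p - dx G p / 2, E p, F p;
      dy G p / 2, F p, G p] -
    Matrix.det !![0, dy E p / 2, dx G p / 2;
      dy E p / 2, E p, F p;
      dx G p / 2, F p, G p]) / (E p * G p - F p ^ 2) ^ 2

/-- The Gaussian curvature of the induced metric. -/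
def gaussCurvature (X : ℂ → Fin 4 → ℝ) (p : ℂ) : ℝ := brioschi (cE X) (cF X) (cG X) p

/-- The density of the area form of the induced metric. -/
def areaDensity (X : ℂ → Fin 4 → ℝ) (p : ℂ) : ℝ := √(cE X p * cG X p - cF X p ^ 2)

/-- The induced metric is complete: every divergent `C¹` curve has infinite length. -/
def IsCompleteMetric (X : ℂ → Fin 4 → ℝ) : Prop :=
  ∀ γ : ℝ → ℂ, ContDiff ℝ 1 γ → Tendsto γ atTop (cocompact ℂ) →
    Tendsto (fun T => ∫ t in (0 : ℝ)..T, √(inducedMetric X (γ t) (deriv γ t) (deriv γ t)))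
      atTop atTop

/-- `N₃, N₄` is an orthonormal frame of the normal bundle: `⟨N₃, N₃⟩ = 1`, `⟨N₄, N₄⟩ = -1`,
`⟨N₃, N₄⟩ = 0`, and both are orthogonal to the surface. -/
structure IsNormalFrame (X N₃ N₄ : ℂ → Fin 4 → ℝ) : Prop where
  h33 : ∀ p, lor (N₃ p) (N₃ p) = 1
  h44 : ∀ p, lor (N₄ p) (N₄ p) = -1
  h34 : ∀ p, lor (N₃ p) (N₄ p) = 0
  t3 : ∀ p v, lor (fderiv ℝ X p v) (N₃ p) = 0
  t4 : ∀ p v, lor (fderiv ℝ X p v) (N₄ p) = 0

/-- The normal connection: the derivative of the normal field `ξ` in the direction `v`, projected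
orthogonally to the normal space spanned by the orthonormal frame `N₃, N₄`. -/
def nablaPerp (N₃ N₄ : ℂ → Fin 4 → ℝ) (v : ℂ) (ξ : ℂ → Fin 4 → ℝ) (p : ℂ) : Fin 4 → ℝ :=
  lor (fderiv ℝ ξ p v) (N₃ p) • N₃ p - lor (fderiv ℝ ξ p v) (N₄ p) • N₄ p

/-- The normal curvature `K^⊥ = ⟨R^⊥(e₁, e₂) N₃, N₄⟩`, with `(e₁, e₂)` an oriented orthonormal
tangent frame, computed as `⟨R^⊥(∂₁, ∂₂) N₃, N₄⟩` divided by the area of `∂₁, ∂₂`. -/
def normalCurvature (X N₃ N₄ : ℂ → Fin 4 → ℝ) (p : ℂ) : ℝ :=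
  lor (nablaPerp N₃ N₄ 1 (nablaPerp N₃ N₄ I N₃) p -
    nablaPerp N₃ N₄ I (nablaPerp N₃ N₄ 1 N₃) p) (N₄ p) / areaDensity X p

end

end Pool.Agent.R747.Stat
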