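import Mathlib
import Pool.Agent.R747.StatDefs

/-!
Wirtinger calculus for maps `ℂ → ℂ`, real derivatives.
-/

open Set MeasureTheory Filter Topology Complex
open scoped ComplexConjugate ContDiff

namespace Pool.Agent.R747.Stat

noncomputable section

/-- The real linear map `v ↦ A v + B v̄`. -/
def zz (A B : ℂ) : ℂ →L[ℝ] ℂ :=
  A • (ContinuousLinearMap.id ℝ ℂ) + B • (Complex.conjCLE : ℂ →L[ℝ] ℂ)

@[simp] lemma zz_apply (A B v : ℂ) : zz A B v = A * v + B * conj v := by
  simp [zz]

lemma zz_inj {A B A' B' : ℂ} (h : zz A B = zz A' B') : A = A' ∧ B = B' := by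
  have h1 := congrArg (fun L : ℂ →L[ℝ] ℂ => L 1) h
  have h2 := congrArg (fun L : ℂ →L[ℝ] ℂ => L I) h
  simp only [zz_apply, map_one, mul_one, Complex.conj_I] at h1 h2
  have h3 : A - B = A' - B' := by
    linear_combination (-I) * h2 + (A - B - A' + B') * I_sq
  constructor
  · linear_combination (h1 + h3) / 2
  · linear_combination (h1 - h3) / 2

/-- `F` has Wirtinger derivatives `A = ∂F`, `B = ∂̄F` at `p`. -/
def HW (F : ℂ → ℂ) (A B p : ℂ) : Prop := HasFDerivAt F (zz A B) p

variable {F G : ℂ → ℂ} {A B A' B' p : ℂ}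

lemma HW.congr (h : HW F A B p) (hA : A = A') (hB : B = B') : HW F A' B' p := by
  subst hA; subst hB; exact h

lemma HW.unique (h : HW F A B p) (h' : HW F A' B' p) : A = A' ∧ B = B' :=
  zz_inj (HasFDerivAt.unique h h')

lemma HW.of_hasDerivAt {f' : ℂ} (h : HasDerivAt F f' p) : HW F f' 0 p := by
  have h1 := h.hasFDerivAt.restrictScalars ℝ
  unfold HW
  refine h1.congr_fderiv ?_
  ext v
  simp [mul_comm]

lemma HW.const (c : ℂ) : HW (fun _ => c) 0 0 p := by
  unfold HW
  refine (hasFDerivAt_const c p).congr_fderiv ?_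
  ext v; simp

lemma HW.add (h : HW F A B p) (h' : HW G A' B' p) :
    HW (fun w => F w + G w) (A + A') (B + B') p := by
  unfold HW
  refine (HasFDerivAt.add h h').congr_fderiv ?_
  ext v; simp; ring

lemma HW.sub (h : HW F A B p) (h' : HW G A' B' p) :
    HW (fun w => F w - G w) (A - A') (B - B') p := by
  unfold HW
  refine (HasFDerivAt.sub h h').congr_fderiv ?_
  ext v; simp; ring

lemma HW.neg (h : HW F A B p) : HW (fun w => - F w) (-A) (-B) p := by
  unfold HW
  refine (HasFDerivAt.neg h).congr_fderiv ?_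
  ext v; simp; ring

lemma HW.mul (h : HW F A B p) (h' : HW G A' B' p) :
    HW (fun w => F w * G w) (A * G p + F p * A') (B * G p + F p * B') p := by
  unfold HW
  refine (HasFDerivAt.mul h h').congr_fderiv ?_
  ext v; simp; ring

lemma HW.conj (h : HW F A B p) : HW (fun w => conj (F w)) (conj B) (conj A) p := by
  unfold HW
  refine ((Complex.conjCLE : ℂ →L[ℝ] ℂ).hasFDerivAt.comp p h).congr_fderiv ?_
  ext v; simp; ring

lemma HW.const_mul (c : ℂ) (h : HW F A B p) : HW (fun w => c * F w) (c * A) (c * B) p := by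
  refine ((HW.const c).mul h).congr ?_ ?_ <;> ring

lemma HW.inv (h : HW F A B p) (h0 : F p ≠ 0) :
    HW (fun w => (F w)⁻¹) (-A / F p ^ 2) (-B / F p ^ 2) p := by
  unfold HW
  have h1 : HasFDerivAt (fun z : ℂ => z⁻¹) ((ContinuousLinearMap.toSpanSingleton ℂ
    (-(F p ^ 2)⁻¹)).restrictScalars ℝ) (F p) :=
    (hasDerivAt_inv h0).hasFDerivAt.restrictScalars ℝ
  refine (h1.comp p h).congr_fderiv ?_
  ext v; simp; field_simp; ring

lemma HW.div (h : HW F A B p) (h' : HW G A' B' p) (h0 : G p ≠ 0) :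
    HW (fun w => F w / G w) ((A * G p - F p * A') / G p ^ 2)
      ((B * G p - F p * B') / G p ^ 2) p := by
  have h1 := h.mul (h'.inv h0)
  have h2 : (fun w => F w / G w) = fun w => F w * (G w)⁻¹ := by
    funext w; rw [div_eq_mul_inv]
  rw [h2]
  refine h1.congr ?_ ?_ <;> field_simp <;> ring

lemma HW.exp (h : HW F A B p) :
    HW (fun w => cexp (F w)) (cexp (F p) * A) (cexp (F p) * B) p := by
  unfold HW
  have h1 : HasFDerivAt cexp ((ContinuousLinearMap.toSpanSingleton ℂ
    (cexp (F p))).restrictScalars ℝ) (F p) :=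
    (Complex.hasDerivAt_exp (F p)).hasFDerivAt.restrictScalars ℝ
  refine (h1.comp p h).congr_fderiv ?_
  ext v; simp; ring

/-- Every real derivative has the form `zz A B`. -/
lemma exists_HW (h : DifferentiableAt ℝ F p) : ∃ A B, HW F A B p := by
  have h1 := h.hasFDerivAt
  set L := fderiv ℝ F p with hL
  refine ⟨(L 1 - I * L I) / 2, (L 1 + I * L I) / 2, ?_⟩
  unfold HW
  refine h1.congr_fderiv ?_
  ext v
  rw [zz_apply]
  have h2 : L v = v.re • L 1 + v.im • L I := by
    rw [← map_smul, ← map_smul, ← map_add]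
    congr 1
    apply Complex.ext <;> simp
  rw [h2]
  conv_rhs => rw [← Complex.re_add_im v]
  simp only [map_add, map_mul, Complex.conj_ofReal, Complex.conj_I, Complex.real_smul]
  linear_combination ((v.im : ℂ) * L I) * I_sq

lemma HW.differentiableAt (h : HW F A B p) : DifferentiableAt ℝ F p :=
  HasFDerivAt.differentiableAt h

lemma HW.hasFDerivAt_re (h : HW F A B p) :
    HasFDerivAt (fun w => (F w).re) (Complex.reCLM.comp (zz A B)) p :=
  Complex.reCLM.hasFDerivAt.comp p h

lemma HW.hasFDerivAt_im (h : HW F A B p) :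
    HasFDerivAt (fun w => (F w).im) (Complex.imCLM.comp (zz A B)) p :=
  Complex.imCLM.hasFDerivAt.comp p h

lemma HW.fderiv_re (h : HW F A B p) (v : ℂ) :
    fderiv ℝ (fun w => (F w).re) p v = (A * v + B * conj v).re := by
  rw [h.hasFDerivAt_re.fderiv]
  simp

lemma HW.fderiv_im (h : HW F A B p) (v : ℂ) :
    fderiv ℝ (fun w => (F w).im) p v = (A * v + B * conj v).im := by
  rw [h.hasFDerivAt_im.fderiv]
  simp

end

end Pool.Agent.R747.Stat
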