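import Mathlib
import Pool.Agent.R747.StatWirt

/-!
The normal curvature as the curvature of the connection form.
-/

open Set MeasureTheory Filter Topology Complex
open scoped ComplexConjugate ContDiff

namespace Pool.Agent.R747.Stat

noncomputable section

lemma lor_comm (a b : Fin 4 → ℝ) : lor a b = lor b a := by unfold lor; ring

lemma lor_add_left (a b c : Fin 4 → ℝ) : lor (a + b) c = lor a c + lor b c := by
  simp only [lor, Pi.add_apply]; ring

lemma lor_sub_left (a b c : Fin 4 → ℝ) : lor (a - b) c = lor a c - lor b c := by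
  simp only [lor, Pi.sub_apply]; ring

lemma lor_smul_left (r : ℝ) (a c : Fin 4 → ℝ) : lor (r • a) c = r * lor a c := by
  simp only [lor, Pi.smul_apply, smul_eq_mul]; ring

lemma lor_add_right (a b c : Fin 4 → ℝ) : lor c (a + b) = lor c a + lor c b := by
  simp only [lor, Pi.add_apply]; ring

lemma lor_sub_right (a b c : Fin 4 → ℝ) : lor c (a - b) = lor c a - lor c b := by
  simp only [lor, Pi.sub_apply]; ring

lemma lor_smul_right (r : ℝ) (a c : Fin 4 → ℝ) : lor c (r • a) = r * lor c a := by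
  simp only [lor, Pi.smul_apply, smul_eq_mul]; ring

variable {ξ η N₃ N₄ X : ℂ → Fin 4 → ℝ} {p : ℂ}

lemma fderiv_comp_apply (hξ : DifferentiableAt ℝ ξ p) (v : ℂ) (i : Fin 4) :
    fderiv ℝ ξ p v i = fderiv ℝ (fun q => ξ q i) p v := by
  have h := hasFDerivAt_pi'.1 hξ.hasFDerivAt i
  rw [h.fderiv]
  simp

lemma differentiableAt_comp (hξ : DifferentiableAt ℝ ξ p) (i : Fin 4) :
    DifferentiableAt ℝ (fun q => ξ q i) p := differentiableAt_pi.1 hξ i

lemma fderiv_lor (hξ : DifferentiableAt ℝ ξ p) (hη : DifferentiableAt ℝ η p) (v : ℂ) :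
    fderiv ℝ (fun q => lor (ξ q) (η q)) p v =
      lor (fderiv ℝ ξ p v) (η p) + lor (ξ p) (fderiv ℝ η p v) := by
  have hx := fun i => (differentiableAt_comp hξ i).hasFDerivAt
  have hy := fun i => (differentiableAt_comp hη i).hasFDerivAt
  have h : HasFDerivAt (fun q => lor (ξ q) (η q)) _ p :=
    ((((hx 0).mul (hy 0)).neg.add ((hx 1).mul (hy 1))).add ((hx 2).mul (hy 2))).add
      ((hx 3).mul (hy 3))
  rw [h.fderiv]
  simp only [lor, fderiv_comp_apply hξ, fderiv_comp_apply hη, add_apply,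
    neg_apply, smul_apply, smul_eq_mul]
  ring

lemma differentiableAt_lor (hξ : DifferentiableAt ℝ ξ p) (hη : DifferentiableAt ℝ η p) :
    DifferentiableAt ℝ (fun q => lor (ξ q) (η q)) p := by
  have hx := fun i => (differentiableAt_comp hξ i)
  have hy := fun i => (differentiableAt_comp hη i)
  exact ((((hx 0).mul (hy 0)).neg.add ((hx 1).mul (hy 1))).add ((hx 2).mul (hy 2))).add
      ((hx 3).mul (hy 3))

/-- The connection form. -/
def conn (N₃ N₄ : ℂ → Fin 4 → ℝ) (v q : ℂ) : ℝ := lor (fderiv ℝ N₃ q v) (N₄ q)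

lemma differentiable_fderiv (h3 : ContDiff ℝ 2 N₃) (v : ℂ) :
    Differentiable ℝ (fun q => fderiv ℝ N₃ q v) := by
  have h1 : ContDiff ℝ 1 (fderiv ℝ N₃) := h3.fderiv_right (by norm_num)
  exact (h1.differentiable (by norm_num)).clm_apply (differentiable_const v)

lemma nablaPerp_eq (hfr : IsNormalFrame X N₃ N₄) (h3 : Differentiable ℝ N₃) (v : ℂ) :
    nablaPerp N₃ N₄ v N₃ = fun q => (-conn N₃ N₄ v q) • N₄ q := by
  funext q
  have h := fderiv_lor (h3 q) (h3 q) v
  have hc : (fun q => lor (N₃ q) (N₃ q)) = fun _ => (1 : ℝ) := funext hfr.h33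
  rw [hc, lor_comm (N₃ q)] at h
  have h0 : lor (fderiv ℝ N₃ q v) (N₃ q) = 0 := by
    simp at h
    linarith
  simp only [nablaPerp, h0, zero_smul, zero_sub, conn, neg_smul]

theorem normal_formula (hfr : IsNormalFrame X N₃ N₄) (h3 : ContDiff ℝ 2 N₃)
    (h4 : ContDiff ℝ 2 N₄) (p : ℂ) :
    lor (nablaPerp N₃ N₄ 1 (nablaPerp N₃ N₄ I N₃) p -
      nablaPerp N₃ N₄ I (nablaPerp N₃ N₄ 1 N₃) p) (N₄ p) =
    fderiv ℝ (conn N₃ N₄ I) p 1 - fderiv ℝ (conn N₃ N₄ 1) p I := by
  have d3 : Differentiable ℝ N₃ := h3.differentiable (by norm_num)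
  have d4 : Differentiable ℝ N₄ := h4.differentiable (by norm_num)
  have key : ∀ v w : ℂ, lor (nablaPerp N₃ N₄ w (nablaPerp N₃ N₄ v N₃) p) (N₄ p) =
      fderiv ℝ (conn N₃ N₄ v) p w := by
    intro v w
    rw [nablaPerp_eq hfr d3 v]
    have hcd : DifferentiableAt ℝ (conn N₃ N₄ v) p :=
      differentiableAt_lor (differentiable_fderiv h3 v p) (d4 p)
    have hsm : HasFDerivAt (fun q => (-conn N₃ N₄ v q) • N₄ q) _ p :=
      hcd.hasFDerivAt.neg.smul (d4 p).hasFDerivAt
    have h44 := fderiv_lor (d4 p) (d4 p) w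
    have hc : (fun q => lor (N₄ q) (N₄ q)) = fun _ => (-1 : ℝ) := funext hfr.h44
    rw [hc, lor_comm (N₄ p)] at h44
    have h0 : lor (fderiv ℝ N₄ p w) (N₄ p) = 0 := by
      simp at h44
      linarith
    have h1 : fderiv ℝ (fun q => (-conn N₃ N₄ v q) • N₄ q) p w =
        (-conn N₃ N₄ v p) • fderiv ℝ N₄ p w + (-fderiv ℝ (conn N₃ N₄ v) p w) • N₄ p := by
      rw [hsm.fderiv]
      simp
    simp only [nablaPerp]
    rw [h1]
    simp only [lor_sub_left, lor_add_left, lor_smul_left, hfr.h44, hfr.h34, h0]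
    ring
  rw [lor_sub_left, key, key]

end

end Pool.Agent.R747.Stat
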