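import Mathlib

/-!
Gaussian Laplace transforms and their differential equation.
-/

open MeasureTheory Set Filter Topology Complex

namespace Pool.Agent.R747.Weber

lemma integrable_gauss_abs (c : ℝ) :
    Integrable (fun s : ℝ => Real.exp (-s ^ 2 / 2 + c * |s|)) := by
  have h := (integrable_exp_neg_mul_sq (b := 1 / 4) (by norm_num)).const_mul (Real.exp (c ^ 2))
  refine h.mono' (by fun_prop) (Eventually.of_forall fun s => ?_)
  rw [Real.norm_of_nonneg (Real.exp_pos _).le, ← Real.exp_add]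
  apply Real.exp_le_exp.2
  nlinarith [sq_nonneg (|s| / 2 - c), sq_abs s]

/-- Weight functions of at most exponential growth. -/
structure IsWeight (m : ℝ → ℂ) : Prop where
  meas : Measurable m
  bound : ∃ C N : ℝ, 0 ≤ C ∧ ∀ s, ‖m s‖ ≤ C * Real.exp (N * |s|)

/-- The Gaussian kernel. -/
noncomputable def gk (w : ℂ) (s : ℝ) : ℂ := cexp (-(s : ℂ) ^ 2 / 2 - w * s)

/-- The Gaussian Laplace transform of a weight. -/
noncomputable def FW (m : ℝ → ℂ) (w : ℂ) : ℂ := ∫ s : ℝ, m s * gk w s

lemma continuous_gk (w : ℂ) : Continuous (gk w) := by unfold gk; fun_prop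

lemma norm_gk (w : ℂ) (s : ℝ) : ‖gk w s‖ = Real.exp (-s ^ 2 / 2 - w.re * s) := by
  rw [gk, Complex.norm_exp]
  congr 1
  simp [sq]

lemma norm_gk_le (w : ℂ) (s : ℝ) : ‖gk w s‖ ≤ Real.exp (-s ^ 2 / 2 + ‖w‖ * |s|) := by
  rw [norm_gk]
  apply Real.exp_le_exp.2
  have h1 : -(w.re * s) ≤ |w.re * s| := neg_le_abs _
  rw [abs_mul] at h1
  have h2 := Complex.abs_re_le_norm w
  nlinarith [abs_nonneg s]

namespace IsWeight

variable {m : ℝ → ℂ} (hm : IsWeight m)
include hm

lemma mul_id : IsWeight (fun s => (s : ℂ) * m s) := by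
  obtain ⟨C, N, hC, hb⟩ := hm.bound
  refine ⟨(Complex.measurable_ofReal).mul hm.meas, C, N + 1, hC, fun s => ?_⟩
  rw [norm_mul, Complex.norm_real, Real.norm_eq_abs]
  have h1 : |s| ≤ Real.exp |s| := (Real.add_one_le_exp _).trans' (by linarith)
  have h2 : Real.exp ((N + 1) * |s|) = Real.exp |s| * Real.exp (N * |s|) := by
    rw [← Real.exp_add]; ring_nf
  rw [h2]
  calc |s| * ‖m s‖ ≤ Real.exp |s| * (C * Real.exp (N * |s|)) :=
        mul_le_mul h1 (hb s) (norm_nonneg _) (Real.exp_pos _).le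
    _ = _ := by ring

lemma neg : IsWeight (fun s => -m s) := by
  obtain ⟨C, N, hC, hb⟩ := hm.bound
  exact ⟨hm.meas.neg, C, N, hC, fun s => by rw [norm_neg]; exact hb s⟩

lemma neg_mul_id : IsWeight (fun s => -(s : ℂ) * m s) := by
  have := hm.mul_id.neg
  refine ⟨?_, ?_⟩
  · convert this.meas using 2
    ring
  · obtain ⟨C, N, hC, hb⟩ := this.bound
    exact ⟨C, N, hC, fun s => by rw [neg_mul]; exact hb s⟩

lemma integrable (w : ℂ) : Integrable (fun s => m s * gk w s) := by
  obtain ⟨C, N, hC, hb⟩ := hm.bound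
  refine ((integrable_gauss_abs (N + ‖w‖)).const_mul C).mono'
    (hm.meas.mul (continuous_gk w).measurable).aestronglyMeasurable
    (Eventually.of_forall fun s => ?_)
  rw [norm_mul]
  have h2 : Real.exp (-s ^ 2 / 2 + (N + ‖w‖) * |s|) =
      Real.exp (N * |s|) * Real.exp (-s ^ 2 / 2 + ‖w‖ * |s|) := by
    rw [← Real.exp_add]; ring_nf
  rw [h2, ← mul_assoc]
  exact mul_le_mul (hb s) (norm_gk_le w s) (norm_nonneg _) (by positivity)

lemma hasDerivAt (w : ℂ) : HasDerivAt (FW m) (FW (fun s => -(s : ℂ) * m s) w) w := by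
  obtain ⟨C, N, hC, hb⟩ := hm.neg_mul_id.bound
  have hd : ∀ (s : ℝ) (x : ℂ), HasDerivAt (fun x => m s * gk x s) (-(s : ℂ) * m s * gk x s) x := by
    intro s x
    have h1 : HasDerivAt (fun x : ℂ => -(s : ℂ) ^ 2 / 2 - x * s) (-(s : ℂ)) x := by
      have := ((hasDerivAt_id x).mul_const (s : ℂ)).const_sub (-(s : ℂ) ^ 2 / 2)
      simpa using this
    have h2 := (h1.cexp).const_mul (m s)
    refine h2.congr_deriv ?_
    unfold gk
    ring
  have key := hasDerivAt_integral_of_dominated_loc_of_deriv_le (μ := volume)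
    (F := fun x s => m s * gk x s) (F' := fun x s => -(s : ℂ) * m s * gk x s) (x₀ := w)
    (s := Metric.ball w 1) (bound := fun s => C * Real.exp (-s ^ 2 / 2 + (N + (‖w‖ + 1)) * |s|))
    (Metric.ball_mem_nhds w one_pos)
    (Eventually.of_forall fun x => (hm.integrable x).aestronglyMeasurable)
    (hm.integrable w) (hm.neg_mul_id.integrable w).aestronglyMeasurable
    (Eventually.of_forall fun s x hx => ?_)
    ((integrable_gauss_abs _).const_mul C)
    (Eventually.of_forall fun s x _ => hd s x)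
  · exact key.2
  · rw [norm_mul]
    have h2 : Real.exp (-s ^ 2 / 2 + (N + (‖w‖ + 1)) * |s|) =
        Real.exp (N * |s|) * Real.exp (-s ^ 2 / 2 + (‖w‖ + 1) * |s|) := by
      rw [← Real.exp_add]; ring_nf
    rw [h2, ← mul_assoc]
    refine mul_le_mul (hb s) ((norm_gk_le x s).trans ?_) (norm_nonneg _) (by positivity)
    apply Real.exp_le_exp.2
    have hx' : ‖x‖ ≤ ‖w‖ + 1 := by
      have h3 : ‖x - w‖ < 1 := by rwa [Metric.mem_ball, dist_eq_norm] at hx
      have h4 := norm_add_le (x - w) w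
      rw [sub_add_cancel] at h4
      linarith
    nlinarith [abs_nonneg s]

end IsWeight

/-- The differential equation, for homogeneous weights. -/
lemma FW_ode {m : ℝ → ℂ} (hm : IsWeight m) {ν : ℂ}
    (hd : ∀ s : ℝ, HasDerivAt (fun s : ℝ => (s : ℂ) * m s) ((ν + 1) * m s) s) (w : ℂ) :
    FW (fun s => -(s : ℂ) * (-(s : ℂ) * m s)) w =
      w * FW (fun s => -(s : ℂ) * m s) w + (ν + 1) * FW m w := by
  have hgk : ∀ s : ℝ, HasDerivAt (gk w) ((-(s : ℂ) - w) * gk w s) s := by
    intro s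
    have h1 : HasDerivAt (fun s : ℝ => -(s : ℂ) ^ 2 / 2 - w * s) (-(s : ℂ) - w) s := by
      have h2 : HasDerivAt (fun s : ℝ => (s : ℂ)) 1 s := Complex.ofRealCLM.hasDerivAt
      have h3 := ((h2.pow 2).neg.div_const 2).sub (h2.const_mul w)
      refine h3.congr_deriv ?_
      simp
      ring
    refine h1.cexp.congr_deriv ?_
    unfold gk
    ring
  have hI0 := hm.integrable w
  have hI1 := hm.neg_mul_id.integrable w
  have hI2 := hm.neg_mul_id.neg_mul_id.integrable w
  have hder : ∀ s : ℝ, HasDerivAt (fun s : ℝ => (s : ℂ) * m s * gk w s)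
      ((ν + 1) * (m s * gk w s) + w * (-(s : ℂ) * m s * gk w s) -
        (-(s : ℂ) * (-(s : ℂ) * m s)) * gk w s) s := by
    intro s
    refine ((hd s).mul (hgk s)).congr_deriv ?_
    ring
  have hint := integral_eq_zero_of_hasDerivAt_of_integrable hder
    (((hI0.const_mul _).add (hI1.const_mul _)).sub hI2)
    (hm.mul_id.integrable w)
  rw [integral_sub (by exact (hI0.const_mul _).add (hI1.const_mul _)) hI2,
    integral_add (by exact hI0.const_mul _) (by exact hI1.const_mul _)] at hint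
  rw [integral_const_mul, integral_const_mul] at hint
  unfold FW
  linear_combination -hint

end Pool.Agent.R747.Weber
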