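import Mathlib
import Pool.Agent.R747.WeberFn

/-!
Homogeneous weights and the kernel integral.
-/

open MeasureTheory Set Filter Topology Complex

namespace Pool.Agent.R747.Weber

/-- The even weight. -/
noncomputable def me (ν : ℂ) (s : ℝ) : ℂ := ((|s| : ℝ) : ℂ) ^ ν

/-- The odd weight. -/
noncomputable def mo (ν : ℂ) (s : ℝ) : ℂ := (s : ℂ) * ((|s| : ℝ) : ℂ) ^ (ν - 1)

lemma norm_me {ν : ℂ} (hν : 0 < ν.re) (s : ℝ) : ‖me ν s‖ = |s| ^ ν.re :=
  Complex.norm_cpow_eq_rpow_re_of_nonneg (abs_nonneg s) hν.ne'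

lemma norm_mo {ν : ℂ} (hν : 0 < ν.re) (s : ℝ) : ‖mo ν s‖ = |s| ^ ν.re := by
  rcases eq_or_ne s 0 with rfl | hs
  · simp [mo, Real.zero_rpow hν.ne']
  · have h : 0 < |s| := abs_pos.2 hs
    rw [mo, norm_mul, Complex.norm_real, Real.norm_eq_abs,
      Complex.norm_cpow_eq_rpow_re_of_pos h, Complex.sub_re, Complex.one_re,
      Real.rpow_sub_one h.ne', mul_div_cancel₀ _ h.ne']

lemma abs_rpow_le {a : ℝ} (ha : 0 < a) (s : ℝ) : |s| ^ a ≤ 1 * Real.exp (a * |s|) := by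
  have h1 : |s| ≤ Real.exp |s| := (Real.add_one_le_exp _).trans' (by linarith)
  rw [one_mul, mul_comm a, Real.exp_mul]
  exact Real.rpow_le_rpow (abs_nonneg s) h1 ha.le

lemma isWeight_me {ν : ℂ} (hν : 0 < ν.re) : IsWeight (me ν) where
  meas := by unfold me; fun_prop
  bound := ⟨1, ν.re, zero_le_one, fun s => by rw [norm_me hν]; exact abs_rpow_le hν s⟩

lemma isWeight_mo {ν : ℂ} (hν : 0 < ν.re) : IsWeight (mo ν) where
  meas := by unfold mo; fun_prop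
  bound := ⟨1, ν.re, zero_le_one, fun s => by rw [norm_mo hν]; exact abs_rpow_le hν s⟩

lemma hasDerivAt_abs_cpow {s : ℝ} (hs : s ≠ 0) (r : ℂ) :
    HasDerivAt (fun s : ℝ => ((|s| : ℝ) : ℂ) ^ r)
      (((SignType.sign s : ℝ) : ℂ) * (r * ((|s| : ℝ) : ℂ) ^ (r - 1))) s := by
  rcases eq_or_ne r 0 with rfl | hr
  · simpa using hasDerivAt_const s (1 : ℂ)
  · have h1 := hasDerivAt_ofReal_cpow_const (x := |s|) (abs_pos.2 hs).ne' hr
    have h2 := hasDerivAt_abs hs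
    have h3 := h1.scomp s h2
    refine h3.congr_deriv ?_
    rw [Complex.real_smul]

lemma hasDerivAt_id_mul {g : ℝ → ℂ} (hg : ContinuousAt g 0) :
    HasDerivAt (fun s : ℝ => (s : ℂ) * g s) (g 0) 0 := by
  rw [hasDerivAt_iff_tendsto_slope]
  have h1 : Tendsto g (𝓝[≠] 0) (𝓝 (g 0)) := hg.tendsto.mono_left nhdsWithin_le_nhds
  refine h1.congr' ?_
  filter_upwards [self_mem_nhdsWithin] with s hs
  rw [slope_def_module]
  have hs' : (s : ℂ) ≠ 0 := by exact_mod_cast hs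
  simp only [Complex.ofReal_zero, zero_mul, sub_zero, Complex.real_smul, Complex.ofReal_inv]
  rw [inv_mul_cancel_left₀ hs']

lemma continuousAt_zero {g : ℝ → ℂ} {a : ℝ} (ha : 0 < a) (hg : ∀ s, ‖g s‖ = |s| ^ a) :
    ContinuousAt g 0 := by
  have h0 : g 0 = 0 := by
    rw [← norm_eq_zero, hg 0, abs_zero, Real.zero_rpow ha.ne']
  rw [ContinuousAt, h0, tendsto_zero_iff_norm_tendsto_zero]
  have h1 : Tendsto (fun s : ℝ => |s| ^ a) (𝓝 0) (𝓝 (|(0 : ℝ)| ^ a)) :=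
    (continuous_abs.continuousAt.rpow_const (Or.inr ha.le)).tendsto
  rw [abs_zero, Real.zero_rpow ha.ne'] at h1
  exact h1.congr fun s => (hg s).symm

lemma hasDerivAt_me {ν : ℂ} (hν : 0 < ν.re) (s : ℝ) :
    HasDerivAt (fun s : ℝ => (s : ℂ) * me ν s) ((ν + 1) * me ν s) s := by
  rcases eq_or_ne s 0 with rfl | hs
  · have h := hasDerivAt_id_mul (continuousAt_zero hν (norm_me hν))
    have h0 : me ν 0 = 0 := by
      rw [← norm_eq_zero, norm_me hν, abs_zero, Real.zero_rpow hν.ne']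
    rw [h0] at h ⊢
    simpa using h
  · have h2 : HasDerivAt (fun s : ℝ => (s : ℂ)) 1 s := Complex.ofRealCLM.hasDerivAt
    refine (h2.mul (hasDerivAt_abs_cpow hs ν)).congr_deriv ?_
    have habs : ((|s| : ℝ) : ℂ) ≠ 0 := by exact_mod_cast (abs_pos.2 hs).ne'
    have h3 : (s : ℂ) * ((SignType.sign s : ℝ) : ℂ) = ((|s| : ℝ) : ℂ) := by
      rw [← Complex.ofReal_mul, self_mul_sign]
    have h4 : ((|s| : ℝ) : ℂ) * ((|s| : ℝ) : ℂ) ^ (ν - 1) = ((|s| : ℝ) : ℂ) ^ ν := by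
      rw [Complex.cpow_sub _ _ habs, Complex.cpow_one, mul_div_cancel₀ _ habs]
    unfold me
    linear_combination (ν * ((|s| : ℝ) : ℂ) ^ (ν - 1)) * h3 + ν * h4

lemma hasDerivAt_mo {ν : ℂ} (hν : 0 < ν.re) (s : ℝ) :
    HasDerivAt (fun s : ℝ => (s : ℂ) * mo ν s) ((ν + 1) * mo ν s) s := by
  rcases eq_or_ne s 0 with rfl | hs
  · have h := hasDerivAt_id_mul (continuousAt_zero hν (norm_mo hν))
    have h0 : mo ν 0 = 0 := by
      rw [← norm_eq_zero, norm_mo hν, abs_zero, Real.zero_rpow hν.ne']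
    rw [h0] at h ⊢
    simpa using h
  · have h2 : HasDerivAt (fun s : ℝ => (s : ℂ)) 1 s := Complex.ofRealCLM.hasDerivAt
    refine (h2.mul (h2.mul (hasDerivAt_abs_cpow hs (ν - 1)))).congr_deriv ?_
    have habs : ((|s| : ℝ) : ℂ) ≠ 0 := by exact_mod_cast (abs_pos.2 hs).ne'
    have h3 : (s : ℂ) * ((SignType.sign s : ℝ) : ℂ) = ((|s| : ℝ) : ℂ) := by
      rw [← Complex.ofReal_mul, self_mul_sign]
    have h4 : ((|s| : ℝ) : ℂ) * ((|s| : ℝ) : ℂ) ^ (ν - 1 - 1) = ((|s| : ℝ) : ℂ) ^ (ν - 1) := by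
      rw [Complex.cpow_sub _ _ habs, Complex.cpow_one, mul_div_cancel₀ _ habs]
    unfold mo
    simp only [Pi.mul_apply]
    linear_combination ((s : ℂ) * ((ν - 1) * ((|s| : ℝ) : ℂ) ^ (ν - 1 - 1))) * h3 +
      (s : ℂ) * (ν - 1) * h4

/-- The truncated power. -/
noncomputable def bnd (a : ℝ) (x : ℝ) : ℝ := min 1 x * x ^ (-a - 1)

lemma bnd_nonneg {a x : ℝ} (hx : 0 < x) : 0 ≤ bnd a x := by unfold bnd; positivity

lemma integrableOn_bnd {a : ℝ} (h0 : 0 < a) (h1 : a < 1) : IntegrableOn (bnd a) (Ioi 0) := by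
  rw [← Ioc_union_Ioi_eq_Ioi zero_le_one, integrableOn_union]
  constructor
  · have h : IntegrableOn (fun x : ℝ => x ^ (-a)) (Ioc 0 1) := by
      rw [← intervalIntegrable_iff_integrableOn_Ioc_of_le zero_le_one]
      exact intervalIntegral.intervalIntegrable_rpow' (by linarith)
    refine h.congr_fun (fun x hx => ?_) measurableSet_Ioc
    change x ^ (-a) = bnd a x
    rw [bnd, min_eq_right hx.2, Real.rpow_sub_one hx.1.ne', mul_div_cancel₀ _ hx.1.ne']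
  · have h : IntegrableOn (fun x : ℝ => x ^ (-a - 1)) (Ioi 1) :=
      integrableOn_Ioi_rpow_of_lt (by linarith) one_pos
    refine h.congr_fun (fun x hx => ?_) measurableSet_Ioi
    change x ^ (-a - 1) = bnd a x
    rw [bnd, min_eq_left (le_of_lt hx), one_mul]

lemma norm_one_sub_exp_le (y : ℝ) : ‖1 - cexp (I * y)‖ ≤ min 2 |y| := by
  rw [norm_sub_rev]
  apply le_min
  · have h := norm_sub_le (cexp (I * y)) 1
    rw [mul_comm, Complex.norm_exp_ofReal_mul_I, norm_one] at h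
    rw [mul_comm]
    linarith
  · have := Real.norm_exp_I_mul_ofReal_sub_one_le (x := y)
    simpa using this

lemma min_le_aux {x p : ℝ} (hx : 0 < x) (hp : 0 ≤ p) : min 2 (x * p) ≤ 2 * min 1 x * (1 + p) := by
  rcases le_total 1 x with h | h
  · rw [min_eq_left h]
    exact (min_le_left _ _).trans (by linarith)
  · rw [min_eq_right h]
    refine (min_le_right _ _).trans ?_
    nlinarith

/-- The kernel integral. -/
noncomputable def JJ (ν : ℂ) (y : ℝ) : ℂ :=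
  ∫ x in Ioi (0 : ℝ), (1 - cexp (I * ((x * y : ℝ) : ℂ))) * (x : ℂ) ^ (-ν - 1)

lemma norm_cpow_aux {x : ℝ} (hx : 0 < x) (ν : ℂ) : ‖(x : ℂ) ^ (-ν - 1)‖ = x ^ (-ν.re - 1) := by
  rw [Complex.norm_cpow_eq_rpow_re_of_pos hx]
  simp

lemma JJ_scale (ν : ℂ) {c : ℝ} (hc : 0 < c) (y : ℝ) : JJ ν (c * y) = (c : ℂ) ^ ν * JJ ν y := by
  have hcc : (c : ℂ) ≠ 0 := by exact_mod_cast hc.ne'
  have h := integral_comp_mul_left_Ioi
    (fun x : ℝ => (1 - cexp (I * ((x * y : ℝ) : ℂ))) * (x : ℂ) ^ (-ν - 1)) 0 hc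
  rw [mul_zero] at h
  have h2 : ∀ x ∈ Ioi (0 : ℝ), (1 - cexp (I * ((x * (c * y) : ℝ) : ℂ))) * (x : ℂ) ^ (-ν - 1) =
      (c : ℂ) ^ (ν + 1) *
        ((1 - cexp (I * ((c * x * y : ℝ) : ℂ))) * ((c * x : ℝ) : ℂ) ^ (-ν - 1)) := by
    intro x hx
    have hx0 : (0 : ℝ) < x := hx
    rw [Complex.ofReal_mul c x, Complex.mul_cpow_ofReal_nonneg hc.le hx0.le]
    have h3 : (c : ℂ) ^ (ν + 1) * (c : ℂ) ^ (-ν - 1) = 1 := by
      rw [← Complex.cpow_add _ _ hcc]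
      simp
    have h4 : x * (c * y) = c * x * y := by ring
    rw [h4]
    linear_combination (-((1 - cexp (I * ((c * x * y : ℝ) : ℂ))) * (x : ℂ) ^ (-ν - 1))) * h3
  rw [JJ, setIntegral_congr_fun measurableSet_Ioi h2, integral_const_mul, h, Complex.real_smul,
    ← mul_assoc]
  congr 1
  rw [Complex.cpow_add _ _ hcc, Complex.cpow_one, Complex.ofReal_inv, mul_assoc,
    mul_inv_cancel₀ hcc, mul_one]

/-- The even coefficient. -/
noncomputable def je (ν : ℂ) : ℂ := (JJ ν 1 + JJ ν (-1)) / 2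

/-- The odd coefficient. -/
noncomputable def jo (ν : ℂ) : ℂ := (JJ ν 1 - JJ ν (-1)) / 2

lemma JJ_eq {ν : ℂ} (hν : 0 < ν.re) (y : ℝ) : JJ ν y = je ν * me ν y + jo ν * mo ν y := by
  have hν0 : ν ≠ 0 := by
    rintro rfl
    simp at hν
  rcases lt_trichotomy y 0 with hy | rfl | hy
  · have h1 : y = (-y) * (-1) := by ring
    have h2 : JJ ν y = ((-y : ℝ) : ℂ) ^ ν * JJ ν (-1) := by
      conv_lhs => rw [h1]
      exact JJ_scale ν (by linarith) (-1)
    have hyc : ((-y : ℝ) : ℂ) ≠ 0 := by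
      have : -y ≠ 0 := by linarith
      exact_mod_cast this
    have h3 : (y : ℂ) * ((-y : ℝ) : ℂ) ^ (ν - 1) = -((-y : ℝ) : ℂ) ^ ν := by
      rw [Complex.cpow_sub _ _ hyc, Complex.cpow_one]
      have : (y : ℂ) = -((-y : ℝ) : ℂ) := by push_cast; ring
      rw [this]
      field_simp
    rw [h2, je, jo, me, mo, abs_of_neg hy, h3]
    ring
  · have h1 : JJ ν 0 = 0 := by simp [JJ]
    rw [h1, me, mo]
    simp [Complex.zero_cpow hν0]
  · have h2 : JJ ν y = (y : ℂ) ^ ν * JJ ν 1 := by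
      have := JJ_scale ν hy 1
      rwa [mul_one] at this
    have hyc : (y : ℂ) ≠ 0 := by exact_mod_cast hy.ne'
    have h3 : (y : ℂ) * (y : ℂ) ^ (ν - 1) = (y : ℂ) ^ ν := by
      rw [Complex.cpow_sub _ _ hyc, Complex.cpow_one, mul_div_cancel₀ _ hyc]
    rw [h2, je, jo, me, mo, abs_of_pos hy, h3]
    ring

lemma me_mul (ν : ℂ) (s t : ℝ) : me ν (s * t) = me ν s * me ν t := by
  rw [me, me, me, abs_mul, Complex.ofReal_mul,
    Complex.mul_cpow_ofReal_nonneg (abs_nonneg _) (abs_nonneg _)]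

lemma mo_mul (ν : ℂ) (s t : ℝ) : mo ν (s * t) = mo ν s * mo ν t := by
  rw [mo, mo, mo, abs_mul, Complex.ofReal_mul, Complex.ofReal_mul,
    Complex.mul_cpow_ofReal_nonneg (abs_nonneg _) (abs_nonneg _)]
  ring

end Pool.Agent.R747.Weber
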