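import Mathlib
import Pool.Agent.R747.WeberWt

/-!
The integral identity for products of Gaussian Laplace transforms.
-/

open MeasureTheory Set Filter Topology Complex

namespace Pool.Agent.R747.Weber

lemma isWeight_one : IsWeight (fun _ => 1) where
  meas := measurable_const
  bound := ⟨1, 0, zero_le_one, fun s => by simp⟩

lemma integrable_gk (w : ℂ) : Integrable (gk w) := by
  simpa using isWeight_one.integrable w

lemma sqrt_aux {a : ℝ} (ha : 0 < a) : ((a : ℂ)) ^ (1 / 2 : ℂ) = ((√a : ℝ) : ℂ) := by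
  rw [Real.sqrt_eq_rpow, Complex.ofReal_cpow ha.le]
  norm_num

lemma integral_gk (w : ℂ) : ∫ s : ℝ, gk w s = ((√(2 * Real.pi) : ℝ) : ℂ) * cexp (w ^ 2 / 2) := by
  have h := integral_cexp_quadratic (b := -(1 / 2)) (by norm_num) (-w) 0
  have h1 : ∀ s : ℝ, gk w s = cexp (-(1 / 2) * (s : ℂ) ^ 2 + -w * s + 0) := by
    intro s
    unfold gk
    congr 1
    ring
  rw [integral_congr_ae (Eventually.of_forall h1), h, ← sqrt_aux (by positivity)]
  congr 1
  · congr 1
    push_cast
    ring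
  · congr 1
    ring

lemma gk_shift (B : ℂ) (x s t : ℝ) :
    cexp (I * ((x * (s * t) : ℝ) : ℂ)) * gk B t = gk (B - I * x * s) t := by
  unfold gk
  rw [← Complex.exp_add]
  congr 1
  push_cast
  ring

lemma norm_exp_I (y : ℝ) : ‖cexp (I * (y : ℂ))‖ = 1 := by
  rw [mul_comm, Complex.norm_exp_ofReal_mul_I]

lemma integrable_osc (A B : ℂ) (x : ℝ) :
    Integrable (fun p : ℝ × ℝ => cexp (I * ((x * (p.1 * p.2) : ℝ) : ℂ)) *
      (gk A p.1 * gk B p.2)) := by
  have h := (integrable_gk A).mul_prod (integrable_gk B)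
  refine h.bdd_mul (c := 1) ?_ (Eventually.of_forall fun p => ?_)
  · fun_prop
  · rw [norm_exp_I]

lemma integral_osc (A B : ℂ) (x : ℝ) :
    ∫ p : ℝ × ℝ, cexp (I * ((x * (p.1 * p.2) : ℝ) : ℂ)) * (gk A p.1 * gk B p.2) =
      2 * Real.pi * (((√(1 + x ^ 2))⁻¹ : ℝ) : ℂ) *
        cexp ((A ^ 2 + B ^ 2 + 2 * I * x * A * B) / (2 * (1 + x ^ 2))) := by
  have hpos : 0 < 1 + x ^ 2 := by positivity
  have hposc : (1 + (x : ℂ) ^ 2) ≠ 0 := by exact_mod_cast hpos.ne'
  rw [Measure.volume_eq_prod, integral_prod _ (integrable_osc A B x)]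
  have h1 : ∀ s : ℝ, ∫ t : ℝ, cexp (I * ((x * (s * t) : ℝ) : ℂ)) * (gk A s * gk B t) =
      ((√(2 * Real.pi) : ℝ) : ℂ) * cexp (-((1 + x ^ 2) / 2) * (s : ℂ) ^ 2 + -(A + I * x * B) * s +
        B ^ 2 / 2) := by
    intro s
    have h2 : ∀ t : ℝ, cexp (I * ((x * (s * t) : ℝ) : ℂ)) * (gk A s * gk B t) =
        gk A s * gk (B - I * x * s) t := by
      intro t
      rw [← gk_shift]
      ring
    rw [integral_congr_ae (Eventually.of_forall h2), integral_const_mul, integral_gk]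
    unfold gk
    rw [mul_left_comm, ← Complex.exp_add]
    congr 2
    ring_nf
    rw [Complex.I_sq]
    ring
  rw [integral_congr_ae (Eventually.of_forall h1), integral_const_mul,
    integral_cexp_quadratic (b := -((1 + x ^ 2) / 2)) (by
      have h3 : (-((1 + (x : ℂ) ^ 2) / 2)) = ((-((1 + x ^ 2) / 2) : ℝ) : ℂ) := by push_cast; ring
      rw [h3, Complex.ofReal_re]
      linarith)]
  have h4 : (Real.pi : ℂ) / -(-((1 + (x : ℂ) ^ 2) / 2)) =
      ((2 * Real.pi / (1 + x ^ 2) : ℝ) : ℂ) := by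
    push_cast
    field_simp
  rw [h4, sqrt_aux (by positivity), ← mul_assoc]
  congr 1
  · rw [← Complex.ofReal_mul, Real.sqrt_div (by positivity), mul_div_assoc',
      Real.mul_self_sqrt (by positivity)]
    push_cast
    ring
  · congr 1
    field_simp
    ring_nf
    rw [Complex.I_sq]
    ring

/-- The triple integrand. -/
noncomputable def kk (ν A B : ℂ) (x : ℝ) (p : ℝ × ℝ) : ℂ :=
  (1 - cexp (I * ((x * (p.1 * p.2) : ℝ) : ℂ))) * (x : ℂ) ^ (-ν - 1) * (gk A p.1 * gk B p.2)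

lemma integrable_kk {ν : ℂ} (h0 : 0 < ν.re) (h1 : ν.re < 1) (A B : ℂ) :
    Integrable (Function.uncurry (kk ν A B)) ((volume.restrict (Ioi 0)).prod volume) := by
  have hw : ∀ w : ℂ, Integrable (fun s : ℝ => (1 + |s|) * ‖gk w s‖) := by
    intro w
    have h2 := (isWeight_one.integrable w).norm.add (isWeight_one.mul_id.integrable w).norm
    refine h2.congr (Eventually.of_forall fun s => ?_)
    simp only [Pi.add_apply, norm_mul, Complex.norm_real, Real.norm_eq_abs, norm_one]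
    ring
  have hb : IntegrableOn (fun x => 2 * bnd ν.re x) (Ioi 0) := (integrableOn_bnd h0 h1).const_mul 2
  have hprod := Integrable.mul_prod (μ := volume.restrict (Ioi (0 : ℝ))) (ν := volume) hb
    ((hw A).mul_prod (hw B))
  refine hprod.mono' ?_ ?_
  · apply Measurable.aestronglyMeasurable
    unfold kk gk
    fun_prop
  · have hae : ∀ᵐ z : ℝ × ℝ × ℝ ∂((volume.restrict (Ioi 0)).prod volume), 0 < z.1 := by
      have h3 : ∀ᵐ x : ℝ ∂(volume.restrict (Ioi 0)), 0 < x := ae_restrict_mem measurableSet_Ioi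
      exact Measure.quasiMeasurePreserving_fst.ae h3
    filter_upwards [hae] with z hz
    obtain ⟨x, s, t⟩ := z
    simp only at hz
    simp only [Function.uncurry, kk]
    rw [norm_mul, norm_mul, norm_mul, norm_cpow_aux hz]
    have h4 : ‖1 - cexp (I * ((x * (s * t) : ℝ) : ℂ))‖ ≤ 2 * min 1 x * ((1 + |s|) * (1 + |t|)) := by
      refine (norm_one_sub_exp_le _).trans ?_
      rw [abs_mul, abs_of_pos hz]
      refine (min_le_aux hz (abs_nonneg _)).trans ?_
      have : 1 + |s * t| ≤ (1 + |s|) * (1 + |t|) := by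
        rw [abs_mul]
        nlinarith [abs_nonneg s, abs_nonneg t]
      exact mul_le_mul_of_nonneg_left this (by positivity)
    calc ‖1 - cexp (I * ((x * (s * t) : ℝ) : ℂ))‖ * x ^ (-ν.re - 1) * (‖gk A s‖ * ‖gk B t‖)
        ≤ 2 * min 1 x * ((1 + |s|) * (1 + |t|)) * x ^ (-ν.re - 1) * (‖gk A s‖ * ‖gk B t‖) := by
          gcongr
      _ = 2 * bnd ν.re x * ((1 + |s|) * ‖gk A s‖ * ((1 + |t|) * ‖gk B t‖)) := by
          unfold bnd
          ring

/-- The integral identity. -/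
theorem main_identity {ν : ℂ} (h0 : 0 < ν.re) (h1 : ν.re < 1) (A B : ℂ) :
    je ν * (FW (me ν) A * FW (me ν) B) + jo ν * (FW (mo ν) A * FW (mo ν) B) =
      ∫ x in Ioi (0 : ℝ), (x : ℂ) ^ (-ν - 1) * (2 * Real.pi * (cexp ((A ^ 2 + B ^ 2) / 2) -
        (((√(1 + x ^ 2))⁻¹ : ℝ) : ℂ) *
          cexp ((A ^ 2 + B ^ 2 + 2 * I * x * A * B) / (2 * (1 + x ^ 2))))) := by
  have hswap := integral_integral_swap (integrable_kk h0 h1 A B)
  have hL : ∀ x : ℝ, ∫ p : ℝ × ℝ, kk ν A B x p =
      (x : ℂ) ^ (-ν - 1) * (2 * Real.pi * (cexp ((A ^ 2 + B ^ 2) / 2) -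
        (((√(1 + x ^ 2))⁻¹ : ℝ) : ℂ) *
          cexp ((A ^ 2 + B ^ 2 + 2 * I * x * A * B) / (2 * (1 + x ^ 2))))) := by
    intro x
    have h2 : ∀ p : ℝ × ℝ, kk ν A B x p = (x : ℂ) ^ (-ν - 1) * (gk A p.1 * gk B p.2 -
        cexp (I * ((x * (p.1 * p.2) : ℝ) : ℂ)) * (gk A p.1 * gk B p.2)) := by
      intro p
      unfold kk
      ring
    rw [integral_congr_ae (Eventually.of_forall h2), integral_const_mul, Measure.volume_eq_prod,
      integral_sub ((integrable_gk A).mul_prod (integrable_gk B)) (integrable_osc A B x),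
      ← Measure.volume_eq_prod, integral_osc]
    have h3 : ∫ p : ℝ × ℝ, gk A p.1 * gk B p.2 = 2 * Real.pi * cexp ((A ^ 2 + B ^ 2) / 2) := by
      rw [Measure.volume_eq_prod, integral_prod_mul (gk A) (gk B), integral_gk, integral_gk]
      have h4 : ((√(2 * Real.pi) : ℝ) : ℂ) * ((√(2 * Real.pi) : ℝ) : ℂ) = 2 * Real.pi := by
        rw [← Complex.ofReal_mul, Real.mul_self_sqrt (by positivity)]
        push_cast
        ring
      have h5 : cexp ((A ^ 2 + B ^ 2) / 2) = cexp (A ^ 2 / 2) * cexp (B ^ 2 / 2) := by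
        rw [← Complex.exp_add]
        congr 1
        ring
      rw [h5]
      linear_combination (cexp (A ^ 2 / 2) * cexp (B ^ 2 / 2)) * h4
    rw [h3]
    ring
  have hR : ∀ p : ℝ × ℝ, ∫ x in Ioi (0 : ℝ), kk ν A B x p =
      je ν * ((me ν p.1 * gk A p.1) * (me ν p.2 * gk B p.2)) +
        jo ν * ((mo ν p.1 * gk A p.1) * (mo ν p.2 * gk B p.2)) := by
    intro p
    have h2 : ∫ x in Ioi (0 : ℝ), kk ν A B x p = JJ ν (p.1 * p.2) * (gk A p.1 * gk B p.2) := by
      unfold kk
      rw [integral_mul_const]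
      rfl
    rw [h2, JJ_eq h0, me_mul, mo_mul]
    ring
  rw [setIntegral_congr_fun (g := _) measurableSet_Ioi (fun x _ => hL x)] at hswap
  rw [hswap, integral_congr_ae (Eventually.of_forall hR)]
  have e1 := (isWeight_me h0).integrable A
  have e2 := (isWeight_me h0).integrable B
  have o1 := (isWeight_mo h0).integrable A
  have o2 := (isWeight_mo h0).integrable B
  rw [Measure.volume_eq_prod,
    integral_add ((e1.mul_prod e2).const_mul _) ((o1.mul_prod o2).const_mul _),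
    integral_const_mul, integral_const_mul,
    integral_prod_mul (fun s => me ν s * gk A s) (fun s => me ν s * gk B s),
    integral_prod_mul (fun s => mo ν s * gk A s) (fun s => mo ν s * gk B s)]
  rfl

end Pool.Agent.R747.Weber
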