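import Mathlib
import Pool.Agent.R747.WeberId

/-!
Positivity of the renormalized kernel integral.
-/

open MeasureTheory Set Filter Topology Complex

namespace Pool.Agent.R747.Weber

/-- The Gaussian superposition kernel. -/
noncomputable def GG (w : ℂ) (x : ℝ) : ℂ :=
  (((√(1 + x ^ 2))⁻¹ : ℝ) : ℂ) *
    cexp (-((x * normSq w : ℝ) + I * (x ^ 2 * (w ^ 2).im : ℝ)) / ((1 + x ^ 2 : ℝ) : ℂ))

/-- The scale. -/
noncomputable def TT (w : ℂ) : ℝ := 1 + normSq w

lemma TT_ge (w : ℂ) : 1 ≤ TT w := by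
  have := normSq_nonneg w
  unfold TT
  linarith

lemma TT_pos (w : ℂ) : 0 < TT w := lt_of_lt_of_le one_pos (TT_ge w)

lemma measurable_GG (w : ℂ) : Measurable (GG w) := by unfold GG; fun_prop

lemma qre (w : ℂ) (x : ℝ) :
    (-((x * normSq w : ℝ) + I * (x ^ 2 * (w ^ 2).im : ℝ)) / ((1 + x ^ 2 : ℝ) : ℂ)).re =
      -(x * normSq w) / (1 + x ^ 2) := by
  rw [Complex.div_ofReal_re]
  congr 1
  rw [Complex.neg_re, Complex.add_re, Complex.mul_re, Complex.ofReal_re, Complex.ofReal_re,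
    Complex.ofReal_im, Complex.I_re, Complex.I_im]
  ring

lemma sqrt_ge_one (x : ℝ) : 1 ≤ √(1 + x ^ 2) := by
  rw [show (1 : ℝ) = √1 by simp]
  apply Real.sqrt_le_sqrt
  simp
  positivity

lemma norm_GG (w : ℂ) (x : ℝ) :
    ‖GG w x‖ = (√(1 + x ^ 2))⁻¹ * Real.exp (-(x * normSq w) / (1 + x ^ 2)) := by
  rw [GG, norm_mul, Complex.norm_exp, qre, Complex.norm_real,
    Real.norm_of_nonneg (inv_nonneg.2 (Real.sqrt_nonneg _))]

lemma norm_GG_le_one (w : ℂ) {x : ℝ} (hx : 0 ≤ x) : ‖GG w x‖ ≤ 1 := by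
  rw [norm_GG]
  have h1 : (√(1 + x ^ 2))⁻¹ ≤ 1 := inv_le_one_of_one_le₀ (sqrt_ge_one x)
  have h2 : Real.exp (-(x * normSq w) / (1 + x ^ 2)) ≤ 1 := by
    apply Real.exp_le_one_iff.2
    apply div_nonpos_of_nonpos_of_nonneg
    · have := mul_nonneg hx (normSq_nonneg w)
      linarith
    · positivity
  exact mul_le_one₀ h1 (Real.exp_pos _).le h2

lemma norm_one_sub_exp {q : ℂ} (hq : q.re ≤ 0) : ‖1 - cexp q‖ ≤ 2 * ‖q‖ := by
  rcases le_total ‖q‖ 1 with h | h
  · rw [norm_sub_rev]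
    exact Complex.norm_exp_sub_one_le h
  · have h1 : ‖cexp q‖ ≤ 1 := by
      rw [Complex.norm_exp]
      exact Real.exp_le_one_iff.2 hq
    have h2 := norm_sub_le (1 : ℂ) (cexp q)
    rw [norm_one] at h2
    linarith

lemma abs_im_sq_le (w : ℂ) : |(w ^ 2).im| ≤ normSq w := by
  have h := Complex.abs_im_le_norm (w ^ 2)
  rwa [norm_pow, Complex.sq_norm] at h

lemma norm_one_sub_GG (w : ℂ) {x : ℝ} (hx : 0 < x) : ‖1 - GG w x‖ ≤ 4 * min 1 (x * TT w) := by
  rcases le_total 1 (x * TT w) with h | h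
  · rw [min_eq_left h]
    have h1 := norm_sub_le (1 : ℂ) (GG w x)
    rw [norm_one] at h1
    have h2 := norm_GG_le_one w hx.le
    linarith
  · rw [min_eq_right h]
    have hT := TT_ge w
    have hx1 : x ≤ 1 := by nlinarith
    have hN := normSq_nonneg w
    set r : ℝ := (√(1 + x ^ 2))⁻¹ with hr
    set q : ℂ := -((x * normSq w : ℝ) + I * (x ^ 2 * (w ^ 2).im : ℝ)) / ((1 + x ^ 2 : ℝ) : ℂ)
      with hq
    have hqre : q.re ≤ 0 := by
      rw [hq, qre]
      apply div_nonpos_of_nonpos_of_nonneg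
      · have := mul_nonneg hx.le hN
        linarith
      · positivity
    have hqn : ‖q‖ ≤ 2 * (x * normSq w) := by
      rw [hq, norm_div, norm_neg, Complex.norm_real, Real.norm_of_nonneg (by positivity)]
      apply (div_le_self (norm_nonneg _) (by nlinarith)).trans
      refine (norm_add_le _ _).trans ?_
      rw [norm_mul, Complex.norm_I, one_mul, Complex.norm_real, Complex.norm_real,
        Real.norm_of_nonneg (mul_nonneg hx.le hN), Real.norm_eq_abs, abs_mul,
        abs_of_nonneg (sq_nonneg x)]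
      have h3 := abs_im_sq_le w
      have h4 : x ^ 2 ≤ x := by nlinarith
      have h5 : x ^ 2 * |(w ^ 2).im| ≤ x * normSq w :=
        mul_le_mul h4 h3 (abs_nonneg _) hx.le
      linarith
    have hr1 : r ≤ 1 := inv_le_one_of_one_le₀ (sqrt_ge_one x)
    have hr0 : 0 ≤ r := inv_nonneg.2 (Real.sqrt_nonneg _)
    have hr2 : 1 - r ≤ x := by
      have h6 : √(1 + x ^ 2) ≤ 1 + x := by
        apply Real.sqrt_le_iff.2
        constructor
        · linarith
        · nlinarith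
      have h7 : (1 + x)⁻¹ ≤ r := inv_anti₀ (by linarith [sqrt_ge_one x]) h6
      have h8 : 1 - x ≤ (1 + x)⁻¹ := by
        rw [← one_div, le_div_iff₀ (by linarith)]
        nlinarith
      linarith
    have hdec : 1 - GG w x = ((1 - r : ℝ) : ℂ) + (r : ℂ) * (1 - cexp q) := by
      rw [GG, ← hr, ← hq]
      push_cast
      ring
    rw [hdec]
    refine (norm_add_le _ _).trans ?_
    rw [norm_mul, Complex.norm_real, Complex.norm_real, Real.norm_of_nonneg (by linarith),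
      Real.norm_of_nonneg hr0]
    have h9 : r * ‖1 - cexp q‖ ≤ 1 * (2 * ‖q‖) :=
      mul_le_mul hr1 (norm_one_sub_exp hqre) (norm_nonneg _) zero_le_one
    have h10 : TT w = 1 + normSq w := rfl
    rw [h10]
    nlinarith

lemma norm_GG_mid (w : ℂ) {y : ℝ} (h1 : 1 ≤ y) (h2 : y ≤ 2) : ‖GG w (y / TT w)‖ ≤ 9 / 10 := by
  have hT := TT_ge w
  have hT0 := TT_pos w
  have hN := normSq_nonneg w
  set x := y / TT w with hx
  have hx0 : 0 < x := div_pos (by linarith) hT0
  have hTN : TT w = 1 + normSq w := rfl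
  rw [norm_GG]
  rcases le_total (normSq w) 1 with h | h
  · have hx1 : 1 / 2 ≤ x := by
      rw [hx, le_div_iff₀ hT0]
      linarith
    have h3 : (10 : ℝ) / 9 ≤ √(1 + x ^ 2) := by
      apply Real.le_sqrt_of_sq_le
      nlinarith
    have h4 : (√(1 + x ^ 2))⁻¹ ≤ 9 / 10 := by
      have := inv_anti₀ (by norm_num) h3
      norm_num at this ⊢
      exact this
    have h5 : Real.exp (-(x * normSq w) / (1 + x ^ 2)) ≤ 1 := by
      apply Real.exp_le_one_iff.2
      apply div_nonpos_of_nonpos_of_nonneg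
      · have := mul_nonneg hx0.le hN
        linarith
      · positivity
    calc _ ≤ (9 / 10 : ℝ) * 1 := mul_le_mul h4 h5 (Real.exp_pos _).le (by norm_num)
      _ = _ := by norm_num
  · have hx1 : x ≤ 1 := by
      rw [hx, div_le_one hT0]
      linarith
    have h3 : 1 / 4 ≤ x * normSq w / (1 + x ^ 2) := by
      rw [le_div_iff₀ (by positivity)]
      have h6 : x * TT w = y := div_mul_cancel₀ _ hT0.ne'
      have h7 : 1 / 2 ≤ x * normSq w := by
        have : x * normSq w = y - x := by rw [← h6, hTN]; ring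
        rw [this]
        have h8 : x ≤ y / 2 := by
          rw [hx]
          apply div_le_div_of_nonneg_left (by linarith) (by norm_num)
          linarith
        linarith
      nlinarith
    have h4 : Real.exp (-(x * normSq w) / (1 + x ^ 2)) ≤ 9 / 10 := by
      have h9 : -(x * normSq w) / (1 + x ^ 2) ≤ -(1 / 4) := by
        rw [neg_div]
        linarith
      have h10 : Real.exp (-(1 / 4)) ≤ 9 / 10 := by
        have h11 := Real.add_one_le_exp (1 / 4 : ℝ)
        rw [Real.exp_neg]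
        have h12 : (10 : ℝ) / 9 ≤ Real.exp (1 / 4) := by linarith
        have h13 := inv_anti₀ (by norm_num) h12
        norm_num at h13 ⊢
        exact h13
      exact (Real.exp_le_exp.2 h9).trans h10
    have h5 : (√(1 + x ^ 2))⁻¹ ≤ 1 := inv_le_one_of_one_le₀ (sqrt_ge_one x)
    calc _ ≤ (1 : ℝ) * (9 / 10) := mul_le_mul h5 h4 (Real.exp_pos _).le (by norm_num)
      _ = _ := by norm_num

/-- The exponent. -/
noncomputable def nu (ε : ℝ) : ℂ := ((3 / 4 : ℝ) : ℂ) + I * (ε : ℂ)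

lemma nu_re (ε : ℝ) : (nu ε).re = 3 / 4 := by simp [nu]

lemma nu_im (ε : ℝ) : (nu ε).im = ε := by simp [nu]

/-- The renormalized kernel integral. -/
noncomputable def hh (ε : ℝ) (w : ℂ) : ℂ :=
  ∫ y in Ioi (0 : ℝ), (1 - GG w (y / TT w)) * (y : ℂ) ^ (-nu ε - 1)

lemma integrableOn_hh (ε : ℝ) (w : ℂ) :
    IntegrableOn (fun y : ℝ => (1 - GG w (y / TT w)) * (y : ℂ) ^ (-nu ε - 1)) (Ioi 0) := by
  have hb : IntegrableOn (fun x => 4 * bnd (3 / 4) x) (Ioi 0) :=
    (integrableOn_bnd (by norm_num) (by norm_num)).const_mul 4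
  refine hb.mono' ?_ ?_
  · apply Measurable.aestronglyMeasurable
    have h1 : Measurable (fun y : ℝ => GG w (y / TT w)) :=
      (measurable_GG w).comp (measurable_id.div_const _)
    exact (measurable_const.sub h1).mul (by fun_prop)
  · filter_upwards [ae_restrict_mem measurableSet_Ioi] with y hy
    have hy0 : (0 : ℝ) < y := hy
    have h2 := norm_one_sub_GG w (div_pos hy0 (TT_pos w))
    rw [div_mul_cancel₀ _ (TT_pos w).ne'] at h2
    rw [norm_mul, norm_cpow_aux hy0, nu_re]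
    calc _ ≤ 4 * min 1 y * y ^ (-(3 / 4 : ℝ) - 1) :=
          mul_le_mul_of_nonneg_right h2 (by positivity)
      _ = _ := by unfold bnd; ring

lemma abs_log_le {y : ℝ} (hy : 0 < y) :
    |Real.log y| * bnd (3 / 4) y ≤ 8 * (bnd (7 / 8) y + bnd (5 / 8) y) := by
  rcases le_total 1 y with h | h
  · have h1 : |Real.log y| ≤ y ^ (1 / 8 : ℝ) / (1 / 8) := by
      rw [abs_of_nonneg (Real.log_nonneg h)]
      exact Real.log_le_rpow_div hy.le (by norm_num)
    have h2 : 0 ≤ bnd (7 / 8) y := bnd_nonneg hy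
    have h3 : bnd (5 / 8) y = y ^ (1 / 8 : ℝ) * bnd (3 / 4) y := by
      unfold bnd
      rw [mul_left_comm, ← Real.rpow_add hy]
      norm_num
    have h4 : 0 ≤ bnd (3 / 4) y := bnd_nonneg hy
    nlinarith [mul_le_mul_of_nonneg_right h1 h4]
  · have h1 : |Real.log y| ≤ y ^ (-(1 / 8) : ℝ) / (1 / 8) := by
      rw [abs_of_nonpos (Real.log_nonpos hy.le h), ← Real.log_inv]
      have := Real.log_le_rpow_div (inv_nonneg.2 hy.le) (ε := 1 / 8) (by norm_num)
      rwa [Real.inv_rpow hy.le, ← Real.rpow_neg hy.le] at this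
    have h2 : 0 ≤ bnd (5 / 8) y := bnd_nonneg hy
    have h3 : bnd (7 / 8) y = y ^ (-(1 / 8) : ℝ) * bnd (3 / 4) y := by
      unfold bnd
      rw [mul_left_comm, ← Real.rpow_add hy]
      norm_num
    have h4 : 0 ≤ bnd (3 / 4) y := bnd_nonneg hy
    nlinarith [mul_le_mul_of_nonneg_right h1 h4]

lemma norm_exp_I_sub_one (t : ℝ) : ‖cexp (I * (t : ℂ)) - 1‖ ≤ |t| := by
  have := Real.norm_exp_I_mul_ofReal_sub_one_le (x := t)
  simpa using this

lemma cpow_split {y : ℝ} (hy : 0 < y) (ε : ℝ) : (y : ℂ) ^ (-nu ε - 1) =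
    ((y ^ (-(3 / 4 : ℝ) - 1) : ℝ) : ℂ) * cexp (I * ((-(ε * Real.log y) : ℝ) : ℂ)) := by
  have hyc : (y : ℂ) ≠ 0 := by exact_mod_cast hy.ne'
  have h1 : -nu ε - 1 = ((-(3 / 4 : ℝ) - 1 : ℝ) : ℂ) + -(I * (ε : ℂ)) := by
    unfold nu
    push_cast
    ring
  rw [h1, Complex.cpow_add _ _ hyc, ← Complex.ofReal_cpow hy.le]
  congr 1
  rw [Complex.cpow_def_of_ne_zero hyc, ← Complex.ofReal_log hy.le]
  congr 1
  push_cast
  ring

/-- The constant. -/
noncomputable def K0 : ℝ := ∫ y in Ioi (0 : ℝ), 8 * (bnd (7 / 8) y + bnd (5 / 8) y)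

lemma integrableOn_K0 : IntegrableOn (fun y => 8 * (bnd (7 / 8) y + bnd (5 / 8) y)) (Ioi 0) :=
  ((integrableOn_bnd (by norm_num) (by norm_num)).add
    (integrableOn_bnd (by norm_num) (by norm_num))).const_mul 8

lemma K0_nonneg : 0 ≤ K0 :=
  setIntegral_nonneg measurableSet_Ioi fun y hy =>
    mul_nonneg (by norm_num) (add_nonneg (bnd_nonneg hy) (bnd_nonneg hy))

lemma re_hh_ge {ε : ℝ} (hε : 0 ≤ ε) (w : ℂ) : 1 / 40 - 4 * ε * K0 ≤ (hh ε w).re := by
  have hint := integrableOn_hh ε w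
  have hre : (hh ε w).re = ∫ y in Ioi (0 : ℝ),
      ((1 - GG w (y / TT w)) * (y : ℂ) ^ (-nu ε - 1)).re := by
    rw [hh, ← RCLike.re_eq_complex_re, ← integral_re hint]
  rw [hre]
  have hind : IntegrableOn ((Icc (1 : ℝ) 2).indicator fun _ => (1 / 40 : ℝ)) (Ioi 0) :=
    (integrable_indicator_iff measurableSet_Icc).2
      (integrableOn_const (by simp)) |>.integrableOn
  have hlow : ∫ y in Ioi (0 : ℝ), ((Icc (1 : ℝ) 2).indicator (fun _ => (1 / 40 : ℝ)) y -
      4 * ε * (8 * (bnd (7 / 8) y + bnd (5 / 8) y))) = 1 / 40 - 4 * ε * K0 := by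
    rw [integral_sub hind (integrableOn_K0.const_mul _), integral_const_mul,
      setIntegral_indicator measurableSet_Icc]
    congr 1
    have : Ioi (0 : ℝ) ∩ Icc 1 2 = Icc 1 2 := by
      ext y
      constructor
      · exact fun h => h.2
      · exact fun h => ⟨lt_of_lt_of_le one_pos h.1, h⟩
    rw [this]
    simp
    norm_num
  rw [← hlow]
  refine setIntegral_mono_on (hind.sub (integrableOn_K0.const_mul _)) hint.re measurableSet_Ioi ?_
  intro y hy
  have hy0 : (0 : ℝ) < y := hy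
  change _ ≤ ((1 - GG w (y / TT w)) * (y : ℂ) ^ (-nu ε - 1)).re
  set g := 1 - GG w (y / TT w) with hg
  set ρ := y ^ (-(3 / 4 : ℝ) - 1) with hρ
  have hρ0 : 0 < ρ := Real.rpow_pos_of_pos hy0 _
  have hgn : ‖g‖ ≤ 4 * min 1 y := by
    have h2 := norm_one_sub_GG w (div_pos hy0 (TT_pos w))
    rwa [div_mul_cancel₀ _ (TT_pos w).ne'] at h2
  have hgre : 1 - ‖GG w (y / TT w)‖ ≤ g.re := by
    rw [hg, Complex.sub_re, Complex.one_re]
    have := Complex.re_le_norm (GG w (y / TT w))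
    linarith
  have hgre0 : 0 ≤ g.re := by
    have := norm_GG_le_one w (div_pos hy0 (TT_pos w)).le
    linarith
  have hsplit : (g * (y : ℂ) ^ (-nu ε - 1)).re =
      g.re * ρ + (g * (ρ : ℂ) * (cexp (I * ((-(ε * Real.log y) : ℝ) : ℂ)) - 1)).re := by
    rw [cpow_split hy0, ← hρ]
    have : g * ((ρ : ℂ) * cexp (I * ((-(ε * Real.log y) : ℝ) : ℂ))) =
        (ρ : ℂ) * g + g * (ρ : ℂ) * (cexp (I * ((-(ε * Real.log y) : ℝ) : ℂ)) - 1) := by ring
    rw [this, Complex.add_re, Complex.re_ofReal_mul]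
    ring
  rw [hsplit]
  have herr : -(4 * ε * (8 * (bnd (7 / 8) y + bnd (5 / 8) y))) ≤
      (g * (ρ : ℂ) * (cexp (I * ((-(ε * Real.log y) : ℝ) : ℂ)) - 1)).re := by
    have h1 := Complex.abs_re_le_norm
      (g * (ρ : ℂ) * (cexp (I * ((-(ε * Real.log y) : ℝ) : ℂ)) - 1))
    have h2 : ‖g * (ρ : ℂ) * (cexp (I * ((-(ε * Real.log y) : ℝ) : ℂ)) - 1)‖ ≤
        4 * ε * (|Real.log y| * bnd (3 / 4) y) := by
      rw [norm_mul, norm_mul, Complex.norm_real, Real.norm_of_nonneg hρ0.le]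
      have h3 := norm_exp_I_sub_one (-(ε * Real.log y))
      rw [abs_neg, abs_mul, abs_of_nonneg hε] at h3
      calc ‖g‖ * ρ * ‖cexp (I * ((-(ε * Real.log y) : ℝ) : ℂ)) - 1‖
          ≤ (4 * min 1 y) * ρ * (ε * |Real.log y|) := by gcongr
        _ = _ := by unfold bnd; ring
    have h4 := mul_le_mul_of_nonneg_left (abs_log_le hy0) (show 0 ≤ 4 * ε by positivity)
    have h5 := neg_abs_le (g * (ρ : ℂ) * (cexp (I * ((-(ε * Real.log y) : ℝ) : ℂ)) - 1)).re
    linarith
  have hmain : (Icc (1 : ℝ) 2).indicator (fun _ => (1 / 40 : ℝ)) y ≤ g.re * ρ := by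
    by_cases hmem : y ∈ Icc (1 : ℝ) 2
    · rw [indicator_of_mem hmem]
      have h1 := norm_GG_mid w hmem.1 hmem.2
      have h2 : 1 / 10 ≤ g.re := by linarith
      have h3 : 1 / 4 ≤ ρ := by
        have h4 : (2 : ℝ) ^ (-(3 / 4 : ℝ) - 1) ≤ ρ :=
          Real.rpow_le_rpow_of_nonpos hy0 hmem.2 (by norm_num)
        have h5 : (2 : ℝ) ^ (-2 : ℝ) ≤ (2 : ℝ) ^ (-(3 / 4 : ℝ) - 1) :=
          Real.rpow_le_rpow_of_exponent_le (by norm_num) (by norm_num)
        have h6 : (2 : ℝ) ^ (-2 : ℝ) = 1 / 4 := by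
          rw [Real.rpow_neg (by norm_num)]
          norm_num
        linarith
      calc (1 / 40 : ℝ) = 1 / 10 * (1 / 4) := by norm_num
        _ ≤ g.re * ρ := mul_le_mul h2 h3 (by norm_num) hgre0
    · rw [indicator_of_notMem hmem]
      positivity
  linarith

/-- There is a positive imaginary part of the exponent for which the kernel integral stays in a
right half plane. -/
theorem exists_eps : ∃ ε : ℝ, 0 < ε ∧ ∀ w, 1 / 80 ≤ (hh ε w).re := by
  have hK := K0_nonneg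
  refine ⟨1 / (320 * (K0 + 1)), by positivity, fun w => ?_⟩
  have h1 := re_hh_ge (ε := 1 / (320 * (K0 + 1))) (by positivity) w
  have h2 : 4 * (1 / (320 * (K0 + 1))) * K0 ≤ 1 / 80 := by
    rw [show 4 * (1 / (320 * (K0 + 1))) * K0 = K0 / (80 * (K0 + 1)) by field_simp; ring,
      div_le_div_iff₀ (by positivity) (by norm_num)]
    linarith
  linarith

end Pool.Agent.R747.Weber
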