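import Mathlib
import Pool.Agent.R747.WeberPos

/-!
The entire curves and their pairing.
-/

open MeasureTheory Set Filter Topology Complex
open scoped ComplexConjugate

namespace Pool.Agent.R747.Weber

/-- Solutions of `y'' = q y`. -/
structure Sol (q y y' : ℂ → ℂ) : Prop where
  d1 : ∀ w, HasDerivAt y (y' w) w
  d2 : ∀ w, HasDerivAt y' (q w * y w) w

lemma Sol.wronskian {q y₁ y₁' y₂ y₂' : ℂ → ℂ} (h₁ : Sol q y₁ y₁') (h₂ : Sol q y₂ y₂') :
    ∃ c : ℂ, ∀ w, y₁ w * y₂' w - y₂ w * y₁' w = c := by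
  have hd : ∀ w, HasDerivAt (fun w => y₁ w * y₂' w - y₂ w * y₁' w) 0 w := by
    intro w
    refine (((h₁.d1 w).mul (h₂.d2 w)).sub ((h₂.d1 w).mul (h₁.d2 w))).congr_deriv ?_
    ring
  refine ⟨y₁ 0 * y₂' 0 - y₂ 0 * y₁' 0, fun w => ?_⟩
  exact is_const_of_deriv_eq_zero (f := fun w => y₁ w * y₂' w - y₂ w * y₁' w)
    (fun w => (hd w).differentiableAt) (fun w => (hd w).deriv) w 0

lemma Sol.const_mul {q y y' : ℂ → ℂ} (h : Sol q y y') (c : ℂ) :
    Sol q (fun w => c * y w) (fun w => c * y' w) :=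
  ⟨fun w => (h.d1 w).const_mul c, fun w => ((h.d2 w).const_mul c).congr_deriv (by ring)⟩

lemma hasDerivAt_expsq (c w : ℂ) : HasDerivAt (fun w : ℂ => cexp (c * w ^ 2 / 4))
    (c * w / 2 * cexp (c * w ^ 2 / 4)) w := by
  have h := ((((hasDerivAt_id w).pow 2).const_mul c).div_const 4).cexp
  refine h.congr_deriv ?_
  simp only [Pi.pow_apply, id, Nat.cast_ofNat, Nat.add_one_sub_one, pow_one, mul_one]
  ring

lemma sol_f {m : ℝ → ℂ} (hm : IsWeight m) {ν : ℂ}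
    (hd : ∀ s : ℝ, HasDerivAt (fun s : ℝ => (s : ℂ) * m s) ((ν + 1) * m s) s) :
    Sol (fun w => w ^ 2 / 4 + ν + 1 / 2) (fun w => cexp (-1 * w ^ 2 / 4) * FW m w)
      (fun w => cexp (-1 * w ^ 2 / 4) *
        (-(w / 2) * FW m w + FW (fun s => -(s : ℂ) * m s) w)) := by
  constructor
  · intro w
    refine ((hasDerivAt_expsq (-1) w).mul (hm.hasDerivAt w)).congr_deriv ?_
    ring
  · intro w
    have h1 : HasDerivAt (fun w : ℂ => -(w / 2)) (-(1 / 2)) w :=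
      ((hasDerivAt_id w).div_const 2).neg
    refine ((hasDerivAt_expsq (-1) w).mul ((h1.mul (hm.hasDerivAt w)).add
      (hm.neg_mul_id.hasDerivAt w))).congr_deriv ?_
    rw [FW_ode hm hd w]
    simp only [Pi.add_apply, Pi.mul_apply]
    ring

lemma sol_g {m : ℝ → ℂ} (hm : IsWeight m) {ν : ℂ}
    (hd : ∀ s : ℝ, HasDerivAt (fun s : ℝ => (s : ℂ) * m s) ((ν + 1) * m s) s) :
    Sol (fun w => w ^ 2 / 4 - ν - 1 / 2) (fun w => cexp (1 * w ^ 2 / 4) * FW m (-I * w))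
      (fun w => cexp (1 * w ^ 2 / 4) *
        ((w / 2) * FW m (-I * w) + -I * FW (fun s => -(s : ℂ) * m s) (-I * w))) := by
  have hlin : ∀ w : ℂ, HasDerivAt (fun w : ℂ => -I * w) (-I) w := by
    intro w
    simpa using (hasDerivAt_id w).const_mul (-I)
  have hcomp : ∀ (m : ℝ → ℂ), IsWeight m → ∀ w : ℂ, HasDerivAt (fun w : ℂ => FW m (-I * w))
      (-I * FW (fun s => -(s : ℂ) * m s) (-I * w)) w := by
    intro m hm w
    refine ((hm.hasDerivAt (-I * w)).comp w (hlin w)).congr_deriv ?_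
    ring
  constructor
  · intro w
    refine ((hasDerivAt_expsq 1 w).mul (hcomp m hm w)).congr_deriv ?_
    ring
  · intro w
    have h1 : HasDerivAt (fun w : ℂ => w / 2) (1 / 2) w := (hasDerivAt_id w).div_const 2
    refine ((hasDerivAt_expsq 1 w).mul ((h1.mul (hcomp m hm w)).add
      ((hcomp _ hm.neg_mul_id w).const_mul (-I)))).congr_deriv ?_
    rw [FW_ode hm hd (-I * w)]
    simp only [Pi.add_apply, Pi.mul_apply]
    linear_combination (cexp (1 * w ^ 2 / 4) * (ν + 1) * FW m (-I * w) +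
      cexp (1 * w ^ 2 / 4) * (-I * w) * FW (fun s => -(s : ℂ) * m s) (-I * w)) * I_sq

/-- The conjugate weight. -/
noncomputable def cw (m : ℝ → ℂ) (s : ℝ) : ℂ := conj (m s)

lemma isWeight_cw {m : ℝ → ℂ} (hm : IsWeight m) : IsWeight (cw m) := by
  obtain ⟨C, N, hC, hb⟩ := hm.bound
  exact ⟨Complex.continuous_conj.measurable.comp hm.meas, C, N, hC, fun s => by
    rw [cw, RCLike.norm_conj]; exact hb s⟩

lemma hasDerivAt_cw {m : ℝ → ℂ} {ν : ℂ}
    (hd : ∀ s : ℝ, HasDerivAt (fun s : ℝ => (s : ℂ) * m s) ((ν + 1) * m s) s) (s : ℝ) :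
    HasDerivAt (fun s : ℝ => (s : ℂ) * cw m s) ((conj ν + 1) * cw m s) s := by
  have h := (hd s).star
  have h1 : (fun s : ℝ => star ((s : ℂ) * m s)) = fun s : ℝ => (s : ℂ) * cw m s := by
    funext s
    simp [cw]
  have h2 : star ((ν + 1) * m s) = (conj ν + 1) * cw m s := by
    simp [cw]
  rw [h1, h2] at h
  exact h

lemma conj_FW (m : ℝ → ℂ) (w : ℂ) : conj (FW (cw m) (-I * w)) = FW m (I * conj w) := by
  unfold FW
  rw [← integral_conj]
  congr 1
  funext s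
  rw [map_mul, cw, Complex.conj_conj, gk, gk, ← Complex.exp_conj]
  congr 2
  simp only [map_sub, map_div₀, map_neg, map_pow, map_mul, Complex.conj_ofReal, Complex.conj_I,
    map_ofNat]
  ring

/-- First component of the first curve. -/
noncomputable def f₁ (ε : ℝ) (w : ℂ) : ℂ := cexp (-1 * w ^ 2 / 4) * FW (me (nu ε)) w

/-- Second component of the first curve. -/
noncomputable def f₂ (ε : ℝ) (w : ℂ) : ℂ := cexp (-1 * w ^ 2 / 4) * FW (mo (nu ε)) w

/-- First component of the second curve. -/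
noncomputable def g₁ (ε : ℝ) (w : ℂ) : ℂ :=
  -conj (jo (nu ε)) * (cexp (1 * w ^ 2 / 4) * FW (cw (mo (nu ε))) (-I * w))

/-- Second component of the second curve. -/
noncomputable def g₂ (ε : ℝ) (w : ℂ) : ℂ :=
  conj (je (nu ε)) * (cexp (1 * w ^ 2 / 4) * FW (cw (me (nu ε))) (-I * w))

lemma nu_re_pos (ε : ℝ) : 0 < (nu ε).re := by rw [nu_re]; norm_num

lemma sol_data (ε : ℝ) : ∃ (q p f₁' f₂' g₁' g₂' : ℂ → ℂ), Sol q (f₁ ε) f₁' ∧ Sol q (f₂ ε) f₂' ∧
    Sol p (g₁ ε) g₁' ∧ Sol p (g₂ ε) g₂' :=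
  ⟨_, _, _, _, _, _, sol_f (isWeight_me (nu_re_pos ε)) (hasDerivAt_me (nu_re_pos ε)),
    sol_f (isWeight_mo (nu_re_pos ε)) (hasDerivAt_mo (nu_re_pos ε)),
    (sol_g (isWeight_cw (isWeight_mo (nu_re_pos ε)))
      (hasDerivAt_cw (hasDerivAt_mo (nu_re_pos ε)))).const_mul _,
    (sol_g (isWeight_cw (isWeight_me (nu_re_pos ε)))
      (hasDerivAt_cw (hasDerivAt_me (nu_re_pos ε)))).const_mul _⟩

lemma scale_int (ε : ℝ) (w : ℂ) :
    ∫ x in Ioi (0 : ℝ), (1 - GG w x) * (x : ℂ) ^ (-nu ε - 1) =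
      ((TT w : ℝ) : ℂ) ^ nu ε * hh ε w := by
  have hT := TT_pos w
  have hTc : ((TT w : ℝ) : ℂ) ≠ 0 := by exact_mod_cast hT.ne'
  have h := integral_comp_mul_left_Ioi
    (fun y : ℝ => (1 - GG w (y / TT w)) * (y : ℂ) ^ (-nu ε - 1)) 0 hT
  rw [mul_zero] at h
  have h2 : ∀ x ∈ Ioi (0 : ℝ), (1 - GG w x) * (x : ℂ) ^ (-nu ε - 1) =
      ((TT w : ℝ) : ℂ) ^ (nu ε + 1) *
        ((1 - GG w (TT w * x / TT w)) * ((TT w * x : ℝ) : ℂ) ^ (-nu ε - 1)) := by
    intro x hx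
    have hx0 : (0 : ℝ) < x := hx
    rw [mul_div_cancel_left₀ _ hT.ne', Complex.ofReal_mul,
      Complex.mul_cpow_ofReal_nonneg hT.le hx0.le]
    have h3 : ((TT w : ℝ) : ℂ) ^ (nu ε + 1) * ((TT w : ℝ) : ℂ) ^ (-nu ε - 1) = 1 := by
      rw [← Complex.cpow_add _ _ hTc]
      simp
    linear_combination (-((1 - GG w x) * (x : ℂ) ^ (-nu ε - 1))) * h3
  rw [setIntegral_congr_fun measurableSet_Ioi h2, integral_const_mul, h, Complex.real_smul,
    ← mul_assoc]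
  change _ * hh ε w = _
  congr 1
  rw [Complex.cpow_add _ _ hTc, Complex.cpow_one, Complex.ofReal_inv, mul_assoc,
    mul_inv_cancel₀ hTc, mul_one]

/-- The pairing. -/
noncomputable def om (ε : ℝ) (w : ℂ) : ℂ := f₁ ε w * conj (g₂ ε w) - f₂ ε w * conj (g₁ ε w)

lemma sq_sub_conj (w : ℂ) : w ^ 2 - conj w ^ 2 = 2 * I * (((w ^ 2).im : ℝ) : ℂ) := by
  apply Complex.ext <;> simp [sq] <;> ring

lemma mul_conj' (w : ℂ) : w * conj w = ((normSq w : ℝ) : ℂ) := Complex.mul_conj w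

theorem om_eq (ε : ℝ) (w : ℂ) : om ε w =
    2 * Real.pi * (cexp (I * (((w ^ 2).im : ℝ) : ℂ) / 2) *
      (((TT w : ℝ) : ℂ) ^ nu ε * hh ε w)) := by
  have hid := main_identity (nu_re_pos ε) (by rw [nu_re]; norm_num) w (I * conj w)
  set S : ℝ := (w ^ 2).im with hS
  have h1 : w ^ 2 + (I * conj w) ^ 2 = 2 * I * (S : ℂ) := by
    rw [mul_pow, I_sq, ← sq_sub_conj]
    ring
  have h2 : ∀ x : ℝ, (x : ℂ) ^ (-nu ε - 1) * (2 * Real.pi *
      (cexp ((w ^ 2 + (I * conj w) ^ 2) / 2) - (((√(1 + x ^ 2))⁻¹ : ℝ) : ℂ) *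
        cexp ((w ^ 2 + (I * conj w) ^ 2 + 2 * I * x * w * (I * conj w)) / (2 * (1 + x ^ 2))))) =
      2 * Real.pi * cexp (I * S) * ((1 - GG w x) * (x : ℂ) ^ (-nu ε - 1)) := by
    intro x
    have hpos : 0 < 1 + x ^ 2 := by positivity
    have hposc : (1 + (x : ℂ) ^ 2) ≠ 0 := by exact_mod_cast hpos.ne'
    have h3 : 2 * I * x * w * (I * conj w) = -(2 * x * ((normSq w : ℝ) : ℂ)) := by
      rw [← mul_conj']
      linear_combination (2 * x * w * conj w) * I_sq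
    have h4 : (2 * I * (S : ℂ) + -(2 * x * ((normSq w : ℝ) : ℂ))) / (2 * (1 + x ^ 2)) =
        I * S + -((x * normSq w : ℝ) + I * (x ^ 2 * S : ℝ)) / ((1 + x ^ 2 : ℝ) : ℂ) := by
      push_cast
      field_simp
      ring
    have h5 : 2 * I * (S : ℂ) / 2 = I * S := by ring
    rw [h1, h3, h4, h5, Complex.exp_add, GG, ← hS]
    ring
  rw [integral_congr_ae (Eventually.of_forall h2), integral_const_mul, scale_int] at hid
  have h6 : om ε w = cexp (-(I * S) / 2) *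
      (je (nu ε) * (FW (me (nu ε)) w * FW (me (nu ε)) (I * conj w)) +
        jo (nu ε) * (FW (mo (nu ε)) w * FW (mo (nu ε)) (I * conj w))) := by
    have h7 : cexp (-1 * w ^ 2 / 4) * cexp (conj (1 * w ^ 2 / 4)) = cexp (-(I * S) / 2) := by
      rw [← Complex.exp_add]
      congr 1
      have := sq_sub_conj w
      rw [← hS] at this
      simp only [map_div₀, map_mul, map_one, map_pow, map_ofNat]
      linear_combination (-(1 : ℂ) / 4) * this
    unfold om f₁ f₂ g₁ g₂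
    simp only [map_mul, map_neg, Complex.conj_conj, ← Complex.exp_conj, conj_FW]
    rw [← h7]
    simp only [map_div₀, map_mul, map_one, map_pow, map_ofNat]
    ring
  rw [h6, hid]
  have h8 : cexp (-(I * S) / 2) * cexp (I * S) = cexp (I * S / 2) := by
    rw [← Complex.exp_add]
    congr 1
    ring
  rw [← h8]
  ring

end Pool.Agent.R747.Weber
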