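import Mathlib
import Pool.Agent.R747.StatNormal
import Pool.Agent.R747.WeberOm

/-!
Stationary surfaces in `ℝ⁴₁` from two pairs of entire functions.
-/

open Set MeasureTheory Filter Topology Complex
open scoped ComplexConjugate ContDiff
open Pool.Agent.R747.Weber (Sol)

namespace Pool.Agent.R747.Stat

noncomputable section

/-- The Weierstrass data of a stationary surface. -/
structure WD where
  /-- potential of the first pair -/
  q : ℂ → ℂ
  /-- potential of the second pair -/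
  r : ℂ → ℂ
  /-- first component of the first pair -/
  f1 : ℂ → ℂ
  /-- second component of the first pair -/
  f2 : ℂ → ℂ
  /-- first component of the second pair -/
  g1 : ℂ → ℂ
  /-- second component of the second pair -/
  g2 : ℂ → ℂ
  /-- derivative -/
  f1' : ℂ → ℂ
  /-- derivative -/
  f2' : ℂ → ℂ
  /-- derivative -/
  g1' : ℂ → ℂ
  /-- derivative -/
  g2' : ℂ → ℂ
  sf1 : Sol q f1 f1'
  sf2 : Sol q f2 f2'
  sg1 : Sol r g1 g1'
  sg2 : Sol r g2 g2'
  ne : ∀ w, f1 w * conj (g2 w) - f2 w * conj (g1 w) ≠ 0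

namespace WD

variable (D : WD)

/-- The conformal factor root `ω`. -/
def om (w : ℂ) : ℂ := D.f1 w * conj (D.g2 w) - D.f2 w * conj (D.g1 w)

/-- `∂ω`. -/
def a (w : ℂ) : ℂ := D.f1' w * conj (D.g2 w) - D.f2' w * conj (D.g1 w)

/-- `∂̄ω`. -/
def b (w : ℂ) : ℂ := D.f1 w * conj (D.g2' w) - D.f2 w * conj (D.g1' w)

/-- `∂∂̄ω`. -/
def c (w : ℂ) : ℂ := D.f1' w * conj (D.g2' w) - D.f2' w * conj (D.g1' w)

/-- `ω ∂∂̄ω - ∂ω ∂̄ω`. -/
def W (w : ℂ) : ℂ := D.om w * D.c w - D.a w * D.b w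

lemma om_ne (w : ℂ) : D.om w ≠ 0 := D.ne w

lemma hw_f1 (w : ℂ) : HW D.f1 (D.f1' w) 0 w := HW.of_hasDerivAt (D.sf1.d1 w)
lemma hw_f2 (w : ℂ) : HW D.f2 (D.f2' w) 0 w := HW.of_hasDerivAt (D.sf2.d1 w)
lemma hw_g1 (w : ℂ) : HW D.g1 (D.g1' w) 0 w := HW.of_hasDerivAt (D.sg1.d1 w)
lemma hw_g2 (w : ℂ) : HW D.g2 (D.g2' w) 0 w := HW.of_hasDerivAt (D.sg2.d1 w)
lemma hw_f1' (w : ℂ) : HW D.f1' (D.q w * D.f1 w) 0 w := HW.of_hasDerivAt (D.sf1.d2 w)
lemma hw_f2' (w : ℂ) : HW D.f2' (D.q w * D.f2 w) 0 w := HW.of_hasDerivAt (D.sf2.d2 w)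
lemma hw_g1' (w : ℂ) : HW D.g1' (D.r w * D.g1 w) 0 w := HW.of_hasDerivAt (D.sg1.d2 w)
lemma hw_g2' (w : ℂ) : HW D.g2' (D.r w * D.g2 w) 0 w := HW.of_hasDerivAt (D.sg2.d2 w)

lemma hw_om (w : ℂ) : HW D.om (D.a w) (D.b w) w := by
  refine (((D.hw_f1 w).mul (D.hw_g2 w).conj).sub ((D.hw_f2 w).mul (D.hw_g1 w).conj)).congr ?_ ?_
  · simp [a]
  · simp [b]

lemma hw_a (w : ℂ) : HW D.a (D.q w * D.om w) (D.c w) w := by
  refine (((D.hw_f1' w).mul (D.hw_g2 w).conj).sub
    ((D.hw_f2' w).mul (D.hw_g1 w).conj)).congr ?_ ?_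
  · simp [om]; ring
  · simp [c]

lemma hw_b (w : ℂ) : HW D.b (D.c w) (conj (D.r w) * D.om w) w := by
  refine (((D.hw_f1 w).mul (D.hw_g2' w).conj).sub
    ((D.hw_f2 w).mul (D.hw_g1' w).conj)).congr ?_ ?_
  · simp [c]
  · simp [om]; ring

lemma exists_W : ∃ k : ℂ, ∀ w, D.W w = k := by
  obtain ⟨c1, h1⟩ := Sol.wronskian D.sf1 D.sf2
  obtain ⟨c2, h2⟩ := Sol.wronskian D.sg1 D.sg2
  refine ⟨c1 * conj c2, fun w => ?_⟩
  rw [← h1 w, ← h2 w]
  simp only [W, om, a, b, c, map_sub, map_mul]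
  ring

/-- The logarithmic derivative `∂̄ log ω`. -/
def be (w : ℂ) : ℂ := D.b w / D.om w

/-- The logarithmic derivative `∂ log ω`. -/
def al (w : ℂ) : ℂ := D.a w / D.om w

/-- `∂∂̄ log ω`. -/
def ka (w : ℂ) : ℂ := D.W w / D.om w ^ 2

lemma hw_be (w : ℂ) : ∃ B, HW D.be (D.ka w) B w :=
  ⟨_, ((D.hw_b w).div (D.hw_om w) (D.om_ne w)).congr (by simp only [ka, W]; ring) rfl⟩

lemma hw_al (w : ℂ) : ∃ A, HW D.al A (D.ka w) w :=
  ⟨_, ((D.hw_a w).div (D.hw_om w) (D.om_ne w)).congr rfl (by simp only [ka, W]; ring)⟩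

/-- The conformal factor. -/
def EE (w : ℂ) : ℝ := (D.om w * conj (D.om w)).re

lemma EE_eq (w : ℂ) : D.EE w = normSq (D.om w) := by
  rw [EE, Complex.mul_conj]; simp

lemma EE_pos (w : ℂ) : 0 < D.EE w := by
  rw [EE_eq]; exact Complex.normSq_pos.2 (D.om_ne w)

/-! ### The curve of null vectors -/

/-- The Weierstrass integrand. -/
def Phi (w : ℂ) : Fin 4 → ℂ :=
  ![D.f2 w * D.g2 w + D.f1 w * D.g1 w, D.f1 w * D.g2 w + D.f2 w * D.g1 w,
    -I * (D.f1 w * D.g2 w - D.f2 w * D.g1 w), D.f2 w * D.g2 w - D.f1 w * D.g1 w]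

/-- The derivative of the Weierstrass integrand. -/
def Phi' (w : ℂ) : Fin 4 → ℂ :=
  ![D.f2' w * D.g2 w + D.f2 w * D.g2' w + (D.f1' w * D.g1 w + D.f1 w * D.g1' w),
    D.f1' w * D.g2 w + D.f1 w * D.g2' w + (D.f2' w * D.g1 w + D.f2 w * D.g1' w),
    -I * (D.f1' w * D.g2 w + D.f1 w * D.g2' w - (D.f2' w * D.g1 w + D.f2 w * D.g1' w)),
    D.f2' w * D.g2 w + D.f2 w * D.g2' w - (D.f1' w * D.g1 w + D.f1 w * D.g1' w)]

lemma hasDerivAt_Phi (w : ℂ) (i : Fin 4) :
    HasDerivAt (fun w => D.Phi w i) (D.Phi' w i) w := by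
  have hf1 := D.sf1.d1 w
  have hf2 := D.sf2.d1 w
  have hg1 := D.sg1.d1 w
  have hg2 := D.sg2.d1 w
  fin_cases i
  · exact (hf2.mul hg2).add (hf1.mul hg1)
  · exact (hf1.mul hg2).add (hf2.mul hg1)
  · exact ((hf1.mul hg2).sub (hf2.mul hg1)).const_mul (-I)
  · exact (hf2.mul hg2).sub (hf1.mul hg1)

lemma exists_prim : ∃ S : ℂ → Fin 4 → ℂ, ∀ w i, HasDerivAt (fun w => S w i) (D.Phi w i) w := by
  have h : ∀ i, ∃ g : ℂ → ℂ, ∀ w, HasDerivAt g (D.Phi w i) w := by
    intro i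
    have h1 : Differentiable ℂ (fun w => D.Phi w i) :=
      fun w => (D.hasDerivAt_Phi w i).differentiableAt
    obtain ⟨g, hg⟩ := h1.isExactOn_univ
    exact ⟨g, fun w => hg w (mem_univ w)⟩
  choose g hg using h
  exact ⟨fun w i => g i w, fun w i => hg i w⟩


end WD

/-- Componentwise real part. -/
def reV (S : ℂ → Fin 4 → ℂ) (w : ℂ) : Fin 4 → ℝ := fun i => (S w i).re

lemma hasFDerivAt_reV {C : ℂ → Fin 4 → ℂ} {A B : Fin 4 → ℂ} {p : ℂ}
    (h : ∀ i, HW (fun w => C w i) (A i) (B i) p) :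
    HasFDerivAt (reV C) (ContinuousLinearMap.pi fun i => Complex.reCLM.comp (zz (A i) (B i))) p :=
  hasFDerivAt_pi.2 fun i => (h i).hasFDerivAt_re

lemma fderiv_reV {C : ℂ → Fin 4 → ℂ} {A B : Fin 4 → ℂ} {p : ℂ}
    (h : ∀ i, HW (fun w => C w i) (A i) (B i) p) (v : ℂ) :
    fderiv ℝ (reV C) p v = fun i => (A i * v + B i * conj v).re := by
  rw [(hasFDerivAt_reV h).fderiv]
  funext i
  simp

namespace WD

variable (D : WD)

lemma lor_Phi (p v w : ℂ) : lor (fun i => (D.Phi p i * v).re) (fun i => (D.Phi p i * w).re) =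
    D.EE p * (v * conj w).re := by
  rw [EE_eq]
  simp only [lor, Phi, om, Complex.normSq_apply, Matrix.cons_val_zero, Matrix.cons_val_one,
    Matrix.cons_val, Complex.mul_re, Complex.mul_im, Complex.add_re, Complex.add_im,
    Complex.sub_re, Complex.sub_im, Complex.neg_re, Complex.neg_im, Complex.I_re, Complex.I_im,
    Complex.conj_re, Complex.conj_im]
  ring

variable {D} {S : ℂ → Fin 4 → ℂ}

lemma fderiv_X (hS : ∀ w i, HasDerivAt (fun w => S w i) (D.Phi w i) w) (p v : ℂ) :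
    fderiv ℝ (reV S) p v = fun i => (D.Phi p i * v).re := by
  rw [fderiv_reV (fun i => HW.of_hasDerivAt (hS p i)) v]
  funext i
  simp

lemma metric_X (hS : ∀ w i, HasDerivAt (fun w => S w i) (D.Phi w i) w) (p v w : ℂ) :
    inducedMetric (reV S) p v w = D.EE p * (v * conj w).re := by
  rw [inducedMetric, fderiv_X hS, fderiv_X hS, lor_Phi]

lemma isSpacelike_X (hS : ∀ w i, HasDerivAt (fun w => S w i) (D.Phi w i) w) :
    IsSpacelike (reV S) := by
  intro p v hv
  rw [metric_X hS, Complex.mul_conj, Complex.ofReal_re]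
  exact mul_pos (D.EE_pos p) (Complex.normSq_pos.2 hv)

lemma secondDeriv_X (hS : ∀ w i, HasDerivAt (fun w => S w i) (D.Phi w i) w) (p v w : ℂ) :
    secondDeriv (reV S) p v w = fun i => (D.Phi' p i * v * w).re := by
  have h1 : (fun q => fderiv ℝ (reV S) q v) = reV (fun q i => v * D.Phi q i) := by
    funext q
    rw [fderiv_X hS]
    funext i
    simp only [reV, mul_comm]
  rw [secondDeriv, h1, fderiv_reV (fun i =>
    (HW.of_hasDerivAt (D.hasDerivAt_Phi p i)).const_mul v) w]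
  funext i
  congr 1
  ring

lemma orth_sq {E : ℝ} (hE : 0 < E) {v w : ℂ} (h1 : E * (v * conj v).re = 1)
    (h2 : E * (w * conj w).re = 1) (h3 : E * (v * conj w).re = 0) : v ^ 2 + w ^ 2 = 0 := by
  have h4 : (v * conj w).re = 0 := by
    rcases mul_eq_zero.1 h3 with h | h
    · exact absurd h hE.ne'
    · exact h
  have h5 : (v * conj v).re = (w * conj w).re := by
    have : E * (v * conj v).re = E * (w * conj w).re := by rw [h1, h2]
    exact mul_left_cancel₀ hE.ne' this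
  have hw : w ≠ 0 := by
    rintro rfl
    simp at h2
  have hwc : conj w ≠ 0 := (map_ne_zero _).2 hw
  have h6 : v * conj v = w * conj w := by
    rw [Complex.mul_conj, Complex.mul_conj] at h5 ⊢
    simp only [Complex.ofReal_re] at h5
    rw [h5]
  have h7 : v * conj w + conj v * w = 0 := by
    have := Complex.add_conj (v * conj w)
    rw [h4] at this
    simpa using this
  have h8 : (v ^ 2 + w ^ 2) * conj w = 0 := by
    linear_combination v * h7 - w * h6
  rcases mul_eq_zero.1 h8 with h | h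
  · exact h
  · exact absurd h hwc

lemma zeroMean_X (hS : ∀ w i, HasDerivAt (fun w => S w i) (D.Phi w i) w) :
    HasZeroMeanCurvature (reV S) := by
  intro p v w h1 h2 h3
  rw [metric_X hS] at h1 h2 h3
  have h := orth_sq (D.EE_pos p) h1 h2 h3
  refine ⟨0, ?_⟩
  rw [secondDeriv_X hS, secondDeriv_X hS, map_zero]
  funext i
  simp only [Pi.add_apply, Pi.zero_apply, ← Complex.add_re]
  have : D.Phi' p i * v * v + D.Phi' p i * w * w = D.Phi' p i * (v ^ 2 + w ^ 2) := by ring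
  rw [this, h]
  simp

lemma contDiff_reV (hS : ∀ w i, HasDerivAt (fun w => S w i) (D.Phi w i) w) :
    ContDiff ℝ ∞ (reV S) := by
  refine contDiff_pi.2 fun i => ?_
  have h1 : Differentiable ℂ (fun w => S w i) := fun w => (hS w i).differentiableAt
  have h2 : ContDiff ℂ ∞ (fun w => S w i) := h1.contDiff
  exact Complex.reCLM.contDiff.comp (h2.restrict_scalars ℝ)

lemma cE_X (hS : ∀ w i, HasDerivAt (fun w => S w i) (D.Phi w i) w) : cE (reV S) = D.EE := by
  funext p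
  simp [cE, metric_X hS]

lemma cF_X (hS : ∀ w i, HasDerivAt (fun w => S w i) (D.Phi w i) w) :
    cF (reV S) = fun _ => 0 := by
  funext p
  simp [cF, metric_X hS]

lemma cG_X (hS : ∀ w i, HasDerivAt (fun w => S w i) (D.Phi w i) w) : cG (reV S) = D.EE := by
  funext p
  simp [cG, metric_X hS]

lemma area_X (hS : ∀ w i, HasDerivAt (fun w => S w i) (D.Phi w i) w) (p : ℂ) :
    areaDensity (reV S) p = D.EE p := by
  rw [areaDensity, cE_X hS, cF_X hS, cG_X hS]
  rw [show D.EE p * D.EE p - (0 : ℝ) ^ 2 = D.EE p ^ 2 by ring, Real.sqrt_sq (D.EE_pos p).le]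

/-! ### Gaussian curvature -/

variable (D)

lemma hw_EE (w : ℂ) : HW (fun w => D.om w * conj (D.om w))
    (D.a w * conj (D.om w) + D.om w * conj (D.b w))
    (D.b w * conj (D.om w) + D.om w * conj (D.a w)) w :=
  (D.hw_om w).mul (D.hw_om w).conj

lemma dx_EE : dx D.EE = fun w => ((D.a w * conj (D.om w) + D.om w * conj (D.b w)) +
    (D.b w * conj (D.om w) + D.om w * conj (D.a w))).re := by
  funext w
  have h := (D.hw_EE w).fderiv_re 1
  simp only [dx]
  change fderiv ℝ (fun w => (D.om w * conj (D.om w)).re) w 1 = _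
  rw [h]
  simp

lemma dy_EE : dy D.EE = fun w => (I * ((D.a w * conj (D.om w) + D.om w * conj (D.b w)) -
    (D.b w * conj (D.om w) + D.om w * conj (D.a w)))).re := by
  funext w
  have h := (D.hw_EE w).fderiv_re I
  simp only [dy]
  change fderiv ℝ (fun w => (D.om w * conj (D.om w)).re) w I = _
  rw [h]
  congr 1
  rw [Complex.conj_I]
  ring

lemma lap_EE (w : ℂ) : dx (dx D.EE) w + dy (dy D.EE) w =
    4 * normSq (D.a w) + 4 * normSq (D.b w) + 8 * (conj (D.om w) * D.c w).re := by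
  rw [dx_EE, dy_EE]
  have ha := D.hw_a w
  have hb := D.hw_b w
  have ho := D.hw_om w
  have hz := (ha.mul ho.conj).add (ho.mul hb.conj)
  have hzb := (hb.mul ho.conj).add (ho.mul ha.conj)
  have h1 := (hz.add hzb).fderiv_re 1
  have h2 := ((hz.sub hzb).const_mul I).fderiv_re I
  simp only [dx, dy]
  rw [h1, h2]
  simp only [Complex.normSq_apply, Complex.mul_re, Complex.mul_im, Complex.add_re, Complex.add_im,
    Complex.sub_re, Complex.sub_im, Complex.I_re, Complex.I_im, Complex.one_re, Complex.one_im,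
    Complex.conj_re, Complex.conj_im]
  ring

lemma grad_EE (w : ℂ) : dx D.EE w ^ 2 + dy D.EE w ^ 2 =
    4 * D.EE w * (normSq (D.a w) + normSq (D.b w)) +
      8 * (conj (D.om w) ^ 2 * (D.a w * D.b w)).re := by
  rw [dx_EE, dy_EE, EE_eq]
  simp only [Complex.normSq_apply, sq, Complex.mul_re, Complex.mul_im, Complex.add_re,
    Complex.add_im, Complex.sub_re, Complex.sub_im, Complex.I_re, Complex.I_im,
    Complex.conj_re, Complex.conj_im]
  ring

lemma ka_re (w : ℂ) : (conj (D.om w) ^ 2 * D.W w).re = D.EE w ^ 2 * (D.ka w).re := by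
  have h : (D.EE w : ℂ) = D.om w * conj (D.om w) := by
    rw [EE_eq, Complex.mul_conj]
  have h1 : ((D.EE w ^ 2 : ℝ) : ℂ) * D.ka w = conj (D.om w) ^ 2 * D.W w := by
    push_cast
    rw [h, ka]
    field_simp [D.om_ne w]
  rw [← h1, Complex.re_ofReal_mul]

lemma brioschi_EE (w : ℂ) : brioschi D.EE (fun _ => 0) D.EE w * D.EE w = -4 * (D.ka w).re := by
  have hE := D.EE_pos w
  have h0 : dx (fun _ => (0 : ℝ)) = fun _ => 0 := by funext z; simp [dx]
  have h0' : dy (fun _ => (0 : ℝ)) = fun _ => 0 := by funext z; simp [dy]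
  have h1 := D.lap_EE w
  have h2 := D.grad_EE w
  have h3 := D.ka_re w
  have h4 : (conj (D.om w) ^ 2 * D.W w).re = D.EE w * (conj (D.om w) * D.c w).re -
      (conj (D.om w) ^ 2 * (D.a w * D.b w)).re := by
    rw [EE_eq, W]
    simp only [Complex.normSq_apply, sq, Complex.mul_re, Complex.mul_im,
      Complex.sub_re, Complex.sub_im, Complex.conj_re, Complex.conj_im]
    ring
  rw [brioschi, h0, h0', Matrix.det_fin_three, Matrix.det_fin_three]
  simp only [Matrix.of_apply, Matrix.cons_val_zero, Matrix.cons_val_one,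
    Matrix.cons_val]
  have h6 : (D.EE w * D.EE w - (0 : ℝ) ^ 2) ^ 2 ≠ 0 := by
    rw [show D.EE w * D.EE w - (0 : ℝ) ^ 2 = D.EE w ^ 2 by ring]
    positivity
  rw [div_mul_eq_mul_div, div_eq_iff h6]
  set P := dx D.EE w with hP
  set Q := dy D.EE w with hQ
  set XX := dx (dx D.EE) w with hXX
  set YY := dy (dy D.EE) w with hYY
  rw [h4] at h3
  linear_combination (-(D.EE w ^ 3) / 2) * h1 + (D.EE w ^ 2 / 2) * h2 - 4 * D.EE w ^ 2 * h3

end WD

end

end Pool.Agent.R747.Stat
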