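import Mathlib
import Pool.Agent.R747.StatGeom

/-!
The normal frame of a stationary surface and its normal curvature.
-/

open Set MeasureTheory Filter Topology Complex
open scoped ComplexConjugate ContDiff
open Pool.Agent.R747.Weber (Sol)

namespace Pool.Agent.R747.Stat

noncomputable section

namespace WD

variable (D : WD)

/-- First null normal, as a complex vector. -/
def L1 (w : ℂ) : Fin 4 → ℂ :=
  ![D.f2 w * conj (D.f2 w) + D.f1 w * conj (D.f1 w), 2 * (D.f1 w * conj (D.f2 w)),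
    (-2 * I) * (D.f1 w * conj (D.f2 w)), D.f2 w * conj (D.f2 w) - D.f1 w * conj (D.f1 w)]

/-- Second null normal, as a complex vector. -/
def L2 (w : ℂ) : Fin 4 → ℂ :=
  ![D.g2 w * conj (D.g2 w) + D.g1 w * conj (D.g1 w), 2 * (D.g2 w * conj (D.g1 w)),
    (-2 * I) * (D.g2 w * conj (D.g1 w)), D.g2 w * conj (D.g2 w) - D.g1 w * conj (D.g1 w)]

/-- Wirtinger derivative of `L1`. -/
def L1z (w : ℂ) : Fin 4 → ℂ :=
  ![D.f2' w * conj (D.f2 w) + D.f1' w * conj (D.f1 w), 2 * (D.f1' w * conj (D.f2 w)),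
    (-2 * I) * (D.f1' w * conj (D.f2 w)), D.f2' w * conj (D.f2 w) - D.f1' w * conj (D.f1 w)]

/-- Conjugate Wirtinger derivative of `L1`. -/
def L1b (w : ℂ) : Fin 4 → ℂ :=
  ![D.f2 w * conj (D.f2' w) + D.f1 w * conj (D.f1' w), 2 * (D.f1 w * conj (D.f2' w)),
    (-2 * I) * (D.f1 w * conj (D.f2' w)), D.f2 w * conj (D.f2' w) - D.f1 w * conj (D.f1' w)]

/-- Wirtinger derivative of `L2`. -/
def L2z (w : ℂ) : Fin 4 → ℂ :=
  ![D.g2' w * conj (D.g2 w) + D.g1' w * conj (D.g1 w), 2 * (D.g2' w * conj (D.g1 w)),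
    (-2 * I) * (D.g2' w * conj (D.g1 w)), D.g2' w * conj (D.g2 w) - D.g1' w * conj (D.g1 w)]

/-- Conjugate Wirtinger derivative of `L2`. -/
def L2b (w : ℂ) : Fin 4 → ℂ :=
  ![D.g2 w * conj (D.g2' w) + D.g1 w * conj (D.g1' w), 2 * (D.g2 w * conj (D.g1' w)),
    (-2 * I) * (D.g2 w * conj (D.g1' w)), D.g2 w * conj (D.g2' w) - D.g1 w * conj (D.g1' w)]

lemma hw_L1 (w : ℂ) (i : Fin 4) : HW (fun w => D.L1 w i) (D.L1z w i) (D.L1b w i) w := by
  have h1 := D.hw_f1 w
  have h2 := D.hw_f2 w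
  fin_cases i
  · exact ((h2.mul h2.conj).add (h1.mul h1.conj)).congr (by simp [L1z]) (by simp [L1b])
  · exact ((h1.mul h2.conj).const_mul 2).congr (by simp [L1z]) (by simp [L1b])
  · exact ((h1.mul h2.conj).const_mul (-2 * I)).congr (by simp [L1z]) (by simp [L1b])
  · exact ((h2.mul h2.conj).sub (h1.mul h1.conj)).congr (by simp [L1z]) (by simp [L1b])

lemma hw_L2 (w : ℂ) (i : Fin 4) : HW (fun w => D.L2 w i) (D.L2z w i) (D.L2b w i) w := by
  have h1 := D.hw_g1 w
  have h2 := D.hw_g2 w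
  fin_cases i
  · exact ((h2.mul h2.conj).add (h1.mul h1.conj)).congr (by simp [L2z]) (by simp [L2b])
  · exact ((h2.mul h1.conj).const_mul 2).congr (by simp [L2z]) (by simp [L2b])
  · exact ((h2.mul h1.conj).const_mul (-2 * I)).congr (by simp [L2z]) (by simp [L2b])
  · exact ((h2.mul h2.conj).sub (h1.mul h1.conj)).congr (by simp [L2z]) (by simp [L2b])

lemma lor_L11 (w : ℂ) : lor (reV D.L1 w) (reV D.L1 w) = 0 := by
  simp only [lor, reV, L1, Matrix.cons_val_zero, Matrix.cons_val_one,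
    Matrix.cons_val, Complex.mul_re, Complex.mul_im, Complex.add_re, Complex.add_im,
    Complex.sub_re, Complex.sub_im, Complex.neg_re, Complex.neg_im, Complex.I_re, Complex.I_im,
    Complex.conj_re, Complex.conj_im, Complex.re_ofNat, Complex.im_ofNat]
  ring

lemma lor_L22 (w : ℂ) : lor (reV D.L2 w) (reV D.L2 w) = 0 := by
  simp only [lor, reV, L2, Matrix.cons_val_zero, Matrix.cons_val_one,
    Matrix.cons_val, Complex.mul_re, Complex.mul_im, Complex.add_re, Complex.add_im,
    Complex.sub_re, Complex.sub_im, Complex.neg_re, Complex.neg_im, Complex.I_re, Complex.I_im,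
    Complex.conj_re, Complex.conj_im, Complex.re_ofNat, Complex.im_ofNat]
  ring

lemma lor_L12 (w : ℂ) : lor (reV D.L1 w) (reV D.L2 w) = -2 * D.EE w := by
  rw [EE_eq]
  simp only [lor, reV, L1, L2, om, Complex.normSq_apply, Matrix.cons_val_zero,
    Matrix.cons_val_one,
    Matrix.cons_val, Complex.mul_re, Complex.mul_im, Complex.add_re, Complex.add_im,
    Complex.sub_re, Complex.sub_im, Complex.neg_re, Complex.neg_im, Complex.I_re, Complex.I_im,
    Complex.conj_re, Complex.conj_im, Complex.re_ofNat, Complex.im_ofNat]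
  ring

lemma lor_Phi_L1 (w v : ℂ) : lor (fun i => (D.Phi w i * v).re) (reV D.L1 w) = 0 := by
  simp only [lor, reV, L1, Phi, Matrix.cons_val_zero, Matrix.cons_val_one,
    Matrix.cons_val, Complex.mul_re, Complex.mul_im, Complex.add_re, Complex.add_im,
    Complex.sub_re, Complex.sub_im, Complex.neg_re, Complex.neg_im, Complex.I_re, Complex.I_im,
    Complex.conj_re, Complex.conj_im, Complex.re_ofNat, Complex.im_ofNat]
  ring

lemma lor_Phi_L2 (w v : ℂ) : lor (fun i => (D.Phi w i * v).re) (reV D.L2 w) = 0 := by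
  simp only [lor, reV, L2, Phi, Matrix.cons_val_zero, Matrix.cons_val_one,
    Matrix.cons_val, Complex.mul_re, Complex.mul_im, Complex.add_re, Complex.add_im,
    Complex.sub_re, Complex.sub_im, Complex.neg_re, Complex.neg_im, Complex.I_re, Complex.I_im,
    Complex.conj_re, Complex.conj_im, Complex.re_ofNat, Complex.im_ofNat]
  ring

lemma lor_dL1_L2 (w v : ℂ) : lor (fderiv ℝ (reV D.L1) w v) (reV D.L2 w) =
    -4 * (v * D.a w * conj (D.om w)).re := by
  rw [fderiv_reV (D.hw_L1 w)]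
  simp only [lor, reV, L1z, L1b, L2, om, a, Matrix.cons_val_zero, Matrix.cons_val_one,
    Matrix.cons_val, Complex.mul_re, Complex.mul_im, Complex.add_re, Complex.add_im,
    Complex.sub_re, Complex.sub_im, Complex.neg_re, Complex.neg_im, Complex.I_re, Complex.I_im,
    Complex.conj_re, Complex.conj_im, Complex.re_ofNat, Complex.im_ofNat]
  ring

lemma lor_dL2_L1 (w v : ℂ) : lor (fderiv ℝ (reV D.L2) w v) (reV D.L1 w) =
    -4 * (conj v * D.b w * conj (D.om w)).re := by
  rw [fderiv_reV (D.hw_L2 w)]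
  simp only [lor, reV, L2z, L2b, L1, om, b, Matrix.cons_val_zero, Matrix.cons_val_one,
    Matrix.cons_val, Complex.mul_re, Complex.mul_im, Complex.add_re, Complex.add_im,
    Complex.sub_re, Complex.sub_im, Complex.neg_re, Complex.neg_im, Complex.I_re, Complex.I_im,
    Complex.conj_re, Complex.conj_im, Complex.re_ofNat, Complex.im_ofNat]
  ring

lemma diff_L1 (w : ℂ) : DifferentiableAt ℝ (reV D.L1) w :=
  (hasFDerivAt_reV (D.hw_L1 w)).differentiableAt

lemma diff_L2 (w : ℂ) : DifferentiableAt ℝ (reV D.L2) w :=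
  (hasFDerivAt_reV (D.hw_L2 w)).differentiableAt

lemma lor_dL1_L1 (w v : ℂ) : lor (fderiv ℝ (reV D.L1) w v) (reV D.L1 w) = 0 := by
  have h := fderiv_lor (D.diff_L1 w) (D.diff_L1 w) v
  rw [show (fun q => lor (reV D.L1 q) (reV D.L1 q)) = fun _ => (0 : ℝ) from funext D.lor_L11,
    lor_comm (reV D.L1 w)] at h
  simp at h
  linarith

lemma lor_dL2_L2 (w v : ℂ) : lor (fderiv ℝ (reV D.L2) w v) (reV D.L2 w) = 0 := by
  have h := fderiv_lor (D.diff_L2 w) (D.diff_L2 w) v
  rw [show (fun q => lor (reV D.L2 q) (reV D.L2 q)) = fun _ => (0 : ℝ) from funext D.lor_L22,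
    lor_comm (reV D.L2 w)] at h
  simp at h
  linarith

/-- The spacelike normal. -/
def N3 (w : ℂ) : Fin 4 → ℝ := (1 / 2 : ℝ) • ((D.EE w)⁻¹ • reV D.L1 w - reV D.L2 w)

/-- The timelike normal. -/
def N4 (w : ℂ) : Fin 4 → ℝ := (1 / 2 : ℝ) • ((D.EE w)⁻¹ • reV D.L1 w + reV D.L2 w)

lemma isNormalFrame {S : ℂ → Fin 4 → ℂ}
    (hS : ∀ w i, HasDerivAt (fun w => S w i) (D.Phi w i) w) :
    IsNormalFrame (reV S) D.N3 D.N4 := by
  have h11 := D.lor_L11
  have h22 := D.lor_L22
  have h12 := D.lor_L12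
  have h21 : ∀ w, lor (reV D.L2 w) (reV D.L1 w) = -2 * D.EE w := fun w => by
    rw [lor_comm, h12]
  have hE := D.EE_pos
  constructor
  · intro p
    have := (hE p).ne'
    simp only [N3, lor_smul_left, lor_smul_right, lor_sub_left, lor_sub_right, h11, h12, h21, h22]
    field_simp
    ring
  · intro p
    have := (hE p).ne'
    simp only [N4, lor_smul_left, lor_smul_right, lor_add_left, lor_add_right, h11, h12, h21, h22]
    field_simp
    ring
  · intro p
    have := (hE p).ne'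
    simp only [N3, N4, lor_smul_left, lor_smul_right, lor_sub_left, lor_add_right, h11, h12, h21,
      h22]
    field_simp
    ring
  · intro p v
    rw [fderiv_X hS]
    simp only [N3, lor_smul_right, lor_sub_right, lor_Phi_L1, lor_Phi_L2]
    ring
  · intro p v
    rw [fderiv_X hS]
    simp only [N4, lor_smul_right, lor_add_right, lor_Phi_L1, lor_Phi_L2]
    ring

lemma fderiv_EE (w v : ℂ) : fderiv ℝ D.EE w v =
    2 * (conj (D.om w) * (D.a w * v + D.b w * conj v)).re := by
  have h := (D.hw_EE w).fderiv_re v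
  change fderiv ℝ (fun w => (D.om w * conj (D.om w)).re) w v = _
  rw [h]
  simp only [Complex.mul_re, Complex.mul_im, Complex.add_re, Complex.add_im,
    Complex.conj_re, Complex.conj_im]
  ring

lemma diff_EE (w : ℂ) : DifferentiableAt ℝ D.EE w := (D.hw_EE w).hasFDerivAt_re.differentiableAt

lemma conn_eq (v : ℂ) : conn D.N3 D.N4 v = fun w => 2 * (conj v * D.be w).re := by
  funext w
  have hE := (D.EE_pos w).ne'
  have h21 : lor (reV D.L2 w) (reV D.L1 w) = -2 * D.EE w := by
    rw [lor_comm, D.lor_L12]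
  have hd : HasFDerivAt D.N3 _ w :=
    (((((hasDerivAt_inv hE).comp_hasFDerivAt w (D.diff_EE w).hasFDerivAt).smul
      (D.diff_L1 w).hasFDerivAt).sub (D.diff_L2 w).hasFDerivAt).const_smul (1 / 2 : ℝ))
  have h1 : fderiv ℝ D.N3 w v = (1 / 2 : ℝ) • ((D.EE w)⁻¹ • fderiv ℝ (reV D.L1) w v +
      (-(fderiv ℝ D.EE w v) / D.EE w ^ 2) • reV D.L1 w - fderiv ℝ (reV D.L2) w v) := by
    rw [hd.fderiv]
    simp [div_eq_inv_mul]
  have hbe : (conj v * D.be w).re = (conj v * D.b w * conj (D.om w)).re / D.EE w := by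
    have h2 : (D.EE w : ℂ) = D.om w * conj (D.om w) := by
      rw [EE_eq, Complex.mul_conj]
    have h3 : conj v * D.be w = ((D.EE w)⁻¹ : ℝ) * (conj v * D.b w * conj (D.om w)) := by
      have ho := D.om_ne w
      have ho' : conj (D.om w) ≠ 0 := (map_ne_zero _).2 ho
      rw [be, Complex.ofReal_inv, h2]
      field_simp
    rw [h3, Complex.re_ofReal_mul, div_eq_inv_mul]
  rw [conn, h1, hbe]
  simp only [N4, lor_smul_left, lor_smul_right, lor_add_left, lor_sub_left, lor_add_right,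
    D.lor_L11, D.lor_L22, D.lor_L12, h21, D.lor_dL1_L1, D.lor_dL2_L2, D.lor_dL1_L2,
    D.lor_dL2_L1, D.fderiv_EE]
  have h4 : (conj (D.om w) * (D.a w * v + D.b w * conj v)).re =
      (v * D.a w * conj (D.om w)).re + (conj v * D.b w * conj (D.om w)).re := by
    rw [← Complex.add_re]
    congr 1
    ring
  rw [h4]
  field_simp
  ring

/-! ### Smoothness -/

lemma smooth_sol {q y y' : ℂ → ℂ} (h : Sol q y y') : ContDiff ℝ ∞ y := by
  have h1 : Differentiable ℂ y := fun w => (h.d1 w).differentiableAt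
  have h2 : ContDiff ℂ ∞ y := h1.contDiff
  exact h2.restrict_scalars ℝ

lemma smooth_conj {y : ℂ → ℂ} (h : ContDiff ℝ ∞ y) : ContDiff ℝ ∞ (fun w => conj (y w)) :=
  (Complex.conjCLE : ℂ →L[ℝ] ℂ).contDiff.comp h

lemma smooth_om : ContDiff ℝ ∞ D.om := by
  have h1 := smooth_sol D.sf1
  have h2 := smooth_sol D.sf2
  have h3 := smooth_conj (smooth_sol D.sg1)
  have h4 := smooth_conj (smooth_sol D.sg2)
  exact (h1.mul h4).sub (h2.mul h3)

lemma smooth_EE : ContDiff ℝ ∞ D.EE :=
  Complex.reCLM.contDiff.comp (D.smooth_om.mul (smooth_conj D.smooth_om))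

lemma smooth_L1 : ContDiff ℝ ∞ (reV D.L1) := by
  have h1 := smooth_sol D.sf1
  have h2 := smooth_sol D.sf2
  have h1' := smooth_conj h1
  have h2' := smooth_conj h2
  refine contDiff_pi.2 fun i => ?_
  fin_cases i
  · exact Complex.reCLM.contDiff.comp ((h2.mul h2').add (h1.mul h1'))
  · exact Complex.reCLM.contDiff.comp (contDiff_const.mul (h1.mul h2'))
  · exact Complex.reCLM.contDiff.comp (contDiff_const.mul (h1.mul h2'))
  · exact Complex.reCLM.contDiff.comp ((h2.mul h2').sub (h1.mul h1'))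

lemma smooth_L2 : ContDiff ℝ ∞ (reV D.L2) := by
  have h1 := smooth_sol D.sg1
  have h2 := smooth_sol D.sg2
  have h1' := smooth_conj h1
  have h2' := smooth_conj h2
  refine contDiff_pi.2 fun i => ?_
  fin_cases i
  · exact Complex.reCLM.contDiff.comp ((h2.mul h2').add (h1.mul h1'))
  · exact Complex.reCLM.contDiff.comp (contDiff_const.mul (h2.mul h1'))
  · exact Complex.reCLM.contDiff.comp (contDiff_const.mul (h2.mul h1'))
  · exact Complex.reCLM.contDiff.comp ((h2.mul h2').sub (h1.mul h1'))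

lemma smooth_N3 : ContDiff ℝ ∞ D.N3 :=
  (((D.smooth_EE.inv fun w => (D.EE_pos w).ne').smul D.smooth_L1).sub
    D.smooth_L2).const_smul (1 / 2 : ℝ)

lemma smooth_N4 : ContDiff ℝ ∞ D.N4 :=
  (((D.smooth_EE.inv fun w => (D.EE_pos w).ne').smul D.smooth_L1).add
    D.smooth_L2).const_smul (1 / 2 : ℝ)

lemma conn_curv (w : ℂ) : fderiv ℝ (conn D.N3 D.N4 I) w 1 - fderiv ℝ (conn D.N3 D.N4 1) w I =
    4 * (D.ka w).im := by
  obtain ⟨B, hB⟩ := D.hw_be w
  have h1 : ∀ v u : ℂ, fderiv ℝ (conn D.N3 D.N4 v) w u =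
      2 * (conj v * (D.ka w * u + B * conj u)).re := by
    intro v u
    rw [D.conn_eq v]
    have h2 := ((hB.const_mul (conj v)).hasFDerivAt_re.const_mul 2).fderiv
    rw [h2]
    simp only [smul_apply, ContinuousLinearMap.comp_apply, Complex.reCLM_apply, zz_apply,
      smul_eq_mul]
    congr 2
    ring
  rw [h1, h1]
  simp only [map_one, Complex.conj_I, Complex.mul_re, Complex.mul_im, Complex.add_re,
    Complex.add_im, Complex.neg_re, Complex.neg_im, Complex.I_re, Complex.I_im, Complex.one_re,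
    Complex.one_im]
  ring

/-- The normal curvature times the area density. -/
theorem normal_area {S : ℂ → Fin 4 → ℂ}
    (hS : ∀ w i, HasDerivAt (fun w => S w i) (D.Phi w i) w) (w : ℂ) :
    normalCurvature (reV S) D.N3 D.N4 w * areaDensity (reV S) w = 4 * (D.ka w).im := by
  rw [normalCurvature, area_X hS, div_mul_cancel₀ _ (D.EE_pos w).ne',
    normal_formula (D.isNormalFrame hS) (contDiff_infty.1 D.smooth_N3 2)
      (contDiff_infty.1 D.smooth_N4 2), conn_curv]

/-- The Gaussian curvature times the area density. -/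
theorem gauss_area {S : ℂ → Fin 4 → ℂ}
    (hS : ∀ w i, HasDerivAt (fun w => S w i) (D.Phi w i) w) (w : ℂ) :
    gaussCurvature (reV S) w * areaDensity (reV S) w = -4 * (D.ka w).re := by
  rw [gaussCurvature, area_X hS, cE_X hS, cF_X hS, cG_X hS, brioschi_EE]

end WD

end

end Pool.Agent.R747.Stat
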