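import Mathlib
import Pool.Agent.R747.StatFrame
import Pool.Agent.R747.PlaneFlux

/-!
The total normal curvature as a flux.
-/

open Set MeasureTheory Filter Topology Complex
open scoped ComplexConjugate ContDiff

namespace Pool.Agent.R747.Stat

noncomputable section

namespace WD

variable (D : WD)

lemma hw_log {L : ℂ → ℂ} (hL : Differentiable ℝ L) (he : ∀ w, cexp (L w) = D.om w) (w : ℂ) :
    HW L (D.al w) (D.be w) w := by
  obtain ⟨A, B, hAB⟩ := exists_HW (hL w)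
  have h1 := hAB.exp
  have h2 : (fun w => cexp (L w)) = D.om := funext he
  rw [h2] at h1
  obtain ⟨h3, h4⟩ := h1.unique (D.hw_om w)
  rw [he w] at h3 h4
  have ho := D.om_ne w
  refine hAB.congr ?_ ?_
  · rw [al, ← h3, mul_div_cancel_left₀ _ ho]
  · rw [be, ← h4, mul_div_cancel_left₀ _ ho]

lemma fderiv_fderiv_apply {v : ℂ → ℝ} (hv : ContDiff ℝ 2 v) (p u u' : ℂ) :
    fderiv ℝ (fderiv ℝ v) p u u' = fderiv ℝ (fun q => fderiv ℝ v q u') p u := by
  have h1 : ContDiff ℝ 1 (fderiv ℝ v) := hv.fderiv_right (by norm_num)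
  have h2 : DifferentiableAt ℝ (fderiv ℝ v) p := h1.differentiable (by norm_num) p
  rw [fderiv_clm_apply h2 (differentiableAt_const _)]
  simp

theorem lap_flux {L : ℂ → ℂ} (hL : Differentiable ℝ L) (he : ∀ w, cexp (L w) = D.om w)
    {v : ℂ → ℝ} (hv : ContDiff ℝ 2 v) (hvL : ∀ w, v w = (L w - w ^ 2 / 2).im) (w : ℂ) :
    Flux.lap v w = 4 * (D.ka w).im := by
  have hsq : ∀ z, HW (fun z : ℂ => z ^ 2 / 2) z 0 z := by
    intro z
    refine HW.of_hasDerivAt ?_
    refine (((hasDerivAt_id z).pow 2).div_const 2).congr_deriv ?_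
    simp
  have hid : HW (fun z : ℂ => z) 1 0 w := HW.of_hasDerivAt (hasDerivAt_id w)
  have h1 : ∀ q u, fderiv ℝ v q u = ((D.al q - q) * u + D.be q * conj u).im := by
    intro q u
    rw [show v = fun z => (L z - z ^ 2 / 2).im from funext hvL,
      ((D.hw_log hL he q).sub (hsq q)).fderiv_im]
    simp
  obtain ⟨A, hA⟩ := D.hw_al w
  obtain ⟨B, hB⟩ := D.hw_be w
  rw [Flux.lap, fderiv_fderiv_apply hv, fderiv_fderiv_apply hv]
  have h2 : (fun q => fderiv ℝ v q 1) = fun q => ((D.al q - q) + D.be q).im := by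
    funext q
    rw [h1]
    simp
  have h3 : (fun q => fderiv ℝ v q I) = fun q => (I * ((D.al q - q) - D.be q)).im := by
    funext q
    rw [h1, Complex.conj_I]
    congr 1
    ring
  rw [h2, h3, ((hA.sub hid).add hB).fderiv_im, (((hA.sub hid).sub hB).const_mul I).fderiv_im,
    ← Complex.add_im, Complex.conj_I, map_one]
  have h4 : (A - 1 + D.ka w) * 1 + (D.ka w - 0 + B) * 1 +
      (I * (A - 1 - D.ka w) * I + I * (D.ka w - 0 - B) * -I) = ((4 : ℝ) : ℂ) * D.ka w := by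
    push_cast
    linear_combination (A - 1 - D.ka w - (D.ka w - B)) * I_sq
  rw [h4, Complex.im_ofReal_mul]

/-! ### Integrability -/

lemma continuous_ka : Continuous D.ka := by
  obtain ⟨k, hk⟩ := D.exists_W
  have h : D.ka = fun w => k / D.om w ^ 2 := by
    funext w
    rw [ka, hk]
  rw [h]
  exact continuous_const.div (D.smooth_om.continuous.pow 2) fun w => pow_ne_zero 2 (D.om_ne w)

lemma integrable_ka {c : ℝ} (hc : 0 < c)
    (hb : ∀ w, c * (1 + ‖w‖ ^ 2) ^ (3 / 4 : ℝ) ≤ ‖D.om w‖) : Integrable D.ka := by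
  obtain ⟨k, hk⟩ := D.exists_W
  have hint : Integrable (fun w : ℂ => ‖k‖ / c ^ 2 * (1 + ‖w‖ ^ 2) ^ (-(3 : ℝ) / 2)) := by
    refine Integrable.const_mul ?_ _
    exact integrable_rpow_neg_one_add_norm_sq (by simp; norm_num)
  refine hint.mono' D.continuous_ka.aestronglyMeasurable (Eventually.of_forall fun w => ?_)
  have hT : 0 < 1 + ‖w‖ ^ 2 := by positivity
  have hT' : 0 < (1 + ‖w‖ ^ 2) ^ (3 / 4 : ℝ) := Real.rpow_pos_of_pos hT _
  have h1 : c ^ 2 * (1 + ‖w‖ ^ 2) ^ ((3 : ℝ) / 2) ≤ ‖D.om w‖ ^ 2 := by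
    have h2 : (1 + ‖w‖ ^ 2) ^ ((3 : ℝ) / 2) = ((1 + ‖w‖ ^ 2) ^ (3 / 4 : ℝ)) ^ 2 := by
      rw [← Real.rpow_mul_natCast hT.le]
      norm_num
    rw [h2, ← mul_pow]
    exact pow_le_pow_left₀ (by positivity) (hb w) 2
  rw [ka, hk, norm_div, norm_pow, neg_div, Real.rpow_neg hT.le, div_mul_eq_mul_div,
    ← div_eq_mul_inv, div_div, mul_comm _ (c ^ 2)]
  gcongr

/-! ### Completeness -/

lemma isComplete {S : ℂ → Fin 4 → ℂ}
    (hS : ∀ w i, HasDerivAt (fun w => S w i) (D.Phi w i) w) {c : ℝ} (hc : 0 < c)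
    (hb : ∀ w, c * (1 + ‖w‖ ^ 2) ^ (3 / 4 : ℝ) ≤ ‖D.om w‖) : IsCompleteMetric (reV S) := by
  intro γ hγ hdiv
  have hb' : ∀ w, c ≤ ‖D.om w‖ := by
    intro w
    refine le_trans ?_ (hb w)
    have h1 : (1 : ℝ) ≤ (1 + ‖w‖ ^ 2) ^ (3 / 4 : ℝ) :=
      Real.one_le_rpow (by nlinarith [sq_nonneg ‖w‖]) (by norm_num)
    nlinarith
  have hd : ∀ t, HasDerivAt γ (deriv γ t) t := fun t =>
    (hγ.differentiable (by norm_num) t).hasDerivAt
  have hdc : Continuous (deriv γ) := hγ.continuous_deriv (by norm_num)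
  have hmet : ∀ t, inducedMetric (reV S) (γ t) (deriv γ t) (deriv γ t) =
      (‖D.om (γ t)‖ * ‖deriv γ t‖) ^ 2 := by
    intro t
    rw [metric_X hS, EE_eq, Complex.mul_conj, Complex.ofReal_re, Complex.normSq_eq_norm_sq,
      Complex.normSq_eq_norm_sq]
    ring
  have hsq : ∀ t, √(inducedMetric (reV S) (γ t) (deriv γ t) (deriv γ t)) =
      ‖D.om (γ t)‖ * ‖deriv γ t‖ := by
    intro t
    rw [hmet, Real.sqrt_sq (by positivity)]
  simp only [hsq]
  have hlow : ∀ T : ℝ, 0 ≤ T → c * (‖γ T‖ - ‖γ 0‖) ≤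
      ∫ t in (0 : ℝ)..T, ‖D.om (γ t)‖ * ‖deriv γ t‖ := by
    intro T hT
    have h1 : ∫ t in (0 : ℝ)..T, deriv γ t = γ T - γ 0 :=
      intervalIntegral.integral_eq_sub_of_hasDerivAt (fun t _ => hd t)
        (hdc.intervalIntegrable _ _)
    have h2 : ‖γ T‖ - ‖γ 0‖ ≤ ∫ t in (0 : ℝ)..T, ‖deriv γ t‖ := by
      refine (norm_sub_norm_le _ _).trans ?_
      rw [← h1]
      exact intervalIntegral.norm_integral_le_integral_norm hT
    have h3 : c * ∫ t in (0 : ℝ)..T, ‖deriv γ t‖ ≤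
        ∫ t in (0 : ℝ)..T, ‖D.om (γ t)‖ * ‖deriv γ t‖ := by
      rw [← intervalIntegral.integral_const_mul]
      refine intervalIntegral.integral_mono_on hT ?_ ?_ ?_
      · exact (continuous_const.mul hdc.norm).intervalIntegrable _ _
      · exact ((D.smooth_om.continuous.comp hγ.continuous).norm.mul
          hdc.norm).intervalIntegrable _ _
      · intro t _
        exact mul_le_mul_of_nonneg_right (hb' _) (norm_nonneg _)
    exact (mul_le_mul_of_nonneg_left h2 hc.le).trans h3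
  have hdiv' : Tendsto (fun T => c * (‖γ T‖ - ‖γ 0‖)) atTop atTop := by
    have h1 : Tendsto (fun T => ‖γ T‖) atTop atTop := (tendsto_norm_cocompact_atTop).comp hdiv
    exact (tendsto_atTop_add_const_right _ _ h1).const_mul_atTop hc
  refine tendsto_atTop_mono' _ ?_ hdiv'
  filter_upwards [eventually_ge_atTop 0] with T hT
  exact hlow T hT

end WD

end

end Pool.Agent.R747.Stat
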