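import Mathlib
import Pool.Agent.R747.StatFlux
import Pool.Agent.R747.WeberOm

/-!
The stationary surfaces built from Weber functions.
-/

open Set MeasureTheory Filter Topology Complex
open scoped ComplexConjugate ContDiff

namespace Pool.Agent.R747.Stat

open Pool.Agent.R747.Weber

noncomputable section

theorem exists_delta : ∃ δ : ℝ, 0 < δ ∧ ∀ ε : ℝ, 0 ≤ ε → ε ≤ δ →
    ∀ w, 1 / 80 ≤ (hh ε w).re := by
  have hK := K0_nonneg
  refine ⟨1 / (320 * K0 + 1), by positivity, fun ε h0 h1 w => ?_⟩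
  have h2 := re_hh_ge h0 w
  have h3 : ε * (320 * K0 + 1) ≤ 1 := by
    rwa [le_div_iff₀ (by positivity)] at h1
  nlinarith

section

variable {ε : ℝ} (hε : ∀ w, 1 / 80 ≤ (hh ε w).re)

include hε

lemma hh_re_pos (w : ℂ) : 0 < (hh ε w).re := lt_of_lt_of_le (by norm_num) (hε w)

lemma hh_ne (w : ℂ) : hh ε w ≠ 0 := by
  intro h
  have := hh_re_pos hε w
  rw [h] at this
  simp at this

omit hε in
lemma TT_cpow_ne (w : ℂ) : ((TT w : ℝ) : ℂ) ^ nu ε ≠ 0 := by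
  have hT : ((TT w : ℝ) : ℂ) ≠ 0 := by exact_mod_cast (TT_pos w).ne'
  simp [Complex.cpow_eq_zero_iff, hT]

lemma om_ne_zero (w : ℂ) : om ε w ≠ 0 := by
  rw [om_eq]
  have h1 : (2 * Real.pi : ℂ) ≠ 0 := by exact_mod_cast Real.two_pi_pos.ne'
  exact mul_ne_zero h1 (mul_ne_zero (Complex.exp_ne_zero _)
    (mul_ne_zero (TT_cpow_ne w) (hh_ne hε w)))

lemma norm_om_ge (w : ℂ) : 2 * Real.pi / 80 * (1 + ‖w‖ ^ 2) ^ (3 / 4 : ℝ) ≤ ‖om ε w‖ := by
  have hT : TT w = 1 + ‖w‖ ^ 2 := by rw [TT, Complex.normSq_eq_norm_sq]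
  have h1 : ‖cexp (I * (((w ^ 2).im : ℝ) : ℂ) / 2)‖ = 1 := by
    rw [Complex.norm_exp]
    simp
  have h2 : ‖((TT w : ℝ) : ℂ) ^ nu ε‖ = (1 + ‖w‖ ^ 2) ^ (3 / 4 : ℝ) := by
    rw [Complex.norm_cpow_eq_rpow_re_of_pos (TT_pos w), nu_re, hT]
  have h3 : 1 / 80 ≤ ‖hh ε w‖ := (hε w).trans (Complex.re_le_norm _)
  have h4 : ‖(2 * Real.pi : ℂ)‖ = 2 * Real.pi := by
    simp [abs_of_pos Real.pi_pos]
  rw [om_eq, norm_mul, h4, norm_mul, h1, norm_mul, h2, one_mul]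
  have h5 : 0 ≤ (1 + ‖w‖ ^ 2) ^ (3 / 4 : ℝ) := by positivity
  have h6 := Real.pi_pos
  calc 2 * Real.pi / 80 * (1 + ‖w‖ ^ 2) ^ (3 / 4 : ℝ)
      = 2 * Real.pi * ((1 + ‖w‖ ^ 2) ^ (3 / 4 : ℝ) * (1 / 80)) := by ring
    _ ≤ _ := by gcongr

lemma exists_WD : ∃ D : WD, D.om = om ε := by
  obtain ⟨q, p, f₁', f₂', g₁', g₂', h1, h2, h3, h4⟩ := sol_data ε
  exact ⟨⟨q, p, f₁ ε, f₂ ε, g₁ ε, g₂ ε, f₁', f₂', g₁', g₂', h1, h2, h3, h4, om_ne_zero hε⟩, rfl⟩

/-- The logarithm of `ω`. -/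
def LL (ε : ℝ) (w : ℂ) : ℂ :=
  I * (((w ^ 2).im : ℝ) : ℂ) / 2 + nu ε * ((Real.log (TT w) : ℝ) : ℂ) +
    Complex.log (hh ε w) + ((Real.log (2 * Real.pi) : ℝ) : ℂ)

lemma exp_LL (w : ℂ) : cexp (LL ε w) = om ε w := by
  have hT : ((TT w : ℝ) : ℂ) ≠ 0 := by exact_mod_cast (TT_pos w).ne'
  rw [om_eq, LL, Complex.exp_add, Complex.exp_add, Complex.exp_add,
    Complex.exp_log (hh_ne hε w), ← Complex.ofReal_exp, Real.exp_log Real.two_pi_pos,
    Complex.cpow_def_of_ne_zero hT, Complex.ofReal_log (TT_pos w).le, mul_comm (nu ε)]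
  push_cast
  ring

lemma smooth_LL {D : WD} (hD : D.om = om ε) : ContDiff ℝ ∞ (LL ε) := by
  have hsq : ContDiff ℝ ∞ (fun w : ℂ => w ^ 2) := contDiff_id.pow 2
  have hS : ContDiff ℝ ∞ (fun w : ℂ => ((((w ^ 2).im : ℝ)) : ℂ)) :=
    Complex.ofRealCLM.contDiff.comp (Complex.imCLM.contDiff.comp hsq)
  have hTT : ContDiff ℝ ∞ TT := by
    have h1 : TT = fun w : ℂ => 1 + ‖w‖ ^ 2 := by
      funext w
      rw [TT, Complex.normSq_eq_norm_sq]
    rw [h1]
    exact contDiff_const.add (contDiff_norm_sq ℝ)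
  have hlog : ContDiff ℝ ∞ (fun w : ℂ => ((Real.log (TT w) : ℝ) : ℂ)) :=
    Complex.ofRealCLM.contDiff.comp (hTT.log fun w => (TT_pos w).ne')
  have hhh : ContDiff ℝ ∞ (hh ε) := by
    have h1 : hh ε = fun w => om ε w * (2 * Real.pi * (cexp (I * (((w ^ 2).im : ℝ) : ℂ) / 2) *
        cexp (nu ε * ((Real.log (TT w) : ℝ) : ℂ))))⁻¹ := by
      funext w
      have hT : ((TT w : ℝ) : ℂ) ≠ 0 := by exact_mod_cast (TT_pos w).ne'
      have hpi : (Real.pi : ℂ) ≠ 0 := by exact_mod_cast Real.pi_ne_zero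
      rw [om_eq, Complex.cpow_def_of_ne_zero hT, Complex.ofReal_log (TT_pos w).le,
        mul_comm (nu ε)]
      have he1 := Complex.exp_ne_zero (I * (((w ^ 2).im : ℝ) : ℂ) / 2)
      have he2 := Complex.exp_ne_zero (Complex.log ((TT w : ℝ) : ℂ) * nu ε)
      field_simp
    rw [h1, ← hD]
    refine D.smooth_om.mul (ContDiff.inv ?_ ?_)
    · exact contDiff_const.mul (((contDiff_const.mul hS).div_const 2).cexp.mul
        (contDiff_const.mul hlog).cexp)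
    · intro w
      have h1 : (2 * Real.pi : ℂ) ≠ 0 := by exact_mod_cast Real.two_pi_pos.ne'
      exact mul_ne_zero h1 (mul_ne_zero (Complex.exp_ne_zero _) (Complex.exp_ne_zero _))
  have hlh : ContDiff ℝ ∞ (fun w => Complex.log (hh ε w)) := by
    rw [contDiff_iff_contDiffAt]
    intro w
    have h2 : hh ε w ∈ Complex.slitPlane := Or.inl (hh_re_pos hε w)
    have h3 : ContDiffAt ℂ ∞ Complex.log (hh ε w) := Complex.contDiffAt_log h2
    exact (h3.restrict_scalars ℝ).comp w hhh.contDiffAt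
  exact ((((contDiff_const.mul hS).div_const 2).add (contDiff_const.mul hlog)).add hlh).add
    contDiff_const

omit hε in
lemma LL_im (w : ℂ) : (LL ε w - w ^ 2 / 2).im =
    ε * Real.log (1 + ‖w‖ ^ 2) + (hh ε w).arg := by
  have hT : TT w = 1 + ‖w‖ ^ 2 := by rw [TT, Complex.normSq_eq_norm_sq]
  have h1 : (w ^ 2 / 2).im = (w ^ 2).im / 2 := by simp
  have h2 : (I * (((w ^ 2).im : ℝ) : ℂ) / 2).im = (w ^ 2).im / 2 := by
    rw [mul_div_right_comm]
    simp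
    ring
  rw [Complex.sub_im, h1, LL, Complex.add_im, Complex.add_im, Complex.add_im, h2,
    Complex.im_mul_ofReal, nu_im, Complex.log_im, Complex.ofReal_im, hT]
  ring

end

/-- The surfaces. -/
theorem weber_surfaces : ∃ δ : ℝ, 0 < δ ∧ ∀ ε : ℝ, 0 ≤ ε → ε ≤ δ →
    ∃ X N₃ N₄ : ℂ → Fin 4 → ℝ, ContDiff ℝ ∞ X ∧ ContDiff ℝ ∞ N₃ ∧ ContDiff ℝ ∞ N₄ ∧
      IsSpacelike X ∧ HasZeroMeanCurvature X ∧ IsCompleteMetric X ∧ IsNormalFrame X N₃ N₄ ∧
      Integrable (fun p => gaussCurvature X p * areaDensity X p) ∧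
      Integrable (fun p => normalCurvature X N₃ N₄ p * areaDensity X p) ∧
      ∫ p, normalCurvature X N₃ N₄ p * areaDensity X p = 4 * Real.pi * ε := by
  obtain ⟨δ, hδ, hδε⟩ := exists_delta
  refine ⟨δ, hδ, fun ε h0 h1 => ?_⟩
  have hε := hδε ε h0 h1
  obtain ⟨D, hD⟩ := exists_WD hε
  obtain ⟨S, hS⟩ := D.exists_prim
  have hc : (0 : ℝ) < 2 * Real.pi / 80 := by positivity
  have hb : ∀ w, 2 * Real.pi / 80 * (1 + ‖w‖ ^ 2) ^ (3 / 4 : ℝ) ≤ ‖D.om w‖ := by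
    rw [hD]
    exact norm_om_ge hε
  have hka := D.integrable_ka hc hb
  have hG : (fun p => gaussCurvature (reV S) p * areaDensity (reV S) p) =
      fun p => -4 * (D.ka p).re := funext (D.gauss_area hS)
  have hN : (fun p => normalCurvature (reV S) D.N3 D.N4 p * areaDensity (reV S) p) =
      fun p => 4 * (D.ka p).im := funext (D.normal_area hS)
  have hiG : Integrable (fun p => -4 * (D.ka p).re) := hka.re.const_mul (-4)
  have hiN : Integrable (fun p => 4 * (D.ka p).im) := hka.im.const_mul 4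
  refine ⟨reV S, D.N3, D.N4, WD.contDiff_reV hS, D.smooth_N3, D.smooth_N4, WD.isSpacelike_X hS,
    WD.zeroMean_X hS, D.isComplete hS hc hb, D.isNormalFrame hS, ?_, ?_, ?_⟩
  · rw [hG]; exact hiG
  · rw [hN]; exact hiN
  · rw [hN]
    have hL := smooth_LL hε hD
    have hv : ContDiff ℝ 2 (fun w => (LL ε w - w ^ 2 / 2).im) := by
      have h2 : ContDiff ℝ ∞ (fun w => (LL ε w - w ^ 2 / 2).im) :=
        Complex.imCLM.contDiff.comp (hL.sub ((contDiff_id.pow 2).div_const 2))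
      exact contDiff_infty.1 h2 2
    have hlap : Flux.lap (fun w => (LL ε w - w ^ 2 / 2).im) = fun p => 4 * (D.ka p).im := by
      funext w
      refine D.lap_flux (hL.differentiable (by norm_num)) ?_ hv (fun w => rfl) w
      rw [hD]
      exact exp_LL hε
    rw [← hlap]
    refine Flux.integral_lap hv (by rw [hlap]; exact hiN) (C := Real.pi) fun z => ?_
    rw [LL_im, add_sub_cancel_left]
    exact Complex.abs_arg_le_pi _

end

end Pool.Agent.R747.Stat
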