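import Mathlib
import Pool.Agent.R747.HopfTube

/-!
The teardrop curve and the non-orientable tube over it.
-/

open Set Filter Topology
open scoped RealInnerProductSpace ContDiff

namespace Pool.Agent.R747

namespace Teardrop

/-- First coordinate of the teardrop. -/
noncomputable def cx (u : ℝ) : ℝ := 1 - u ^ 2

/-- Second coordinate of the teardrop. -/
noncomputable def cy (u : ℝ) : ℝ := u * expNegInvGlue (1 - u ^ 2)

/-- The normalizing factor. -/
noncomputable def cn (u : ℝ) : ℝ := (Real.sqrt (1 + cx u ^ 2 + cy u ^ 2))⁻¹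

/-- The unnormalized lift of the teardrop. -/
noncomputable def cw (u : ℝ) : E4 := !₂[cx u, cy u, 1, 0]

/-- The lift of the teardrop to the three-sphere. -/
noncomputable def cs (u : ℝ) : E4 := cn u • cw u

lemma cx_smooth : ContDiff ℝ ∞ cx := by
  unfold cx; fun_prop

lemma cy_smooth : ContDiff ℝ ∞ cy :=
  contDiff_id.mul (expNegInvGlue.contDiff.comp cx_smooth)

lemma norm_pos (u : ℝ) : 0 < 1 + cx u ^ 2 + cy u ^ 2 := by positivity

lemma cn_smooth : ContDiff ℝ ∞ cn := by
  have h : ContDiff ℝ ∞ (fun u => 1 + cx u ^ 2 + cy u ^ 2) :=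
    (contDiff_const.add (cx_smooth.pow 2)).add (cy_smooth.pow 2)
  exact (h.sqrt fun u => (norm_pos u).ne').inv fun u => (Real.sqrt_pos.2 (norm_pos u)).ne'

lemma cn_pos (u : ℝ) : 0 < cn u := inv_pos.2 (Real.sqrt_pos.2 (norm_pos u))

lemma cn_sq (u : ℝ) : cn u ^ 2 * (1 + cx u ^ 2 + cy u ^ 2) = 1 := by
  unfold cn
  rw [inv_pow, Real.sq_sqrt (norm_pos u).le, inv_mul_cancel₀ (norm_pos u).ne']

lemma cw_smooth : ContDiff ℝ ∞ cw := by
  rw [contDiff_euclidean]
  intro i
  fin_cases i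
  · exact cx_smooth
  · exact cy_smooth
  · exact contDiff_const
  · exact contDiff_const

lemma cs_smooth : ContDiff ℝ ∞ cs := cn_smooth.smul cw_smooth

lemma cw_0 (u : ℝ) : cw u 0 = cx u := rfl
lemma cw_1 (u : ℝ) : cw u 1 = cy u := rfl
lemma cw_2 (u : ℝ) : cw u 2 = 1 := rfl
lemma cw_3 (u : ℝ) : cw u 3 = 0 := rfl

lemma cs_0 (u : ℝ) : cs u 0 = cn u * cx u := rfl
lemma cs_1 (u : ℝ) : cs u 1 = cn u * cy u := rfl
lemma cs_2 (u : ℝ) : cs u 2 = cn u * 1 := rfl
lemma cs_3 (u : ℝ) : cs u 3 = cn u * 0 := rfl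

lemma cs_unit (u : ℝ) : ‖cs u‖ = 1 := by
  have h : ‖cs u‖ ^ 2 = 1 := by
    rw [← real_inner_self_eq_norm_sq, inner4, cs_0, cs_1, cs_2, cs_3]
    linear_combination cn_sq u
  nlinarith [norm_nonneg (cs u)]

lemma cx_deriv (u : ℝ) : HasDerivAt cx (-2 * u) u := by
  have h := ((hasDerivAt_id u).pow 2).const_sub 1
  refine h.congr_deriv ?_
  simp

lemma cy_deriv_zero : deriv cy 0 ≠ 0 := by
  have h1 : HasDerivAt (fun u : ℝ => expNegInvGlue (1 - u ^ 2))
      (deriv (fun u : ℝ => expNegInvGlue (1 - u ^ 2)) 0) 0 := by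
    have : ContDiff ℝ ∞ (fun u : ℝ => expNegInvGlue (1 - u ^ 2)) :=
      expNegInvGlue.contDiff.comp cx_smooth
    exact (this.differentiable (by simp) 0).hasDerivAt
  have h2 := (hasDerivAt_id (0 : ℝ)).mul h1
  have h3 : deriv cy 0 = _ := h2.deriv
  rw [h3]
  have := expNegInvGlue.pos_of_pos one_pos
  simp

lemma hasDerivAt_E4 {f : ℝ → E4} {f' : E4} {u : ℝ}
    (h : ∀ i, HasDerivAt (fun x => f x i) (f' i) u) : HasDerivAt f f' u := by
  rw [hasDerivAt_iff_hasFDerivAt, ← hasFDerivWithinAt_univ, hasFDerivWithinAt_euclidean]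
  intro i
  rw [hasFDerivWithinAt_univ]
  refine (h i).hasFDerivAt.congr_fderiv ?_
  ext
  simp

/-- The derivative of the lift. -/
lemma cs_deriv (u : ℝ) : HasDerivAt cs
    (cn u • !₂[deriv cx u, deriv cy u, 0, 0] + deriv cn u • cw u) u := by
  have h1 : HasDerivAt cn (deriv cn u) u := (cn_smooth.differentiable (by simp) u).hasDerivAt
  have h2 : HasDerivAt cw !₂[deriv cx u, deriv cy u, 0, 0] u := by
    have hx : HasDerivAt cx (deriv cx u) u := (cx_smooth.differentiable (by simp) u).hasDerivAt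
    have hy : HasDerivAt cy (deriv cy u) u := (cy_smooth.differentiable (by simp) u).hasDerivAt
    refine hasDerivAt_E4 fun i => ?_
    fin_cases i
    · exact hx
    · exact hy
    · exact hasDerivAt_const _ _
    · exact hasDerivAt_const _ _
  exact h1.smul h2

lemma deriv_ne (u : ℝ) : deriv cx u ≠ 0 ∨ deriv cy u ≠ 0 := by
  rcases eq_or_ne u 0 with rfl | hu
  · exact Or.inr cy_deriv_zero
  · left
    rw [(cx_deriv u).deriv]
    simpa using hu

lemma tubeData : TubeData cs where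
  smooth := cs_smooth
  unit := cs_unit
  indep := by
    intro u a b h
    rw [(cs_deriv u).deriv] at h
    have e0 := congrArg (fun q : E4 => q 0) h
    have e1 := congrArg (fun q : E4 => q 1) h
    have e2 := congrArg (fun q : E4 => q 2) h
    have e3 := congrArg (fun q : E4 => q 3) h
    simp only [PiLp.add_apply, PiLp.smul_apply, smul_eq_mul, J4_0, J4_1, J4_2, J4_3, cs_0, cs_1,
      cs_2, cs_3, cw_0, cw_1, cw_2, cw_3, PiLp.zero_apply] at e0 e1 e2 e3
    simp at e0 e1 e2 e3
    have hn := (cn_pos u).ne'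
    have hb : b = 0 := by simpa [hn] using e3
    subst hb
    refine ⟨?_, rfl⟩
    by_contra ha
    have e2' : deriv cn u = 0 := by simpa [ha] using e2
    rcases deriv_ne u with h1 | h1
    · apply h1
      simpa [e2', ha, hn] using e0
    · apply h1
      simpa [e2', ha, hn] using e1

end Teardrop

end Pool.Agent.R747
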