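import Mathlib
import Pool.Agent.R747.Teardrop

/-!
Charts of the non-orientable tube over the teardrop.
-/

open Set Filter Topology
open scoped RealInnerProductSpace ContDiff

namespace Pool.Agent.R747

/-- A chart of a subset of a Hausdorff space from a parametrization with a continuous inverse. -/
lemma exists_chart {E : Type*} [TopologicalSpace E] (F : Set E) (hF : F.Nonempty)
    (V : Set (ℝ × ℝ)) (hV : IsOpen V) (r : ℝ × ℝ → E) (hr : Continuous r)
    (W : Set E) (hW : IsOpen W) (g : E → ℝ × ℝ) (hg : ContinuousOn g W)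
    (h1 : ∀ p ∈ V, r p ∈ F ∧ r p ∈ W ∧ g (r p) = p)
    (h2 : ∀ q ∈ F, q ∈ W → ∃ p ∈ V, r p = q) :
    ∃ e : OpenPartialHomeomorph (ℝ × ℝ) F, e.source = V ∧ ∀ p ∈ V, (e p : E) = r p := by
  classical
  obtain ⟨q0, hq0⟩ := hF
  refine ⟨{ toFun := fun p => if h : r p ∈ F then ⟨r p, h⟩ else ⟨q0, hq0⟩
            invFun := fun q => g q
            source := V
            target := {q : F | (q : E) ∈ W}
            map_source' := ?_
            map_target' := ?_
            left_inv' := ?_
            right_inv' := ?_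
            open_source := hV
            open_target := hW.preimage continuous_subtype_val
            continuousOn_toFun := ?_
            continuousOn_invFun := ?_ }, rfl, ?_⟩
  · intro p hp
    change (((if h : r p ∈ F then (⟨r p, h⟩ : F) else ⟨q0, hq0⟩) : F) : E) ∈ W
    rw [dif_pos (h1 p hp).1]
    exact (h1 p hp).2.1
  · intro q hq
    obtain ⟨p, hp, hpq⟩ := h2 q q.2 hq
    rw [← hpq, (h1 p hp).2.2]
    exact hp
  · intro p hp
    rw [dif_pos (h1 p hp).1]
    exact (h1 p hp).2.2
  · intro q hq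
    obtain ⟨p, hp, hpq⟩ := h2 q q.2 hq
    have hgp : g (q : E) = p := by rw [← hpq, (h1 p hp).2.2]
    change (if h : r (g (q : E)) ∈ F then (⟨r (g (q : E)), h⟩ : F) else ⟨q0, hq0⟩) = q
    rw [hgp, dif_pos (h1 p hp).1]
    exact Subtype.ext hpq
  · rw [Topology.IsInducing.subtypeVal.continuousOn_iff]
    refine hr.continuousOn.congr fun p hp => ?_
    simp only [Function.comp]
    rw [dif_pos (h1 p hp).1]
  · exact hg.comp continuous_subtype_val.continuousOn fun q hq => hq
  · intro p hp
    change (((if h : r p ∈ F then (⟨r p, h⟩ : F) else ⟨q0, hq0⟩) : F) : E) = r p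
    rw [dif_pos (h1 p hp).1]

namespace Teardrop

/-- The parametrization. -/
noncomputable def par : ℝ × ℝ → E4 := tube cs

lemma par_0 (u v : ℝ) : par (u, v) 0 = cn u * (cx u * Real.cos v - cy u * Real.sin v) := by
  simp only [par, tube, rot, PiLp.add_apply, PiLp.smul_apply, smul_eq_mul, J4_0, cs_0, cs_1]
  ring

lemma par_1 (u v : ℝ) : par (u, v) 1 = cn u * (cy u * Real.cos v + cx u * Real.sin v) := by
  simp only [par, tube, rot, PiLp.add_apply, PiLp.smul_apply, smul_eq_mul, J4_1, cs_0, cs_1]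
  ring

lemma par_2 (u v : ℝ) : par (u, v) 2 = cn u * Real.cos v := by
  simp only [par, tube, rot, PiLp.add_apply, PiLp.smul_apply, smul_eq_mul, J4_2, cs_2, cs_3]
  ring

lemma par_3 (u v : ℝ) : par (u, v) 3 = cn u * Real.sin v := by
  simp only [par, tube, rot, PiLp.add_apply, PiLp.smul_apply, smul_eq_mul, J4_3, cs_2, cs_3]
  ring

lemma par_smooth : ContDiff ℝ ∞ par := tube_contDiff cs_smooth

/-- The complex number `(q₂ + i q₃) e^{-i v₀}`. -/
noncomputable def zeta (v₀ : ℝ) (q : E4) : ℂ :=
  ((q 2 : ℂ) + (q 3 : ℂ) * Complex.I) * (Real.cos v₀ - Real.sin v₀ * Complex.I)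

/-- The quantity `q₀ q₂ + q₁ q₃`. -/
noncomputable def xnum (q : E4) : ℝ := q 0 * q 2 + q 1 * q 3

/-- The quantity `q₁ q₂ - q₀ q₃`. -/
noncomputable def ynum (q : E4) : ℝ := q 1 * q 2 - q 0 * q 3

/-- The quantity `q₂² + q₃²`. -/
noncomputable def den (q : E4) : ℝ := q 2 ^ 2 + q 3 ^ 2

lemma xnum_par (u v : ℝ) : xnum (par (u, v)) = cn u ^ 2 * cx u := by
  rw [xnum, par_0, par_1, par_2, par_3]
  linear_combination (cn u ^ 2 * cx u) * Real.sin_sq_add_cos_sq v

lemma ynum_par (u v : ℝ) : ynum (par (u, v)) = cn u ^ 2 * cy u := by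
  rw [ynum, par_0, par_1, par_2, par_3]
  linear_combination (cn u ^ 2 * cy u) * Real.sin_sq_add_cos_sq v

lemma den_par (u v : ℝ) : den (par (u, v)) = cn u ^ 2 := by
  rw [den, par_2, par_3]
  linear_combination (cn u ^ 2) * Real.sin_sq_add_cos_sq v

lemma zeta_par (u v v₀ : ℝ) : zeta v₀ (par (u, v)) =
    (cn u : ℂ) * (Complex.cos ((v - v₀ : ℝ) : ℂ) + Complex.sin ((v - v₀ : ℝ) : ℂ) * Complex.I) := by
  rw [zeta, par_2, par_3, ← Complex.ofReal_cos, ← Complex.ofReal_sin, Real.cos_sub, Real.sin_sub]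
  push_cast
  linear_combination (-(cn u : ℂ) * Complex.sin v * Complex.sin v₀) * Complex.I_sq

lemma continuous_zeta (v₀ : ℝ) : Continuous (zeta v₀) := by
  unfold zeta
  fun_prop

lemma continuous_xnum : Continuous xnum := by
  unfold xnum
  fun_prop

lemma continuous_ynum : Continuous ynum := by
  unfold ynum
  fun_prop

lemma continuous_den : Continuous den := by
  unfold den
  fun_prop

lemma arg_zeta_par {u v v₀ : ℝ} (h : |v - v₀| < Real.pi) :
    (zeta v₀ (par (u, v))).arg = v - v₀ := by
  rw [zeta_par]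
  have := abs_lt.1 h
  exact Complex.arg_mul_cos_add_sin_mul_I (cn_pos u) ⟨this.1, this.2.le⟩

lemma zeta_ne {u v v₀ : ℝ} : zeta v₀ (par (u, v)) ≠ 0 := by
  rw [zeta_par]
  have h1 : (cn u : ℂ) ≠ 0 := by exact_mod_cast (cn_pos u).ne'
  rw [← Complex.exp_mul_I]
  exact mul_ne_zero h1 (Complex.exp_ne_zero _)

lemma zeta_mem {u v v₀ : ℝ} (h : |v - v₀| < Real.pi) :
    zeta v₀ (par (u, v)) ∈ Complex.slitPlane := by
  rw [Complex.mem_slitPlane_iff_arg]
  refine ⟨?_, zeta_ne⟩
  rw [arg_zeta_par h]
  exact (abs_lt.1 h).2.ne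

/-- Moving the angle to the window around `v₀`. -/
lemma exists_window {u v v₀ : ℝ} (h : zeta v₀ (par (u, v)) ∈ Complex.slitPlane) :
    ∃ v', |v' - v₀| < Real.pi ∧ Real.cos v' = Real.cos v ∧ Real.sin v' = Real.sin v := by
  set a := (zeta v₀ (par (u, v))).arg with ha
  refine ⟨v₀ + a, ?_, ?_⟩
  · rw [add_sub_cancel_left, abs_lt]
    refine ⟨Complex.neg_pi_lt_arg _, lt_of_le_of_ne (Complex.arg_le_pi _) ?_⟩
    exact (Complex.mem_slitPlane_iff_arg.1 h).1
  · have h1 : ‖zeta v₀ (par (u, v))‖ = cn u := by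
      rw [zeta_par, norm_mul, ← Complex.exp_mul_I, Complex.norm_exp_ofReal_mul_I,
        Complex.norm_real, Real.norm_of_nonneg (cn_pos u).le, mul_one]
    have h2 := Complex.norm_mul_cos_arg (zeta v₀ (par (u, v)))
    have h3 := Complex.norm_mul_sin_arg (zeta v₀ (par (u, v)))
    rw [h1, ← ha] at h2 h3
    rw [zeta_par, ← Complex.ofReal_cos, ← Complex.ofReal_sin] at h2 h3
    have hn := (cn_pos u).ne'
    have h2' : Real.cos a = Real.cos (v - v₀) := by
      apply mul_left_cancel₀ hn
      rw [h2]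
      simp only [Complex.mul_re, Complex.add_re, Complex.ofReal_re, Complex.ofReal_im,
        Complex.mul_im, Complex.I_re, Complex.I_im, Complex.add_im]
      ring
    have h3' : Real.sin a = Real.sin (v - v₀) := by
      apply mul_left_cancel₀ hn
      rw [h3]
      simp only [Complex.mul_re, Complex.add_re, Complex.ofReal_re, Complex.ofReal_im,
        Complex.mul_im, Complex.I_re, Complex.I_im, Complex.add_im]
      ring
    have hv : v = v₀ + (v - v₀) := by ring
    constructor
    · rw [Real.cos_add, h2', h3', ← Real.cos_add, ← hv]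
    · rw [Real.sin_add, h2', h3', ← Real.sin_add, ← hv]

lemma par_congr {u v v' : ℝ} (h1 : Real.cos v' = Real.cos v) (h2 : Real.sin v' = Real.sin v) :
    par (u, v') = par (u, v) := by
  simp only [par, tube, rot, h1, h2]

/-- The quantity `cos (v - π u / 2)`. -/
noncomputable def kap (u v : ℝ) : ℝ := Real.cos (v - Real.pi / 2 * u)

lemma kap_congr {u v v' : ℝ} (h1 : Real.cos v' = Real.cos v) (h2 : Real.sin v' = Real.sin v) :
    kap u v' = kap u v := by
  rw [kap, kap, Real.cos_sub, Real.cos_sub, h1, h2]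

lemma kap_neg_one (v : ℝ) : kap (-1) v = -kap 1 v := by
  rw [kap, kap, Real.cos_sub, Real.cos_sub]
  simp

lemma continuous_kap : Continuous (fun p : ℝ × ℝ => kap p.1 p.2) := by
  unfold kap
  fun_prop

/-- Equal points of the parametrization. -/
lemma par_eq {u v u' v' : ℝ} (h : par (u, v) = par (u', v')) :
    (u = u' ∨ (u = -u' ∧ 1 ≤ |u|)) ∧ Real.cos v = Real.cos v' ∧ Real.sin v = Real.sin v' := by
  have hd : cn u = cn u' := by
    have := congrArg den h
    rw [den_par, den_par] at this
    exact (sq_eq_sq₀ (cn_pos u).le (cn_pos u').le).1 this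
  have hn := (cn_pos u').ne'
  have h2 : Real.cos v = Real.cos v' := by
    have := congrArg (fun q : E4 => q 2) h
    simp only [par_2, hd] at this
    exact mul_left_cancel₀ hn this
  have h3 : Real.sin v = Real.sin v' := by
    have := congrArg (fun q : E4 => q 3) h
    simp only [par_3, hd] at this
    exact mul_left_cancel₀ hn this
  refine ⟨?_, h2, h3⟩
  have hx : cx u = cx u' := by
    have := congrArg xnum h
    rw [xnum_par, xnum_par, hd] at this
    exact mul_left_cancel₀ (pow_ne_zero 2 hn) this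
  have hy : cy u = cy u' := by
    have := congrArg ynum h
    rw [ynum_par, ynum_par, hd] at this
    exact mul_left_cancel₀ (pow_ne_zero 2 hn) this
  have hu : u ^ 2 = u' ^ 2 := by unfold cx at hx; linarith
  rcases sq_eq_sq_iff_eq_or_eq_neg.1 hu with h0 | h0
  · exact Or.inl h0
  · by_cases hlt : 1 ≤ |u|
    · exact Or.inr ⟨h0, hlt⟩
    · left
      have hlt' : u ^ 2 < 1 := by
        rw [← sq_abs]
        have := abs_nonneg u
        nlinarith [not_le.1 hlt]
      unfold cy at hy
      rw [← hu] at hy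
      have hpos : 0 < expNegInvGlue (1 - u ^ 2) := expNegInvGlue.pos_of_pos (by linarith)
      exact mul_right_cancel₀ hpos.ne' hy

lemma cy_zero {u : ℝ} (h : 1 ≤ u ^ 2) : cy u = 0 := by
  rw [cy, expNegInvGlue.zero_of_nonpos (by linarith), mul_zero]

lemma par_neg {u : ℝ} (h : 1 ≤ u ^ 2) (v : ℝ) : par (-u, v) = par (u, v) := by
  have h1 : cx (-u) = cx u := by simp [cx]
  have h2 : cy (-u) = cy u := by rw [cy_zero h, cy_zero (by simpa using h)]
  simp only [par, tube, rot, cs, cn, cw, h1, h2]

/-- The parameter domain. -/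
def dom : Set (ℝ × ℝ) := {p | 1 < p.1 ^ 2 ∨ 0 < kap p.1 p.2}

/-- The surface. -/
def surf : Set E4 := par '' dom

lemma surf_nonempty : surf.Nonempty := ⟨par (2, 0), (2, 0), by left; norm_num, rfl⟩

/-- Charts around the points with `|u| < 1`. -/
lemma chart_inner {u₀ v₀ : ℝ} (h : (u₀, v₀) ∈ dom) (hu : u₀ ^ 2 < 1) :
    ∃ e : OpenPartialHomeomorph (ℝ × ℝ) surf, (u₀, v₀) ∈ e.source ∧ e.source ⊆ dom ∧
      ∀ p ∈ e.source, (e p : E4) = par p := by
  have hV : IsOpen {p : ℝ × ℝ | p.1 ^ 2 < 1 ∧ 0 < kap p.1 p.2 ∧ |p.2 - v₀| < Real.pi} :=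
    (isOpen_lt (continuous_fst.pow 2) continuous_const).inter
      ((isOpen_lt continuous_const continuous_kap).inter
        (isOpen_lt (continuous_snd.sub continuous_const).abs continuous_const))
  have hW : IsOpen {q : E4 | 0 < xnum q ∧ zeta v₀ q ∈ Complex.slitPlane} :=
    (isOpen_lt continuous_const continuous_xnum).inter
      (Complex.isOpen_slitPlane.preimage (continuous_zeta v₀))
  have hden : ∀ q : E4, zeta v₀ q ∈ Complex.slitPlane → den q ≠ 0 := by
    intro q hq h0
    have h1 : q 2 = 0 := by unfold den at h0; nlinarith [sq_nonneg (q 2), sq_nonneg (q 3)]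
    have h2 : q 3 = 0 := by unfold den at h0; nlinarith [sq_nonneg (q 2), sq_nonneg (q 3)]
    apply Complex.slitPlane_ne_zero hq
    simp [zeta, h1, h2]
  have hg : ContinuousOn (fun q : E4 =>
      (ynum q / den q / expNegInvGlue (xnum q / den q), v₀ + (zeta v₀ q).arg))
      {q : E4 | 0 < xnum q ∧ zeta v₀ q ∈ Complex.slitPlane} := by
    refine ContinuousOn.prodMk ?_ ?_
    · have h1 : ContinuousOn (fun q : E4 => xnum q / den q)
          {q : E4 | 0 < xnum q ∧ zeta v₀ q ∈ Complex.slitPlane} :=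
        continuous_xnum.continuousOn.div continuous_den.continuousOn fun q hq => hden q hq.2
      have h2 : ContinuousOn (fun q : E4 => ynum q / den q)
          {q : E4 | 0 < xnum q ∧ zeta v₀ q ∈ Complex.slitPlane} :=
        continuous_ynum.continuousOn.div continuous_den.continuousOn fun q hq => hden q hq.2
      refine h2.div ((expNegInvGlue.contDiff (n := 0)).continuous.comp_continuousOn h1) ?_
      intro q hq
      have hd : 0 < den q := lt_of_le_of_ne (by unfold den; positivity) (hden q hq.2).symm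
      exact (expNegInvGlue.pos_of_pos (div_pos hq.1 hd)).ne'
    · refine continuousOn_const.add fun q hq => ?_
      exact ((Complex.continuousAt_arg hq.2).comp
        (continuous_zeta v₀).continuousAt).continuousWithinAt
  obtain ⟨e, he1, he2⟩ := exists_chart surf surf_nonempty _ hV par par_smooth.continuous _ hW
    _ hg (by
      rintro ⟨u, v⟩ ⟨h1, h2, h3⟩
      have hcx : 0 < cx u := by unfold cx; simp only at h1; linarith
      have hn := (cn_pos u).ne'
      refine ⟨⟨_, Or.inr h2, rfl⟩, ⟨?_, zeta_mem h3⟩, ?_⟩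
      · rw [xnum_par]
        exact mul_pos (pow_pos (cn_pos u) 2) hcx
      · simp only [xnum_par, ynum_par, den_par]
        rw [arg_zeta_par h3, mul_div_cancel_left₀ _ (pow_ne_zero 2 hn),
          mul_div_cancel_left₀ _ (pow_ne_zero 2 hn)]
        refine Prod.ext ?_ ?_
        · change cy u / expNegInvGlue (cx u) = u
          unfold cy
          have := expNegInvGlue.pos_of_pos hcx
          exact mul_div_cancel_right₀ _ this.ne'
        · change v₀ + (v - v₀) = v
          ring) (by
      rintro q ⟨⟨u, v⟩, hp, rfl⟩ ⟨h1, h2⟩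
      obtain ⟨v', hv', hc, hs⟩ := exists_window h2
      rw [xnum_par] at h1
      have hcx : 0 < cx u := by
        by_contra hcon
        nlinarith [pow_pos (cn_pos u) 2, not_lt.1 hcon]
      have hu1 : u ^ 2 < 1 := by unfold cx at hcx; linarith
      refine ⟨(u, v'), ⟨hu1, ?_, hv'⟩, par_congr hc hs⟩
      change 0 < kap u v'
      rw [kap_congr hc hs]
      rcases hp with hp | hp
      · exact absurd hu1 (not_lt.2 (le_of_lt hp))
      · exact hp)
  refine ⟨e, ?_, ?_, ?_⟩
  · rw [he1]
    refine ⟨hu, ?_, ?_⟩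
    · rcases h with h | h
      · exact absurd hu (not_lt.2 (le_of_lt h))
      · exact h
    · simp [Real.pi_pos]
  · rw [he1]
    exact fun p hp => Or.inr hp.2.1
  · rw [he1]
    exact he2

end Teardrop

end Pool.Agent.R747
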