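import Mathlib
import Pool.Agent.R747.TearCharts

/-!
Outer charts of the non-orientable tube over the teardrop.
-/

open Set Filter Topology
open scoped RealInnerProductSpace ContDiff

namespace Pool.Agent.R747

namespace Teardrop

/-- The closed half strip opposite to the side `ε`. -/
def half (ε : ℝ) : Set (ℝ × ℝ) := {p | -1 ≤ ε * p.1 ∧ ε * p.1 ≤ 0 ∧ 0 ≤ kap p.1 p.2}

lemma isClosed_half (ε : ℝ) : IsClosed (half ε) :=
  (isClosed_le continuous_const (continuous_const.mul continuous_fst)).inter
    ((isClosed_le (continuous_const.mul continuous_fst) continuous_const).inter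
      (isClosed_le continuous_const continuous_kap))

lemma exists_period (v : ℝ) : ∃ v' ∈ Icc 0 (2 * Real.pi),
    Real.cos v' = Real.cos v ∧ Real.sin v' = Real.sin v := by
  refine ⟨toIcoMod Real.two_pi_pos 0 v, ?_, ?_, ?_⟩
  · have := toIcoMod_mem_Ico Real.two_pi_pos 0 v
    rw [zero_add] at this
    exact ⟨this.1, this.2.le⟩
  · rw [toIcoMod, zsmul_eq_mul, Real.cos_sub_int_mul_two_pi]
  · rw [toIcoMod, zsmul_eq_mul, Real.sin_sub_int_mul_two_pi]

lemma isClosed_image_half {ε : ℝ} (hε : ε = 1 ∨ ε = -1) : IsClosed (par '' half ε) := by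
  have h1 : par '' half ε = par '' (half ε ∩ (Icc (-1) 1 ×ˢ Icc 0 (2 * Real.pi))) := by
    apply Subset.antisymm
    · rintro q ⟨⟨u, v⟩, ⟨h1, h2, h3⟩, rfl⟩
      obtain ⟨v', hv', hc, hs⟩ := exists_period v
      refine ⟨(u, v'), ⟨⟨h1, h2, ?_⟩, ?_, hv'⟩, par_congr hc hs⟩
      · change 0 ≤ kap u v'
        rw [kap_congr hc hs]
        exact h3
      · simp only at h1 h2
        rcases hε with rfl | rfl
        · exact ⟨by linarith, by linarith⟩
        · exact ⟨by linarith, by linarith⟩
    · exact image_mono inter_subset_left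
  rw [h1]
  have h2 : IsCompact (half ε ∩ (Icc (-1) 1 ×ˢ Icc 0 (2 * Real.pi))) :=
    (isCompact_Icc.prod isCompact_Icc).inter_left (isClosed_half ε)
  exact (h2.image par_smooth.continuous).isClosed

/-- Charts around the points with `|u| ≥ 1`. -/
lemma chart_outer {u₀ v₀ ε : ℝ} (hε : ε = 1 ∨ ε = -1) (h : (u₀, v₀) ∈ dom) (hu : 1 ≤ ε * u₀) :
    ∃ e : OpenPartialHomeomorph (ℝ × ℝ) surf, (u₀, v₀) ∈ e.source ∧ e.source ⊆ dom ∧
      ∀ p ∈ e.source, (e p : E4) = par p := by
  have hε2 : ε * ε = 1 := by rcases hε with rfl | rfl <;> norm_num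
  have hV : IsOpen {p : ℝ × ℝ | 0 < ε * p.1 ∧ (1 < ε * p.1 ∨ 0 < kap p.1 p.2) ∧
      |p.2 - v₀| < Real.pi} :=
    (isOpen_lt continuous_const (continuous_const.mul continuous_fst)).inter
      (((isOpen_lt continuous_const (continuous_const.mul continuous_fst)).union
        (isOpen_lt continuous_const continuous_kap)).inter
        (isOpen_lt (continuous_snd.sub continuous_const).abs continuous_const))
  have hW : IsOpen {q : E4 | xnum q < den q ∧ zeta v₀ q ∈ Complex.slitPlane ∧
      q ∈ (par '' half ε)ᶜ} :=
    (isOpen_lt continuous_xnum continuous_den).inter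
      ((Complex.isOpen_slitPlane.preimage (continuous_zeta v₀)).inter
        (isClosed_image_half hε).isOpen_compl)
  have hden : ∀ q : E4, zeta v₀ q ∈ Complex.slitPlane → den q ≠ 0 := by
    intro q hq h0
    have h1 : q 2 = 0 := by unfold den at h0; nlinarith [sq_nonneg (q 2), sq_nonneg (q 3)]
    have h2 : q 3 = 0 := by unfold den at h0; nlinarith [sq_nonneg (q 2), sq_nonneg (q 3)]
    apply Complex.slitPlane_ne_zero hq
    simp [zeta, h1, h2]
  have hg : ContinuousOn (fun q : E4 =>
      (ε * Real.sqrt (1 - xnum q / den q), v₀ + (zeta v₀ q).arg))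
      {q : E4 | xnum q < den q ∧ zeta v₀ q ∈ Complex.slitPlane ∧
      q ∈ (par '' half ε)ᶜ} := by
    refine ContinuousOn.prodMk ?_ ?_
    · have h1 : ContinuousOn (fun q : E4 => xnum q / den q)
          {q : E4 | xnum q < den q ∧ zeta v₀ q ∈ Complex.slitPlane ∧ q ∈ (par '' half ε)ᶜ} :=
        continuous_xnum.continuousOn.div continuous_den.continuousOn fun q hq => hden q hq.2.1
      exact continuousOn_const.mul (continuousOn_const.sub h1).sqrt
    · refine continuousOn_const.add fun q hq => ?_
      exact ((Complex.continuousAt_arg hq.2.1).comp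
        (continuous_zeta v₀).continuousAt).continuousWithinAt
  obtain ⟨e, he1, he2⟩ := exists_chart surf surf_nonempty _ hV par par_smooth.continuous _ hW
    _ hg (by
      rintro ⟨u, v⟩ ⟨h1, h2, h3⟩
      simp only at h1 h2 h3
      have hsq : (ε * u) ^ 2 = u ^ 2 := by
        rw [mul_pow, sq, hε2, one_mul]
      have hn := (cn_pos u).ne'
      refine ⟨⟨(u, v), ?_, rfl⟩, ⟨?_, zeta_mem h3, ?_⟩, ?_⟩
      · rcases h2 with h2 | h2
        · left
          change 1 < u ^ 2
          rw [← hsq]
          nlinarith
        · exact Or.inr h2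
      · rw [xnum_par, den_par]
        have : cx u < 1 := by unfold cx; rw [← hsq]; nlinarith
        nlinarith [pow_pos (cn_pos u) 2]
      · rintro ⟨⟨u', v'⟩, ⟨k1, k2, k3⟩, hk⟩
        simp only at k1 k2 k3
        obtain ⟨hu', hc, hs⟩ := par_eq hk
        rcases hu' with rfl | ⟨hu', habs⟩
        · linarith
        · subst hu'
          have h5 : ε * u = 1 := by
            have : 1 ≤ |u| := by simpa using habs
            have h6 : |u| = ε * u := by
              rw [← abs_of_pos h1, abs_mul]
              rcases hε with rfl | rfl <;> simp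
            rw [h6] at this
            linarith
          have h7 : 0 < kap u v := by
            rcases h2 with h2 | h2
            · linarith
            · exact h2
          rw [kap_congr (u := -u) hc hs] at k3
          have h8 : u = ε := by
            calc u = (ε * ε) * u := by rw [hε2, one_mul]
              _ = ε * (ε * u) := by ring
              _ = ε := by rw [h5, mul_one]
          subst h8
          rcases hε with rfl | rfl
          · rw [kap_neg_one] at k3
            linarith
          · rw [neg_neg] at k3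
            rw [kap_neg_one] at h7
            linarith
      · simp only [xnum_par, den_par]
        rw [arg_zeta_par h3, mul_div_cancel_left₀ _ (pow_ne_zero 2 hn)]
        refine Prod.ext ?_ ?_
        · change ε * Real.sqrt (1 - cx u) = u
          have h9 : 1 - cx u = (ε * u) ^ 2 := by rw [hsq]; unfold cx; ring
          rw [h9, Real.sqrt_sq h1.le, ← mul_assoc, hε2, one_mul]
        · change v₀ + (v - v₀) = v
          ring) (by
      rintro q ⟨⟨u, v⟩, hp, rfl⟩ ⟨h1, h2, h3⟩
      obtain ⟨v', hv', hc, hs⟩ := exists_window h2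
      rw [xnum_par, den_par] at h1
      have hsq : (ε * u) ^ 2 = u ^ 2 := by
        rw [mul_pow, sq, hε2, one_mul]
      have hcx : cx u < 1 := by
        by_contra hcon
        nlinarith [pow_pos (cn_pos u) 2, not_lt.1 hcon]
      have hu0 : u ≠ 0 := by
        rintro rfl
        simp [cx] at hcx
      have hε0 : ε ≠ 0 := by
        rintro rfl
        norm_num at hε2
      rcases lt_or_gt_of_ne (mul_ne_zero hε0 hu0) with hlt | hgt
      · have hbig : 1 < u ^ 2 := by
          by_contra hcon
          have hcon' := not_lt.1 hcon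
          apply h3
          refine ⟨(u, v), ⟨?_, hlt.le, ?_⟩, rfl⟩
          · change -1 ≤ ε * u
            nlinarith
          · rcases hp with hp | hp
            · exact absurd hp (not_lt.2 hcon')
            · exact le_of_lt hp
        refine ⟨(-u, v'), ⟨?_, Or.inl ?_, hv'⟩, ?_⟩
        · change 0 < ε * -u
          linarith
        · change 1 < ε * -u
          nlinarith
        · rw [par_neg hbig.le, par_congr hc hs]
      · refine ⟨(u, v'), ⟨hgt, ?_, hv'⟩, par_congr hc hs⟩
        change 1 < ε * u ∨ 0 < kap u v'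
        rw [kap_congr hc hs]
        rcases hp with hp | hp
        · left
          have : 1 < u ^ 2 := hp
          nlinarith
        · exact Or.inr hp)
  refine ⟨e, ?_, ?_, ?_⟩
  · rw [he1]
    refine ⟨?_, ?_, ?_⟩
    · change 0 < ε * u₀
      linarith
    · change 1 < ε * u₀ ∨ 0 < kap u₀ v₀
      rcases h with h | h
      · left
        have h' : 1 < u₀ ^ 2 := h
        have hsq : (ε * u₀) ^ 2 = u₀ ^ 2 := by
          rw [mul_pow, sq, hε2, one_mul]
        nlinarith
      · exact Or.inr h
    · simp [Real.pi_pos]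
  · rw [he1]
    rintro ⟨u, v⟩ ⟨h1, h2, h3⟩
    simp only at h1 h2 h3
    rcases h2 with h2 | h2
    · left
      have hsq : (ε * u) ^ 2 = u ^ 2 := by
        rw [mul_pow, sq, hε2, one_mul]
      change 1 < u ^ 2
      nlinarith
    · exact Or.inr h2
  · rw [he1]
    exact he2

/-- All charts. -/
lemma chart_all {x₀ : ℝ × ℝ} (h : x₀ ∈ dom) :
    ∃ e : OpenPartialHomeomorph (ℝ × ℝ) surf, x₀ ∈ e.source ∧ e.source ⊆ dom ∧
      ∀ p ∈ e.source, (e p : E4) = par p := by
  obtain ⟨u₀, v₀⟩ := x₀
  by_cases hu : u₀ ^ 2 < 1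
  · exact chart_inner h hu
  · rcases le_total 0 u₀ with h0 | h0
    · exact chart_outer (Or.inl rfl) h (by nlinarith [not_lt.1 hu])
    · exact chart_outer (Or.inr rfl) h (by nlinarith [not_lt.1 hu])

end Teardrop

end Pool.Agent.R747
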