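import Mathlib
import Pool.Agent.R747.TearOuter

/-!
Regularity and flatness of the tube over the teardrop.
-/

open Set Filter Topology
open scoped RealInnerProductSpace ContDiff

namespace Pool.Agent.R747

/-- Regularity passes to parametrizations agreeing with a smooth regular map. -/
lemma regular_of_eq {F : Set E4} {r : ℝ × ℝ → E4} {n : WithTop ℕ∞} (hr : ContDiff ℝ n r)
    (hinj : ∀ p, Function.Injective (fderiv ℝ r p)) {e : OpenPartialHomeomorph (ℝ × ℝ) F}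
    (he : ∀ p ∈ e.source, (e p : E4) = r p) :
    IsRegularParam n (Subtype.val : F → E4) e ∧
      ∀ p ∈ e.source, fderiv ℝ ((Subtype.val : F → E4) ∘ e) p = fderiv ℝ r p := by
  have h1 : ∀ p ∈ e.source, fderiv ℝ ((Subtype.val : F → E4) ∘ e) p = fderiv ℝ r p := by
    intro p hp
    apply Filter.EventuallyEq.fderiv_eq
    filter_upwards [e.open_source.mem_nhds hp] with x hx
    exact he x hx
  refine ⟨⟨hr.contDiffOn.congr fun p hp => he p hp, fun p hp => ?_⟩, h1⟩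
  rw [h1 p hp]
  exact hinj p

/-- The change to flat coordinates. -/
lemma exists_flat_change {X G : ℝ → ℝ} (hX : ContDiff ℝ ∞ X) (hG : ContDiff ℝ ∞ G)
    (hpos : ∀ u, 0 < deriv X u) (x₀ : ℝ × ℝ) :
    ∃ θ : OpenPartialHomeomorph (ℝ × ℝ) (ℝ × ℝ), x₀ ∈ θ.source ∧
      ContDiffOn ℝ ∞ θ.symm θ.target ∧
      ∀ y ∈ θ.target, ∃ A : (ℝ × ℝ) ≃L[ℝ] (ℝ × ℝ),
        HasFDerivAt θ.symm (A.symm : (ℝ × ℝ) →L[ℝ] (ℝ × ℝ)) y ∧
        ∀ v : ℝ × ℝ, A v = (deriv X (θ.symm y).1 * v.1, v.2 + deriv G (θ.symm y).1 * v.1) := by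
  set T : ℝ × ℝ → ℝ × ℝ := fun p => (X p.1, p.2 + G p.1) with hT
  have hTs : ContDiff ℝ ∞ T :=
    (hX.comp contDiff_fst).prodMk (contDiff_snd.add (hG.comp contDiff_fst))
  have hder : ∀ x : ℝ × ℝ, ∃ A : (ℝ × ℝ) ≃L[ℝ] (ℝ × ℝ),
      HasFDerivAt T (A : (ℝ × ℝ) →L[ℝ] (ℝ × ℝ)) x ∧
      ∀ v : ℝ × ℝ, A v = (deriv X x.1 * v.1, v.2 + deriv G x.1 * v.1) := by
    intro x
    have hne := (hpos x.1).ne'
    let f : (ℝ × ℝ) →L[ℝ] (ℝ × ℝ) :=
      (deriv X x.1 • ContinuousLinearMap.fst ℝ ℝ ℝ).prod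
        (ContinuousLinearMap.snd ℝ ℝ ℝ + deriv G x.1 • ContinuousLinearMap.fst ℝ ℝ ℝ)
    let g : (ℝ × ℝ) →L[ℝ] (ℝ × ℝ) :=
      ((deriv X x.1)⁻¹ • ContinuousLinearMap.fst ℝ ℝ ℝ).prod
        (ContinuousLinearMap.snd ℝ ℝ ℝ -
          (deriv G x.1 * (deriv X x.1)⁻¹) • ContinuousLinearMap.fst ℝ ℝ ℝ)
    have hf : ∀ v : ℝ × ℝ, f v = (deriv X x.1 * v.1, v.2 + deriv G x.1 * v.1) := fun v => rfl
    have hg : ∀ v : ℝ × ℝ, g v = ((deriv X x.1)⁻¹ * v.1,
        v.2 - (deriv G x.1 * (deriv X x.1)⁻¹) * v.1) := fun v => rfl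
    refine ⟨ContinuousLinearEquiv.equivOfInverse f g ?_ ?_, ?_, ?_⟩
    · intro v
      rw [hf, hg]
      refine Prod.ext ?_ ?_
      · field_simp
      · field_simp
        ring
    · intro v
      rw [hg, hf]
      refine Prod.ext ?_ ?_
      · field_simp
      · field_simp
        ring
    · change HasFDerivAt T f x
      have hX1 : HasFDerivAt (fun p : ℝ × ℝ => X p.1)
          (deriv X x.1 • ContinuousLinearMap.fst ℝ ℝ ℝ) x :=
        (hX.differentiable (by simp) x.1).hasDerivAt.comp_hasFDerivAt x hasFDerivAt_fst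
      have hG1 : HasFDerivAt (fun p : ℝ × ℝ => G p.1)
          (deriv G x.1 • ContinuousLinearMap.fst ℝ ℝ ℝ) x :=
        (hG.differentiable (by simp) x.1).hasDerivAt.comp_hasFDerivAt x hasFDerivAt_fst
      exact hX1.prodMk (hasFDerivAt_snd.add hG1)
    · exact hf
  obtain ⟨A₀, hA₀, -⟩ := hder x₀
  refine ⟨(hTs.contDiffAt (x := x₀)).toOpenPartialHomeomorph T hA₀ (by simp), ?_, ?_, ?_⟩
  · exact ContDiffAt.mem_toOpenPartialHomeomorph_source _ hA₀ (by simp)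
  · intro y hy
    obtain ⟨A, hA, -⟩ := hder
      (((hTs.contDiffAt (x := x₀)).toOpenPartialHomeomorph T hA₀ (by simp)).symm y)
    exact (OpenPartialHomeomorph.contDiffAt_symm _ hy hA hTs.contDiffAt).contDiffWithinAt
  · intro y hy
    obtain ⟨A, hA, hA'⟩ := hder
      (((hTs.contDiffAt (x := x₀)).toOpenPartialHomeomorph T hA₀ (by simp)).symm y)
    exact ⟨A, OpenPartialHomeomorph.hasFDerivAt_symm _ hy hA, hA'⟩

/-- Isometric parametrizations of a tube. -/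
lemma exists_isometric {F : Set E4} {s : ℝ → E4} (hs : TubeData s)
    {e : OpenPartialHomeomorph (ℝ × ℝ) F} (he : ∀ p ∈ e.source, (e p : E4) = tube s p)
    {x₀ : ℝ × ℝ} (hx₀ : x₀ ∈ e.source) :
    ∃ e' : OpenPartialHomeomorph (ℝ × ℝ) F, e x₀ ∈ e'.target ∧
      IsRegularParam ∞ (Subtype.val : F → E4) e' ∧ IsIsometricParam (Subtype.val : F → E4) e' := by
  obtain ⟨X, G, hX, hG, hpos, hff⟩ := hs.exists_flat_coords
  obtain ⟨θ, hθ0, hθs, hθd⟩ := exists_flat_change hX hG hpos x₀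
  have hsrc : ∀ y ∈ (θ.symm.trans e).source, y ∈ θ.target ∧ θ.symm y ∈ e.source := by
    intro y hy
    rw [OpenPartialHomeomorph.trans_source] at hy
    exact ⟨hy.1, hy.2⟩
  have hd : ∀ y ∈ (θ.symm.trans e).source, ∃ A : (ℝ × ℝ) ≃L[ℝ] (ℝ × ℝ),
      fderiv ℝ ((Subtype.val : F → E4) ∘ (θ.symm.trans e)) y =
        (fderiv ℝ (tube s) (θ.symm y)).comp (A.symm : (ℝ × ℝ) →L[ℝ] (ℝ × ℝ)) ∧
        ∀ v : ℝ × ℝ, A v = (deriv X (θ.symm y).1 * v.1, v.2 + deriv G (θ.symm y).1 * v.1) := by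
    intro y hy
    obtain ⟨hy1, hy2⟩ := hsrc y hy
    obtain ⟨A, hA, hA'⟩ := hθd y hy1
    refine ⟨A, ?_, hA'⟩
    have h1 : ((Subtype.val : F → E4) ∘ (θ.symm.trans e)) =ᶠ[𝓝 y] (tube s) ∘ θ.symm := by
      filter_upwards [(θ.symm.trans e).open_source.mem_nhds hy] with z hz
      exact he _ (hsrc z hz).2
    rw [h1.fderiv_eq]
    have h2 : HasFDerivAt (tube s) (fderiv ℝ (tube s) (θ.symm y)) (θ.symm y) :=
      ((tube_contDiff hs.smooth).differentiable (by simp) _).hasFDerivAt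
    exact (h2.comp y hA).fderiv
  refine ⟨θ.symm.trans e, ?_, ⟨?_, ?_⟩, ?_⟩
  · rw [OpenPartialHomeomorph.trans_target]
    refine ⟨e.map_source hx₀, ?_⟩
    change e.symm (e x₀) ∈ θ.symm.target
    rw [e.left_inv hx₀]
    exact hθ0
  · have h1 : ContDiffOn ℝ ∞ ((tube s) ∘ θ.symm) (θ.symm.trans e).source :=
      (tube_contDiff hs.smooth).comp_contDiffOn (hθs.mono fun y hy => (hsrc y hy).1)
    exact h1.congr fun y hy => he _ (hsrc y hy).2
  · intro y hy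
    obtain ⟨A, hA, -⟩ := hd y hy
    rw [hA]
    exact (hs.injective_fderiv _).comp A.symm.injective
  · intro y hy v w
    obtain ⟨A, hA, hA'⟩ := hd y hy
    rw [hA]
    have h1 := hff (θ.symm y) (A.symm v) (A.symm w)
    have hv := hA' (A.symm v)
    have hw := hA' (A.symm w)
    rw [A.apply_symm_apply] at hv hw
    change ⟪fderiv ℝ (tube s) (θ.symm y) (A.symm v), fderiv ℝ (tube s) (θ.symm y) (A.symm w)⟫ = _
    have hv1 : deriv X (θ.symm y).1 * (A.symm v).1 = v.1 := (congrArg Prod.fst hv).symm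
    have hv2 : (A.symm v).2 + deriv G (θ.symm y).1 * (A.symm v).1 = v.2 :=
      (congrArg Prod.snd hv).symm
    have hw1 : deriv X (θ.symm y).1 * (A.symm w).1 = w.1 := (congrArg Prod.fst hw).symm
    have hw2 : (A.symm w).2 + deriv G (θ.symm y).1 * (A.symm w).1 = w.2 :=
      (congrArg Prod.snd hw).symm
    rw [h1, hv1, hv2, hw1, hw2]

end Pool.Agent.R747
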