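import Mathlib
import Pool.Agent.R747.TearFlat

/-!
Connectedness and non-orientability of the tube over the teardrop.
-/

open Set Filter Topology
open scoped RealInnerProductSpace ContDiff

namespace Pool.Agent.R747

lemma rot_neg_rot (v : ℝ) (q : E4) : rot v (rot (-v) q) = q := by
  have hcs := Real.sin_sq_add_cos_sq v
  simp only [rot, map_add, map_smul, J4_J4, Real.cos_neg, Real.sin_neg]
  have : Real.cos v • (Real.cos v • q + -Real.sin v • J4 q) +
      Real.sin v • (Real.cos v • J4 q + -Real.sin v • -q) =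
      (Real.sin v ^ 2 + Real.cos v ^ 2) • q := by module
  rw [this, hcs, one_smul]

namespace Teardrop

/-- The connected core of the parameter domain. -/
def core : Set (ℝ × ℝ) :=
  ({p : ℝ × ℝ | 1 < p.1} ∪ {p : ℝ × ℝ | |p.2 - Real.pi / 2 * p.1| < Real.pi / 2}) ∪
    {p : ℝ × ℝ | p.1 < -1}

lemma core_subset : core ⊆ dom := by
  rintro ⟨u, v⟩ ((h | h) | h)
  · left
    change 1 < u ^ 2
    have : 1 < u := h
    nlinarith
  · right
    have h0 : |v - Real.pi / 2 * u| < Real.pi / 2 := h
    have h' := abs_lt.1 h0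
    exact Real.cos_pos_of_mem_Ioo ⟨by linarith [h'.1], h'.2⟩
  · left
    change 1 < u ^ 2
    have : u < -1 := h
    nlinarith

lemma core_preconnected : IsPreconnected core := by
  have h1 : IsPreconnected {p : ℝ × ℝ | 1 < p.1} := by
    apply Convex.isPreconnected
    have h : {p : ℝ × ℝ | 1 < p.1} = (Ioi (1 : ℝ)) ×ˢ (univ : Set ℝ) := by
      ext p
      simp
    rw [h]
    exact (convex_Ioi 1).prod convex_univ
  have h2 : IsPreconnected {p : ℝ × ℝ | |p.2 - Real.pi / 2 * p.1| < Real.pi / 2} := by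
    apply Convex.isPreconnected
    intro p hp q hq a b ha hb hab
    have hp0 : |p.2 - Real.pi / 2 * p.1| < Real.pi / 2 := hp
    have hq0 : |q.2 - Real.pi / 2 * q.1| < Real.pi / 2 := hq
    have hp' := abs_lt.1 hp0
    have hq' := abs_lt.1 hq0
    change |(a • p + b • q).2 - Real.pi / 2 * (a • p + b • q).1| < Real.pi / 2
    simp only [Prod.fst_add, Prod.snd_add, Prod.smul_fst, Prod.smul_snd, smul_eq_mul]
    have e1 : a * p.2 + b * q.2 - Real.pi / 2 * (a * p.1 + b * q.1) =
        a * (p.2 - Real.pi / 2 * p.1) + b * (q.2 - Real.pi / 2 * q.1) := by ring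
    rw [e1]
    have e2 : Real.pi / 2 = a * (Real.pi / 2) + b * (Real.pi / 2) := by
      rw [← add_mul, hab, one_mul]
    rcases eq_or_lt_of_le ha with h0 | h0
    · have hb1 : b = 1 := by linarith
      rw [← h0, hb1]
      simpa using hq
    · rw [abs_lt]
      constructor
      · nlinarith
      · nlinarith
  have h3 : IsPreconnected {p : ℝ × ℝ | p.1 < -1} := by
    apply Convex.isPreconnected
    have h : {p : ℝ × ℝ | p.1 < -1} = (Iio (-1 : ℝ)) ×ˢ (univ : Set ℝ) := by
      ext p
      simp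
    rw [h]
    exact (convex_Iio (-1)).prod convex_univ
  have hpi := Real.pi_pos
  have h12 := h1.union (2, Real.pi) (by norm_num) (by
    change |Real.pi - Real.pi / 2 * 2| < Real.pi / 2
    have : Real.pi - Real.pi / 2 * 2 = 0 := by ring
    rw [this, abs_zero]
    positivity) h2
  refine h12.union (-2, -Real.pi) (Or.inr ?_) (by norm_num) h3
  change |-Real.pi - Real.pi / 2 * (-2)| < Real.pi / 2
  have : -Real.pi - Real.pi / 2 * (-2) = 0 := by ring
  rw [this, abs_zero]
  positivity

lemma surf_eq : surf = par '' core := by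
  apply Subset.antisymm
  · rintro q ⟨⟨u, v⟩, h, rfl⟩
    by_cases hu : 1 < u ^ 2
    · rcases lt_or_ge 0 u with h0 | h0
      · refine ⟨(u, v), Or.inl (Or.inl ?_), rfl⟩
        change 1 < u
        nlinarith
      · refine ⟨(u, v), Or.inr ?_, rfl⟩
        change u < -1
        nlinarith
    · rcases h with h | h
      · exact absurd h hu
      · have h' : 0 < kap u v := h
        set a := toIocMod Real.two_pi_pos (-Real.pi) (v - Real.pi / 2 * u) with ha
        have ham := toIocMod_mem_Ioc Real.two_pi_pos (-Real.pi) (v - Real.pi / 2 * u)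
        rw [← ha] at ham
        have hca : Real.cos a = Real.cos (v - Real.pi / 2 * u) := by
          rw [ha, toIocMod, zsmul_eq_mul, Real.cos_sub_int_mul_two_pi]
        have hsa : Real.sin a = Real.sin (v - Real.pi / 2 * u) := by
          rw [ha, toIocMod, zsmul_eq_mul, Real.sin_sub_int_mul_two_pi]
        have hlt : |a| < Real.pi / 2 := by
          by_contra hcon
          rw [not_lt] at hcon
          have h1 : |a| ≤ Real.pi := by
            rw [abs_le]
            constructor
            · exact ham.1.le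
            · have := ham.2
              linarith
          have h2 : Real.cos |a| ≤ 0 := Real.cos_nonpos_of_pi_div_two_le_of_le hcon (by linarith)
          rw [Real.cos_abs, hca] at h2
          exact absurd h' (not_lt.2 h2)
        refine ⟨(u, a + Real.pi / 2 * u), Or.inl (Or.inr ?_), ?_⟩
        · change |a + Real.pi / 2 * u - Real.pi / 2 * u| < Real.pi / 2
          rw [add_sub_cancel_right]
          exact hlt
        · have hv : v = (v - Real.pi / 2 * u) + Real.pi / 2 * u := by ring
          apply par_congr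
          · rw [Real.cos_add, hca, hsa, ← Real.cos_add, ← hv]
          · rw [Real.sin_add, hca, hsa, ← Real.sin_add, ← hv]
  · exact image_mono core_subset

lemma surf_connected : ConnectedSpace surf := by
  rw [← isConnected_iff_connectedSpace, surf_eq]
  refine ⟨⟨par (2, 0), (2, 0), Or.inl (Or.inl (by norm_num)), rfl⟩, ?_⟩
  exact core_preconnected.image _ par_smooth.continuous.continuousOn

/-- The normal direction of the cone over the teardrop. -/
noncomputable def nrm (u : ℝ) : E4 :=
  !₂[-deriv cy u, deriv cx u, cx u * deriv cy u - deriv cx u * cy u,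
    -(cx u * deriv cx u + cy u * deriv cy u)]

lemma nrm_smooth : Continuous nrm := by
  have hx : ContDiff ℝ ∞ (deriv cx) := (contDiff_infty_iff_deriv.1 cx_smooth).2
  have hy : ContDiff ℝ ∞ (deriv cy) := (contDiff_infty_iff_deriv.1 cy_smooth).2
  have h : ContDiff ℝ ∞ nrm := by
    rw [contDiff_euclidean]
    intro i
    fin_cases i
    · exact hy.neg
    · exact hx
    · exact (cx_smooth.mul hy).sub (hx.mul cy_smooth)
    · exact ((cx_smooth.mul hx).add (cy_smooth.mul hy)).neg
  exact h.continuous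

/-- The normal direction is not orthogonal to a nonzero normal vector. -/
lemma nrm_inner_ne {u : ℝ} {w : E4} (hw : w ≠ 0) (h1 : ⟪w, cs u⟫ = 0) (h2 : ⟪w, J4 (cs u)⟫ = 0)
    (h3 : ⟪w, deriv cs u⟫ = 0) : ⟪w, nrm u⟫ ≠ 0 := by
  intro h4
  have hn := (cn_pos u).ne'
  have e1 : ⟪w, cw u⟫ = 0 := by
    have : ⟪w, cs u⟫ = cn u * ⟪w, cw u⟫ := inner_smul_right _ _ _
    rw [this] at h1
    exact (mul_eq_zero.1 h1).resolve_left hn
  have e2 : ⟪w, J4 (cw u)⟫ = 0 := by
    have : ⟪w, J4 (cs u)⟫ = cn u * ⟪w, J4 (cw u)⟫ := by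
      rw [cs, map_smul, inner_smul_right]
    rw [this] at h2
    exact (mul_eq_zero.1 h2).resolve_left hn
  have e3 : ⟪w, (!₂[deriv cx u, deriv cy u, 0, 0] : E4)⟫ = 0 := by
    rw [(cs_deriv u).deriv, inner_add_right, inner_smul_right, inner_smul_right, e1, mul_zero,
      add_zero] at h3
    exact (mul_eq_zero.1 h3).resolve_left hn
  rw [inner4] at e1 e2 e3 h4
  simp only [cw_0, cw_1, cw_2, cw_3, J4_0, J4_1, J4_2, J4_3] at e1 e2
  simp only [nrm] at h4
  simp at e1 e2 e3 h4
  set x := cx u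
  set y := cy u
  set x' := deriv cx u
  set y' := deriv cy u
  have hpos : 0 < x' ^ 2 + y' ^ 2 := by
    rcases deriv_ne u with h | h
    · have : 0 < x' ^ 2 := by positivity
      nlinarith [sq_nonneg y']
    · have : 0 < y' ^ 2 := by positivity
      nlinarith [sq_nonneg x']
  have f2 : w 2 = -(w 0 * x + w 1 * y) := by linarith
  have f3 : w 3 = w 0 * y - w 1 * x := by linarith
  have hD : (1 + x ^ 2 + y ^ 2) * (-(w 0 * y') + w 1 * x') = 0 := by
    rw [f2, f3] at h4
    linear_combination h4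
  have hD' : -(w 0 * y') + w 1 * x' = 0 :=
    (mul_eq_zero.1 hD).resolve_left (by positivity)
  have g0 : w 0 = 0 := by
    have : (x' ^ 2 + y' ^ 2) * w 0 = 0 := by linear_combination x' * e3 - y' * hD'
    exact (mul_eq_zero.1 this).resolve_left hpos.ne'
  have g1 : w 1 = 0 := by
    have : (x' ^ 2 + y' ^ 2) * w 1 = 0 := by linear_combination y' * e3 + x' * hD'
    exact (mul_eq_zero.1 this).resolve_left hpos.ne'
  apply hw
  refine ext4 ?_ ?_ ?_ ?_
  · rw [g0]; rfl
  · rw [g1]; rfl
  · rw [f2, g0, g1]; simp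
  · rw [f3, g0, g1]; simp

lemma nrm_two : nrm (-2) = -nrm 2 := by
  have hy : ∀ u : ℝ, 1 < u ^ 2 → deriv cy u = 0 := by
    intro u hu
    have h1 : cy =ᶠ[𝓝 u] fun _ => 0 := by
      have hopen : IsOpen {t : ℝ | 1 < t ^ 2} := isOpen_lt continuous_const (continuous_pow 2)
      filter_upwards [hopen.mem_nhds hu] with t ht
      exact cy_zero (le_of_lt ht)
    rw [h1.deriv_eq]
    simp
  have h1 : deriv cy 2 = 0 := hy 2 (by norm_num)
  have h2 : deriv cy (-2) = 0 := hy (-2) (by norm_num)
  have h3 : cy 2 = 0 := cy_zero (by norm_num)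
  have h4 : cy (-2) = 0 := cy_zero (by norm_num)
  have h5 : deriv cx 2 = -2 * 2 := (cx_deriv 2).deriv
  have h6 : deriv cx (-2) = -2 * -2 := (cx_deriv (-2)).deriv
  refine ext4 ?_ ?_ ?_ ?_ <;> simp [nrm, h1, h2, h3, h4, h5, h6, cx]

lemma not_orientable : ¬ IsOrientableSurface (Subtype.val : surf → E4) := by
  rintro ⟨ν, hνc, hν⟩
  have hmem : ∀ x ∈ dom, par x ∈ surf := fun x hx => ⟨x, hx, rfl⟩
  -- the sign function
  let σ : dom → ℝ := fun x => ⟪ν ⟨par x, hmem x x.2⟩, rot (x : ℝ × ℝ).2 (nrm (x : ℝ × ℝ).1)⟫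
  have hσ : Continuous σ := by
    have h1 : Continuous (fun x : dom => ν ⟨par x, hmem x x.2⟩) :=
      hνc.comp ((par_smooth.continuous.comp continuous_subtype_val).subtype_mk _)
    have h2 : Continuous (fun x : dom => rot (x : ℝ × ℝ).2 (nrm (x : ℝ × ℝ).1)) := by
      have h3 : Continuous (fun x : dom => nrm (x : ℝ × ℝ).1) :=
        nrm_smooth.comp (continuous_fst.comp continuous_subtype_val)
      have h4 : Continuous (fun x : dom => (x : ℝ × ℝ).2) :=
        continuous_snd.comp continuous_subtype_val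
      exact ((Real.continuous_cos.comp h4).smul h3).add
        ((Real.continuous_sin.comp h4).smul (J4.continuous.comp h3))
    exact h1.inner h2
  have hne : ∀ x : dom, σ x ≠ 0 := by
    rintro ⟨⟨u, v⟩, hx⟩
    obtain ⟨e, he0, -, he⟩ := chart_all hx
    have hreg := regular_of_eq par_smooth tubeData.injective_fderiv he
    have hreg1 : IsRegularParam 1 (Subtype.val : surf → E4) e :=
      (regular_of_eq (par_smooth.of_le (by simp)) tubeData.injective_fderiv he).1
    have hp : e (u, v) = ⟨par (u, v), hmem _ hx⟩ := Subtype.ext (he _ he0)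
    obtain ⟨hn1, hn2, hn3⟩ := hν ⟨par (u, v), hmem _ hx⟩
    have htan : ∀ w, ⟪ν ⟨par (u, v), hmem _ hx⟩, fderiv ℝ par (u, v) w⟫ = 0 := by
      intro w
      have h1 := hn3 e hreg1 (by rw [← hp]; exact e.map_source he0) w
      rw [← hp, e.left_inv he0, hreg.2 _ he0, hp] at h1
      exact h1
    set ν₀ := ν ⟨par (u, v), hmem _ hx⟩ with hν₀
    set w := rot (-v) ν₀ with hw
    have hrw : ν₀ = rot v w := (rot_neg_rot v ν₀).symm
    have k1 : ⟪w, cs u⟫ = 0 := by
      have : ⟪ν₀, rot v (cs u)⟫ = 0 := hn2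
      rwa [hrw, inner_rot] at this
    have k2 : ⟪w, J4 (cs u)⟫ = 0 := by
      have := htan (0, 1)
      rw [par, tubeData.fderiv_tube] at this
      simp only [zero_smul, one_smul, zero_add] at this
      rwa [hrw, ← rot_J, inner_rot] at this
    have k3 : ⟪w, deriv cs u⟫ = 0 := by
      have := htan (1, 0)
      rw [par, tubeData.fderiv_tube] at this
      simp only [zero_smul, one_smul, add_zero] at this
      rwa [hrw, inner_rot] at this
    have hw0 : w ≠ 0 := by
      intro h0
      rw [h0] at hrw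
      have : ‖ν₀‖ = 0 := by
        rw [hrw, norm_rot, norm_zero]
      rw [hn1] at this
      exact one_ne_zero this
    have := nrm_inner_ne hw0 k1 k2 k3
    change ⟪ν₀, rot v (nrm u)⟫ ≠ 0
    rw [hrw, inner_rot]
    exact this
  -- transfer to the core
  let ι : core → dom := fun x => ⟨x, core_subset x.2⟩
  have hι : Continuous ι := continuous_subtype_val.subtype_mk _
  have : PreconnectedSpace core := isPreconnected_iff_preconnectedSpace.1 core_preconnected
  have hpre : IsPreconnected (range (σ ∘ ι)) := isPreconnected_range (hσ.comp hι)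
  have hm1 : ((2 : ℝ), (0 : ℝ)) ∈ core := Or.inl (Or.inl (by norm_num))
  have hm2 : ((-2 : ℝ), (0 : ℝ)) ∈ core := Or.inr (by norm_num)
  have hsym : (σ ∘ ι) ⟨(-2, 0), hm2⟩ = -(σ ∘ ι) ⟨(2, 0), hm1⟩ := by
    change ⟪ν ⟨par (-2, 0), hmem _ (core_subset hm2)⟩, rot 0 (nrm (-2))⟫ =
      -⟪ν ⟨par (2, 0), hmem _ (core_subset hm1)⟩, rot 0 (nrm 2)⟫
    have h1 : (⟨par (-2, 0), hmem _ (core_subset hm2)⟩ : surf) =
        ⟨par (2, 0), hmem _ (core_subset hm1)⟩ := Subtype.ext (par_neg (by norm_num) 0)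
    rw [h1, nrm_two, ← inner_neg_right]
    congr 1
    simp only [rot, map_neg, smul_neg]
    abel
  have hz : (0 : ℝ) ∈ range (σ ∘ ι) := by
    have a1 : (σ ∘ ι) ⟨(2, 0), hm1⟩ ∈ range (σ ∘ ι) := mem_range_self _
    have a2 : (σ ∘ ι) ⟨(-2, 0), hm2⟩ ∈ range (σ ∘ ι) := mem_range_self _
    rw [hsym] at a2
    rcases le_total 0 ((σ ∘ ι) ⟨(2, 0), hm1⟩) with h0 | h0
    · exact hpre.ordConnected.out a2 a1 ⟨by linarith, h0⟩
    · exact hpre.ordConnected.out a1 a2 ⟨h0, by linarith⟩
  obtain ⟨x, hx⟩ := hz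
  exact hne _ hx

lemma closed_asymptotic : HasClosedAsymptoticLine (Subtype.val : surf → E4) := by
  have hmem : ∀ t : ℝ, par (2, t) ∈ surf := fun t => ⟨(2, t), Or.inl (by norm_num), rfl⟩
  have hγ : ((Subtype.val : surf → E4) ∘ fun t : ℝ => ⟨par (2, t), hmem t⟩) =
      fun t : ℝ => rot t (cs 2) := rfl
  have hd : ∀ q : E4, deriv (fun t : ℝ => rot t q) = fun t : ℝ => rot t (J4 q) := by
    intro q
    funext t
    have h1 : HasDerivAt (fun t : ℝ => rot t q) (-Real.sin t • q + Real.cos t • J4 q) t :=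
      ((Real.hasDerivAt_cos t).smul_const q).add ((Real.hasDerivAt_sin t).smul_const (J4 q))
    rw [h1.deriv, rot, J4_J4]
    module
  refine ⟨fun t => ⟨par (2, t), hmem t⟩, 2 * Real.pi, Real.two_pi_pos, ?_, ?_, ?_, ?_, ?_⟩
  · exact (par_smooth.continuous.comp (continuous_const.prodMk continuous_id)).subtype_mk _
  · intro t
    apply Subtype.ext
    exact par_congr (Real.cos_add_two_pi t) (Real.sin_add_two_pi t)
  · rw [hγ]
    exact (Real.contDiff_cos.smul contDiff_const).add (Real.contDiff_sin.smul contDiff_const)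
  · intro t
    rw [hγ, hd]
    intro h0
    have h1 := rot_zero_eq h0
    have h2 : J4 (J4 (cs 2)) = 0 := by rw [h1, map_zero]
    rw [J4_J4, neg_eq_zero] at h2
    have h3 := cs_unit 2
    rw [h2, norm_zero] at h3
    exact zero_ne_one h3
  · intro t ν hν
    rw [hγ, hd, hd, J4_J4]
    have h1 : ⟪ν, rot t (cs 2)⟫ = 0 := hν.1
    have h2 : rot t (-cs 2) = -rot t (cs 2) := by
      simp only [rot, map_neg, smul_neg]
      abel
    change ⟪rot t (-cs 2), ν⟫ = 0
    rw [h2, inner_neg_left, real_inner_comm, h1, neg_zero]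

lemma is_surface : IsSurfaceInSphere ∞ (Subtype.val : surf → E4) := by
  constructor
  · rintro ⟨q, ⟨u, v⟩, h, rfl⟩
    change ‖rot v (cs u)‖ = 1
    rw [norm_rot, cs_unit]
  · rintro ⟨q, x, h, rfl⟩
    obtain ⟨e, he0, -, he⟩ := chart_all h
    refine ⟨e, ?_, (regular_of_eq par_smooth tubeData.injective_fderiv he).1⟩
    have hp : e x = ⟨par x, ⟨x, h, rfl⟩⟩ := Subtype.ext (he _ he0)
    rw [← hp]
    exact e.map_source he0

lemma is_flat : IsLocallyEuclidean ∞ (Subtype.val : surf → E4) := by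
  rintro ⟨q, x, h, rfl⟩
  obtain ⟨e, he0, -, he⟩ := chart_all h
  have hp : e x = ⟨par x, ⟨x, h, rfl⟩⟩ := Subtype.ext (he _ he0)
  rw [← hp]
  exact exists_isometric tubeData he he0

end Teardrop

end Pool.Agent.R747
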